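import Mathlib

/-!
# Basic definitions: points of a Weierstrass curve over extension fields

`K` is a field of characteristic zero, `W` an elliptic curve over `K` in Weierstrass form.  All
fields live in `Type`.
-/

open scoped Classical

noncomputable section

namespace PCL

/-- The group of points of `W` with coordinates in a field `F` over `K` (together with the point at
infinity). -/
abbrev Pt {K : Type} [Field K] (W : WeierstrassCurve K) (F : Type) [Field F] [Algebra K F] : Type :=
  (WeierstrassCurve.Affine.baseChange W F).Point

variable {K : Type} [Field K] {W : WeierstrassCurve K}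

/-- The `x`-coordinate of a point, `0` for the point at infinity. -/
def xc {F : Type} [Field F] [Algebra K F] : Pt W F → F
  | .zero => 0
  | .some x _ _ => x

/-- The `y`-coordinate of a point, `0` for the point at infinity. -/
def yc {F : Type} [Field F] [Algebra K F] : Pt W F → F
  | .zero => 0
  | .some _ y _ => y

/-- The map on points induced by a `K`-algebra homomorphism of fields. -/
def mp {F F' : Type} [Field F] [Algebra K F] [Field F'] [Algebra K F'] (f : F →ₐ[K] F') :
    Pt W F →+ Pt W F' := WeierstrassCurve.Affine.Point.map f

/-- The inclusion of the `K`-points into the `F`-points. -/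
def emb (F : Type) [Field F] [Algebra K F] : Pt W K →+ Pt W F := mp (Algebra.ofId K F)

/-- The point `q` has its coordinates in the set `s` (for the point at infinity: `0` is in `s`). -/
def RatOver {F : Type} [Field F] [Algebra K F] (s : Set F) (q : Pt W F) : Prop :=
  xc q ∈ s ∧ yc q ∈ s

/-- The intermediate field generated by the coordinates of the points `w j`, `j ∈ J`. -/
def fieldOf {F : Type} [Field F] [Algebra K F] {m : ℕ} (w : Fin m → Pt W F)
    (J : Finset (Fin m)) : IntermediateField K F :=
  IntermediateField.adjoin K ((fun j => xc (w j)) '' (J : Set (Fin m)) ∪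
    (fun j => yc (w j)) '' (J : Set (Fin m)))

/-- The coordinates `x(w_j)`, `j ∈ J`, are algebraically independent over `K`. -/
def HasIndep {F : Type} [Field F] [Algebra K F] {m : ℕ} (w : Fin m → Pt W F)
    (J : Finset (Fin m)) : Prop :=
  AlgebraicIndependent K (fun j : J => xc (w j))

/-- The value at `a = ((a_i0 : a_i1))_i` of the multihomogenisation of degree `D` of `P`; the variable
`V_i` of `P` stands for `a_i1 / a_i0`, which is `1/x(u_i)` if `a_i` represents `x(u_i) : 1`. -/
def hEval {F : Type} [Field F] [Algebra K F] {m : ℕ} (D : ℕ) (P : MvPolynomial (Fin m) K)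
    (a : Fin m → Fin 2 → F) : F :=
  ∑ α ∈ P.support, algebraMap K F (P.coeff α) * ∏ i, (a i 1 ^ α i * a i 0 ^ (D - α i))

/-- `P(1/x(w_1), ..., 1/x(w_m)) = 0`, in the multihomogeneous sense (`1/x(O) = 0`, and `x = 0` is
allowed). -/
def Van {F : Type} [Field F] [Algebra K F] {m : ℕ} (D : ℕ) (P : MvPolynomial (Fin m) K)
    (w : Fin m → Pt W F) : Prop :=
  hEval D P (fun i => (w i).xRep) = 0

/-- The box of all integer vectors with entries at most `T` in absolute value. -/
def box (n : ℕ) (T : ℕ) : Finset (Fin n → ℤ) :=
  Fintype.piFinset fun _ => Finset.Icc (-(T : ℤ)) (T : ℤ)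

/-- No nontrivial integer relation: the points `gamma_j(s)` are in general position. -/
def ND {n m : ℕ} (γ : (Fin n → ℤ) →+ (Fin m → Pt W K)) : Prop :=
  ∀ s : Fin n → ℤ, s ≠ 0 → ∀ t : Fin m → ℤ, t ≠ 0 → ∑ j, t j • γ s j ≠ 0

/-- The curve `W` has no complex multiplication: for every field `F` over `K`, every point `p` of
the curve which is generic over `F` (its `x`-coordinate is transcendental over `F`) and every point `q`
with coordinates in `F(p)` (that is, every `F`-rational map from the curve to itself) there is an
integer `k` with `q - k p` rational over `F`. -/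
def NoCM (W : WeierstrassCurve K) : Prop :=
  ∀ (Ω : Type) [Field Ω] [Algebra K Ω] (F : IntermediateField K Ω) (p q : Pt W Ω),
    Transcendental F (xc p) →
    RatOver (IntermediateField.adjoin F {xc p, yc p} : Set Ω) q →
    ∃ (k : ℤ) (c : Pt W Ω), RatOver (F : Set Ω) c ∧ q = k • p + c

end PCL

end
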