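import Pool.Agent.W_52423f_h30.CoreB
import Pool.Agent.W_52423f_h70.Defs

/-!
# Box principle: Liouville inequality for the value of an integral polynomial
-/

open scoped Classical

noncomputable section

namespace PCL

open Pool.Agent.PTwist NumberField

theorem house_le_of_forall {M : Type} [Field M] [NumberField M] (x : M) {B : ℝ} (hB : 0 ≤ B)
    (h : ∀ σ : M →+* ℂ, ‖σ x‖ ≤ B) : house x ≤ B := by
  unfold house
  rw [pi_norm_le_iff_of_nonneg hB]
  intro σ
  exact h σ

theorem sum_exp_le {m D : ℕ} {P : MvPolynomial (Fin m) ℤ} (hdeg : ∀ j, P.degreeOf j < D)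
    {α : Fin m →₀ ℕ} (hα : α ∈ P.support) : ∑ j, α j ≤ m * D := by
  have h1 : ∀ j ∈ (Finset.univ : Finset (Fin m)), α j ≤ D := fun j _ =>
    (MvPolynomial.le_degreeOf_of_mem_support j hα).trans (hdeg j).le
  have h2 := Finset.sum_le_sum h1
  simpa using h2

theorem card_supp_le {m D : ℕ} {P : MvPolynomial (Fin m) ℤ} (hdeg : ∀ j, P.degreeOf j < D) :
    P.support.card ≤ D ^ m := by
  have h1 : P.support ⊆
      (Fintype.piFinset fun _ : Fin m => Finset.range D).image Finsupp.equivFunOnFinite.symm := by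
    intro α hα
    rw [Finset.mem_image]
    refine ⟨α, ?_, Finsupp.equivFunOnFinite.symm_apply_apply α⟩
    rw [Fintype.mem_piFinset]
    intro j
    rw [Finset.mem_range]
    exact (MvPolynomial.le_degreeOf_of_mem_support j hα).trans_lt (hdeg j)
  refine (Finset.card_le_card h1).trans (Finset.card_image_le.trans ?_)
  rw [Fintype.card_piFinset_const, Finset.card_range]

/-- Let `η = b^(mD) P(ξ)`.  It is integral: `b^(mD)` times a monomial of `P(ξ)` is an integer times a
product of powers of the integral numbers `b ξ_j` (the total degree is at most `m D`).  The house of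
`η` is at most `b^(mD)` times `D^m H Y^(mD)` (at most `D^m` monomials).  `‖ι b‖ <= 1`
(`norm_integral_le_one`).  Apply `liouville` to `η`. -/
theorem liouville_poly {M : Type} [Field M] [NumberField M] {K : Type} [NormedField K]
    [IsUltrametricDist K] (p : ℕ) [Fact p.Prime] [NormedAlgebra ℚ_[p] K] (ι : M →+* K)
    {m D H b : ℕ} {Y : ℝ} (hY : 1 ≤ Y) {P : MvPolynomial (Fin m) ℤ} (hdeg : ∀ j, P.degreeOf j < D)
    (hH : ∀ α, |P.coeff α| ≤ H) {ξ : Fin m → M} (hb : 1 ≤ b) (hbY : (b : ℝ) ≤ Y)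
    (hint : ∀ j, IsIntegral ℤ ((b : M) * ξ j)) (hσ : ∀ (σ : M →+* ℂ) (j : Fin m), ‖σ (ξ j)‖ ≤ Y)
    (h0 : MvPolynomial.eval₂ (Int.castRingHom M) ξ P ≠ 0) :
    1 ≤ ‖ι (MvPolynomial.eval₂ (Int.castRingHom M) ξ P)‖ *
      ((D : ℝ) ^ m * H * Y ^ (2 * m * D)) ^ Module.finrank ℚ M := by
  have hY0 : (0 : ℝ) ≤ Y := zero_le_one.trans hY
  obtain ⟨η, hη⟩ : ∃ η : M, η = (b : M) ^ (m * D) * MvPolynomial.eval₂ (Int.castRingHom M) ξ P :=
    ⟨_, rfl⟩
  have hb0 : (b : M) ≠ 0 := by
    have : b ≠ 0 := by omega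
    exact_mod_cast this
  have hη0 : η ≠ 0 := by
    rw [hη]
    exact mul_ne_zero (pow_ne_zero _ hb0) h0
  have hbint : IsIntegral ℤ (b : M) := by
    have h := isIntegral_algebraMap (R := ℤ) (A := M) (x := (b : ℤ))
    simpa using h
  have hηint : IsIntegral ℤ η := by
    rw [hη, MvPolynomial.eval₂_eq', Finset.mul_sum]
    refine IsIntegral.sum _ (fun α hα => ?_)
    have h1 := sum_exp_le hdeg hα
    obtain ⟨c, hc⟩ := Nat.exists_eq_add_of_le h1
    have h2 : (b : M) ^ (m * D) * ((Int.castRingHom M) (P.coeff α) * ∏ j, ξ j ^ α j) =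
        ((P.coeff α : ℤ) : M) * ((b : M) ^ c * ∏ j, ((b : M) * ξ j) ^ α j) := by
      have h3 : ∏ j, ((b : M) * ξ j) ^ α j = (b : M) ^ (∑ j, α j) * ∏ j, ξ j ^ α j := by
        rw [← Finset.prod_pow_eq_pow_sum, ← Finset.prod_mul_distrib]
        exact Finset.prod_congr rfl (fun j _ => mul_pow _ _ _)
      rw [h3, hc, pow_add, eq_intCast]
      ring
    rw [h2]
    refine IsIntegral.mul (isIntegral_algebraMap (x := P.coeff α)) (IsIntegral.mul ?_ ?_)
    · exact hbint.pow c
    · exact IsIntegral.prod _ (fun j _ => (hint j).pow _)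
  have hL := liouville p ι hηint hη0
  have h1 : ‖ι η‖ ≤ ‖ι (MvPolynomial.eval₂ (Int.castRingHom M) ξ P)‖ := by
    have h2 : ‖ι (b : M)‖ ≤ 1 := norm_integral_le_one ι hbint
    rw [hη, map_mul, map_pow, norm_mul, norm_pow]
    have h3 : ‖ι (b : M)‖ ^ (m * D) ≤ 1 := pow_le_one₀ (norm_nonneg _) h2
    calc ‖ι (b : M)‖ ^ (m * D) * ‖ι (MvPolynomial.eval₂ (Int.castRingHom M) ξ P)‖ ≤
        1 * ‖ι (MvPolynomial.eval₂ (Int.castRingHom M) ξ P)‖ :=
          mul_le_mul_of_nonneg_right h3 (norm_nonneg _)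
      _ = _ := one_mul _
  have h2 : house η ≤ (D : ℝ) ^ m * H * Y ^ (2 * m * D) := by
    refine house_le_of_forall η (by positivity) (fun σ => ?_)
    rw [hη, map_mul, map_pow, map_natCast, MvPolynomial.eval₂_eq', map_sum, norm_mul, norm_pow,
      Complex.norm_natCast]
    have h3 : ‖∑ α ∈ P.support, σ ((Int.castRingHom M) (P.coeff α) * ∏ j, ξ j ^ α j)‖ ≤
        (D : ℝ) ^ m * (H * Y ^ (m * D)) := by
      have h4 : ∀ α ∈ P.support, ‖σ ((Int.castRingHom M) (P.coeff α) * ∏ j, ξ j ^ α j)‖ ≤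
          H * Y ^ (m * D) := by
        intro α hα
        rw [map_mul, eq_intCast, map_intCast, map_prod, norm_mul, Complex.norm_intCast, norm_prod]
        refine mul_le_mul (by exact_mod_cast hH α) ?_
          (Finset.prod_nonneg (fun _ _ => norm_nonneg _)) (Nat.cast_nonneg _)
        calc ∏ j, ‖σ (ξ j ^ α j)‖ ≤ ∏ j, Y ^ α j := by
              refine Finset.prod_le_prod (fun _ _ => norm_nonneg _) (fun j _ => ?_)
              rw [map_pow, norm_pow]
              exact pow_le_pow_left₀ (norm_nonneg _) (hσ σ j) _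
          _ = Y ^ (∑ j, α j) := Finset.prod_pow_eq_pow_sum _ _ _
          _ ≤ Y ^ (m * D) := pow_le_pow_right₀ hY (sum_exp_le hdeg hα)
      refine (norm_sum_le_of_le _ h4).trans ?_
      rw [Finset.sum_const, nsmul_eq_mul]
      refine mul_le_mul_of_nonneg_right ?_ (by positivity)
      exact_mod_cast card_supp_le hdeg
    calc (b : ℝ) ^ (m * D) *
        ‖∑ α ∈ P.support, σ ((Int.castRingHom M) (P.coeff α) * ∏ j, ξ j ^ α j)‖ ≤
        Y ^ (m * D) * ((D : ℝ) ^ m * (H * Y ^ (m * D))) :=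
          mul_le_mul (pow_le_pow_left₀ (Nat.cast_nonneg _) hbY _) h3 (norm_nonneg _)
            (by positivity)
      _ = (D : ℝ) ^ m * H * Y ^ (2 * m * D) := by
          rw [show 2 * m * D = m * D + m * D by ring, pow_add]
          ring
  calc (1 : ℝ) ≤ ‖ι η‖ * house η ^ Module.finrank ℚ M := hL
    _ ≤ _ := mul_le_mul h1 (pow_le_pow_left₀ (house_nonneg _) h2 _)
        (pow_nonneg (house_nonneg _) _) (norm_nonneg _)

end PCL

end
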