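import Mathlib

/-!
# Box principle: the parameters
-/

noncomputable section

namespace PCL

/-- Choice of the parameters.  Let `c₂` be a natural number with
`c₂ log 2 > d ((m + 1) log 2 + 2 m C (1 + n m^2))`, `C₀ = q c₂^(r+1) + 1`, and for `u >= 1` let
`D = C₀ u^(2r)`, `Q = C₀ u^(2m)`, `H = 2^Q`, `T = c₂ Q`.  First inequality: `q <= 2^q`, so the left side is at
most `2^(q T^(r+1))`; the right side is larger than `2^(Q D^m)`; and `q T^(r+1) = q c₂^(r+1) Q^r Q <= D^m Q`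
because `q c₂^(r+1) C₀^r <= C₀^m` (`m >= r+1`) and `Q^r = C₀^r u^(2mr)`, `D^m = C₀^m u^(2rm)`.  Second
inequality: `D <= Q` so `D^m <= 2^(mQ)`, `H = 2^Q`, and
`2 m D C (1 + n m^2 u^(2(m-r))) <= 2 m C (1 + n m^2) Q` since `D u^(2(m-r)) = Q`; so the left side is at most
`exp (d Q ((m+1) log 2 + 2 m C (1 + n m^2))) < exp (c₂ Q log 2) = 2^T <= p^T`. -/
theorem bp_parameters (d q m r n p : ℕ) (hp : 2 ≤ p) (hrm : r < m) {C : ℝ} (hC : 0 ≤ C) :
    ∃ C₀ : ℕ, 1 ≤ C₀ ∧ ∀ u : ℕ, 1 ≤ u → ∃ H T : ℕ,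
      q ^ (T * T ^ r) < (H + 1) ^ ((C₀ * u ^ (2 * r)) ^ m) ∧
      (((C₀ * u ^ (2 * r) : ℕ) : ℝ) ^ m * H *
        Real.exp (C * (1 + n * ((m * u ^ (m - r) : ℕ) : ℝ) ^ 2)) ^ (2 * m * (C₀ * u ^ (2 * r)))) ^ d <
        (p : ℝ) ^ T := by
  have hl2 : 0 < Real.log 2 := Real.log_pos (by norm_num)
  obtain ⟨c₂, hc₂⟩ := exists_nat_gt
    ((d : ℝ) * (((m : ℝ) + 1) * Real.log 2 + 2 * m * C * (1 + n * (m : ℝ) ^ 2)) / Real.log 2)
  rw [div_lt_iff₀ hl2] at hc₂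
  obtain ⟨C₀, hC₀⟩ : ∃ C₀, C₀ = q * c₂ ^ (r + 1) + 1 := ⟨_, rfl⟩
  have hC₀1 : 1 ≤ C₀ := by omega
  refine ⟨C₀, hC₀1, fun u hu => ?_⟩
  obtain ⟨D, hD⟩ : ∃ D, D = C₀ * u ^ (2 * r) := ⟨_, rfl⟩
  obtain ⟨Q, hQ⟩ : ∃ Q, Q = C₀ * u ^ (2 * m) := ⟨_, rfl⟩
  have hD1 : 1 ≤ D := by
    rw [hD]
    exact Nat.mul_pos hC₀1 (Nat.pow_pos hu)
  have hQ1 : 1 ≤ Q := by
    rw [hQ]
    exact Nat.mul_pos hC₀1 (Nat.pow_pos hu)
  have hDQ : D ≤ Q := by
    rw [hD, hQ]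
    exact Nat.mul_le_mul_left _ (Nat.pow_le_pow_right hu (by omega))
  have hDu : D * (u ^ (m - r)) ^ 2 = Q := by
    rw [hD, hQ, ← pow_mul, mul_assoc, ← pow_add]
    congr 2
    omega
  rw [← hD]
  refine ⟨2 ^ Q, c₂ * Q, ?_, ?_⟩
  · have h1 : q * (c₂ * Q * (c₂ * Q) ^ r) ≤ Q * D ^ m := by
      have h2 : q * c₂ ^ (r + 1) * C₀ ^ r ≤ C₀ ^ m := by
        calc q * c₂ ^ (r + 1) * C₀ ^ r ≤ C₀ * C₀ ^ r := Nat.mul_le_mul_right _ (by omega)
          _ = C₀ ^ (r + 1) := by ring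
          _ ≤ C₀ ^ m := Nat.pow_le_pow_right hC₀1 hrm
      have h3 : Q ^ r = C₀ ^ r * u ^ (2 * r * m) := by
        rw [hQ, mul_pow, ← pow_mul]
        congr 2
        ring
      have h4 : D ^ m = C₀ ^ m * u ^ (2 * r * m) := by
        rw [hD, mul_pow, ← pow_mul]
      calc q * (c₂ * Q * (c₂ * Q) ^ r) = Q * ((q * c₂ ^ (r + 1)) * Q ^ r) := by
            rw [mul_pow]
            ring
        _ = Q * ((q * c₂ ^ (r + 1) * C₀ ^ r) * u ^ (2 * r * m)) := by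
            rw [h3]
            ring
        _ ≤ Q * (C₀ ^ m * u ^ (2 * r * m)) :=
            Nat.mul_le_mul_left _ (Nat.mul_le_mul_right _ h2)
        _ = Q * D ^ m := by rw [h4]
    calc q ^ (c₂ * Q * (c₂ * Q) ^ r) ≤ (2 ^ q) ^ (c₂ * Q * (c₂ * Q) ^ r) :=
          Nat.pow_le_pow_left Nat.lt_two_pow_self.le _
      _ = 2 ^ (q * (c₂ * Q * (c₂ * Q) ^ r)) := (pow_mul _ _ _).symm
      _ ≤ 2 ^ (Q * D ^ m) := Nat.pow_le_pow_right (by norm_num) h1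
      _ = (2 ^ Q) ^ (D ^ m) := pow_mul _ _ _
      _ < (2 ^ Q + 1) ^ (D ^ m) := by
          refine Nat.pow_lt_pow_left (Nat.lt_succ_self _) ?_
          exact pow_ne_zero _ (by omega)
  · have hexp2 : ∀ k : ℕ, (2 : ℝ) ^ k = Real.exp (k * Real.log 2) := by
      intro k
      rw [Real.exp_nat_mul, Real.exp_log (by norm_num)]
    have hDR : (D : ℝ) ^ m ≤ Real.exp (m * (Q * Real.log 2)) := by
      rw [Real.exp_nat_mul, ← hexp2]
      refine pow_le_pow_left₀ (Nat.cast_nonneg _) ?_ m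
      have h1 : D ≤ 2 ^ Q := hDQ.trans Nat.lt_two_pow_self.le
      exact_mod_cast h1
    have hH : (((2 ^ Q : ℕ) : ℝ)) = Real.exp (Q * Real.log 2) := by
      rw [← hexp2]
      push_cast
      rfl
    have hDuR : (D : ℝ) * ((u : ℝ) ^ (m - r)) ^ 2 = Q := by exact_mod_cast hDu
    have hDQR : (D : ℝ) ≤ Q := by exact_mod_cast hDQ
    have hE : Real.exp (C * (1 + n * ((m * u ^ (m - r) : ℕ) : ℝ) ^ 2)) ^ (2 * m * D) ≤
        Real.exp (2 * m * C * (1 + n * (m : ℝ) ^ 2) * Q) := by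
      rw [← Real.exp_nat_mul, Real.exp_le_exp]
      push_cast
      have h1 : (D : ℝ) * (1 + n * ((m : ℝ) * u ^ (m - r)) ^ 2) ≤
          (1 + n * (m : ℝ) ^ 2) * Q := by
        have h2 : (D : ℝ) * (1 + n * ((m : ℝ) * u ^ (m - r)) ^ 2) =
            D + n * (m : ℝ) ^ 2 * ((D : ℝ) * ((u : ℝ) ^ (m - r)) ^ 2) := by ring
        rw [h2, hDuR]
        linarith
      have h3 : (0 : ℝ) ≤ 2 * m * C := by positivity
      calc 2 * (m : ℝ) * D * (C * (1 + n * ((m : ℝ) * u ^ (m - r)) ^ 2))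
          = 2 * m * C * ((D : ℝ) * (1 + n * ((m : ℝ) * u ^ (m - r)) ^ 2)) := by ring
        _ ≤ 2 * m * C * ((1 + n * (m : ℝ) ^ 2) * Q) := mul_le_mul_of_nonneg_left h1 h3
        _ = 2 * m * C * (1 + n * (m : ℝ) ^ 2) * Q := by ring
    have hall : (D : ℝ) ^ m * ((2 ^ Q : ℕ) : ℝ) *
        Real.exp (C * (1 + n * ((m * u ^ (m - r) : ℕ) : ℝ) ^ 2)) ^ (2 * m * D) ≤
        Real.exp (Q * (((m : ℝ) + 1) * Real.log 2 + 2 * m * C * (1 + n * (m : ℝ) ^ 2))) := by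
      calc (D : ℝ) ^ m * ((2 ^ Q : ℕ) : ℝ) *
            Real.exp (C * (1 + n * ((m * u ^ (m - r) : ℕ) : ℝ) ^ 2)) ^ (2 * m * D)
          ≤ Real.exp (m * (Q * Real.log 2)) * Real.exp (Q * Real.log 2) *
            Real.exp (2 * m * C * (1 + n * (m : ℝ) ^ 2) * Q) := by
            rw [hH]
            exact mul_le_mul (mul_le_mul_of_nonneg_right hDR (Real.exp_pos _).le) hE
              (by positivity) (by positivity)
        _ = Real.exp (Q * (((m : ℝ) + 1) * Real.log 2 +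
              2 * m * C * (1 + n * (m : ℝ) ^ 2))) := by
            rw [← Real.exp_add, ← Real.exp_add]
            congr 1
            ring
    have hQR : (0 : ℝ) < Q := by exact_mod_cast hQ1
    calc ((D : ℝ) ^ m * ((2 ^ Q : ℕ) : ℝ) *
          Real.exp (C * (1 + n * ((m * u ^ (m - r) : ℕ) : ℝ) ^ 2)) ^ (2 * m * D)) ^ d
        ≤ Real.exp (Q * (((m : ℝ) + 1) * Real.log 2 +
            2 * m * C * (1 + n * (m : ℝ) ^ 2))) ^ d :=
          pow_le_pow_left₀ (by positivity) hall d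
      _ = Real.exp (Q * (d * (((m : ℝ) + 1) * Real.log 2 +
            2 * m * C * (1 + n * (m : ℝ) ^ 2)))) := by
          rw [← Real.exp_nat_mul]
          congr 1
          ring
      _ < Real.exp (Q * (c₂ * Real.log 2)) := by
          rw [Real.exp_lt_exp]
          exact mul_lt_mul_of_pos_left hc₂ hQR
      _ = (2 : ℝ) ^ (c₂ * Q) := by
          rw [hexp2]
          congr 1
          push_cast
          ring
      _ ≤ (p : ℝ) ^ (c₂ * Q) := by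
          refine pow_le_pow_left₀ (by norm_num) ?_ _
          exact_mod_cast hp

end PCL

end
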