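import Pool.Agent.W_52423f_h70.BpC
import Pool.Agent.W_52423f_h70.BpD
import Pool.Agent.W_52423f_h70.BpE

/-!
# The box principle
-/

open scoped Classical

noncomputable section

namespace PCL

open Pool.Agent.PTwist NumberField

variable {p : ℕ} [Fact p.Prime] {K : Type} [NontriviallyNormedField K] [IsUltrametricDist K]
  [NormedAlgebra ℚ_[p] K] {M : Type} [Field M] [NumberField M]

/-- The box principle.  For every `u >= 1` there is a nonzero integral polynomial of degree at most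
`C₀ u^(2r)` in each variable which vanishes at all `ξ s`, `s` in the box of size `m u^(m-r)`.  Proof:
`bp_parameters` (with `d` the degree of `M`), `pigeon` for `D = C₀ u^(2r)`, `value_small`: the value
`P(ξ s)` has norm at most `p^(-T)` under `ι`, for all `s` (note
`ι (eval₂ ξ P) = eval₂ (ι ξ) P`).  If it is not zero for some `s` in the box then `liouville_poly`
with `Y = exp (C (1 + n S^2))`, `S = m u^(m-r)` (`sum s_i^2 <= n S^2`), gives `1 <= p^(-T) (...)^d < 1`. -/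
theorem box_principle (ι : M →+* K) {n m r : ℕ} (hrm : r < m) {R : Subring K} {q : ℕ} (hq : 1 ≤ q)
    (hR : DiscRing p R q) {g : ℕ → K} (hg : ∀ k, g k ∈ R) (c : Fin m → Fin r → ℤ_[p])
    {ξ : (Fin n → ℤ) → Fin m → M}
    (hξ : ∀ s, ∃ z : Fin r → K, (∀ l, ‖z l‖ ≤ (p : ℝ)⁻¹) ∧ ∀ j, HasSum
      (fun k => g k * (∑ l, algebraMap ℚ_[p] K (c j l : ℚ_[p]) * z l) ^ k) (ι (ξ s j)))
    {C : ℝ} (hC : 0 ≤ C)
    (hgr : ∀ s : Fin n → ℤ, ∃ b : ℕ, 1 ≤ b ∧ (b : ℝ) ≤ Real.exp (C * (1 + ∑ i, (s i : ℝ) ^ 2)) ∧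
      (∀ j, IsIntegral ℤ ((b : M) * ξ s j)) ∧
      ∀ (σ : M →+* ℂ) (j : Fin m), ‖σ (ξ s j)‖ ≤ Real.exp (C * (1 + ∑ i, (s i : ℝ) ^ 2))) :
    ∃ C₀ : ℕ, 1 ≤ C₀ ∧ ∀ u : ℕ, 1 ≤ u → ∃ P : MvPolynomial (Fin m) ℤ, P ≠ 0 ∧
      (∀ j, P.degreeOf j ≤ C₀ * u ^ (2 * r)) ∧
      ∀ s ∈ box n (m * u ^ (m - r)), MvPolynomial.eval₂ (Int.castRingHom M) (ξ s) P = 0 := by
  have hp : 2 ≤ p := (Fact.out : p.Prime).two_le
  have hp0 : (0 : ℝ) < p := by
    have : 0 < p := by omega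
    exact_mod_cast this
  obtain ⟨C₀, hC₀, hpar⟩ := bp_parameters (Module.finrank ℚ M) q m r n p hp hrm hC
  refine ⟨C₀, hC₀, fun u hu => ?_⟩
  obtain ⟨H, T, hh1, hh2⟩ := hpar u hu
  obtain ⟨P, hP0, hdeg, hH, hco⟩ := pigeon hq hR hg c hh1
  refine ⟨P, hP0, fun j => (hdeg j).le, fun s hs => ?_⟩
  by_contra h0
  obtain ⟨z, hz, hv⟩ := hξ s
  obtain ⟨b, hb1, hbY, hbint, hσ⟩ := hgr s
  obtain ⟨S, hS⟩ : ∃ S : ℕ, S = m * u ^ (m - r) := ⟨_, rfl⟩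
  rw [← hS] at hs hh2
  have hsum : ∑ i, (s i : ℝ) ^ 2 ≤ n * (S : ℝ) ^ 2 := by
    have h1 : ∀ i ∈ (Finset.univ : Finset (Fin n)), (s i : ℝ) ^ 2 ≤ (S : ℝ) ^ 2 := by
      intro i _
      have h2 := Fintype.mem_piFinset.1 hs i
      rw [Finset.mem_Icc] at h2
      have h3 : -(S : ℝ) ≤ (s i : ℝ) := by exact_mod_cast h2.1
      have h4 : (s i : ℝ) ≤ (S : ℝ) := by exact_mod_cast h2.2
      exact sq_le_sq' h3 h4
    have h5 := Finset.sum_le_sum h1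
    rw [Finset.sum_const, Finset.card_univ, Fintype.card_fin, nsmul_eq_mul] at h5
    exact h5
  obtain ⟨Y, hYd⟩ : ∃ Y : ℝ, Y = Real.exp (C * (1 + n * (S : ℝ) ^ 2)) := ⟨_, rfl⟩
  rw [← hYd] at hh2
  have hle : Real.exp (C * (1 + ∑ i, (s i : ℝ) ^ 2)) ≤ Y := by
    rw [hYd]
    exact Real.exp_le_exp.2 (mul_le_mul_of_nonneg_left (by linarith) hC)
  have hY : 1 ≤ Y := by
    rw [hYd]
    exact Real.one_le_exp (by positivity)
  have hL := liouville_poly p ι hY hdeg hH hb1 (hbY.trans hle) hbint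
    (fun σ j => (hσ σ j).trans hle) h0
  have hV := value_small hR hg c hco hz hv
  have hcomp : ι (MvPolynomial.eval₂ (Int.castRingHom M) (ξ s) P) =
      MvPolynomial.eval₂ (Int.castRingHom K) (fun j => ι (ξ s j)) P := by
    rw [MvPolynomial.eval₂_comp_left]
    congr 1
    exact Subsingleton.elim _ _
  rw [hcomp] at hL
  have hB : (0 : ℝ) ≤ (((C₀ * u ^ (2 * r) : ℕ) : ℝ) ^ m * H *
      Y ^ (2 * m * (C₀ * u ^ (2 * r)))) ^ Module.finrank ℚ M := by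
    have : 0 ≤ Y := zero_le_one.trans hY
    positivity
  have h6 := hL.trans (mul_le_mul_of_nonneg_right hV hB)
  have h7 : (p : ℝ) ^ (-(T : ℤ)) * (((C₀ * u ^ (2 * r) : ℕ) : ℝ) ^ m * H *
      Y ^ (2 * m * (C₀ * u ^ (2 * r)))) ^ Module.finrank ℚ M < 1 := by
    have h8 : (0 : ℝ) < (p : ℝ) ^ (-(T : ℤ)) := zpow_pos hp0 _
    calc _ < (p : ℝ) ^ (-(T : ℤ)) * (p : ℝ) ^ T := mul_lt_mul_of_pos_left hh2 h8
      _ = 1 := by
        rw [zpow_neg, zpow_natCast]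
        exact inv_mul_cancel₀ (pow_ne_zero _ hp0.ne')
  linarith

end PCL

end
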