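import Pool.Agent.W_52423f_h70.CaC
import Pool.Agent.W_52423f_h70.BrC

/-!
# The box principle for points of an elliptic curve, coefficients in a complete field
-/

open scoped Classical

noncomputable section

namespace PCL

namespace Rc

open Pool.Agent.PTwist WeierstrassCurve WeierstrassCurve.Affine

variable {p : ℕ} [Fact p.Prime] {K : Type} [NontriviallyNormedField K] [CompleteSpace K]
  [IsUltrametricDist K] [NormedAlgebra ℚ_[p] K] {M : Type} [Field M] [NumberField M]

/-- The situation of the box principle: `u j i` are points of `V` over the number field `M`, whose images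
in `K` are the exponentials of `sum_l c_jl ζ_li`, all `ζ_li` in the small ball. -/
structure ExpDataR (p : ℕ) [Fact p.Prime] {K : Type} [NontriviallyNormedField K] [CompleteSpace K]
    [IsUltrametricDist K] [NormedAlgebra ℚ_[p] K] {M : Type} [Field M] [NumberField M]
    (V : WeierstrassCurve M) [V.IsElliptic] (ι : M →+* K) {n m r : ℕ} (ρ : ℝ)
    (u : Fin m → Fin n → V.toAffine.Point) (c : Fin m → Fin r → K)
    (ζ : Fin r → Fin n → K) : Prop where
  lc : LC p (V.map ι).b₂ (V.map ι).b₄ (V.map ι).b₆ ρ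
  ball : ∀ l i, ‖ζ l i‖ ≤ rad ρ
  cmem : ∀ j l, c j l ∈ Algebra.adjoin ℚ_[p] (Set.range ι)
  cle : ∀ j l, ‖c j l‖ ≤ 1
  pts : ∀ j i, expPt (V.map ι) (∑ l, c j l * ζ l i) =
    pmap V ι (u j i)

variable {V : WeierstrassCurve M} [V.IsElliptic] {ι : M →+* K} {n m r : ℕ} {ρ : ℝ}
  {u : Fin m → Fin n → V.toAffine.Point} {c : Fin m → Fin r → K} {ζ : Fin r → Fin n → K}

/-- The combinations of the `ζ` with p-adic integers and integers stay in the ball. -/
theorem ExpDataR.norm_le (h : ExpDataR p V ι ρ u c ζ) (j : Fin m) (i : Fin n) :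
    ‖∑ l, c j l * ζ l i‖ ≤ rad ρ := by
  refine IsUltrametricDist.norm_sum_le_of_forall_le_of_nonneg h.lc.rad_pos.le fun l _ => ?_
  rw [norm_mul]
  have h1 := h.cle j l
  have h2 := norm_nonneg (ζ l i)
  have h3 := h.ball l i
  nlinarith

theorem ExpDataR.norm_le_sum (h : ExpDataR p V ι ρ u c ζ) (s : Fin n → ℤ) (l : Fin r) :
    ‖∑ i, (s i : K) * ζ l i‖ ≤ rad ρ := by
  exact RelOf_norm (h.ball l) p h.lc.rad_pos.le s

theorem ExpDataR.norm_le_swap (h : ExpDataR p V ι ρ u c ζ) (s : Fin n → ℤ) (j : Fin m) :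
    ‖∑ l, c j l * ∑ i, (s i : K) * ζ l i‖ ≤ rad ρ := by
  rw [← CaC_swap]
  exact RelOf_norm (z := fun i => ∑ l, c j l * ζ l i)
    (fun i => h.norm_le j i) p h.lc.rad_pos.le s

/-- `RelOf_iX` for the logarithms `sum_l c_jl ζ_li` of the points `u j i`, and exchange of the two
sums. -/
theorem ExpDataR.iX_eq (h : ExpDataR p V ι ρ u c ζ) (s : Fin n → ℤ) (j : Fin m) :
    ι (iX V (∑ i, s i • u j i)) = ev (fV (V.map ι))
      (∑ l, c j l * ∑ i, (s i : K) * ζ l i) := by
  have h1 := RelOf_iX V ι h.lc (P := u j)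
    (z := fun i => ∑ l, c j l * ζ l i)
    (fun i => h.norm_le j i) (fun i => h.pts j i) s
  rw [h1, CaC_swap]

/-- No point `sum_i s_i u_ji` has `x = 0`: otherwise `iX` is `0`, so the value of `f` at the logarithm
is `0`, so the logarithm is `0` (`LC.norm_ev`), so the image of the point in `K` is the origin
(`expPt_sum`, `expPt_zero`, `pmap_sum`) and the point is the origin (`pmap_injective`). -/
theorem ExpDataR.x_ne (h : ExpDataR p V ι ρ u c ζ) (s : Fin n → ℤ) (j : Fin m) :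
    (∑ i, s i • u j i) = 0 ∨ iX V (∑ i, s i • u j i) ≠ 0 := by
  by_contra hcon
  push Not at hcon
  obtain ⟨hne, h0⟩ := hcon
  have h1 := h.iX_eq s j
  rw [h0, map_zero] at h1
  have h2 := h.lc.norm_ev (h.norm_le_swap s j)
  have h3 : ‖ev (fV (V.map ι)) (∑ l, c j l *
      ∑ i, (s i : K) * ζ l i)‖ = ‖∑ l, c j l *
      ∑ i, (s i : K) * ζ l i‖ ^ 2 := h2
  rw [← h1, norm_zero] at h3
  have h4 : ∑ l, c j l * ∑ i, (s i : K) * ζ l i = 0 :=
    norm_eq_zero.1 ((pow_eq_zero_iff two_ne_zero).1 h3.symm)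
  have h5 := RelA_key V ι h.lc (P := u j)
    (z := fun i => ∑ l, c j l * ζ l i)
    (fun i => h.norm_le j i) (fun i => h.pts j i) s
  rw [CaC_swap, h4, expPt_zero] at h5
  exact hne (pmap_injective V ι (h5.symm.trans (pmap_zero V ι).symm))

/-- The box principle for points.  `exists_disc`, `exists_scale`, `fe_map` (so that the scaled
coefficients `ι(p^(Nk) a_k)` are in `R`), `hasSum_scale` at `w = sum_l c_jl (sum_i s_i ζ_li)`,
`z_l = p^(-N) sum_i s_i ζ_li`; `grow_iX` for every `j` and the maximum of the finitely many constants,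
product of the denominators (bounded by `exp` of `m` times the constant; `Finset.prod`);
`box_principle`. -/
theorem bp_points (hrm : r < m) (h : ExpDataR p V ι ρ u c ζ) :
    ∃ C₀ : ℕ, 1 ≤ C₀ ∧ ∀ v : ℕ, 1 ≤ v → ∃ P : MvPolynomial (Fin m) ℤ, P ≠ 0 ∧
      (∀ j, P.degreeOf j ≤ C₀ * v ^ (2 * r)) ∧
      ∀ s ∈ box n (m * v ^ (m - r)),
        MvPolynomial.eval₂ (Int.castRingHom M) (fun j => iX V (∑ i, s i • u j i)) P = 0 := by
  obtain ⟨R, q, hq, hR, hRa⟩ := exists_disc_adjoin (p := p) ι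
  have hRι : ∀ x : M, ‖ι x‖ ≤ 1 → ι x ∈ R := fun x hx =>
    hRa _ (Algebra.subset_adjoin ⟨x, rfl⟩) hx
  obtain ⟨N, hN1, hN2⟩ := exists_scale h.lc
  have hgrow := fun j => grow_iX V (u j)
  choose C hC hG using hgrow
  have hb₂ : (V.map ι).b₂ = ι V.b₂ := V.map_b₂ ι
  have hb₄ : (V.map ι).b₄ = ι V.b₄ := V.map_b₄ ι
  have hb₆ : (V.map ι).b₆ = ι V.b₆ := V.map_b₆ ι
  refine box_principle (p := p) ι hrm hq hR
    (g := fun k => ((p : K) ^ N) ^ k *
      PowerSeries.coeff k (fe (V.map ι).b₂ (V.map ι).b₄ (V.map ι).b₆)) ?_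
    (fun j l => hRa _ (h.cmem j l) (h.cle j l))
    (ξ := fun s j => iX V (∑ i, s i • u j i)) ?_ (C := ∑ j, C j)
    (Finset.sum_nonneg fun j _ => hC j) ?_
  · intro k
    have h1 : ((p : K) ^ N) ^ k *
        PowerSeries.coeff k (fe (V.map ι).b₂ (V.map ι).b₄ (V.map ι).b₆) =
        ι (((p : M) ^ N) ^ k * PowerSeries.coeff k (fe V.b₂ V.b₄ V.b₆)) := by
      rw [hb₂, hb₄, hb₆, fe_map, map_mul, map_pow, map_pow, map_natCast]
    have h2 := hN1 k
    change ((p : K) ^ N) ^ k *
        PowerSeries.coeff k (fe (V.map ι).b₂ (V.map ι).b₄ (V.map ι).b₆) ∈ R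
    rw [h1] at h2 ⊢
    exact hRι _ h2
  · intro s
    refine ⟨fun l => ((p : K) ^ N)⁻¹ * ∑ i, (s i : K) * ζ l i,
      fun l => hN2 _ (h.norm_le_sum s l), fun j => ?_⟩
    have h1 := hasSum_scale h.lc N (h.norm_le_swap s j)
    have h2 : ((p : K) ^ N)⁻¹ * (∑ l, c j l *
        ∑ i, (s i : K) * ζ l i) = ∑ l, c j l *
        (((p : K) ^ N)⁻¹ * ∑ i, (s i : K) * ζ l i) := by
      rw [Finset.mul_sum]
      refine Finset.sum_congr rfl fun l _ => ?_
      ring
    rw [h2] at h1
    rw [h.iX_eq s j]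
    exact h1
  · intro s
    have hG' := fun j => hG j s
    choose b hb0 hb1 hb2 hb3 using hG'
    have hE : (0 : ℝ) ≤ 1 + ∑ i, (s i : ℝ) ^ 2 := by positivity
    have hle : ∀ j, Real.exp (C j * (1 + ∑ i, (s i : ℝ) ^ 2)) ≤
        Real.exp ((∑ j, C j) * (1 + ∑ i, (s i : ℝ) ^ 2)) := by
      intro j
      refine Real.exp_le_exp.2 (mul_le_mul_of_nonneg_right ?_ hE)
      exact Finset.single_le_sum (fun i _ => hC i) (Finset.mem_univ j)
    refine ⟨∏ j, b j, Finset.one_le_prod'' fun j => Nat.one_le_iff_ne_zero.2 (hb0 j), ?_, ?_, ?_⟩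
    · rw [Nat.cast_prod, Finset.sum_mul, Real.exp_sum]
      exact Finset.prod_le_prod (fun j _ => Nat.cast_nonneg _) fun j _ => hb1 j
    · intro j
      rw [← Finset.mul_prod_erase Finset.univ b (Finset.mem_univ j)]
      push_cast
      have h1 : (b j : M) * (∏ x ∈ Finset.univ.erase j, (b x : M)) * iX V (∑ i, s i • u j i) =
          (∏ x ∈ Finset.univ.erase j, (b x : M)) * ((b j : M) * iX V (∑ i, s i • u j i)) := by
        ring
      rw [h1]
      refine IsIntegral.mul (IsIntegral.prod _ fun x _ => ?_) (hb2 j)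
      have h4 : IsIntegral ℤ (algebraMap ℤ M (b x : ℤ)) := isIntegral_algebraMap
      rwa [map_natCast] at h4
    · intro σ j
      exact (hb3 j σ).trans (hle j)

/-- The same in terms of `Van`: `van_iff` for `F = M`, `ExpDataR.x_ne`; the polynomial is the image of
the integral one (characteristic zero, so it is not zero and has the same degrees). -/
theorem bp_van (hrm : r < m) (h : ExpDataR p V ι ρ u c ζ)
    (γ : (Fin n → ℤ) →+ (Fin m → Pt V M)) (hγ : ∀ s j, γ s j = toPt (∑ i, s i • u j i)) :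
    ∃ C₀ : ℕ, 1 ≤ C₀ ∧ ∀ v : ℕ, 1 ≤ v → ∃ P : MvPolynomial (Fin m) M, P ≠ 0 ∧
      (∀ j, P.degreeOf j ≤ C₀ * v ^ (2 * r)) ∧
      ∀ s ∈ box n (m * v ^ (m - r)), Van (C₀ * v ^ (2 * r)) P (γ s) := by
  obtain ⟨C₀, hC₀, H⟩ := bp_points hrm h
  refine ⟨C₀, hC₀, fun v hv => ?_⟩
  obtain ⟨P, hP0, hPd, hP⟩ := H v hv
  have hinj : Function.Injective (Int.castRingHom M) := Int.cast_injective
  have hdeg : ∀ j, (MvPolynomial.map (Int.castRingHom M) P).degreeOf j ≤ C₀ * v ^ (2 * r) := by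
    intro j
    have h1 : (MvPolynomial.map (Int.castRingHom M) P).degreeOf j = P.degreeOf j := by
      rw [MvPolynomial.degreeOf_eq_sup, MvPolynomial.degreeOf_eq_sup,
        MvPolynomial.support_map_of_injective _ hinj]
    rw [h1]
    exact hPd j
  refine ⟨MvPolynomial.map (Int.castRingHom M) P, ?_, hdeg, fun s hs => ?_⟩
  · intro h0
    exact hP0 ((map_eq_zero_iff _ (MvPolynomial.map_injective _ hinj)).1 h0)
  · have hiX : ∀ j, iX (WeierstrassCurve.baseChange V M) (γ s j) = iX V (∑ i, s i • u j i) := by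
      intro j
      rw [hγ s j]
      rfl
    have hw : ∀ j, γ s j = 0 ∨ xc (γ s j) ≠ 0 := by
      intro j
      rcases h.x_ne s j with h1 | h1
      · left
        rw [hγ s j, h1]
        rfl
      · right
        intro h2
        rw [← hiX j, PCL.iX_eq, h2, inv_zero] at h1
        exact h1 rfl
    rw [van_iff hdeg hw]
    have h1 := hP s hs
    rw [MvPolynomial.aeval_def, MvPolynomial.eval₂_map]
    have h2 : (algebraMap M M).comp (Int.castRingHom M) = Int.castRingHom M := Subsingleton.elim _ _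
    rw [h2]
    have h3 : (fun j => iX (WeierstrassCurve.baseChange V M) (γ s j)) =
        fun j => iX V (∑ i, s i • u j i) := funext hiX
    rw [h3]
    exact h1

end Rc

end PCL

end
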