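import Pool.Agent.W_52423f_h70.BpDefs

/-!
# Box principle: the discrete ring
-/

open scoped Classical

noncomputable section

namespace PCL

variable {p : ℕ} [Fact p.Prime] {K : Type} [NontriviallyNormedField K] [IsUltrametricDist K]
  [NormedAlgebra ℚ_[p] K]

theorem BpA_one (E : Submodule ℚ_[p] K) [FiniteDimensional ℚ_[p] E] :
    ∃ q : ℕ, 1 ≤ q ∧ ∃ κ : K → Fin q, ∀ x ∈ E, ∀ y ∈ E, ‖x‖ ≤ 1 → ‖y‖ ≤ 1 →
      κ x = κ y → ‖x - y‖ ≤ (p : ℝ) ^ (-(1 : ℤ)) := by
  have hp0 : (0 : ℝ) < p := by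
    exact_mod_cast (Fact.out : p.Prime).pos
  have he : (0 : ℝ) < (p : ℝ) ^ (-(1 : ℤ)) := zpow_pos hp0 _
  have : ProperSpace E := FiniteDimensional.proper ℚ_[p] E
  obtain ⟨t, _, htf, hcov⟩ := (isCompact_closedBall (0 : E) 1).finite_cover_balls he
  have ht0 : t.Nonempty := by
    have h0 : (0 : E) ∈ Metric.closedBall (0 : E) 1 := Metric.mem_closedBall_self zero_le_one
    obtain ⟨c, hc⟩ := Set.mem_iUnion.1 (hcov h0)
    obtain ⟨hc1, _⟩ := Set.mem_iUnion.1 hc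
    exact ⟨c, hc1⟩
  have : Fintype t := htf.fintype
  have : Nonempty t := ht0.to_subtype
  let e : t ≃ Fin (Fintype.card t) := Fintype.equivFin t
  have hex : ∀ x ∈ E, ‖x‖ ≤ 1 → ∃ c : t, ‖x - ((c : E) : K)‖ < (p : ℝ) ^ (-(1 : ℤ)) := by
    intro x hx hx1
    have h0 : (⟨x, hx⟩ : E) ∈ Metric.closedBall (0 : E) 1 := by
      rw [mem_closedBall_zero_iff]
      exact hx1
    obtain ⟨c, hc⟩ := Set.mem_iUnion.1 (hcov h0)
    obtain ⟨hc1, hc2⟩ := Set.mem_iUnion.1 hc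
    refine ⟨⟨c, hc1⟩, ?_⟩
    rw [Metric.mem_ball, dist_eq_norm] at hc2
    exact hc2
  let κ : K → t := fun x =>
    if h : ∃ c : t, ‖x - ((c : E) : K)‖ < (p : ℝ) ^ (-(1 : ℤ)) then h.choose
    else Classical.arbitrary t
  have hκ : ∀ x ∈ E, ‖x‖ ≤ 1 → ‖x - ((κ x : E) : K)‖ < (p : ℝ) ^ (-(1 : ℤ)) := by
    intro x hx hx1
    have h := hex x hx hx1
    change ‖x - (((if h : ∃ c : t, ‖x - ((c : E) : K)‖ < (p : ℝ) ^ (-(1 : ℤ)) then h.choose
      else Classical.arbitrary t : t) : E) : K)‖ < _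
    rw [dif_pos h]
    exact h.choose_spec
  refine ⟨Fintype.card t, Fintype.card_pos, fun x => e (κ x), fun x hx y hy hx1 hy1 hxy => ?_⟩
  have h1 : κ x = κ y := e.injective hxy
  have h2 := hκ x hx hx1
  have h3 := hκ y hy hy1
  rw [← h1] at h3
  have h4 : x - y = (x - ((κ x : E) : K)) + -(y - ((κ x : E) : K)) := by ring
  rw [h4]
  refine (IsUltrametricDist.norm_add_le_max _ _).trans (max_le h2.le ?_)
  rw [norm_neg]
  exact h3.le

/-- Let `E` be a finite dimensional `ℚ_p`-subspace of `K`.  Its unit ball is covered by finitely many,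
say `q >= 1`, balls of radius `1/p` (`FiniteDimensional.proper`, so the closed unit ball of `E` is
compact).  By scaling with powers of `p` and induction on `T`: for every `T` there is a map to
`Fin (q^T)` such that two elements of the unit ball of `E` with the same image have distance at most
`p^(-T)`.  (Step: if `x, y` have the same image for `T` then `p^(-T) (x - x_0)` and `p^(-T) (y - x_0)` are in
the unit ball of `E`, where `x_0` is a chosen element of the unit ball of `E` with the same image for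
`T`; compare their images for `1`.) -/
theorem cover_ball (E : Submodule ℚ_[p] K) [FiniteDimensional ℚ_[p] E] :
    ∃ q : ℕ, 1 ≤ q ∧ ∀ T : ℕ, ∃ κ : K → Fin (q ^ T), ∀ x ∈ E, ∀ y ∈ E, ‖x‖ ≤ 1 → ‖y‖ ≤ 1 →
      κ x = κ y → ‖x - y‖ ≤ (p : ℝ) ^ (-(T : ℤ)) := by
  obtain ⟨q, hq1, κ₁, hκ₁⟩ := BpA_one (p := p) E
  have hp0 : (0 : ℝ) < p := by
    exact_mod_cast (Fact.out : p.Prime).pos
  refine ⟨q, hq1, fun T => ?_⟩
  induction T with
  | zero =>
    refine ⟨fun _ => ⟨0, by simp⟩, fun x _ y _ hx1 hy1 _ => ?_⟩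
    rw [Nat.cast_zero, neg_zero, zpow_zero, sub_eq_add_neg]
    refine (IsUltrametricDist.norm_add_le_max _ _).trans (max_le hx1 ?_)
    rwa [norm_neg]
  | succ T ih =>
    obtain ⟨κ, hκ⟩ := ih
    -- the chosen representatives
    let Q : Fin (q ^ T) → K → Prop := fun i x => x ∈ E ∧ ‖x‖ ≤ 1 ∧ κ x = i
    let x₀ : Fin (q ^ T) → K := fun i => if h : ∃ x, Q i x then h.choose else 0
    have hx₀ : ∀ x ∈ E, ‖x‖ ≤ 1 → Q (κ x) (x₀ (κ x)) := by
      intro x hx hx1
      have hex : ∃ x', Q (κ x) x' := ⟨x, hx, hx1, rfl⟩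
      change Q (κ x) (if h : ∃ x', Q (κ x) x' then h.choose else 0)
      rw [dif_pos hex]
      exact hex.choose_spec
    set a : ℚ_[p] := (p : ℚ_[p]) ^ (-(T : ℤ)) with ha
    have hna : ‖a‖ = (p : ℝ) ^ (T : ℤ) := by
      rw [ha, Padic.norm_p_zpow, neg_neg]
    let e : Fin (q ^ T) × Fin q ≃ Fin (q ^ (T + 1)) :=
      finProdFinEquiv.trans (finCongr (pow_succ q T).symm)
    have hz : ∀ x ∈ E, ‖x‖ ≤ 1 → a • (x - x₀ (κ x)) ∈ E ∧ ‖a • (x - x₀ (κ x))‖ ≤ 1 := by
      intro x hx hx1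
      obtain ⟨h1, h2, h3⟩ := hx₀ x hx hx1
      refine ⟨E.smul_mem _ (E.sub_mem hx h1), ?_⟩
      rw [norm_smul, hna]
      have h4 := hκ x hx _ h1 hx1 h2 h3.symm
      calc (p : ℝ) ^ (T : ℤ) * ‖x - x₀ (κ x)‖ ≤ (p : ℝ) ^ (T : ℤ) * (p : ℝ) ^ (-(T : ℤ)) := by
            gcongr
        _ = 1 := by rw [← zpow_add₀ hp0.ne', add_neg_cancel, zpow_zero]
    refine ⟨fun x => e (κ x, κ₁ (a • (x - x₀ (κ x)))), fun x hx y hy hx1 hy1 hxy => ?_⟩
    have h5 := e.injective hxy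
    have h6 : κ x = κ y := congrArg Prod.fst h5
    have h7 : κ₁ (a • (x - x₀ (κ x))) = κ₁ (a • (y - x₀ (κ y))) := congrArg Prod.snd h5
    obtain ⟨hx2, hx3⟩ := hz x hx hx1
    obtain ⟨hy2, hy3⟩ := hz y hy hy1
    have h8 := hκ₁ _ hx2 _ hy2 hx3 hy3 h7
    rw [← smul_sub, norm_smul, hna, h6] at h8
    have h9 : x - x₀ (κ y) - (y - x₀ (κ y)) = x - y := by ring
    rw [h9] at h8
    have h10 : (0 : ℝ) < (p : ℝ) ^ (T : ℤ) := zpow_pos hp0 _
    have h11 : (p : ℝ) ^ (-((T + 1 : ℕ) : ℤ)) = ((p : ℝ) ^ (T : ℤ))⁻¹ * (p : ℝ) ^ (-(1 : ℤ)) := by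
      rw [← zpow_neg, ← zpow_add₀ hp0.ne']
      congr 1
      push_cast
      ring
    rw [h11, inv_mul_eq_div, le_div_iff₀ h10, mul_comm]
    exact h8

/-- For a number field `M` embedded in `K` let `E` be the `ℚ_p`-span of the image of `M`: the algebra
generated by the image, finite dimensional since it is spanned by the image of a `ℚ`-basis of `M`.
`R` is the set of all `x` in `E` with norm at most `1` (`cover_ball`). -/
theorem exists_disc_adjoin {M : Type} [Field M] [NumberField M] (ι : M →+* K) :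
    ∃ (R : Subring K) (q : ℕ), 1 ≤ q ∧ DiscRing p R q ∧
      ∀ x ∈ Algebra.adjoin ℚ_[p] (Set.range ι), ‖x‖ ≤ 1 → x ∈ R := by
  let A : Subalgebra ℚ_[p] K := Algebra.adjoin ℚ_[p] (Set.range ι)
  have hA : Subalgebra.toSubmodule A = Submodule.span ℚ_[p] (Set.range ι) := by
    change Subalgebra.toSubmodule (Algebra.adjoin ℚ_[p] (Set.range ι)) = _
    rw [Algebra.adjoin_eq_span]
    congr 1
    have h1 : (Set.range ι : Set K) = (MonoidHom.mrange (ι : M →* K) : Set K) := by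
      rw [MonoidHom.coe_mrange]
      rfl
    rw [h1, Submonoid.closure_eq]
  let b := Module.finBasis ℚ M
  have hle : Submodule.span ℚ_[p] (Set.range ι) ≤
      Submodule.span ℚ_[p] (Set.range fun i => ι (b i)) := by
    rw [Submodule.span_le]
    rintro _ ⟨x, rfl⟩
    have hx : ι x = ∑ i, (algebraMap ℚ ℚ_[p] (b.repr x i)) • ι (b i) := by
      conv_lhs => rw [← b.sum_repr x]
      rw [map_sum]
      refine Finset.sum_congr rfl fun i _ => ?_
      rw [Algebra.smul_def, map_mul, Algebra.smul_def]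
      congr 1
      have h2 : ι.comp (algebraMap ℚ M) = (algebraMap ℚ_[p] K).comp (algebraMap ℚ ℚ_[p]) :=
        Subsingleton.elim _ _
      exact RingHom.congr_fun h2 _
    change ι x ∈ Submodule.span ℚ_[p] (Set.range fun i => ι (b i))
    rw [hx]
    exact Submodule.sum_mem _ fun i _ => Submodule.smul_mem _ _ (Submodule.subset_span ⟨i, rfl⟩)
  have : FiniteDimensional ℚ_[p] (Submodule.span ℚ_[p] (Set.range fun i => ι (b i))) :=
    FiniteDimensional.span_of_finite _ (Set.finite_range _)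
  have : FiniteDimensional ℚ_[p] (Submodule.span ℚ_[p] (Set.range ι)) :=
    Submodule.finiteDimensional_of_le hle
  have : FiniteDimensional ℚ_[p] (Subalgebra.toSubmodule A) := by
    rw [hA]
    infer_instance
  obtain ⟨q, hq, hT⟩ := cover_ball (p := p) (Subalgebra.toSubmodule A)
  let R : Subring K :=
    { carrier := {x | x ∈ A ∧ ‖x‖ ≤ 1}
      mul_mem' := by
        rintro x y ⟨hx, hx1⟩ ⟨hy, hy1⟩
        refine ⟨A.mul_mem hx hy, ?_⟩
        rw [norm_mul]
        exact mul_le_one₀ hx1 (norm_nonneg _) hy1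
      one_mem' := ⟨A.one_mem, by rw [norm_one]⟩
      add_mem' := by
        rintro x y ⟨hx, hx1⟩ ⟨hy, hy1⟩
        exact ⟨A.add_mem hx hy, (IsUltrametricDist.norm_add_le_max _ _).trans (max_le hx1 hy1)⟩
      zero_mem' := ⟨A.zero_mem, by rw [norm_zero]; exact zero_le_one⟩
      neg_mem' := by
        rintro x ⟨hx, hx1⟩
        exact ⟨A.neg_mem hx, by rwa [norm_neg]⟩ }
  refine ⟨R, q, hq, ⟨fun x hx => hx.2, fun a => ⟨A.algebraMap_mem _, ?_⟩, fun T => ?_⟩,
    fun x hx hx1 => ⟨hx, hx1⟩⟩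
  · rw [norm_algebraMap']
    exact a.norm_le_one
  · obtain ⟨κ, hκ⟩ := hT T
    exact ⟨κ, fun x hx y hy hxy => hκ x hx.1 y hy.1 hx.2 hy.2 hxy⟩

/-- The ring of `exists_disc_adjoin` contains the image of the integers of `M` for the valuation. -/
theorem exists_disc {M : Type} [Field M] [NumberField M] (ι : M →+* K) :
    ∃ (R : Subring K) (q : ℕ), 1 ≤ q ∧ DiscRing p R q ∧ ∀ x : M, ‖ι x‖ ≤ 1 → ι x ∈ R := by
  obtain ⟨R, q, hq, hR, h⟩ := exists_disc_adjoin (p := p) ι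
  exact ⟨R, q, hq, hR, fun x hx => h _ (Algebra.subset_adjoin ⟨x, rfl⟩) hx⟩

end PCL

end
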