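import Pool.Agent.W_52423f_h30.Exp
import Pool.Agent.W_52423f_h70.BpA

/-!
# The coefficients of `1/x(exp z)` after scaling
-/

open scoped Classical

noncomputable section

namespace PCL

open Pool.Agent.PTwist

theorem CaB_map_rhs {k k' : Type} [Field k] [Field k'] (φ : k →+* k') (b₂ b₄ b₆ : k)
    (f : PowerSeries k) : PowerSeries.map φ (rhs b₂ b₄ b₆ f) =
      rhs (φ b₂) (φ b₄) (φ b₆) (PowerSeries.map φ f) := by
  unfold rhs
  simp only [map_add, map_mul, map_pow, PowerSeries.map_C, map_ofNat]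

theorem CaB_map_int2 {k k' : Type} [Field k] [Field k'] (φ : k →+* k') (g : PowerSeries k) :
    PowerSeries.map φ (int2 g) = int2 (PowerSeries.map φ g) := by
  ext n
  rw [PowerSeries.coeff_map, Ser_coeff_int2, Ser_coeff_int2]
  split_ifs with h
  · exact map_zero φ
  · rw [map_div₀, map_mul, map_sub, map_natCast, map_one, PowerSeries.coeff_map]

theorem CaB_map_iter {k k' : Type} [Field k] [Field k'] (φ : k →+* k') (b₂ b₄ b₆ : k) (n : ℕ) :
    PowerSeries.map φ ((fun f => int2 (rhs b₂ b₄ b₆ f))^[n] 0) =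
      (fun f => int2 (rhs (φ b₂) (φ b₄) (φ b₆) f))^[n] 0 := by
  induction n with
  | zero => exact map_zero _
  | succ n ih =>
    rw [Function.iterate_succ_apply', Function.iterate_succ_apply', ← ih, CaB_map_int2,
      CaB_map_rhs]

/-- The power series `fe` commutes with field homomorphisms: the iterates of `f -> int2 (rhs f)` do. -/
theorem fe_map {k k' : Type} [Field k] [Field k'] (φ : k →+* k') (b₂ b₄ b₆ : k) (n : ℕ) :
    PowerSeries.coeff n (fe (φ b₂) (φ b₄) (φ b₆)) = φ (PowerSeries.coeff n (fe b₂ b₄ b₆)) := by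
  rw [Ser_coeff_fe, Ser_coeff_fe, ← CaB_map_iter, PowerSeries.coeff_map]

variable {p : ℕ} [Fact p.Prime] {K : Type} [NontriviallyNormedField K] [CompleteSpace K]
  [IsUltrametricDist K] [NormedAlgebra ℚ_[p] K]

theorem CaB_norm_p (p : ℕ) [Fact p.Prime] (K : Type) [NontriviallyNormedField K]
    [NormedAlgebra ℚ_[p] K] : ‖(p : K)‖ = (p : ℝ)⁻¹ := by
  have h1 : (p : K) = algebraMap ℚ_[p] K (p : ℚ_[p]) := (map_natCast _ p).symm
  rw [h1, norm_algebraMap', Padic.norm_p]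

theorem CaB_p_ne (p : ℕ) [Fact p.Prime] (K : Type) [NontriviallyNormedField K]
    [NormedAlgebra ℚ_[p] K] : (p : K) ≠ 0 := by
  have hp : (0 : ℝ) < p := by exact_mod_cast (Fact.out : p.Prime).pos
  rw [← norm_pos_iff, CaB_norm_p p K]
  exact inv_pos.2 hp

/-- Scaling.  There is `N` with `ρ <= p^N <= p ρ` (`ρ >= p`, `LC.two_le`).  Then
`‖p^(N k) a_k‖ <= p^(-N k) ρ^k <= 1` for the coefficients `a_k` (`LC.bd`), and `‖z‖ <= rad ρ = ρ^(-6)` gives
`‖z / p^N‖ = p^N ‖z‖ <= p ρ ρ^(-6) <= 1/p`. -/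
theorem exists_scale {b₂ b₄ b₆ : K} {ρ : ℝ} (h : LC p b₂ b₄ b₆ ρ) :
    ∃ N : ℕ, (∀ k, ‖((p : K) ^ N) ^ k * PowerSeries.coeff k (fe b₂ b₄ b₆)‖ ≤ 1) ∧
      ∀ z : K, ‖z‖ ≤ rad ρ → ‖((p : K) ^ N)⁻¹ * z‖ ≤ (p : ℝ)⁻¹ := by
  have hp1 : (1 : ℝ) < p := by exact_mod_cast (Fact.out : p.Prime).one_lt
  have hp2 : (2 : ℝ) ≤ p := by exact_mod_cast (Fact.out : p.Prime).two_le
  have hp0 : (0 : ℝ) < p := by linarith
  have hρ := h.hp
  have hρ2 := h.two_le
  have hρ0 : 0 < ρ := by linarith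
  obtain ⟨n, hn1, hn2⟩ := exists_nat_pow_near (show (1 : ℝ) ≤ ρ by linarith) hp1
  refine ⟨n + 1, ?_, ?_⟩
  · intro k
    rw [norm_mul, norm_pow, norm_pow, CaB_norm_p p K]
    calc (((p : ℝ)⁻¹) ^ (n + 1)) ^ k * ‖PowerSeries.coeff k (fe b₂ b₄ b₆)‖
        ≤ (((p : ℝ)⁻¹) ^ (n + 1)) ^ k * (1 * ρ ^ k) :=
          mul_le_mul_of_nonneg_left (h.bd k) (by positivity)
      _ = (((p : ℝ)⁻¹) ^ (n + 1) * ρ) ^ k := by rw [one_mul, mul_pow]
      _ ≤ 1 := by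
          refine pow_le_one₀ (by positivity) ?_
          rw [inv_pow, inv_mul_le_iff₀ (by positivity), mul_one]
          exact hn2.le
  · intro z hz
    rw [norm_mul, norm_inv, norm_pow, CaB_norm_p p K, inv_pow, inv_inv]
    have h1 : (p : ℝ) ^ (n + 1) ≤ p * ρ := by
      rw [pow_succ, mul_comm]
      exact mul_le_mul_of_nonneg_left hn1 hp0.le
    calc (p : ℝ) ^ (n + 1) * ‖z‖ ≤ (p * ρ) * rad ρ :=
          mul_le_mul h1 hz (norm_nonneg _) (by positivity)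
      _ ≤ (p : ℝ)⁻¹ := by
          unfold rad
          rw [← div_eq_mul_inv, div_le_iff₀ (by positivity), inv_mul_eq_div, le_div_iff₀ hp0]
          have h3 : (p : ℝ) * p ≤ ρ * ρ := mul_le_mul hρ hρ hp0.le hρ0.le
          have h4 : (1 : ℝ) ≤ ρ := by linarith
          calc (p : ℝ) * ρ * p = (p * p) * ρ := by ring
            _ ≤ (ρ * ρ) * ρ := mul_le_mul_of_nonneg_right h3 hρ0.le
            _ = ρ ^ 3 := by ring
            _ ≤ ρ ^ 6 := pow_le_pow_right₀ h4 (by norm_num)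

/-- The series after scaling: with `ϖ = p^N`, `f(w) = sum_k (ϖ^k a_k) (ϖ^(-1) w)^k` for `‖w‖ <= rad ρ`
(`Bd.summable` for `LC.bd`). -/
theorem hasSum_scale {b₂ b₄ b₆ : K} {ρ : ℝ} (h : LC p b₂ b₄ b₆ ρ) (N : ℕ) {w : K}
    (hw : ‖w‖ ≤ rad ρ) :
    HasSum (fun k => (((p : K) ^ N) ^ k * PowerSeries.coeff k (fe b₂ b₄ b₆)) *
      (((p : K) ^ N)⁻¹ * w) ^ k) (ev (fe b₂ b₄ b₆) w) := by
  have hρ0 : 0 ≤ ρ := by linarith [h.two_le]
  have h1 : Summable fun k => PowerSeries.coeff k (fe b₂ b₄ b₆) * w ^ k :=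
    (h.bd.summable hρ0 (h.lt_one hw)).of_norm
  have h2 : HasSum (fun k => PowerSeries.coeff k (fe b₂ b₄ b₆) * w ^ k) (ev (fe b₂ b₄ b₆) w) :=
    h1.hasSum
  refine h2.congr_fun ?_
  intro k
  have h3 : ((p : K) ^ N) ^ k ≠ 0 := pow_ne_zero _ (pow_ne_zero _ (CaB_p_ne p K))
  rw [mul_pow, inv_pow]
  field_simp

end PCL

end
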