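import Pool.Agent.W_52423f_h30.ExpAdd
import Pool.Agent.W_52423f_h30.PMap
import Pool.Agent.W_52423f_h70.CaB

/-!
# The logarithms of rational points lie in the complete field
-/

open scoped Classical

noncomputable section

namespace PCL

open Pool.Agent.PTwist PowerSeries

variable {p : ℕ} [Fact p.Prime] {K : Type} [NontriviallyNormedField K] [CompleteSpace K]
  [IsUltrametricDist K] [NormedAlgebra ℚ_[p] K]

theorem LgA_pow_sub {r : ℝ} (hr0 : 0 ≤ r) {w w' : K} (hw : ‖w‖ ≤ r) (hw' : ‖w'‖ ≤ r) (k : ℕ) :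
    ‖w ^ (k + 1) - w' ^ (k + 1)‖ ≤ r ^ k * ‖w - w'‖ := by
  induction k with
  | zero => simp
  | succ k ih =>
    have h1 : w ^ (k + 1 + 1) - w' ^ (k + 1 + 1) =
        w * (w ^ (k + 1) - w' ^ (k + 1)) + w' ^ (k + 1) * (w - w') := by ring
    rw [h1]
    refine (IsUltrametricDist.norm_add_le_max _ _).trans (max_le ?_ ?_)
    · rw [norm_mul]
      calc ‖w‖ * ‖w ^ (k + 1) - w' ^ (k + 1)‖ ≤ r * (r ^ k * ‖w - w'‖) :=
            mul_le_mul hw ih (norm_nonneg _) hr0
        _ = r ^ (k + 1) * ‖w - w'‖ := by ring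
    · rw [norm_mul, norm_pow]
      exact mul_le_mul_of_nonneg_right (pow_le_pow_left₀ (norm_nonneg _) hw' _) (norm_nonneg _)

/-- A power series without terms of degree less than 2 is a contraction on a small ball. -/
theorem LgA_lip {ρ c r : ℝ} (hρ : 0 ≤ ρ) (hr0 : 0 ≤ r) (hr : ρ * r < 1) {G : PowerSeries K}
    (hG : Bd ρ c G) (hG2 : ∀ i < 2, coeff i G = 0) {w w' : K} (hw : ‖w‖ ≤ r) (hw' : ‖w'‖ ≤ r) :
    ‖ev G w - ev G w'‖ ≤ c * ρ ^ 2 * r * ‖w - w'‖ := by
  have hc := hG.nonneg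
  have h1 : ρ * ‖w‖ < 1 := (mul_le_mul_of_nonneg_left hw hρ).trans_lt hr
  have h2 : ρ * ‖w'‖ < 1 := (mul_le_mul_of_nonneg_left hw' hρ).trans_lt hr
  unfold ev
  rw [← (hG.summable hρ h1).of_norm.tsum_sub (hG.summable hρ h2).of_norm]
  refine IsUltrametricDist.norm_tsum_le_of_forall_le_of_nonneg (by positivity) fun k => ?_
  by_cases hk : k < 2
  · rw [hG2 k hk, zero_mul, zero_mul, sub_zero, norm_zero]
    positivity
  · obtain ⟨j, rfl⟩ : ∃ j, k = j + 2 := ⟨k - 2, by omega⟩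
    rw [← mul_sub, norm_mul]
    have h3 := LgA_pow_sub hr0 hw hw' (j + 1)
    have h4 : (ρ * r) ^ j ≤ 1 := pow_le_one₀ (by positivity) hr.le
    calc ‖coeff (j + 2) G‖ * ‖w ^ (j + 2) - w' ^ (j + 2)‖
        ≤ (c * ρ ^ (j + 2)) * (r ^ (j + 1) * ‖w - w'‖) :=
          mul_le_mul (hG _) h3 (norm_nonneg _) (by positivity)
      _ = (c * ρ ^ 2 * r * ‖w - w'‖) * (ρ * r) ^ j := by ring
      _ ≤ (c * ρ ^ 2 * r * ‖w - w'‖) * 1 :=
          mul_le_mul_of_nonneg_left h4 (by positivity)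
      _ = c * ρ ^ 2 * r * ‖w - w'‖ := mul_one _

/-- Values of power series over a closed subalgebra. -/
theorem LgA_ev_mem (A : Subalgebra ℚ_[p] K) (hA : IsClosed (A : Set K)) {G : PowerSeries K}
    (hG : ∀ k, coeff k G ∈ A) {w : K} (hw : w ∈ A) : ev G w ∈ A := by
  unfold ev
  by_cases hs : Summable fun k => coeff k G * w ^ k
  · refine hA.mem_of_tendsto hs.hasSum ?_
    refine Filter.Eventually.of_forall fun s => ?_
    exact sum_mem fun k _ => mul_mem (hG k) (pow_mem hw k)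
  · rw [tsum_eq_zero_of_not_summable hs]
    exact A.zero_mem

/-- The logarithm lies in every closed subalgebra which contains the coefficients of `f` and the value
of its derivative. -/
theorem LgA_mem (A : Subalgebra ℚ_[p] K) (hA : IsClosed (A : Set K)) {b₂ b₄ b₆ : K} {ρ : ℝ}
    (h : LC p b₂ b₄ b₆ ρ) (hf : ∀ k, coeff k (fe b₂ b₄ b₆) ∈ A) {z : K} (hz : ‖z‖ ≤ rad ρ)
    (hv : ev (derivative K (fe b₂ b₄ b₆)) z ∈ A) : z ∈ A := by
  have hc := Loc_charZero p K
  have h2 := h.two_le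
  have h0 : 0 ≤ ρ := by linarith
  have h0' : 0 < ρ := by linarith
  have hX := Loc_X (K := K) (show 1 ≤ ρ by linarith)
  obtain ⟨G, hGd⟩ : ∃ G, G = derivative K (fe b₂ b₄ b₆ - X ^ 2) := ⟨_, rfl⟩
  have hG : Bd ρ (1 * ρ) G := by
    rw [hGd]
    exact (h.bd.sub hX).deriv h0
  have hG2 : ∀ i < 2, coeff i G = 0 := by
    intro i hi
    rw [hGd, coeff_derivative, Loc_coeff b₂ b₄ b₆ (i + 1) (by omega), zero_mul]
  have hGA : ∀ k, coeff k G ∈ A := by
    intro k
    rw [hGd, coeff_derivative, map_sub, coeff_X_pow]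
    refine mul_mem (sub_mem (hf _) ?_) ?_
    · split_ifs
      · exact one_mem _
      · exact zero_mem _
    · exact add_mem (natCast_mem _ _) (one_mem _)
  have e0 : ∀ w : K, ev (derivative K (X ^ 2 : PowerSeries K)) w = 2 * w := by
    intro w
    unfold ev
    rw [tsum_eq_single 1]
    · rw [coeff_derivative, coeff_X_pow, if_pos rfl]
      push_cast
      ring
    · intro n hn
      rw [coeff_derivative, coeff_X_pow, if_neg (by omega), zero_mul, zero_mul]
  have hr0 := h.rad_pos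
  have e1 : ev (derivative K (fe b₂ b₄ b₆)) z = 2 * z + ev G z := by
    rw [hGd, map_sub, ev_sub h0 (h.bd.deriv h0) (hX.deriv h0) (h.lt_one hz), e0]
    ring
  obtain ⟨v, hvd⟩ : ∃ v, v = ev (derivative K (fe b₂ b₄ b₆)) z := ⟨_, rfl⟩
  rw [← hvd] at hv e1
  have hpp : (0 : ℝ) < p := by exact_mod_cast (Fact.out : p.Prime).pos
  have h2n : (ρ ^ 2)⁻¹ ≤ ‖(2 : K)‖ := by
    rw [inv_le_iff_one_le_mul₀ (by positivity)]
    exact (Loc_two p K).trans
      (mul_le_mul_of_nonneg_left (pow_le_pow_left₀ hpp.le h.hp 2) (norm_nonneg _))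
  have h2ne : (2 : K) ≠ 0 := two_ne_zero
  have h2inv : (2 : K)⁻¹ ∈ A := by
    have h3 : (2 : K)⁻¹ = algebraMap ℚ_[p] K (2 : ℚ_[p])⁻¹ := by
      rw [map_inv₀, map_ofNat]
    rw [h3]
    exact A.algebraMap_mem _
  -- the contraction
  have hlip : ∀ w w' : K, ‖w‖ ≤ rad ρ → ‖w'‖ ≤ rad ρ →
      ‖(v - ev G w) * 2⁻¹ - (v - ev G w') * 2⁻¹‖ ≤ (1 / 2) * ‖w - w'‖ := by
    intro w w' hw hw'
    have h3 := LgA_lip h0 hr0.le h.mul_rad_lt hG hG2 hw hw'
    have h4 : (v - ev G w) * 2⁻¹ - (v - ev G w') * 2⁻¹ = -((ev G w - ev G w') * 2⁻¹) := by ring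
    rw [h4, norm_neg, norm_mul, norm_inv]
    have h5 : ‖(2 : K)‖⁻¹ ≤ ρ ^ 2 := by
      rw [inv_le_comm₀ (norm_pos_iff.2 h2ne) (by positivity)]
      exact h2n
    calc ‖ev G w - ev G w'‖ * ‖(2 : K)‖⁻¹ ≤ (1 * ρ * ρ ^ 2 * rad ρ * ‖w - w'‖) * ρ ^ 2 :=
          mul_le_mul h3 h5 (by positivity) (by positivity)
      _ = (ρ ^ 5 * rad ρ) * ‖w - w'‖ := by ring
      _ ≤ (1 / 2) * ‖w - w'‖ := by
          refine mul_le_mul_of_nonneg_right ?_ (norm_nonneg _)
          unfold rad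
          have h6 : ρ ^ 5 * (ρ ^ 6)⁻¹ = ρ⁻¹ := by
            field_simp
          rw [h6, one_div]
          exact inv_anti₀ (by norm_num) h2
  have hfix : (v - ev G z) * 2⁻¹ = z := by
    rw [e1]
    field_simp
    ring
  let w : ℕ → K := fun k => (fun x => (v - ev G x) * 2⁻¹)^[k] 0
  have hw0 : w 0 = 0 := rfl
  have hws : ∀ k, w (k + 1) = (v - ev G (w k)) * 2⁻¹ := by
    intro k
    exact Function.iterate_succ_apply' _ _ _
  have hwk : ∀ k, w k ∈ A ∧ ‖w k‖ ≤ rad ρ ∧ ‖w k - z‖ ≤ (1 / 2) ^ k * rad ρ := by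
    intro k
    induction k with
    | zero =>
      refine ⟨by rw [hw0]; exact A.zero_mem, by rw [hw0, norm_zero]; exact hr0.le, ?_⟩
      rw [hw0, zero_sub, norm_neg, pow_zero, one_mul]
      exact hz
    | succ k ih =>
      obtain ⟨i1, i2, i3⟩ := ih
      have h3 := hlip (w k) z i2 hz
      rw [hfix, ← hws] at h3
      have h4 : ‖w (k + 1) - z‖ ≤ (1 / 2) ^ (k + 1) * rad ρ := by
        refine h3.trans ?_
        calc 1 / 2 * ‖w k - z‖ ≤ 1 / 2 * ((1 / 2) ^ k * rad ρ) :=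
              mul_le_mul_of_nonneg_left i3 (by norm_num)
          _ = _ := by ring
      refine ⟨?_, ?_, h4⟩
      · rw [hws]
        exact mul_mem (sub_mem hv (LgA_ev_mem A hA hGA i1)) h2inv
      · have h5 : w (k + 1) = (w (k + 1) - z) + z := by ring
        rw [h5]
        refine (IsUltrametricDist.norm_add_le_max _ _).trans (max_le (h4.trans ?_) hz)
        have h6 : ((1 : ℝ) / 2) ^ (k + 1) ≤ 1 := pow_le_one₀ (by norm_num) (by norm_num)
        calc (1 / 2) ^ (k + 1) * rad ρ ≤ 1 * rad ρ := mul_le_mul_of_nonneg_right h6 hr0.le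
          _ = rad ρ := one_mul _
  have hlim : Filter.Tendsto w Filter.atTop (nhds z) := by
    rw [tendsto_iff_norm_sub_tendsto_zero]
    have h3 : Filter.Tendsto (fun k : ℕ => ((1 : ℝ) / 2) ^ k * rad ρ) Filter.atTop (nhds 0) := by
      have h4 := tendsto_pow_atTop_nhds_zero_of_lt_one (r := (1 : ℝ) / 2) (by norm_num) (by norm_num)
      simpa using h4.mul_const (rad ρ)
    exact squeeze_zero (fun k => norm_nonneg _) (fun k => (hwk k).2.2) h3
  exact hA.mem_of_tendsto hlim (Filter.Eventually.of_forall fun k => (hwk k).1)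

omit [CompleteSpace K] [IsUltrametricDist K] in
/-- The algebra generated by the image of a number field is finite dimensional. -/
theorem LgA_finite {M : Type} [Field M] [NumberField M] (ι : M →+* K) :
    FiniteDimensional ℚ_[p] (Subalgebra.toSubmodule (Algebra.adjoin ℚ_[p] (Set.range ι))) := by
  let A : Subalgebra ℚ_[p] K := Algebra.adjoin ℚ_[p] (Set.range ι)
  have hA : Subalgebra.toSubmodule A = Submodule.span ℚ_[p] (Set.range ι) := by
    change Subalgebra.toSubmodule (Algebra.adjoin ℚ_[p] (Set.range ι)) = _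
    rw [Algebra.adjoin_eq_span]
    congr 1
    have h1 : (Set.range ι : Set K) = (MonoidHom.mrange (ι : M →* K) : Set K) := by
      rw [MonoidHom.coe_mrange]
      rfl
    rw [h1, Submonoid.closure_eq]
  let b := Module.finBasis ℚ M
  have hle : Submodule.span ℚ_[p] (Set.range ι) ≤
      Submodule.span ℚ_[p] (Set.range fun i => ι (b i)) := by
    rw [Submodule.span_le]
    rintro _ ⟨x, rfl⟩
    have hx : ι x = ∑ i, (algebraMap ℚ ℚ_[p] (b.repr x i)) • ι (b i) := by
      conv_lhs => rw [← b.sum_repr x]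
      rw [map_sum]
      refine Finset.sum_congr rfl fun i _ => ?_
      rw [Algebra.smul_def, map_mul, Algebra.smul_def]
      congr 1
      have h2 : ι.comp (algebraMap ℚ M) = (algebraMap ℚ_[p] K).comp (algebraMap ℚ ℚ_[p]) :=
        Subsingleton.elim _ _
      exact RingHom.congr_fun h2 _
    change ι x ∈ Submodule.span ℚ_[p] (Set.range fun i => ι (b i))
    rw [hx]
    exact Submodule.sum_mem _ fun i _ => Submodule.smul_mem _ _ (Submodule.subset_span ⟨i, rfl⟩)
  have : FiniteDimensional ℚ_[p] (Submodule.span ℚ_[p] (Set.range fun i => ι (b i))) :=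
    FiniteDimensional.span_of_finite _ (Set.finite_range _)
  have : FiniteDimensional ℚ_[p] (Submodule.span ℚ_[p] (Set.range ι)) :=
    Submodule.finiteDimensional_of_le hle
  change FiniteDimensional ℚ_[p] (Subalgebra.toSubmodule A)
  rw [hA]
  infer_instance

/-- The logarithm of a point with coordinates in a number field lies in the complete field generated by
it. -/
theorem log_mem_adjoin {M : Type} [Field M] [NumberField M] (V : WeierstrassCurve M)
    [V.IsElliptic] (ι : M →+* K) {ρ : ℝ}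
    (h : LC p (V.map ι).b₂ (V.map ι).b₄ (V.map ι).b₆ ρ) {z : K} (hz : ‖z‖ ≤ rad ρ)
    {P : V.toAffine.Point} (hP : expPt (V.map ι) z = pmap V ι P) :
    z ∈ Algebra.adjoin ℚ_[p] (Set.range ι) := by
  have hfd := LgA_finite (p := p) ι
  have hA : IsClosed ((Algebra.adjoin ℚ_[p] (Set.range ι) : Subalgebra ℚ_[p] K) : Set K) :=
    Submodule.closed_of_finiteDimensional
      (Subalgebra.toSubmodule (Algebra.adjoin ℚ_[p] (Set.range ι)))
  have hb₂ : (V.map ι).b₂ = ι V.b₂ := V.map_b₂ ι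
  have hb₄ : (V.map ι).b₄ = ι V.b₄ := V.map_b₄ ι
  have hb₆ : (V.map ι).b₆ = ι V.b₆ := V.map_b₆ ι
  refine LgA_mem _ hA h (fun k => ?_) hz ?_
  · rw [hb₂, hb₄, hb₆, fe_map]
    exact Algebra.subset_adjoin ⟨_, rfl⟩
  · have h1 := iV_expPt (V.map ι) h hz
    rw [hP, iV_pmap] at h1
    change ev (derivative K (fV (V.map ι))) z ∈ _
    rw [← h1]
    exact Algebra.subset_adjoin ⟨_, rfl⟩

end PCL

end
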