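import Pool.Agent.W_52423f_h70.BzD

/-!
# Maximal ideals of polynomial rings over fields have full height
-/

open scoped Classical

noncomputable section

namespace PCL

theorem BzL_height (k : Type) [Field k] (ι : Type) [Finite ι] :
    ∀ m : Ideal (MvPolynomial ι k), m.IsMaximal → (Nat.card ι : ℕ∞) ≤ m.height := by
  induction ι using Finite.induction_empty_option with
  | of_equiv e H =>
    intro m hm
    have h1 := H (m.comap (MvPolynomial.renameEquiv k e).toRingEquiv)
      (Ideal.comap_isMaximal_of_equiv _)
    rw [RingEquiv.height_comap, Nat.card_congr e] at h1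
    exact h1
  | h_empty =>
    intro m hm
    rw [Nat.card_eq_zero.2 (Or.inl inferInstance)]
    exact zero_le
  | @h_option α _ IH =>
    intro m hm
    let e : MvPolynomial (Option α) k ≃+* Polynomial (MvPolynomial α k) :=
      (MvPolynomial.optionEquivLeft k α).toRingEquiv
    have hP : (m.map e).IsMaximal := Ideal.map_isMaximal_of_equiv e
    have hC : ((m.map e).comap (Polynomial.C : MvPolynomial α k →+* _)).IsMaximal :=
      Polynomial.isMaximal_comap_C_of_isJacobsonRing (m.map e)
    have h1 := IH _ hC
    have h2 : (m.map e).height = ((m.map e).under (MvPolynomial α k)).height + 1 :=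
      Polynomial.height_eq_height_add_one ((m.map e).under (MvPolynomial α k)) (m.map e)
    rw [RingEquiv.height_map] at h2
    rw [h2, Nat.card_eq_fintype_card, Fintype.card_option]
    rw [Nat.card_eq_fintype_card] at h1
    push_cast
    exact add_le_add_left h1 1

/-- In a polynomial ring in `card` variables over a field every maximal ideal has height at least
`card`.  By induction on the number of variables: `MvPolynomial (Option s)` is isomorphic to
`Polynomial (MvPolynomial s)` (`MvPolynomial.optionEquivLeft`), and for a maximal ideal `P` of
`R[X]`, `R` a Noetherian Jacobson ring, `P.comap C` is maximal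
(`Ideal.Polynomial.isMaximal_comap_C_of_isMaximal` or similar in `RingTheory/Jacobson`) and
`Polynomial.height_eq_height_add_one` (file `RingTheory/KrullDimension/Polynomial`) gives
`P.height = (P.comap C).height + 1`.  Transport along ring isomorphisms (the height is invariant).
Finally `relHt_of_height` with `p = 0` (the map to `R / 0` is an isomorphism). -/
theorem relHt_bot {k : Type} [Field k] {ι : Type} [Fintype ι] {m : Ideal (MvPolynomial ι k)}
    (hm : m.IsMaximal) : RelHt ⊥ m (Fintype.card ι) := by
  refine relHt_of_height Ideal.isPrime_bot hm.isPrime bot_le ?_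
  have h1 := BzL_height k ι m hm
  rw [Nat.card_eq_fintype_card] at h1
  have h2 : m.map (Ideal.Quotient.mk (⊥ : Ideal (MvPolynomial ι k))) =
      m.map (RingEquiv.quotientBot (MvPolynomial ι k)).symm := rfl
  rw [h2, RingEquiv.height_map]
  exact h1

end PCL

end
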