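import Pool.Agent.W_52423f_h70.BzF
import Pool.Agent.W_52423f_h70.BzL

/-!
# Bezout's theorem for isolated points (interface; step (2c) of proofs row 292)
-/

open scoped Classical

noncomputable section

namespace PCL

/-- An ideal of a polynomial ring in `k` variables over a field which is generated by polynomials of
degree at most `D` in each variable has at most `4^(k^2) 2^k D^k` minimal primes which are maximal
ideals.  Proof: `bez_aux` for the family with the single member `p = 0` (`Unit` as index type), `Ms = s`,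
`r = card`, `δ = 2^card`: `relHt_bot`, and `hf 0 T = (T+1)^card <= (2T)^card` for `T >= 1` (`hf_bot`). -/
theorem bezout {k : Type} [Field k] {ι : Type} [Fintype ι] (G : Set (MvPolynomial ι k)) (D : ℕ)
    (hD : 1 ≤ D) (hG : ∀ f ∈ G, ∀ i, f.degreeOf i ≤ D) (s : Finset (Ideal (MvPolynomial ι k)))
    (hs : ∀ m ∈ s, m.IsMaximal ∧ m ∈ (Ideal.span G).minimalPrimes) :
    s.card ≤ 4 ^ (Fintype.card ι ^ 2) * 2 ^ Fintype.card ι * D ^ Fintype.card ι := by
  have h := bez_aux G hD hG (Fintype.card ι) (2 ^ Fintype.card ι) Unit inferInstance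
    (fun _ => ⊥) (fun _ => s) (fun _ => Ideal.isPrime_bot)
    (fun _ m hm => ⟨(hs m hm).1, (hs m hm).2, relHt_bot (hs m hm).1⟩) ?_
  · simpa using h
  · refine ⟨1, fun T hT => ?_⟩
    rw [Finset.univ_unique, Finset.sum_singleton, hf_bot, ← mul_pow]
    exact Nat.pow_le_pow_left (by omega) _

end PCL

end
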