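import Mathlib

open scoped Classical

noncomputable section

namespace PCL

/-- The Hilbert function of the ideal `I` of a polynomial ring over a field, with respect to the
filtration by the maximal partial degree: dimension of the polynomials of degree at most `T` in each
variable, modulo `I`. -/
def hf {k : Type} [Field k] {ι : Type} (I : Ideal (MvPolynomial ι k)) (T : ℕ) : ℕ :=
  Module.finrank k (Submodule.map (Ideal.Quotient.mkₐ k I).toLinearMap
    (MvPolynomial.restrictDegree ι k T))

/-- There is a strictly increasing chain of prime ideals of length `r` which starts at an ideal
containing `p` and ends at `m`. -/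
def RelHt {R : Type} [CommRing R] (p m : Ideal R) (r : ℕ) : Prop :=
  ∃ c : Fin (r + 1) → Ideal R, StrictMono c ∧ (∀ i, (c i).IsPrime) ∧ p ≤ c 0 ∧ c (Fin.last r) = m

end PCL

end
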