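import Pool.Agent.W_52423f_h70.BpDefs

/-!
# Box principle: the truncated composite polynomial
-/

open scoped Classical

noncomputable section

namespace PCL

variable {p : ℕ} [Fact p.Prime] {K : Type} [NontriviallyNormedField K] [IsUltrametricDist K]
  [NormedAlgebra ℚ_[p] K] {m r : ℕ}

omit [IsUltrametricDist K] in
theorem BpB_coeff_mem {R : Subring K} {F : MvPolynomial (Fin r) K}
    (hF : F ∈ (MvPolynomial.map (σ := Fin r) R.subtype).range) (α : Fin r →₀ ℕ) :
    F.coeff α ∈ R := by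
  obtain ⟨G, rfl⟩ := hF
  rw [MvPolynomial.coeff_map]
  exact (G.coeff α).2

omit [IsUltrametricDist K] in
theorem BpB_C_mem {R : Subring K} {a : K} (ha : a ∈ R) :
    (MvPolynomial.C a : MvPolynomial (Fin r) K) ∈
      (MvPolynomial.map (σ := Fin r) R.subtype).range :=
  ⟨MvPolynomial.C ⟨a, ha⟩, by rw [MvPolynomial.map_C]; rfl⟩

omit [IsUltrametricDist K] in
theorem BpB_X_mem (R : Subring K) (l : Fin r) :
    (MvPolynomial.X l : MvPolynomial (Fin r) K) ∈
      (MvPolynomial.map (σ := Fin r) R.subtype).range :=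
  ⟨MvPolynomial.X l, by rw [MvPolynomial.map_X]⟩

theorem BpB_linF_mem {R : Subring K} {q : ℕ} (hR : DiscRing p R q)
    (c : Fin m → Fin r → ℤ_[p]) (j : Fin m) :
    (linF c j : MvPolynomial (Fin r) K) ∈ (MvPolynomial.map (σ := Fin r) R.subtype).range := by
  unfold linF
  exact sum_mem fun l _ => mul_mem (BpB_C_mem (hR.padic _)) (BpB_X_mem R l)

theorem BpB_truncF_mem {R : Subring K} {q : ℕ} (hR : DiscRing p R q) {g : ℕ → K}
    (hg : ∀ k, g k ∈ R) (c : Fin m → Fin r → ℤ_[p]) (T : ℕ) (j : Fin m) :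
    truncF g c T j ∈ (MvPolynomial.map (σ := Fin r) R.subtype).range := by
  unfold truncF
  exact sum_mem fun k _ => mul_mem (BpB_C_mem (hg k)) (pow_mem (BpB_linF_mem hR c j) k)

/-- an integral polynomial in elements of a subring is in the subring -/
theorem BpB_eval_mem {A : Type*} [CommRing A] (S : Subring A) {x : Fin m → A}
    (hx : ∀ j, x j ∈ S) (P : MvPolynomial (Fin m) ℤ) :
    MvPolynomial.eval₂ (Int.castRingHom A) x P ∈ S := by
  induction P using MvPolynomial.induction_on with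
  | C a =>
    rw [MvPolynomial.eval₂_C]
    exact intCast_mem S a
  | add P Q hP hQ =>
    rw [MvPolynomial.eval₂_add]
    exact add_mem hP hQ
  | mul_X P j hP =>
    rw [MvPolynomial.eval₂_mul, MvPolynomial.eval₂_X]
    exact mul_mem hP (hx j)

theorem BpB_norm_eval (P : MvPolynomial (Fin m) ℤ) {x : Fin m → K} (hx : ∀ j, ‖x j‖ ≤ 1) :
    ‖MvPolynomial.eval₂ (Int.castRingHom K) x P‖ ≤ 1 := by
  induction P using MvPolynomial.induction_on with
  | C a =>
    rw [MvPolynomial.eval₂_C]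
    exact IsUltrametricDist.norm_intCast_le_one K a
  | add P Q hP hQ =>
    rw [MvPolynomial.eval₂_add]
    exact (IsUltrametricDist.norm_add_le_max _ _).trans (max_le hP hQ)
  | mul_X P j hP =>
    rw [MvPolynomial.eval₂_mul, MvPolynomial.eval₂_X, norm_mul]
    exact mul_le_one₀ hP (norm_nonneg _) (hx j)

theorem BpB_norm_lin (c : Fin m → Fin r → ℤ_[p]) {z : Fin r → K} (hz : ∀ l, ‖z l‖ ≤ (p : ℝ)⁻¹)
    (j : Fin m) : ‖∑ l, algebraMap ℚ_[p] K (c j l : ℚ_[p]) * z l‖ ≤ (p : ℝ)⁻¹ := by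
  apply IsUltrametricDist.norm_sum_le_of_forall_le_of_nonneg (by positivity)
  intro l _
  rw [norm_mul, norm_algebraMap']
  calc ‖((c j l : ℤ_[p]) : ℚ_[p])‖ * ‖z l‖ ≤ 1 * (p : ℝ)⁻¹ :=
        mul_le_mul (c j l).2 (hz l) (norm_nonneg _) zero_le_one
    _ = (p : ℝ)⁻¹ := one_mul _

/-- The coefficients of `compF` are in `R`: the polynomials with coefficients in `R` form a subring
which contains the `linF`, the `truncF` and all integers. -/
theorem compF_coeff {R : Subring K} {q : ℕ} (hR : DiscRing p R q) {g : ℕ → K} (hg : ∀ k, g k ∈ R)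
    (c : Fin m → Fin r → ℤ_[p]) (T : ℕ) (P : MvPolynomial (Fin m) ℤ) (α : Fin r →₀ ℕ) :
    (compF g c T P).coeff α ∈ R := by
  exact BpB_coeff_mem (BpB_eval_mem _ (BpB_truncF_mem hR hg c T) P) α

/-- additivity -/
theorem compF_sub (g : ℕ → K) (c : Fin m → Fin r → ℤ_[p]) (T : ℕ) (P Q : MvPolynomial (Fin m) ℤ) :
    compF g c T (P - Q) = compF g c T P - compF g c T Q := by
  unfold compF
  rw [MvPolynomial.eval₂_sub]

/-- Evaluation of `compF` at a point `z`: the value of `P` at the values of the `truncF`. -/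
theorem eval_compF (g : ℕ → K) (c : Fin m → Fin r → ℤ_[p]) (T : ℕ) (P : MvPolynomial (Fin m) ℤ)
    (z : Fin r → K) :
    MvPolynomial.eval z (compF g c T P) = MvPolynomial.eval₂ (Int.castRingHom K)
      (fun j => ∑ k ∈ Finset.range T, g k *
        (∑ l, algebraMap ℚ_[p] K (c j l : ℚ_[p]) * z l) ^ k) P := by
  unfold compF
  rw [MvPolynomial.eval₂_comp_left (MvPolynomial.eval z)]
  have h1 : (MvPolynomial.eval z).comp (Int.castRingHom (MvPolynomial (Fin r) K)) =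
      Int.castRingHom K := RingHom.ext_int _ _
  have h2 : (MvPolynomial.eval z) ∘ truncF g c T = fun j => ∑ k ∈ Finset.range T, g k *
      (∑ l, algebraMap ℚ_[p] K (c j l : ℚ_[p]) * z l) ^ k := by
    funext j
    simp [truncF, linF, map_sum, map_mul, map_pow]
  rw [h1, h2]

/-- An integral polynomial is a contraction of the unit ball of an ultrametric field: monomials by
`x^a y^b - x'^a y'^b`, induction on `P`. -/
theorem eval_sub_le (P : MvPolynomial (Fin m) ℤ) {x y : Fin m → K} {ε : ℝ} (hε : 0 ≤ ε)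
    (hx : ∀ j, ‖x j‖ ≤ 1) (hy : ∀ j, ‖y j‖ ≤ 1) (hxy : ∀ j, ‖x j - y j‖ ≤ ε) :
    ‖MvPolynomial.eval₂ (Int.castRingHom K) x P - MvPolynomial.eval₂ (Int.castRingHom K) y P‖ ≤
      ε := by
  induction P using MvPolynomial.induction_on with
  | C a =>
    rw [MvPolynomial.eval₂_C, MvPolynomial.eval₂_C, sub_self, norm_zero]
    exact hε
  | add P Q hP hQ =>
    rw [MvPolynomial.eval₂_add, MvPolynomial.eval₂_add, add_sub_add_comm]
    exact (IsUltrametricDist.norm_add_le_max _ _).trans (max_le hP hQ)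
  | mul_X P j hP =>
    rw [MvPolynomial.eval₂_mul, MvPolynomial.eval₂_mul, MvPolynomial.eval₂_X,
      MvPolynomial.eval₂_X]
    set a := MvPolynomial.eval₂ (Int.castRingHom K) x P
    set b := MvPolynomial.eval₂ (Int.castRingHom K) y P with hb
    have h1 : a * x j - b * y j = (a - b) * x j + b * (x j - y j) := by ring
    rw [h1]
    refine (IsUltrametricDist.norm_add_le_max _ _).trans (max_le ?_ ?_)
    · rw [norm_mul]
      calc ‖a - b‖ * ‖x j‖ ≤ ε * 1 := mul_le_mul hP (hx j) (norm_nonneg _) hε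
        _ = ε := mul_one _
    · rw [norm_mul]
      calc ‖b‖ * ‖x j - y j‖ ≤ 1 * ε :=
            mul_le_mul (BpB_norm_eval P hy) (hxy j) (norm_nonneg _) zero_le_one
        _ = ε := one_mul _

/-- The truncation error: if all `‖g k‖ <= 1`, `‖w‖ <= 1/p` and `v` is the sum of the series
`g_k w^k` then `‖v‖ <= 1` and the distance of `v` to the partial sum over `k < T` is at most
`p^(-T)` (all partial sums beyond `T` have this distance, closedness of balls). -/
theorem trunc_error {g : ℕ → K} (hg : ∀ k, ‖g k‖ ≤ 1) {w v : K} (hw : ‖w‖ ≤ (p : ℝ)⁻¹)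
    (hv : HasSum (fun k => g k * w ^ k) v) (T : ℕ) :
    ‖v‖ ≤ 1 ∧ ‖∑ k ∈ Finset.range T, g k * w ^ k‖ ≤ 1 ∧
      ‖v - ∑ k ∈ Finset.range T, g k * w ^ k‖ ≤ (p : ℝ) ^ (-(T : ℤ)) := by
  have hp0 : (0 : ℝ) < p := by exact_mod_cast (Fact.out : p.Prime).pos
  have hp1 : (1 : ℝ) ≤ p := by exact_mod_cast (Fact.out : p.Prime).one_lt.le
  have hpi : (p : ℝ)⁻¹ ≤ 1 := inv_le_one_of_one_le₀ hp1
  have hterm : ∀ k, ‖g k * w ^ k‖ ≤ ((p : ℝ)⁻¹) ^ k := by
    intro k
    rw [norm_mul, norm_pow]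
    calc ‖g k‖ * ‖w‖ ^ k ≤ 1 * ((p : ℝ)⁻¹) ^ k :=
          mul_le_mul (hg k) (pow_le_pow_left₀ (norm_nonneg _) hw k) (by positivity) zero_le_one
      _ = _ := one_mul _
  have hterm1 : ∀ k, ‖g k * w ^ k‖ ≤ 1 := fun k =>
    (hterm k).trans (pow_le_one₀ (by positivity) hpi)
  refine ⟨?_, ?_, ?_⟩
  · rw [← hv.tsum_eq]
    exact IsUltrametricDist.norm_tsum_le_of_forall_le_of_nonneg zero_le_one hterm1
  · exact IsUltrametricDist.norm_sum_le_of_forall_le_of_nonneg zero_le_one fun k _ => hterm1 k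
  · have h1 : HasSum (fun k => g (k + T) * w ^ (k + T))
        (v - ∑ k ∈ Finset.range T, g k * w ^ k) := (hasSum_nat_add_iff' T).2 hv
    rw [← h1.tsum_eq]
    have h2 : (p : ℝ) ^ (-(T : ℤ)) = ((p : ℝ)⁻¹) ^ T := by
      rw [zpow_neg, zpow_natCast, inv_pow]
    rw [h2]
    apply IsUltrametricDist.norm_tsum_le_of_forall_le_of_nonneg (by positivity)
    intro k
    exact (hterm (k + T)).trans (pow_le_pow_of_le_one (by positivity) hpi (Nat.le_add_left T k))

/-- A polynomial over the unit ball whose coefficients of total degree less than `T` have norm at most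
`p^(-T)` has values of norm at most `p^(-T)` at the points with `‖z_l‖ <= 1/p`. -/
theorem eval_small {F : MvPolynomial (Fin r) K} (hF : ∀ α, ‖F.coeff α‖ ≤ 1) {T : ℕ}
    (hT : ∀ α : Fin r →₀ ℕ, α.degree < T → ‖F.coeff α‖ ≤ (p : ℝ) ^ (-(T : ℤ))) {z : Fin r → K}
    (hz : ∀ l, ‖z l‖ ≤ (p : ℝ)⁻¹) : ‖MvPolynomial.eval z F‖ ≤ (p : ℝ) ^ (-(T : ℤ)) := by
  have hp0 : (0 : ℝ) < p := by exact_mod_cast (Fact.out : p.Prime).pos
  have hp1 : (1 : ℝ) ≤ p := by exact_mod_cast (Fact.out : p.Prime).one_lt.le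
  have hpi : (p : ℝ)⁻¹ ≤ 1 := inv_le_one_of_one_le₀ hp1
  have h2 : (p : ℝ) ^ (-(T : ℤ)) = ((p : ℝ)⁻¹) ^ T := by
    rw [zpow_neg, zpow_natCast, inv_pow]
  rw [h2] at hT ⊢
  rw [MvPolynomial.eval_eq']
  apply IsUltrametricDist.norm_sum_le_of_forall_le_of_nonneg (by positivity)
  intro α _
  have hprod : ‖∏ i, z i ^ α i‖ ≤ ((p : ℝ)⁻¹) ^ α.degree := by
    rw [norm_prod, Finsupp.degree_eq_sum, ← Finset.prod_pow_eq_pow_sum]
    apply Finset.prod_le_prod
    · intro i _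
      positivity
    · intro i _
      rw [norm_pow]
      exact pow_le_pow_left₀ (norm_nonneg _) (hz i) _
  rw [norm_mul]
  rcases lt_or_ge α.degree T with h | h
  · calc ‖F.coeff α‖ * ‖∏ i, z i ^ α i‖ ≤ ((p : ℝ)⁻¹) ^ T * 1 :=
          mul_le_mul (hT α h) (hprod.trans (pow_le_one₀ (by positivity) hpi)) (norm_nonneg _)
            (by positivity)
      _ = _ := mul_one _
  · calc ‖F.coeff α‖ * ‖∏ i, z i ^ α i‖ ≤ 1 * ((p : ℝ)⁻¹) ^ T :=
          mul_le_mul (hF α) (hprod.trans (pow_le_pow_of_le_one (by positivity) hpi h))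
            (norm_nonneg _) zero_le_one
      _ = _ := one_mul _

/-- Combination of the previous lemmas: if the coefficients of `compF` of degree less than `T` have
norm at most `p^(-T)` then `P(v)` has norm at most `p^(-T)` for all `v_j = sum_k g_k (sum_l c_jl z_l)^k`,
`‖z_l‖ <= 1/p`. -/
theorem value_small {R : Subring K} {q : ℕ} (hR : DiscRing p R q) {g : ℕ → K} (hg : ∀ k, g k ∈ R)
    (c : Fin m → Fin r → ℤ_[p]) {T : ℕ} {P : MvPolynomial (Fin m) ℤ}
    (hT : ∀ α : Fin r →₀ ℕ, α.degree < T → ‖(compF g c T P).coeff α‖ ≤ (p : ℝ) ^ (-(T : ℤ)))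
    {z : Fin r → K} (hz : ∀ l, ‖z l‖ ≤ (p : ℝ)⁻¹) {v : Fin m → K}
    (hv : ∀ j, HasSum (fun k => g k * (∑ l, algebraMap ℚ_[p] K (c j l : ℚ_[p]) * z l) ^ k) (v j)) :
    ‖MvPolynomial.eval₂ (Int.castRingHom K) v P‖ ≤ (p : ℝ) ^ (-(T : ℤ)) := by
  set w : Fin m → K := fun j => ∑ l, algebraMap ℚ_[p] K (c j l : ℚ_[p]) * z l with hw
  have hte : ∀ j, ‖v j‖ ≤ 1 ∧ ‖∑ k ∈ Finset.range T, g k * w j ^ k‖ ≤ 1 ∧
      ‖v j - ∑ k ∈ Finset.range T, g k * w j ^ k‖ ≤ (p : ℝ) ^ (-(T : ℤ)) := fun j =>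
    trunc_error (fun k => hR.norm_le _ (hg k)) (BpB_norm_lin c hz j) (hv j) T
  have h1 := eval_sub_le P (x := v) (y := fun j => ∑ k ∈ Finset.range T, g k * w j ^ k)
    (ε := (p : ℝ) ^ (-(T : ℤ))) (by positivity) (fun j => (hte j).1) (fun j => (hte j).2.1)
    (fun j => (hte j).2.2)
  have h2 : ‖MvPolynomial.eval z (compF g c T P)‖ ≤ (p : ℝ) ^ (-(T : ℤ)) :=
    eval_small (fun α => hR.norm_le _ (compF_coeff hR hg c T P α)) hT hz
  rw [eval_compF] at h2
  have h3 := (IsUltrametricDist.norm_add_le_max _ _).trans (max_le h1 h2)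
  rwa [sub_add_cancel] at h3

end PCL

end
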