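import Mathlib

/-!
# Box principle: definitions
-/

open scoped Classical

noncomputable section

namespace PCL

/-- A subring of the closed unit ball which contains the p-adic integers and is covered by `q^T` balls of
radius `p^(-T)` for every `T`. -/
structure DiscRing (p : ℕ) [Fact p.Prime] {K : Type} [NormedField K] [NormedAlgebra ℚ_[p] K]
    (R : Subring K) (q : ℕ) : Prop where
  norm_le : ∀ x ∈ R, ‖x‖ ≤ 1
  padic : ∀ a : ℤ_[p], algebraMap ℚ_[p] K (a : ℚ_[p]) ∈ R
  cover : ∀ T : ℕ, ∃ κ : K → Fin (q ^ T), ∀ x ∈ R, ∀ y ∈ R, κ x = κ y →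
    ‖x - y‖ ≤ (p : ℝ) ^ (-(T : ℤ))

section

variable {p : ℕ} [Fact p.Prime] {K : Type} [NormedField K] [NormedAlgebra ℚ_[p] K] {m r : ℕ}

/-- the linear form `sum_l c_jl X_l` -/
def linF (c : Fin m → Fin r → ℤ_[p]) (j : Fin m) : MvPolynomial (Fin r) K :=
  ∑ l, MvPolynomial.C (algebraMap ℚ_[p] K (c j l : ℚ_[p])) * MvPolynomial.X l

/-- the truncated power series `sum_(k<T) g_k (sum_l c_jl X_l)^k` -/
def truncF (g : ℕ → K) (c : Fin m → Fin r → ℤ_[p]) (T : ℕ) (j : Fin m) : MvPolynomial (Fin r) K :=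
  ∑ k ∈ Finset.range T, MvPolynomial.C (g k) * linF c j ^ k

/-- the polynomial `P` evaluated at the truncated power series -/
def compF (g : ℕ → K) (c : Fin m → Fin r → ℤ_[p]) (T : ℕ) (P : MvPolynomial (Fin m) ℤ) :
    MvPolynomial (Fin r) K :=
  MvPolynomial.eval₂ (Int.castRingHom (MvPolynomial (Fin r) K)) (truncF g c T) P

end

end PCL

end
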