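import Pool.Agent.W_52423f_h70.BpC

/-!
# Box principle with coefficients in a complete field: the composite polynomial
-/

open scoped Classical

noncomputable section

namespace PCL

namespace Rc

variable {p : ℕ} [Fact p.Prime] {K : Type} [NontriviallyNormedField K] [IsUltrametricDist K]
  [NormedAlgebra ℚ_[p] K] {m r : ℕ}

/-- the linear form `sum_l c_jl X_l` -/
def linF (c : Fin m → Fin r → K) (j : Fin m) : MvPolynomial (Fin r) K :=
  ∑ l, MvPolynomial.C (c j l) * MvPolynomial.X l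

/-- the truncated power series `sum_(k<T) g_k (sum_l c_jl X_l)^k` -/
def truncF (g : ℕ → K) (c : Fin m → Fin r → K) (T : ℕ) (j : Fin m) : MvPolynomial (Fin r) K :=
  ∑ k ∈ Finset.range T, MvPolynomial.C (g k) * linF c j ^ k

/-- the polynomial `P` evaluated at the truncated power series -/
def compF (g : ℕ → K) (c : Fin m → Fin r → K) (T : ℕ) (P : MvPolynomial (Fin m) ℤ) :
    MvPolynomial (Fin r) K :=
  MvPolynomial.eval₂ (Int.castRingHom (MvPolynomial (Fin r) K)) (truncF g c T) P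

theorem BpB_linF_mem {R : Subring K}
    {c : Fin m → Fin r → K} (hc : ∀ j l, c j l ∈ R) (j : Fin m) :
    (linF c j : MvPolynomial (Fin r) K) ∈ (MvPolynomial.map (σ := Fin r) R.subtype).range := by
  unfold linF
  exact sum_mem fun l _ => mul_mem (BpB_C_mem (hc j _)) (BpB_X_mem R l)

theorem BpB_truncF_mem {R : Subring K} {g : ℕ → K}
    (hg : ∀ k, g k ∈ R) {c : Fin m → Fin r → K} (hc : ∀ j l, c j l ∈ R) (T : ℕ) (j : Fin m) :
    truncF g c T j ∈ (MvPolynomial.map (σ := Fin r) R.subtype).range := by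
  unfold truncF
  exact sum_mem fun k _ => mul_mem (BpB_C_mem (hg k)) (pow_mem (BpB_linF_mem hc j) k)

theorem BpB_norm_lin {c : Fin m → Fin r → K} (hc : ∀ j l, ‖c j l‖ ≤ 1) {z : Fin r → K}
    (hz : ∀ l, ‖z l‖ ≤ (p : ℝ)⁻¹) (j : Fin m) : ‖∑ l, c j l * z l‖ ≤ (p : ℝ)⁻¹ := by
  apply IsUltrametricDist.norm_sum_le_of_forall_le_of_nonneg (by positivity)
  intro l _
  rw [norm_mul]
  calc ‖c j l‖ * ‖z l‖ ≤ 1 * (p : ℝ)⁻¹ :=
        mul_le_mul (hc j l) (hz l) (norm_nonneg _) zero_le_one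
    _ = (p : ℝ)⁻¹ := one_mul _

/-- The coefficients of `compF` are in `R`: the polynomials with coefficients in `R` form a subring
which contains the `linF`, the `truncF` and all integers. -/
theorem compF_coeff {R : Subring K} {g : ℕ → K} (hg : ∀ k, g k ∈ R)
    {c : Fin m → Fin r → K} (hc : ∀ j l, c j l ∈ R) (T : ℕ) (P : MvPolynomial (Fin m) ℤ) (α : Fin r →₀ ℕ) :
    (compF g c T P).coeff α ∈ R := by
  exact BpB_coeff_mem (BpB_eval_mem _ (BpB_truncF_mem hg hc T) P) α

/-- additivity -/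
theorem compF_sub (g : ℕ → K) (c : Fin m → Fin r → K) (T : ℕ) (P Q : MvPolynomial (Fin m) ℤ) :
    compF g c T (P - Q) = compF g c T P - compF g c T Q := by
  unfold compF
  rw [MvPolynomial.eval₂_sub]

/-- Evaluation of `compF` at a point `z`: the value of `P` at the values of the `truncF`. -/
theorem eval_compF (g : ℕ → K) (c : Fin m → Fin r → K) (T : ℕ) (P : MvPolynomial (Fin m) ℤ)
    (z : Fin r → K) :
    MvPolynomial.eval z (compF g c T P) = MvPolynomial.eval₂ (Int.castRingHom K)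
      (fun j => ∑ k ∈ Finset.range T, g k *
        (∑ l, c j l * z l) ^ k) P := by
  unfold compF
  rw [MvPolynomial.eval₂_comp_left (MvPolynomial.eval z)]
  have h1 : (MvPolynomial.eval z).comp (Int.castRingHom (MvPolynomial (Fin r) K)) =
      Int.castRingHom K := RingHom.ext_int _ _
  have h2 : (MvPolynomial.eval z) ∘ truncF g c T = fun j => ∑ k ∈ Finset.range T, g k *
      (∑ l, c j l * z l) ^ k := by
    funext j
    simp [truncF, linF, map_sum, map_mul, map_pow]
  rw [h1, h2]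

/-- Combination of the previous lemmas: if the coefficients of `compF` of degree less than `T` have
norm at most `p^(-T)` then `P(v)` has norm at most `p^(-T)` for all `v_j = sum_k g_k (sum_l c_jl z_l)^k`,
`‖z_l‖ <= 1/p`. -/
theorem value_small {R : Subring K} {q : ℕ} (hR : DiscRing p R q) {g : ℕ → K} (hg : ∀ k, g k ∈ R)
    {c : Fin m → Fin r → K} (hc : ∀ j l, c j l ∈ R) {T : ℕ} {P : MvPolynomial (Fin m) ℤ}
    (hT : ∀ α : Fin r →₀ ℕ, α.degree < T → ‖(compF g c T P).coeff α‖ ≤ (p : ℝ) ^ (-(T : ℤ)))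
    {z : Fin r → K} (hz : ∀ l, ‖z l‖ ≤ (p : ℝ)⁻¹) {v : Fin m → K}
    (hv : ∀ j, HasSum (fun k => g k * (∑ l, c j l * z l) ^ k) (v j)) :
    ‖MvPolynomial.eval₂ (Int.castRingHom K) v P‖ ≤ (p : ℝ) ^ (-(T : ℤ)) := by
  set w : Fin m → K := fun j => ∑ l, c j l * z l with hw
  have hte : ∀ j, ‖v j‖ ≤ 1 ∧ ‖∑ k ∈ Finset.range T, g k * w j ^ k‖ ≤ 1 ∧
      ‖v j - ∑ k ∈ Finset.range T, g k * w j ^ k‖ ≤ (p : ℝ) ^ (-(T : ℤ)) := fun j =>
    trunc_error (fun k => hR.norm_le _ (hg k)) (BpB_norm_lin (fun j l => hR.norm_le _ (hc j l)) hz j) (hv j) T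
  have h1 := eval_sub_le P (x := v) (y := fun j => ∑ k ∈ Finset.range T, g k * w j ^ k)
    (ε := (p : ℝ) ^ (-(T : ℤ))) (by positivity) (fun j => (hte j).1) (fun j => (hte j).2.1)
    (fun j => (hte j).2.2)
  have h2 : ‖MvPolynomial.eval z (compF g c T P)‖ ≤ (p : ℝ) ^ (-(T : ℤ)) :=
    eval_small (fun α => hR.norm_le _ (compF_coeff hg hc T P α)) hT hz
  rw [eval_compF] at h2
  have h3 := (IsUltrametricDist.norm_add_le_max _ _).trans (max_le h1 h2)
  rwa [sub_add_cancel] at h3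

end Rc

end PCL

end
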