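import Pool.Agent.W_52423f_h70.BrA

/-!
# Box principle with coefficients in a complete field: the pigeonhole
-/

open scoped Classical

noncomputable section

namespace PCL

namespace Rc

variable {p : ℕ} [Fact p.Prime] {K : Type} [NontriviallyNormedField K] [IsUltrametricDist K]
  [NormedAlgebra ℚ_[p] K] {m r : ℕ}

/-- The pigeonhole.  There are `(H+1)^(D^m)` polynomials with coefficients in `{0, ..., H}` and
degrees less than `D` in every variable (indexed by the functions `(Fin m -> Fin D) -> Fin (H+1)`).
Map such a polynomial to the family of the classes `κ (coeff α (compF g c T P))`, `α` in the set `A` of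
`card_exponents`; there are at most `(q^T)^(T^r)` values (`q >= 1`).  Two different polynomials
have the same image; take their difference (`compF_sub`, `compF_coeff`). -/
theorem pigeon {R : Subring K} {q : ℕ} (hq : 1 ≤ q) (hR : DiscRing p R q) {g : ℕ → K}
    (hg : ∀ k, g k ∈ R) {c : Fin m → Fin r → K} (hc : ∀ j l, c j l ∈ R) {D H T : ℕ}
    (h : q ^ (T * T ^ r) < (H + 1) ^ (D ^ m)) :
    ∃ P : MvPolynomial (Fin m) ℤ, P ≠ 0 ∧ (∀ j, P.degreeOf j < D) ∧ (∀ α, |P.coeff α| ≤ H) ∧
      ∀ α : Fin r →₀ ℕ, α.degree < T →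
        ‖(compF g c T P).coeff α‖ ≤ (p : ℝ) ^ (-(T : ℤ)) := by
  obtain ⟨A, hAc, hA⟩ := card_exponents (r := r) T
  obtain ⟨κ, hκ⟩ := hR.cover T
  obtain ⟨a, b, hab, hf⟩ := Fintype.exists_ne_map_eq_of_card_lt
    (fun (a : (Fin m → Fin D) → Fin (H + 1)) (α : A) =>
      κ ((compF g c T (polE a)).coeff (α : Fin r →₀ ℕ))) (by
    rw [Fintype.card_fun, Fintype.card_fun, Fintype.card_fin, Fintype.card_fin,
      Fintype.card_coe, Fintype.card_fun, Fintype.card_fin, Fintype.card_fin]
    refine lt_of_le_of_lt ?_ h
    rw [← pow_mul]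
    exact Nat.pow_le_pow_right hq (Nat.mul_le_mul_left T hAc))
  refine ⟨polE a - polE b, ?_, ?_, ?_, ?_⟩
  · intro h0
    obtain ⟨e, he⟩ := Function.ne_iff.1 hab
    have h1 := congrArg (MvPolynomial.coeff (fsE e)) h0
    rw [MvPolynomial.coeff_sub, polE_coeff, polE_coeff, MvPolynomial.coeff_zero, sub_eq_zero] at h1
    exact he (Fin.ext (by exact_mod_cast h1))
  · intro j
    have hD : 0 < D := by
      rcases Nat.eq_zero_or_pos D with hD | hD
      · exfalso
        have hm : m ≠ 0 := by
          rintro rfl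
          exact j.elim0
        rw [hD, zero_pow hm, pow_zero] at h
        have : 0 < q ^ (T * T ^ r) := Nat.pow_pos hq
        omega
      · exact hD
    rw [MvPolynomial.degreeOf_lt_iff hD]
    intro α hα
    rw [MvPolynomial.mem_support_iff] at hα
    by_contra hcon
    apply hα
    have h1 : ∀ e : Fin m → Fin D, fsE e ≠ α := by
      intro e he
      apply hcon
      rw [← he, fsE_apply]
      exact (e j).2
    rw [MvPolynomial.coeff_sub, polE_coeff_zero a α h1, polE_coeff_zero b α h1, sub_zero]
  · intro α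
    rw [MvPolynomial.coeff_sub]
    by_cases h1 : ∀ e : Fin m → Fin D, fsE e ≠ α
    · rw [polE_coeff_zero a α h1, polE_coeff_zero b α h1, sub_zero, abs_zero]
      positivity
    · push Not at h1
      obtain ⟨e, he⟩ := h1
      rw [← he, polE_coeff, polE_coeff, abs_le]
      have h2 := (a e).2
      have h3 := (b e).2
      constructor
      · omega
      · omega
  · intro α hα
    rw [compF_sub, MvPolynomial.coeff_sub]
    refine hκ _ (compF_coeff hg hc T _ α) _ (compF_coeff hg hc T _ α) ?_
    exact congrFun hf ⟨α, hA α hα⟩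

end Rc

end PCL

end
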