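import Pool.Agent.W_52423f_h70.BezDefs

/-!
# Hilbert functions: elementary properties
-/

open scoped Classical

noncomputable section

namespace PCL

variable {k : Type} [Field k] {ι : Type} [Fintype ι]

/-- The image of the polynomials of degree at most `T` in each variable is finite dimensional
(`MvPolynomial.restrictDegree` is spanned by the finitely many monomials with exponents at most
`T`). -/
theorem finite_restrictDegree (T : ℕ) :
    Module.Finite k (MvPolynomial.restrictDegree ι k T) := inferInstance

theorem BzA_card (T : ℕ) : Nat.card {n : ι →₀ ℕ | ∀ i, n i ≤ T} = (T + 1) ^ Fintype.card ι := by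
  have e : {n : ι →₀ ℕ | ∀ i, n i ≤ T} ≃ (ι → Fin (T + 1)) :=
    { toFun := fun n i => ⟨n.1 i, Nat.lt_succ_of_le (n.2 i)⟩
      invFun := fun f => ⟨Finsupp.equivFunOnFinite.symm fun i => (f i : ℕ),
        fun i => Nat.le_of_lt_succ (f i).2⟩
      left_inv := by
        intro n
        apply Subtype.ext
        ext i
        rfl
      right_inv := by
        intro f
        rfl }
  rw [Nat.card_congr e, Nat.card_eq_fintype_card, Fintype.card_fun, Fintype.card_fin]

theorem BzA_fin (I : Ideal (MvPolynomial ι k)) (T : ℕ) :
    Module.Finite k (Submodule.map (Ideal.Quotient.mkₐ k I).toLinearMap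
      (MvPolynomial.restrictDegree ι k T)) := by
  haveI := finite_restrictDegree (k := k) (ι := ι) T
  exact Module.Finite.map _ _

theorem BzA_le {T T' : ℕ} (h : T ≤ T') :
    MvPolynomial.restrictDegree ι k T ≤ MvPolynomial.restrictDegree ι k T' := by
  intro q hq
  rw [MvPolynomial.mem_restrictDegree] at hq ⊢
  exact fun s hs i => (hq s hs i).trans h

/-- The dimension of the space of polynomials of degree at most `T` in each variable is
`(T + 1) ^ card`, the number of monomials; for `I = 0` the quotient map is injective. -/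
theorem hf_bot (T : ℕ) :
    hf (⊥ : Ideal (MvPolynomial ι k)) T = (T + 1) ^ Fintype.card ι := by
  have hinj : Function.Injective
      (Ideal.Quotient.mkₐ k (⊥ : Ideal (MvPolynomial ι k))).toLinearMap := by
    intro a b hab
    have h1 : Ideal.Quotient.mk (⊥ : Ideal (MvPolynomial ι k)) a =
        Ideal.Quotient.mk (⊥ : Ideal (MvPolynomial ι k)) b := hab
    rw [Ideal.Quotient.eq, Ideal.mem_bot, sub_eq_zero] at h1
    exact h1
  unfold hf
  rw [← (Submodule.equivMapOfInjective _ hinj (MvPolynomial.restrictDegree ι k T)).finrank_eq]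
  have h2 := Module.finrank_eq_nat_card_basis
    (MvPolynomial.basisRestrictSupport k {n : ι →₀ ℕ | ∀ i, n i ≤ T})
  rw [BzA_card] at h2
  exact h2

/-- For `I ≤ J` the map `R/I -> R/J` maps the image of the polynomials of degree at most `T` onto the
image. -/
theorem hf_anti {I J : Ideal (MvPolynomial ι k)} (h : I ≤ J) (T : ℕ) : hf J T ≤ hf I T := by
  haveI := BzA_fin I T
  have h1 : (Ideal.Quotient.mkₐ k J).toLinearMap =
      (Ideal.Quotient.factorₐ k h).toLinearMap.comp (Ideal.Quotient.mkₐ k I).toLinearMap := by
    ext x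
    rfl
  unfold hf
  rw [h1, Submodule.map_comp]
  exact Submodule.finrank_map_le _ _

/-- Monotone in `T`. -/
theorem hf_mono (I : Ideal (MvPolynomial ι k)) {T T' : ℕ} (h : T ≤ T') : hf I T ≤ hf I T' := by
  haveI := BzA_fin I T'
  exact LinearMap.finrank_le_finrank_of_injective
    (Submodule.inclusion_injective (Submodule.map_mono (BzA_le h)))

/-- For a proper ideal the class of `1` is not zero. -/
theorem hf_pos {I : Ideal (MvPolynomial ι k)} (hI : I ≠ ⊤) (T : ℕ) : 1 ≤ hf I T := by
  haveI := BzA_fin I T
  have h1 : (1 : MvPolynomial ι k) ∈ MvPolynomial.restrictDegree ι k T := by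
    rw [MvPolynomial.mem_restrictDegree]
    intro s hs i
    have h2 : s = 0 := by
      by_contra h
      rw [MvPolynomial.mem_support_iff, MvPolynomial.coeff_one, if_neg (Ne.symm h)] at hs
      exact hs rfl
    rw [h2]
    exact Nat.zero_le _
  have h3 : Ideal.Quotient.mkₐ k I 1 ≠ 0 := by
    intro h
    have h4 : Ideal.Quotient.mk I 1 = 0 := h
    rw [Ideal.Quotient.eq_zero_iff_mem] at h4
    exact hI ((Ideal.eq_top_iff_one I).2 h4)
  haveI : Nontrivial (Submodule.map (Ideal.Quotient.mkₐ k I).toLinearMap
      (MvPolynomial.restrictDegree ι k T)) :=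
    ⟨⟨⟨_, Submodule.mem_map_of_mem h1⟩, 0, fun h => h3 (congrArg Subtype.val h)⟩⟩
  exact Module.finrank_pos

/-- If the Hilbert function of a prime ideal is bounded then the ideal is maximal: the quotient is
the increasing union of subspaces of bounded dimension, so it is finite dimensional (the dimensions
of the images of the degree filtration are eventually constant, and the images exhaust the
quotient since every polynomial has bounded degrees), and a domain which is a finite dimensional
algebra over a field is a field. -/
theorem maximal_of_hf_bounded {p : Ideal (MvPolynomial ι k)} (hp : p.IsPrime) (C : ℕ)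
    (h : ∀ T, hf p T ≤ C) : p.IsMaximal := by
  classical
  -- the maximal value of the Hilbert function
  obtain ⟨T0, hT0⟩ : ∃ T0, ∀ T, hf p T ≤ hf p T0 := by
    have hne : ∃ m, ∃ T, hf p T = m := ⟨_, 0, rfl⟩
    have hb : ∀ m, (∃ T, hf p T = m) → m ≤ C := by
      rintro m ⟨T, rfl⟩
      exact h T
    obtain ⟨T0, h0⟩ := Nat.findGreatest_spec (P := fun m => ∃ T, hf p T = m)
      (hb _ ⟨0, rfl⟩) ⟨0, rfl⟩
    refine ⟨T0, fun T => ?_⟩
    rw [h0]
    exact Nat.le_findGreatest (h T) ⟨T, rfl⟩
  have htop : Submodule.map (Ideal.Quotient.mkₐ k p).toLinearMap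
      (MvPolynomial.restrictDegree ι k T0) = ⊤ := by
    rw [eq_top_iff]
    rintro x -
    obtain ⟨q, rfl⟩ := Ideal.Quotient.mk_surjective x
    have hq : q ∈ MvPolynomial.restrictDegree ι k (max T0 q.totalDegree) := by
      apply BzA_le (le_max_right T0 q.totalDegree)
      exact MvPolynomial.restrictTotalDegree_le_restrictDegree ι k _
        ((MvPolynomial.mem_restrictTotalDegree ι _ q).2 le_rfl)
    haveI := BzA_fin p (max T0 q.totalDegree)
    have heq : Submodule.map (Ideal.Quotient.mkₐ k p).toLinearMap
        (MvPolynomial.restrictDegree ι k T0) =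
        Submodule.map (Ideal.Quotient.mkₐ k p).toLinearMap
        (MvPolynomial.restrictDegree ι k (max T0 q.totalDegree)) := by
      apply Submodule.eq_of_le_of_finrank_le (Submodule.map_mono (BzA_le (le_max_left _ _)))
      exact hT0 _
    rw [heq]
    exact Submodule.mem_map_of_mem hq
  haveI : Module.Finite k (MvPolynomial ι k ⧸ p) := by
    haveI h2 := BzA_fin p T0
    rw [htop] at h2
    exact Module.Finite.equiv (Submodule.topEquiv (R := k) (M := MvPolynomial ι k ⧸ p))
  haveI : IsDomain (MvPolynomial ι k ⧸ p) := Ideal.Quotient.isDomain p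
  haveI : IsArtinianRing (MvPolynomial ι k ⧸ p) := IsArtinianRing.of_finite k _
  exact Ideal.Quotient.maximal_of_isField p (IsArtinianRing.isField_of_isDomain _)

end PCL

end
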