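import Pool.Agent.W_52423f_h70.BzA

/-!
# Hilbert functions: cutting a prime ideal by one polynomial
-/

open scoped Classical

noncomputable section

namespace PCL

variable {k : Type} [Field k] {ι : Type} [Fintype ι]

theorem BzB_mem {T : ℕ} {a : MvPolynomial ι k} :
    a ∈ MvPolynomial.restrictDegree ι k T ↔ ∀ i, a.degreeOf i ≤ T := by
  rw [MvPolynomial.mem_restrictDegree_iff_sup]
  rfl

theorem BzB_mul_mem {T D : ℕ} {a f : MvPolynomial ι k}
    (ha : a ∈ MvPolynomial.restrictDegree ι k T) (hD : ∀ i, f.degreeOf i ≤ D) :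
    f * a ∈ MvPolynomial.restrictDegree ι k (T + D) := by
  rw [BzB_mem] at ha ⊢
  intro i
  have := MvPolynomial.degreeOf_mul_le i f a
  have h1 := ha i
  have h2 := hD i
  omega

/-- Let `p` be prime, `f` not in `p`, of degree at most `D` in each variable.  Multiplication by `f`
is an injective map from the image `A_T` of the polynomials of degree at most `T` in `R/p` into
`A_(T+D)`, and the map from `A_(T+D)` to `R/(p + (f))` vanishes on the image `f A_T`; the image of
`A_(T+D)` there has dimension `hf (p + (f)) (T+D)`.  So `hf (p + (f)) (T+D) + hf p T <= hf p (T+D)`. -/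
theorem hf_mul {p : Ideal (MvPolynomial ι k)} (hp : p.IsPrime) {f : MvPolynomial ι k}
    (hfp : f ∉ p) {D : ℕ} (hD : ∀ i, f.degreeOf i ≤ D) (T : ℕ) :
    hf (p ⊔ Ideal.span {f}) (T + D) + hf p T ≤ hf p (T + D) := by
  have hle : p ≤ p ⊔ Ideal.span {f} := le_sup_left
  set J : Ideal (MvPolynomial ι k) := p ⊔ Ideal.span {f} with hJ
  set mk := (Ideal.Quotient.mkₐ k p).toLinearMap with hmk
  set A : Submodule k (MvPolynomial ι k ⧸ p) :=
    Submodule.map mk (MvPolynomial.restrictDegree ι k (T + D)) with hA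
  set A' : Submodule k (MvPolynomial ι k ⧸ p) :=
    Submodule.map mk (MvPolynomial.restrictDegree ι k T) with hA'
  haveI := finite_restrictDegree (k := k) (ι := ι) (T + D)
  haveI := finite_restrictDegree (k := k) (ι := ι) T
  haveI : FiniteDimensional k A := by
    rw [hA]; infer_instance
  haveI : FiniteDimensional k A' := by
    rw [hA']; infer_instance
  set π : (MvPolynomial ι k ⧸ p) →ₗ[k] (MvPolynomial ι k ⧸ J) :=
    (Ideal.Quotient.factorₐ k hle).toLinearMap with hπ
  have hπmk : ∀ a : MvPolynomial ι k, π (mk a) = Ideal.Quotient.mkₐ k J a := by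
    intro a
    simp [hπ, hmk]
  set φ : A →ₗ[k] (MvPolynomial ι k ⧸ J) := π.domRestrict A with hφ
  have h1 := LinearMap.finrank_range_add_finrank_ker φ
  have h2 : LinearMap.range φ
      = Submodule.map (Ideal.Quotient.mkₐ k J).toLinearMap
        (MvPolynomial.restrictDegree ι k (T + D)) := by
    ext x
    constructor
    · rintro ⟨⟨y, hy⟩, rfl⟩
      rw [hA, Submodule.mem_map] at hy
      obtain ⟨a, ha, rfl⟩ := hy
      refine ⟨a, ha, ?_⟩
      rw [hφ, LinearMap.domRestrict_apply]
      exact (hπmk a).symm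
    · rintro ⟨a, ha, rfl⟩
      refine ⟨⟨mk a, ?_⟩, ?_⟩
      · rw [hA]; exact Submodule.mem_map_of_mem ha
      · rw [hφ, LinearMap.domRestrict_apply]
        exact hπmk a
  set μ : (MvPolynomial ι k ⧸ p) →ₗ[k] (MvPolynomial ι k ⧸ p) :=
    LinearMap.mulLeft k (Ideal.Quotient.mk p f) with hμ
  have hfne : (Ideal.Quotient.mk p f) ≠ 0 := by
    intro h
    exact hfp (Ideal.Quotient.eq_zero_iff_mem.mp h)
  have hinj : Function.Injective μ := by
    intro x y hxy
    rw [hμ, LinearMap.mulLeft_apply, LinearMap.mulLeft_apply] at hxy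
    haveI : IsDomain (MvPolynomial ι k ⧸ p) := Ideal.Quotient.isDomain p
    exact mul_left_cancel₀ hfne hxy
  have h3 : Submodule.map μ A' ≤ Submodule.map A.subtype (LinearMap.ker φ) := by
    rintro x ⟨y, hy, rfl⟩
    rw [hA'] at hy
    obtain ⟨a, ha, rfl⟩ := hy
    have hmem : mk (f * a) ∈ A := by
      rw [hA]
      exact Submodule.mem_map_of_mem (BzB_mul_mem ha hD)
    refine ⟨⟨mk (f * a), hmem⟩, ?_, ?_⟩
    · rw [SetLike.mem_coe, LinearMap.mem_ker, hφ, LinearMap.domRestrict_apply]
      show π (mk (f * a)) = 0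
      rw [hπmk]
      show Ideal.Quotient.mk J (f * a) = 0
      rw [Ideal.Quotient.eq_zero_iff_mem]
      apply Ideal.mul_mem_right
      rw [hJ]
      exact Ideal.mem_sup_right (Ideal.subset_span rfl)
    · show mk (f * a) = μ (mk a)
      rw [hμ, LinearMap.mulLeft_apply]
      show Ideal.Quotient.mk p (f * a) = _
      rw [map_mul]
      rfl
  have h4 : Module.finrank k (Submodule.map μ A') = Module.finrank k A' :=
    (LinearEquiv.finrank_eq (Submodule.equivMapOfInjective μ hinj A')).symm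
  have h5 : Module.finrank k (Submodule.map A.subtype (LinearMap.ker φ))
      = Module.finrank k (LinearMap.ker φ) :=
    (LinearEquiv.finrank_eq (Submodule.equivMapOfInjective A.subtype
      (Submodule.subtype_injective A) (LinearMap.ker φ))).symm
  have h6 : Module.finrank k (Submodule.map μ A')
      ≤ Module.finrank k (Submodule.map A.subtype (LinearMap.ker φ)) :=
    Submodule.finrank_mono h3
  have e1 : hf J (T + D) = Module.finrank k (LinearMap.range φ) := by
    rw [h2]; rfl
  have e2 : hf p T = Module.finrank k A' := rfl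
  have e3 : hf p (T + D) = Module.finrank k A := rfl
  rw [e1, e2, e3]
  omega

theorem BzB_tel {p : Ideal (MvPolynomial ι k)} (hp : p.IsPrime) {f : MvPolynomial ι k}
    (hfp : f ∉ p) {D : ℕ} (hD : ∀ i, f.degreeOf i ≤ D) (T q : ℕ) :
    q * hf (p ⊔ Ideal.span {f}) T + hf p T ≤ hf p (T + q * D) := by
  induction q with
  | zero => simp
  | succ q ih =>
    have h1 := hf_mul hp hfp hD (T + q * D)
    have h2 : hf (p ⊔ Ideal.span {f}) T ≤ hf (p ⊔ Ideal.span {f}) (T + q * D + D) :=
      hf_mono _ (by omega)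
    have h3 : T + (q + 1) * D = T + q * D + D := by ring
    rw [h3, add_mul, one_mul]
    omega

/-- Averaging.  Let `q = T / D >= 1`.  By `hf_mul` for `T + i D`, `i < q`, and `hf_mono`,
`q * hf (p + (f)) T <= sum over i of (hf p (T+(i+1)D) - hf p (T+iD)) <= hf p (T + q D) <= hf p (2T)`,
and `T < (q+1) D <= 2 q D`. -/
theorem hf_avg {p : Ideal (MvPolynomial ι k)} (hp : p.IsPrime) {f : MvPolynomial ι k}
    (hfp : f ∉ p) {D : ℕ} (hD1 : 1 ≤ D) (hD : ∀ i, f.degreeOf i ≤ D) {T : ℕ} (hT : D ≤ T) :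
    T * hf (p ⊔ Ideal.span {f}) T ≤ 2 * D * hf p (2 * T) := by
  set q := T / D with hq
  have hq1 : 1 ≤ q := (Nat.one_le_div_iff (by omega)).mpr hT
  have hqT : q * D ≤ T := Nat.div_mul_le_self T D
  have hTq : T ≤ 2 * (q * D) := by
    have h1 : T < (q + 1) * D := by
      rw [hq]
      exact Nat.lt_mul_of_div_lt (Nat.lt_succ_self _) (by omega)
    have h2 : D ≤ q * D := Nat.le_mul_of_pos_left D (by omega)
    nlinarith
  have h1 := BzB_tel hp hfp hD T q
  have h2 : hf p (T + q * D) ≤ hf p (2 * T) := hf_mono _ (by omega)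
  have h3 : q * hf (p ⊔ Ideal.span {f}) T ≤ hf p (2 * T) := by omega
  calc T * hf (p ⊔ Ideal.span {f}) T ≤ 2 * (q * D) * hf (p ⊔ Ideal.span {f}) T :=
        Nat.mul_le_mul_right _ hTq
    _ = 2 * D * (q * hf (p ⊔ Ideal.span {f}) T) := by ring
    _ ≤ 2 * D * hf p (2 * T) := Nat.mul_le_mul_left _ h3

end PCL

end
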