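import Pool.Agent.W_52423f_h70.BzA

/-!
# Hilbert functions: additivity over incomparable primes
-/

open scoped Classical

noncomputable section

namespace PCL

variable {k : Type} [Field k] {ι : Type} [Fintype ι]

/-- For every prime `q` of a finite set of pairwise incomparable primes there is an element outside
`q` which lies in all the other primes of the set: a prime which contains the intersection (infimum)
of finitely many ideals contains one of them (`Ideal.IsPrime.inf_le'`). -/
theorem exists_separating (Q : Finset (Ideal (MvPolynomial ι k))) (hQ : ∀ q ∈ Q, q.IsPrime)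
    (hinc : ∀ q ∈ Q, ∀ q' ∈ Q, q ≤ q' → q = q') {q : Ideal (MvPolynomial ι k)} (hq : q ∈ Q) :
    ∃ g : MvPolynomial ι k, g ∉ q ∧ ∀ q' ∈ Q, q' ≠ q → g ∈ q' := by
  have h1 : ¬ ((Q.erase q).inf (fun q' => q') ≤ q) := by
    intro h
    rw [(hQ q hq).inf_le'] at h
    obtain ⟨q', hq', hle⟩ := h
    rw [Finset.mem_erase] at hq'
    exact hq'.1 (hinc q' hq'.2 q hq hle)
  obtain ⟨g, hg1, hg2⟩ := SetLike.not_le_iff_exists.mp h1
  refine ⟨g, hg2, ?_⟩
  intro q' hq' hne
  have h2 : (Q.erase q).inf (fun q' => q') ≤ q' :=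
    Finset.inf_le (f := fun q' : Ideal (MvPolynomial ι k) => q')
      (Finset.mem_erase.mpr ⟨hne, hq'⟩)
  exact h2 hg1

theorem BzC_mem {T : ℕ} {a : MvPolynomial ι k} :
    a ∈ MvPolynomial.restrictDegree ι k T ↔ ∀ i, a.degreeOf i ≤ T := by
  rw [MvPolynomial.mem_restrictDegree_iff_sup]
  rfl

theorem BzC_lin {W X Y : Type} [AddCommGroup W] [Module k W] [FiniteDimensional k W]
    [AddCommGroup X] [Module k X] [AddCommGroup Y] [Module k Y] (Θ : W →ₗ[k] X) (Ψ : W →ₗ[k] Y)
    (h : LinearMap.ker Ψ ≤ LinearMap.ker Θ) :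
    Module.finrank k (LinearMap.range Θ) ≤ Module.finrank k (LinearMap.range Ψ) := by
  have h1 := LinearMap.finrank_range_add_finrank_ker Θ
  have h2 := LinearMap.finrank_range_add_finrank_ker Ψ
  have h3 : Module.finrank k (LinearMap.ker Ψ) ≤ Module.finrank k (LinearMap.ker Θ) :=
    Submodule.finrank_mono h
  omega

theorem BzC_pi {Q : Type} [Fintype Q] {V : Type} [AddCommGroup V] [Module k V]
    [FiniteDimensional k V] {M : Q → Type} [∀ q, AddCommGroup (M q)] [∀ q, Module k (M q)]
    [∀ q, FiniteDimensional k (M q)]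
    {Y : Type} [AddCommGroup Y] [Module k Y] (θ : ∀ q, V →ₗ[k] M q)
    (hθ : ∀ q, Function.Surjective (θ q)) (Ψ : (Q → V) →ₗ[k] Y)
    (h : ∀ a, Ψ a = 0 → ∀ q, θ q (a q) = 0) :
    ∑ q, Module.finrank k (M q) ≤ Module.finrank k (LinearMap.range Ψ) := by
  let Θ : (Q → V) →ₗ[k] (∀ q, M q) := LinearMap.pi (fun q => θ q ∘ₗ LinearMap.proj q)
  have hΘs : Function.Surjective Θ := by
    intro b
    choose v hv using fun q => hθ q (b q)
    exact ⟨v, funext hv⟩
  have h1 := BzC_lin Θ Ψ (by
    intro a ha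
    rw [LinearMap.mem_ker] at ha ⊢
    funext q
    exact h a ha q)
  rw [LinearMap.range_eq_top.mpr hΘs, finrank_top, Module.finrank_pi_fintype] at h1
  exact h1

/-- Additivity.  Choose separating elements `g_q` (`exists_separating`), of degree at most `T₀` in each
variable.  The linear map from the product of the images `A_T(q)` of the polynomials of degree at most
`T` in `R/q` to `R / inf Q` which maps the family of the classes of `a_q` to the class of
`sum_q g_q a_q` is well defined (`g_q q` is contained in all members of `Q`), has image in the image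
`A_(T+T₀)(inf Q)` and is injective: if `sum_q g_q a_q` is in `q'` then `g_q' a_q'` is in `q'`, so
`a_q'` is in `q'`.  Hence `sum_q hf q T <= hf (inf Q) (T+T₀) <= hf I (T+T₀)` by `hf_anti`.
(It may be easier to choose bases: for every `q` polynomials of degree at most `T` whose classes are a
basis of `A_T(q)`, and to show that the products with `g_q` are linearly independent modulo
`inf Q`.) -/
theorem hf_add (I : Ideal (MvPolynomial ι k)) (Q : Finset (Ideal (MvPolynomial ι k)))
    (hQ : ∀ q ∈ Q, q.IsPrime ∧ I ≤ q) (hinc : ∀ q ∈ Q, ∀ q' ∈ Q, q ≤ q' → q = q') :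
    ∃ T₀ : ℕ, ∀ T : ℕ, ∑ q ∈ Q, hf q T ≤ hf I (T + T₀) := by
  have hsep : ∀ q : {q // q ∈ Q}, ∃ g : MvPolynomial ι k,
      g ∉ q.1 ∧ ∀ q' ∈ Q, q' ≠ q.1 → g ∈ q' :=
    fun q => exists_separating Q (fun q hq => (hQ q hq).1) hinc q.2
  choose g hg1 hg2 using hsep
  refine ⟨Finset.univ.sup (fun q : {q // q ∈ Q} =>
    Finset.univ.sup (fun i : ι => (g q).degreeOf i)), ?_⟩
  intro T
  set T₀ := Finset.univ.sup (fun q : {q // q ∈ Q} =>
    Finset.univ.sup (fun i : ι => (g q).degreeOf i)) with hT₀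
  have hdeg : ∀ q : {q // q ∈ Q}, ∀ i, (g q).degreeOf i ≤ T₀ := by
    intro q i
    calc (g q).degreeOf i ≤ Finset.univ.sup (fun i : ι => (g q).degreeOf i) :=
          Finset.le_sup (f := fun i : ι => (g q).degreeOf i) (Finset.mem_univ i)
      _ ≤ T₀ := Finset.le_sup (f := fun q : {q // q ∈ Q} =>
          Finset.univ.sup (fun i : ι => (g q).degreeOf i)) (Finset.mem_univ q)
  have := finite_restrictDegree (k := k) (ι := ι) T
  have := finite_restrictDegree (k := k) (ι := ι) (T + T₀)
  set V := MvPolynomial.restrictDegree ι k T with hV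
  let θ : ∀ q : {q // q ∈ Q}, V →ₗ[k] (MvPolynomial ι k ⧸ q.1) := fun q =>
    (Ideal.Quotient.mkₐ k q.1).toLinearMap ∘ₗ V.subtype
  have hθ : ∀ q, Module.finrank k (LinearMap.range (θ q)) = hf q.1 T := by
    intro q
    have : LinearMap.range (θ q)
        = Submodule.map (Ideal.Quotient.mkₐ k q.1).toLinearMap V := by
      show LinearMap.range ((Ideal.Quotient.mkₐ k q.1).toLinearMap ∘ₗ V.subtype) = _
      rw [LinearMap.range_comp, Submodule.range_subtype]
    rw [this]
    rfl
  let Ψ : ({q // q ∈ Q} → V) →ₗ[k] (MvPolynomial ι k ⧸ I) :=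
    ∑ q : {q // q ∈ Q}, (Ideal.Quotient.mkₐ k I).toLinearMap ∘ₗ
      (LinearMap.mulLeft k (g q)) ∘ₗ V.subtype ∘ₗ LinearMap.proj q
  have hΨ : ∀ a : {q // q ∈ Q} → V,
      Ψ a = Ideal.Quotient.mk I (∑ q : {q // q ∈ Q}, g q * (a q : MvPolynomial ι k)) := by
    intro a
    show (∑ q : {q // q ∈ Q}, (Ideal.Quotient.mkₐ k I).toLinearMap ∘ₗ
      (LinearMap.mulLeft k (g q)) ∘ₗ V.subtype ∘ₗ LinearMap.proj q) a = _
    rw [LinearMap.sum_apply, map_sum]
    rfl
  have hker : ∀ a, Ψ a = 0 → ∀ q', (θ q').rangeRestrict (a q') = 0 := by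
    intro a ha q'
    rw [hΨ, Ideal.Quotient.eq_zero_iff_mem] at ha
    apply Subtype.ext
    show Ideal.Quotient.mk q'.1 (a q' : MvPolynomial ι k) = 0
    rw [Ideal.Quotient.eq_zero_iff_mem]
    have h1 : (∑ q : {q // q ∈ Q}, g q * (a q : MvPolynomial ι k)) ∈ q'.1 :=
      (hQ q'.1 q'.2).2 ha
    rw [← Finset.add_sum_erase _ _ (Finset.mem_univ q')] at h1
    have h2 : (∑ q ∈ Finset.univ.erase q', g q * (a q : MvPolynomial ι k)) ∈ q'.1 := by
      apply Ideal.sum_mem
      intro q hq
      apply Ideal.mul_mem_right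
      apply hg2 q q'.1 q'.2
      intro h
      exact (Finset.mem_erase.mp hq).1 (Subtype.ext h.symm)
    have h3 : g q' * (a q' : MvPolynomial ι k) ∈ q'.1 := by
      have := Ideal.sub_mem _ h1 h2
      rwa [add_sub_cancel_right] at this
    exact ((hQ q'.1 q'.2).1.mem_or_mem h3).resolve_left (hg1 q')
  have hmain := BzC_pi (Q := {q // q ∈ Q}) (V := V)
    (M := fun q : {q // q ∈ Q} => (LinearMap.range (θ q) : Type))
    (fun q => (θ q).rangeRestrict)
    (fun q => (θ q).surjective_rangeRestrict) Ψ hker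
  have hrange : LinearMap.range Ψ ≤ Submodule.map (Ideal.Quotient.mkₐ k I).toLinearMap
      (MvPolynomial.restrictDegree ι k (T + T₀)) := by
    rintro x ⟨a, rfl⟩
    rw [hΨ]
    refine ⟨∑ q : {q // q ∈ Q}, g q * (a q : MvPolynomial ι k), ?_, rfl⟩
    apply Submodule.sum_mem
    intro q _
    rw [BzC_mem]
    intro i
    have h1 := MvPolynomial.degreeOf_mul_le i (g q) (a q : MvPolynomial ι k)
    have h2 := hdeg q i
    have h3 : (a q : MvPolynomial ι k).degreeOf i ≤ T := (BzC_mem.mp (a q).2) i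
    omega
  have hfin : Module.finrank k (LinearMap.range Ψ) ≤ hf I (T + T₀) :=
    Submodule.finrank_mono hrange
  have hsum : ∑ q : {q // q ∈ Q}, Module.finrank k (LinearMap.range (θ q)) = ∑ q ∈ Q, hf q T := by
    rw [← Finset.sum_coe_sort Q (fun q => hf q T)]
    exact Finset.sum_congr rfl (fun q _ => hθ q)
  rw [← hsum]
  exact hmain.trans hfin
end PCL

end
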