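import Pool.Agent.W_52423f_h70.BezDefs

/-!
# Relative height and Krull's principal ideal theorem
-/

open scoped Classical

noncomputable section

namespace PCL

section

/-- Chains of primes downstairs from the height upstairs, along a surjection. -/
theorem BzD_chain {R S : Type} [CommRing R] [CommRing S] (φ : R →+* S)
    (hφ : Function.Surjective φ) {m : Ideal R} (hm : m.IsPrime) (hk : RingHom.ker φ ≤ m) {r : ℕ}
    (h : (r : ℕ∞) ≤ (m.map φ).height) :
    ∃ c : Fin (r + 1) → Ideal R, StrictMono c ∧ (∀ i, (c i).IsPrime) ∧ RingHom.ker φ ≤ c 0 ∧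
      c (Fin.last r) = m := by
  have hP : (m.map φ).IsPrime := Ideal.map_isPrime_of_surjective hφ hk
  have h1 : (r : ℕ∞) ≤ Order.height (⟨m.map φ, hP⟩ : PrimeSpectrum S) := by
    rw [← PrimeSpectrum.height_eq_orderHeight]; exact h
  obtain ⟨l, hl, hlen⟩ := Order.exists_series_of_le_height _ h1
  subst hlen
  refine ⟨fun i => ((l i).asIdeal).comap φ, ?_, ?_, ?_, ?_⟩
  · intro i j hij
    have h2 : l i < l j := l.strictMono hij
    have h3 : (l i).asIdeal < (l j).asIdeal := h2
    refine lt_of_le_of_ne (Ideal.comap_mono h3.le) ?_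
    intro h4
    have h5 := Ideal.comap_injective_of_surjective φ hφ h4
    exact h3.ne h5
  · intro i
    haveI := (l i).isPrime
    exact Ideal.comap_isPrime φ _
  · intro x hx
    rw [RingHom.mem_ker] at hx
    show φ x ∈ (l 0).asIdeal
    rw [hx]; exact Ideal.zero_mem _
  · have h6 : l (Fin.last l.length) = ⟨m.map φ, hP⟩ := hl
    show ((l (Fin.last l.length)).asIdeal).comap φ = m
    rw [h6]
    show (m.map φ).comap φ = m
    rw [Ideal.comap_map_of_surjective' φ hφ]
    exact sup_eq_left.mpr hk

variable {R : Type} [CommRing R]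

theorem RelHt.le {p m : Ideal R} {r : ℕ} (h : RelHt p m r) : p ≤ m := by
  obtain ⟨c, hc, _, h0, h1⟩ := h
  calc p ≤ c 0 := h0
    _ ≤ c (Fin.last r) := hc.monotone (Fin.zero_le _)
    _ = m := h1

/-- For a chain of positive length the two ends are different. -/
theorem RelHt.ne {p m : Ideal R} {r : ℕ} (h : RelHt p m (r + 1)) : p ≠ m := by
  obtain ⟨c, hc, _, h0, h1⟩ := h
  have h2 : c 0 < c (Fin.last (r + 1)) := hc (Fin.last_pos)
  rw [h1] at h2
  exact (lt_of_le_of_lt h0 h2).ne

/-- A shorter chain. -/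
theorem RelHt.pred {p m : Ideal R} {r : ℕ} (h : RelHt p m (r + 1)) : RelHt p m r := by
  obtain ⟨c, hc, hp, h0, h1⟩ := h
  refine ⟨fun i => c i.succ, ?_, ?_, ?_, ?_⟩
  · intro i j hij
    exact hc (Fin.succ_lt_succ_iff.mpr hij)
  · intro i
    exact hp _
  · exact h0.trans (hc.monotone (Fin.zero_le _))
  · show c (Fin.last r).succ = m
    rw [Fin.succ_last]; exact h1

/-- The relation with the height: if the ideal of `m` in `R / p` has height at least `r` then there is
a chain of length `r` between `p` and `m` (`Ideal.height_eq_primeHeight`, `Ideal.primeHeight` is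
`Order.height`, so there is an `LTSeries` of prime ideals of `R / p` of length `r` ending at the
image of `m`; take preimages). -/
theorem relHt_of_height {p m : Ideal R} (hp : p.IsPrime) (hm : m.IsPrime) (hpm : p ≤ m) {r : ℕ}
    (h : (r : ℕ∞) ≤ (m.map (Ideal.Quotient.mk p)).height) : RelHt p m r := by
  obtain ⟨c, hc, hp', h0, h1⟩ := BzD_chain (Ideal.Quotient.mk p) Ideal.Quotient.mk_surjective hm
    (by rw [Ideal.mk_ker]; exact hpm) h
  rw [Ideal.mk_ker] at h0
  exact ⟨c, hc, hp', h0, h1⟩

/-- The converse. -/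
theorem height_of_relHt {p m : Ideal R} (hp : p.IsPrime) (hm : m.IsPrime) {r : ℕ}
    (h : RelHt p m r) : (r : ℕ∞) ≤ (m.map (Ideal.Quotient.mk p)).height := by
  obtain ⟨c, hc, hcp, h0, h1⟩ := h
  have hle : ∀ i, p ≤ c i := fun i => h0.trans (hc.monotone (Fin.zero_le i))
  have hcomap : ∀ i, ((c i).map (Ideal.Quotient.mk p)).comap (Ideal.Quotient.mk p) = c i := by
    intro i
    rw [Ideal.comap_map_of_surjective' _ Ideal.Quotient.mk_surjective, Ideal.mk_ker]
    exact sup_eq_left.mpr (hle i)
  have hP : ∀ i, ((c i).map (Ideal.Quotient.mk p)).IsPrime := fun i =>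
    haveI := hcp i
    Ideal.map_isPrime_of_surjective Ideal.Quotient.mk_surjective
      (by rw [Ideal.mk_ker]; exact hle i)
  let F : Fin (r + 1) → PrimeSpectrum (R ⧸ p) := fun i => ⟨(c i).map (Ideal.Quotient.mk p), hP i⟩
  have hF : StrictMono F := by
    intro i j hij
    show (c i).map (Ideal.Quotient.mk p) < (c j).map (Ideal.Quotient.mk p)
    refine lt_of_le_of_ne (Ideal.map_mono (hc hij).le) ?_
    intro h2
    have h3 : c i = c j := by rw [← hcomap i, ← hcomap j, h2]
    exact (hc hij).ne h3
  have h4 : (r : ℕ∞) ≤ Order.height (F (Fin.last r)) := by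
    have := Order.length_le_height_last (p := LTSeries.mk r F hF)
    exact this
  have h5 := PrimeSpectrum.height_eq_orderHeight (F (Fin.last r))
  rw [← h5] at h4
  have h6 : (F (Fin.last r)).asIdeal = m.map (Ideal.Quotient.mk p) := by
    show (c (Fin.last r)).map (Ideal.Quotient.mk p) = m.map (Ideal.Quotient.mk p)
    rw [h1]
  rw [h6] at h4
  exact h4

end

end PCL

end
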