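import Pool.Agent.W_52423f_h70.BzB
import Pool.Agent.W_52423f_h70.BzC
import Pool.Agent.W_52423f_h70.BzD

/-!
# The induction step of the Bezout bound
-/

open scoped Classical

noncomputable section

namespace PCL

variable {k : Type} [Field k] {ι : Type} [Fintype ι]

/-- Choice of the polynomial: if `G` is contained in the prime `p` and some `m` which is a minimal prime
of the ideal generated by `G` has a chain of positive length above `p`, contradiction
(`p` contains the ideal generated by `G` and is contained in `m`, so `p = m`, `RelHt.ne`). -/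
theorem exists_cut {G : Set (MvPolynomial ι k)} {p m : Ideal (MvPolynomial ι k)} (hp : p.IsPrime)
    {r : ℕ} (hm : m ∈ (Ideal.span G).minimalPrimes) (h : RelHt p m (r + 1)) :
    ∃ f ∈ G, f ∉ p := by
  by_contra hcon
  push Not at hcon
  have h1 : Ideal.span G ≤ p := Ideal.span_le.2 hcon
  have h2 : p ≤ m := h.le
  have h3 : m ≤ p := hm.2 ⟨hp, h1⟩ h2
  exact h.ne (le_antisymm h2 h3)

/-- Growth of the new family: let `Q a` be a finite set of pairwise incomparable primes containing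
`p a + (f a)` for every `a`.  If the sum of the `hf (p a) T` is at most `δ T^(r+1)` for all large `T` then the
double sum of the `hf q T`, `q` in `Q a`, is at most `4^(r+1) δ D T^r` for all large `T`.  Proof: `hf_add`
for every `a`, let `T₀` be the maximum of the shifts, `T' = T + T₀ <= 2 T`.  Then `T'` times the sum is
at most `sum_a T' hf (p a + (f a)) T' <= 2 D sum_a hf (p a) (2 T') <= 2 D δ (2 T')^(r+1)` by `hf_avg`;
divide by `T' > 0`: the sum is at most `2 D δ 2^(r+1) T'^r <= 2 D δ 2^(r+1) (2 T)^r`. -/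
theorem growth_step {α : Type} [Fintype α] (p : α → Ideal (MvPolynomial ι k))
    (hp : ∀ a, (p a).IsPrime) (f : α → MvPolynomial ι k) (hfp : ∀ a, f a ∉ p a) {D : ℕ}
    (hD1 : 1 ≤ D) (hD : ∀ a i, (f a).degreeOf i ≤ D)
    (Q : α → Finset (Ideal (MvPolynomial ι k)))
    (hQ : ∀ a, ∀ q ∈ Q a, q.IsPrime ∧ p a ⊔ Ideal.span {f a} ≤ q)
    (hinc : ∀ a, ∀ q ∈ Q a, ∀ q' ∈ Q a, q ≤ q' → q = q') {r δ : ℕ}
    (hgr : ∃ T₁ : ℕ, ∀ T, T₁ ≤ T → ∑ a, hf (p a) T ≤ δ * T ^ (r + 1)) :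
    ∃ T₁ : ℕ, ∀ T, T₁ ≤ T → ∑ a, ∑ q ∈ Q a, hf q T ≤ (4 ^ (r + 1) * δ * D) * T ^ r := by
  obtain ⟨T₁, hT₁⟩ := hgr
  choose T₀ hT₀ using fun a => hf_add (p a ⊔ Ideal.span {f a}) (Q a) (hQ a) (hinc a)
  set U : ℕ := ∑ a, T₀ a with hU
  refine ⟨T₁ + D + U, fun T hT => ?_⟩
  have hle : ∀ a, T₀ a ≤ U := fun a =>
    Finset.single_le_sum (f := T₀) (fun b _ => Nat.zero_le _) (Finset.mem_univ a)
  have h1 : ∑ a, ∑ q ∈ Q a, hf q T ≤ ∑ a, hf (p a ⊔ Ideal.span {f a}) (T + U) :=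
    Finset.sum_le_sum fun a _ => (hT₀ a T).trans (hf_mono _ (by have := hle a; omega))
  have h2 : (T + U) * ∑ a, hf (p a ⊔ Ideal.span {f a}) (T + U) ≤
      2 * D * (δ * (2 * (T + U)) ^ (r + 1)) := by
    calc (T + U) * ∑ a, hf (p a ⊔ Ideal.span {f a}) (T + U)
        = ∑ a, (T + U) * hf (p a ⊔ Ideal.span {f a}) (T + U) := Finset.mul_sum _ _ _
      _ ≤ ∑ a, 2 * D * hf (p a) (2 * (T + U)) :=
          Finset.sum_le_sum fun a _ => hf_avg (hp a) (hfp a) hD1 (hD a) (by omega)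
      _ = 2 * D * ∑ a, hf (p a) (2 * (T + U)) := (Finset.mul_sum _ _ _).symm
      _ ≤ 2 * D * (δ * (2 * (T + U)) ^ (r + 1)) :=
          Nat.mul_le_mul_left _ (hT₁ _ (by omega))
  have h3 : (T + U) * ∑ a, hf (p a ⊔ Ideal.span {f a}) (T + U) ≤
      (T + U) * (2 * D * δ * 2 ^ (r + 1) * (T + U) ^ r) := by
    refine h2.trans (le_of_eq ?_)
    rw [mul_pow, pow_succ (T + U) r]
    ring
  have h4 : ∑ a, hf (p a ⊔ Ideal.span {f a}) (T + U) ≤
      2 * D * δ * 2 ^ (r + 1) * (T + U) ^ r :=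
    Nat.le_of_mul_le_mul_left h3 (by omega)
  have h5 : (T + U) ^ r ≤ 2 ^ r * T ^ r := by
    rw [← mul_pow]
    exact Nat.pow_le_pow_left (by omega) r
  calc ∑ a, ∑ q ∈ Q a, hf q T ≤ 2 * D * δ * 2 ^ (r + 1) * (T + U) ^ r := h1.trans h4
    _ ≤ 2 * D * δ * 2 ^ (r + 1) * (2 ^ r * T ^ r) := Nat.mul_le_mul_left _ h5
    _ = (4 ^ (r + 1) * δ * D) * T ^ r := by
        rw [show (4 : ℕ) = 2 * 2 by norm_num, mul_pow, pow_succ 2 r]
        ring

end PCL

end
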