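import Pool.Agent.W_52423f_h70.BzS

/-!
# The Bezout bound for families
-/

open scoped Classical

noncomputable section

namespace PCL

variable {k : Type} [Field k] {ι : Type} [Fintype ι]

/-- The case `r = 0`: every `hf (p a)` is bounded by `δ` (it is monotone, `hf_mono`, and bounded for
large `T`), so if `Ms a` is not empty then `p a` is maximal (`maximal_of_hf_bounded`) and contained in
all members of `Ms a` (`RelHt.le`), so `Ms a` has at most one element, and `1 <= hf (p a) T`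
(`hf_pos`). -/
theorem bez_zero {α : Type} [Fintype α] (p : α → Ideal (MvPolynomial ι k))
    (Ms : α → Finset (Ideal (MvPolynomial ι k))) {δ : ℕ} (hp : ∀ a, (p a).IsPrime)
    (hM : ∀ a, ∀ m ∈ Ms a, m.IsMaximal ∧ RelHt (p a) m 0)
    (hgr : ∃ T₁ : ℕ, ∀ T, T₁ ≤ T → ∑ a, hf (p a) T ≤ δ) :
    ∑ a, (Ms a).card ≤ δ := by
  obtain ⟨T₁, hT₁⟩ := hgr
  have hb : ∀ a T, hf (p a) T ≤ δ := by
    intro a T
    calc hf (p a) T ≤ hf (p a) (max T T₁) := hf_mono _ (le_max_left _ _)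
      _ ≤ ∑ a, hf (p a) (max T T₁) :=
        Finset.single_le_sum (f := fun a => hf (p a) (max T T₁)) (fun _ _ => Nat.zero_le _)
          (Finset.mem_univ a)
      _ ≤ δ := hT₁ _ (le_max_right _ _)
  refine le_trans (Finset.sum_le_sum fun a _ => ?_) (hT₁ T₁ le_rfl)
  have hmax : (p a).IsMaximal := maximal_of_hf_bounded (hp a) δ (hb a)
  have hsub : Ms a ⊆ {p a} := by
    intro m hm
    obtain ⟨h1, h2⟩ := hM a m hm
    rw [Finset.mem_singleton]
    exact (hmax.eq_of_le h1.ne_top h2.le).symm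
  calc (Ms a).card ≤ ({p a} : Finset (Ideal (MvPolynomial ι k))).card := Finset.card_le_card hsub
    _ = 1 := Finset.card_singleton _
    _ ≤ hf (p a) T₁ := hf_pos (hp a).ne_top T₁

/-- Induction on `r` from `bez_zero` and `bez_step`:
`4^(r^2) * (4^(r+1) δ D) * D^r <= 4^((r+1)^2) δ D^(r+1)`. -/
theorem bez_aux (G : Set (MvPolynomial ι k)) {D : ℕ} (hD : 1 ≤ D)
    (hG : ∀ f ∈ G, ∀ i, f.degreeOf i ≤ D) (r : ℕ) :
    ∀ (δ : ℕ) (α : Type) (_ : Fintype α) (p : α → Ideal (MvPolynomial ι k))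
      (Ms : α → Finset (Ideal (MvPolynomial ι k))),
      (∀ a, (p a).IsPrime) →
      (∀ a, ∀ m ∈ Ms a, m.IsMaximal ∧ m ∈ (Ideal.span G).minimalPrimes ∧ RelHt (p a) m r) →
      (∃ T₁ : ℕ, ∀ T, T₁ ≤ T → ∑ a, hf (p a) T ≤ δ * T ^ r) →
      ∑ a, (Ms a).card ≤ 4 ^ (r ^ 2) * δ * D ^ r := by
  induction r with
  | zero =>
    intro δ α _ p Ms hp hM hgr
    have h := bez_zero p Ms (δ := δ) hp (fun a m hm => ⟨(hM a m hm).1, (hM a m hm).2.2⟩)
      (by simpa using hgr)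
    simpa using h
  | succ r ih =>
    intro δ α _ p Ms hp hM hgr
    obtain ⟨β, hβ, q, Ns, hq, hN, hg, hc⟩ := bez_step G hD hG p Ms hp hM hgr
    refine hc.trans ((ih (4 ^ (r + 1) * δ * D) β hβ q Ns hq hN hg).trans ?_)
    calc 4 ^ r ^ 2 * (4 ^ (r + 1) * δ * D) * D ^ r =
        4 ^ (r ^ 2 + (r + 1)) * δ * D ^ (r + 1) := by ring
      _ ≤ 4 ^ (r + 1) ^ 2 * δ * D ^ (r + 1) := by
        gcongr
        · norm_num
        · nlinarith

end PCL

end
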