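import Pool.Agent.W_52423f_h70.BzD

/-!
# Krull's principal ideal theorem for chains
-/

open scoped Classical

noncomputable section

namespace PCL

/-- Krull's principal ideal theorem.  Let `p` and `m` be primes of a Noetherian ring, `f` in `m` but not
in `p`, and suppose that there is a chain of length `r + 1` between `p` and `m`.  Then there is a minimal
prime `q` of `p + (f)`, contained in `m`, and a chain of length `r` between `q` and `m`.  In `R / p` the
ideal of `m` has height at least `r + 1` (`height_of_relHt`), contains the class of `f`, so by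
`Ideal.height_le_height_add_one_of_mem` its image in `(R / p) / (f)` has height at least `r`: there is a
chain of primes of `R / p` of length `r`, all containing the class of `f`, ending at `m / p`; take
preimages in `R`: a chain of primes containing `p + (f)`; the first one contains a minimal prime `q`
of `p + (f)` (`Ideal.exists_minimalPrimes_le`).  (The cases `r = 0` and chains are to be treated
uniformly.) -/
theorem relHt_step {R : Type} [CommRing R] [IsNoetherianRing R] {p m : Ideal R} (hp : p.IsPrime)
    (hm : m.IsPrime) {f : R} (hfp : f ∉ p) (hfm : f ∈ m) {r : ℕ} (h : RelHt p m (r + 1)) :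
    ∃ q ∈ (p ⊔ Ideal.span {f}).minimalPrimes, q ≤ m ∧ RelHt q m r := by
  have hpm : p ≤ m := h.le
  have h1 := height_of_relHt hp hm h
  set P : Ideal (R ⧸ p) := m.map (Ideal.Quotient.mk p) with hP
  haveI hPp : P.IsPrime := Ideal.map_isPrime_of_surjective Ideal.Quotient.mk_surjective
    (by rw [Ideal.mk_ker]; exact hpm)
  have hfP : Ideal.Quotient.mk p f ∈ P := Ideal.mem_map_of_mem _ hfm
  have h2 := Ideal.height_le_height_add_one_of_mem hfP
  set φ : R →+* ((R ⧸ p) ⧸ Ideal.span {Ideal.Quotient.mk p f}) :=
    (Ideal.Quotient.mk (Ideal.span {Ideal.Quotient.mk p f})).comp (Ideal.Quotient.mk p) with hφ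
  have hsurj : Function.Surjective φ :=
    Ideal.Quotient.mk_surjective.comp Ideal.Quotient.mk_surjective
  have hker : RingHom.ker φ = p ⊔ Ideal.span {f} := by
    rw [hφ, ← RingHom.comap_ker, Ideal.mk_ker]
    have h3 : Ideal.span {Ideal.Quotient.mk p f} = (Ideal.span {f}).map (Ideal.Quotient.mk p) := by
      rw [Ideal.map_span, Set.image_singleton]
    rw [h3, Ideal.comap_map_of_surjective' _ Ideal.Quotient.mk_surjective, Ideal.mk_ker, sup_comm]
  have hkm : RingHom.ker φ ≤ m := by
    rw [hker]
    exact sup_le hpm ((Ideal.span_singleton_le_iff_mem m).mpr hfm)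
  have hmap : m.map φ = P.map (Ideal.Quotient.mk (Ideal.span {Ideal.Quotient.mk p f})) := by
    rw [hφ, hP, Ideal.map_map]
  have h4 : (r : ℕ∞) ≤ (m.map φ).height := by
    rw [hmap]
    have h5 : ((r + 1 : ℕ) : ℕ∞) ≤
        (P.map (Ideal.Quotient.mk (Ideal.span {Ideal.Quotient.mk p f}))).height + 1 := h1.trans h2
    rw [Nat.cast_add, Nat.cast_one] at h5
    exact (ENat.add_le_add_iff_right (by simp)).mp h5
  obtain ⟨c, hc, hcp, h0, hl⟩ := BzD_chain φ hsurj hm hkm h4
  haveI := hcp 0
  rw [hker] at h0
  obtain ⟨q, hq, hqc⟩ := Ideal.exists_minimalPrimes_le h0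
  refine ⟨q, hq, ?_, c, hc, hcp, hqc, hl⟩
  calc q ≤ c 0 := hqc
    _ ≤ c (Fin.last r) := hc.monotone (Fin.zero_le _)
    _ = m := hl

end PCL

end
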