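import Pool.Agent.W_52423f_h70.BzE
import Pool.Agent.W_52423f_h70.BzK

/-!
# The induction step of the Bezout bound
-/

open scoped Classical

noncomputable section

namespace PCL

variable {k : Type} [Field k] {ι : Type} [Fintype ι]

/-- The induction step.  First discard all `a` with `Ms a` empty (this only decreases the sum of the
Hilbert functions).  For the others choose `f a` in `G`, not in `p a` (`exists_cut`); let `Q a` be the
finite set of minimal primes of `p a + (f a)` (`Ideal.finite_minimalPrimes_of_isNoetherianRing`;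
minimal primes are pairwise incomparable).  The new index type consists of the pairs `(a, q)` with `q`
in `Q a`, and `Ns (a, q)` is the set of all `m` in `Ms a` with `q <= m` and `RelHt q m r`.  By
`relHt_step` (`f a` is in `G`, so in `m`) the sets `Ns (a, q)`, `q` in `Q a`, cover `Ms a`.  The growth
condition is `growth_step`. -/
theorem bez_step (G : Set (MvPolynomial ι k)) {D : ℕ} (hD : 1 ≤ D)
    (hG : ∀ f ∈ G, ∀ i, f.degreeOf i ≤ D) {α : Type} [Fintype α]
    (p : α → Ideal (MvPolynomial ι k)) (Ms : α → Finset (Ideal (MvPolynomial ι k))) {r δ : ℕ}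
    (hp : ∀ a, (p a).IsPrime)
    (hM : ∀ a, ∀ m ∈ Ms a, m.IsMaximal ∧ m ∈ (Ideal.span G).minimalPrimes ∧
      RelHt (p a) m (r + 1))
    (hgr : ∃ T₁ : ℕ, ∀ T, T₁ ≤ T → ∑ a, hf (p a) T ≤ δ * T ^ (r + 1)) :
    ∃ (β : Type) (_ : Fintype β) (q : β → Ideal (MvPolynomial ι k))
      (Ns : β → Finset (Ideal (MvPolynomial ι k))),
      (∀ b, (q b).IsPrime) ∧
      (∀ b, ∀ m ∈ Ns b, m.IsMaximal ∧ m ∈ (Ideal.span G).minimalPrimes ∧ RelHt (q b) m r) ∧
      (∃ T₁ : ℕ, ∀ T, T₁ ≤ T → ∑ b, hf (q b) T ≤ (4 ^ (r + 1) * δ * D) * T ^ r) ∧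
      ∑ a, (Ms a).card ≤ ∑ b, (Ns b).card := by
  classical
  let α' := {a : α // (Ms a).Nonempty}
  have hcut : ∀ a : α', ∃ f ∈ G, f ∉ p a.1 := by
    rintro ⟨a, m, hm⟩
    obtain ⟨-, h2, h3⟩ := hM a m hm
    exact exists_cut (hp a) h2 h3
  choose f hfG hfp using hcut
  let Q : α' → Finset (Ideal (MvPolynomial ι k)) := fun a =>
    (Ideal.finite_minimalPrimes_of_isNoetherianRing _ (p a.1 ⊔ Ideal.span {f a})).toFinset
  have hQmem : ∀ (a : α') (q : Ideal (MvPolynomial ι k)),
      q ∈ Q a ↔ q ∈ (p a.1 ⊔ Ideal.span {f a}).minimalPrimes := by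
    intro a q
    exact Set.Finite.mem_toFinset _
  have hsub : ∀ g : α → ℕ, ∑ a : α', g a.1 ≤ ∑ a, g a := by
    intro g
    have h1 : ∑ a : α', g a.1 = ∑ a ∈ Finset.univ.filter fun a => (Ms a).Nonempty, g a := by
      symm
      apply Finset.sum_subtype
      intro x
      simp
    rw [h1]
    exact Finset.sum_le_sum_of_subset (Finset.filter_subset _ _)
  have hgr' : ∃ T₁ : ℕ, ∀ T, T₁ ≤ T → ∑ a : α', hf (p a.1) T ≤ δ * T ^ (r + 1) := by
    obtain ⟨T₁, hT⟩ := hgr
    exact ⟨T₁, fun T h => (hsub fun a => hf (p a) T).trans (hT T h)⟩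
  have hgs := growth_step (fun a : α' => p a.1) (fun a => hp a.1) f hfp hD
    (fun a i => hG (f a) (hfG a) i) Q
    (fun a q hq => ⟨((hQmem a q).1 hq).1.1, ((hQmem a q).1 hq).1.2⟩)
    (fun a q hq q' hq' hle => by
      have h1 := (hQmem a q).1 hq
      have h2 := (hQmem a q').1 hq'
      exact le_antisymm hle (h2.2 h1.1 hle))
    hgr'
  let β := (a : α') × {q // q ∈ Q a}
  let q : β → Ideal (MvPolynomial ι k) := fun b => b.2.1
  let Ns : β → Finset (Ideal (MvPolynomial ι k)) := fun b =>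
    (Ms b.1.1).filter fun m => q b ≤ m ∧ RelHt (q b) m r
  refine ⟨β, inferInstance, q, Ns, fun b => ((hQmem b.1 b.2.1).1 b.2.2).1.1, ?_, ?_, ?_⟩
  · intro b m hm
    obtain ⟨h1, -, h2⟩ := Finset.mem_filter.1 hm
    obtain ⟨h3, h4, -⟩ := hM b.1.1 m h1
    exact ⟨h3, h4, h2⟩
  · obtain ⟨T₁, hT⟩ := hgs
    refine ⟨T₁, fun T h => ?_⟩
    have h1 : ∑ b, hf (q b) T = ∑ a : α', ∑ q ∈ Q a, hf q T := by
      rw [Fintype.sum_sigma]
      refine Finset.sum_congr rfl fun a _ => ?_
      exact Finset.sum_coe_sort (Q a) fun q => hf q T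
    rw [h1]
    exact hT T h
  · have h1 : ∑ a, (Ms a).card = ∑ a : α', (Ms a.1).card := by
      have h2 : ∑ a : α', (Ms a.1).card =
          ∑ a ∈ Finset.univ.filter fun a => (Ms a).Nonempty, (Ms a).card := by
        symm
        apply Finset.sum_subtype
        intro x
        simp
      rw [h2]
      symm
      apply Finset.sum_subset (Finset.filter_subset _ _)
      intro a _ ha
      rw [Finset.card_eq_zero, ← Finset.not_nonempty_iff_eq_empty]
      intro hne
      exact ha (Finset.mem_filter.2 ⟨Finset.mem_univ _, hne⟩)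
    have h3 : ∑ b, (Ns b).card = ∑ a : α', ∑ q : {q // q ∈ Q a},
        ((Ms a.1).filter fun m => q.1 ≤ m ∧ RelHt q.1 m r).card := by
      rw [Fintype.sum_sigma]
    rw [h1, h3]
    refine Finset.sum_le_sum fun a _ => ?_
    have h4 : Ms a.1 ⊆ Finset.univ.biUnion fun q : {q // q ∈ Q a} =>
        (Ms a.1).filter fun m => q.1 ≤ m ∧ RelHt q.1 m r := by
      intro m hm
      obtain ⟨h5, h6, h7⟩ := hM a.1 m hm
      have h8 : f a ∈ m := h6.1.2 (Ideal.subset_span (hfG a))
      obtain ⟨q0, h9, h10, h11⟩ := relHt_step (hp a.1) h5.isPrime (hfp a) h8 h7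
      exact Finset.mem_biUnion.2 ⟨⟨q0, (hQmem a q0).2 h9⟩, Finset.mem_univ _,
        Finset.mem_filter.2 ⟨hm, h10, h11⟩⟩
    exact (Finset.card_le_card h4).trans Finset.card_biUnion_le

end PCL

end
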