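import Pool.Agent.W_52423f_h30.Defs
import Pool.Agent.W_52423f_h70.Defs

/-!
# The multihomogeneous evaluation and the ordinary one
-/

open scoped Classical

noncomputable section

namespace PCL

open Pool.Agent.PTwist

variable {K : Type} [Field K] {W : WeierstrassCurve K} {F : Type} [Field F] [Algebra K F]

/-- `1/x` of a point in terms of `xc`. -/
theorem iX_eq (w : Pt W F) : iX (WeierstrassCurve.baseChange W F) w = (xc w)⁻¹ := by
  rcases w with _ | ⟨x, y, h⟩
  · change (0 : F) = (0 : F)⁻¹
    rw [inv_zero]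
  · rfl

/-- the factor of one coordinate -/
theorem CaA_factor {D a : ℕ} (ha : a ≤ D) (w : Pt W F) (hw : w = 0 ∨ xc w ≠ 0) :
    w.xRep 1 ^ a * w.xRep 0 ^ (D - a) =
      (if w = 0 then 1 else xc w ^ D) * (iX (WeierstrassCurve.baseChange W F) w) ^ a := by
  rw [iX_eq]
  rcases w with _ | ⟨x, y, h⟩
  · have h0 : (WeierstrassCurve.Affine.Point.zero : Pt W F) = 0 := rfl
    rw [h0, if_pos rfl, WeierstrassCurve.Affine.Point.xRep_zero]
    have h1 : xc (0 : Pt W F) = 0 := rfl
    rw [h1, inv_zero]
    simp
  · have hne : (WeierstrassCurve.Affine.Point.some x y h : Pt W F) ≠ 0 := by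
      intro h0
      cases h0
    rw [if_neg hne, WeierstrassCurve.Affine.Point.xRep_some]
    have h1 : xc (WeierstrassCurve.Affine.Point.some x y h : Pt W F) = x := rfl
    rw [h1] at hw ⊢
    have hx : x ≠ 0 := hw.resolve_left hne
    have hD : x ^ D = x ^ (D - a) * x ^ a := by
      rw [← pow_add, Nat.sub_add_cancel ha]
    simp only [Matrix.cons_val_one, Matrix.cons_val_zero, one_pow, one_mul]
    rw [hD, mul_assoc, ← mul_pow, mul_inv_cancel₀ hx, one_pow, mul_one]

/-- If no coordinate of `w` has `x = 0` then `Van D P w` says that `P` vanishes at the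
`1/x(w_j)`: for `w_j` not the origin the factor `1^α x^(D-α)` is `x^D (1/x)^α`, for `w_j` the origin
`xRep = (1, 0)` and the factor is `0^α`, so the value of `hEval` is the product of the `x(w_j)^D` over
the `w_j` different from the origin times the value of `P`. -/
theorem van_iff {m D : ℕ} {P : MvPolynomial (Fin m) K} (hdeg : ∀ j, P.degreeOf j ≤ D)
    {w : Fin m → Pt W F} (hw : ∀ j, w j = 0 ∨ xc (w j) ≠ 0) :
    Van D P w ↔
      MvPolynomial.aeval (fun j => iX (WeierstrassCurve.baseChange W F) (w j)) P = 0 := by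
  have key : hEval D P (fun i => (w i).xRep) =
      (∏ i, (if w i = 0 then 1 else xc (w i) ^ D)) *
        MvPolynomial.aeval (fun j => iX (WeierstrassCurve.baseChange W F) (w j)) P := by
    unfold hEval
    rw [MvPolynomial.aeval_def, MvPolynomial.eval₂_eq', Finset.mul_sum]
    refine Finset.sum_congr rfl fun α hα => ?_
    have h1 : ∏ i, ((w i).xRep 1 ^ α i * (w i).xRep 0 ^ (D - α i)) =
        (∏ i, (if w i = 0 then 1 else xc (w i) ^ D)) *
          ∏ i, iX (WeierstrassCurve.baseChange W F) (w i) ^ α i := by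
      rw [← Finset.prod_mul_distrib]
      refine Finset.prod_congr rfl fun i _ => ?_
      exact CaA_factor ((MvPolynomial.monomial_le_degreeOf i hα).trans (hdeg i)) (w i) (hw i)
    rw [h1]
    ring
  have hc : (∏ i, (if w i = 0 then (1 : F) else xc (w i) ^ D)) ≠ 0 := by
    refine Finset.prod_ne_zero_iff.2 fun i _ => ?_
    split_ifs with h0
    · exact one_ne_zero
    · exact pow_ne_zero _ ((hw i).resolve_left h0)
  unfold Van
  rw [key, mul_eq_zero]
  exact or_iff_right hc

end PCL

end
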