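import Mathlib

/-!
# A maximal set of independent logarithm vectors
-/

open scoped Classical

noncomputable section

namespace PCL

/-- Let `z_1, ..., z_m` be vectors over a `ℚ_p`-algebra `K`.  A maximal `ℚ_p`-independent subfamily
`z_(I 1), ..., z_(I r)` spans the same `ℚ_p`-space (`exists_linearIndependent` or
`Submodule.exists_fun_fin_finrank_span_eq`, `finrank` of the span); write the other vectors as
combinations with coefficients in `ℚ_p` and multiply by a power `p^k` which makes the finitely many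
coefficients integral. -/
theorem exists_independent (p : ℕ) [Fact p.Prime] {K : Type} [Field K] [Algebra ℚ_[p] K] {T : Type}
    {m : ℕ} (z : Fin m → T → K) :
    ∃ (r k : ℕ) (I : Fin r → Fin m) (c : Fin m → Fin r → ℤ_[p]), r ≤ m ∧
      (∀ j t, (p : K) ^ k * z j t =
        ∑ l, algebraMap ℚ_[p] K (c j l : ℚ_[p]) * z (I l) t) ∧
      ∀ a : Fin r → ℤ_[p], (∀ t, ∑ l, algebraMap ℚ_[p] K (a l : ℚ_[p]) * z (I l) t = 0) →
        a = 0 := by
  obtain ⟨κ, a, ha, hspan, hli⟩ := exists_linearIndependent' ℚ_[p] z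
  have hfin : Finite κ := Finite.of_injective a ha
  have := Fintype.ofFinite κ
  let e : κ ≃ Fin (Fintype.card κ) := Fintype.equivFin κ
  set r := Fintype.card κ with hr
  have hrm : r ≤ m := by
    have h1 := Fintype.card_le_of_injective a ha
    rwa [Fintype.card_fin] at h1
  set I : Fin r → Fin m := fun l => a (e.symm l) with hI
  have hli' : LinearIndependent ℚ_[p] (fun l => z (I l)) :=
    (linearIndependent_equiv e.symm (f := z ∘ a)).2 hli
  have hrange : Set.range (fun l => z (I l)) = Set.range (z ∘ a) := by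
    ext x
    constructor
    · rintro ⟨l, rfl⟩
      exact ⟨e.symm l, rfl⟩
    · rintro ⟨i, rfl⟩
      exact ⟨e i, by simp [hI]⟩
  have hmem : ∀ j, ∃ b : Fin r → ℚ_[p], ∑ l, b l • z (I l) = z j := by
    intro j
    have h1 : z j ∈ Submodule.span ℚ_[p] (Set.range fun l => z (I l)) := by
      rw [hrange, hspan]
      exact Submodule.subset_span ⟨j, rfl⟩
    exact (Submodule.mem_span_range_iff_exists_fun ℚ_[p]).1 h1
  choose b hb using hmem
  obtain ⟨B, hB⟩ := Finite.exists_le fun q : Fin m × Fin r => ‖b q.1 q.2‖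
  have hp1 : (1 : ℝ) < p := by exact_mod_cast (Fact.out : p.Prime).one_lt
  obtain ⟨k, hk⟩ := pow_unbounded_of_one_lt B hp1
  have hc : ∀ j l, ‖(p : ℚ_[p]) ^ k * b j l‖ ≤ 1 := by
    intro j l
    have hpk : (0 : ℝ) < (p : ℝ) ^ k := by positivity
    rw [norm_mul, norm_pow, Padic.norm_p, inv_pow]
    have h1 : ‖b j l‖ ≤ (p : ℝ) ^ k := (hB (j, l)).trans hk.le
    rw [inv_mul_le_iff₀ hpk, mul_one]
    exact h1
  refine ⟨r, k, I, fun j l => ⟨(p : ℚ_[p]) ^ k * b j l, hc j l⟩, hrm, ?_, ?_⟩
  · intro j t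
    have h1 := congrFun (hb j) t
    rw [Finset.sum_apply] at h1
    rw [← h1, Finset.mul_sum]
    refine Finset.sum_congr rfl fun l _ => ?_
    rw [Pi.smul_apply, Algebra.smul_def, map_mul, map_pow, map_natCast, mul_assoc]
  · intro a' ha'
    have h1 := Fintype.linearIndependent_iff.1 hli' (fun l => ((a' l : ℤ_[p]) : ℚ_[p])) (by
      funext t
      rw [Finset.sum_apply, Pi.zero_apply, ← ha' t]
      refine Finset.sum_congr rfl fun l _ => ?_
      rw [Pi.smul_apply, Algebra.smul_def])
    funext l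
    exact Subtype.ext (h1 l)

end PCL

end
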