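import Pool.Agent.W_52423f_h30.ClosC

/-!
# The rank of the closure, when the logarithms may be dependent
-/

namespace PCL

open Pool.Agent.PTwist WeierstrassCurve WeierstrassCurve.Affine PowerSeries

variable {K : Type*} [NontriviallyNormedField K] [CompleteSpace K] [IsUltrametricDist K]
  [IsAlgClosed K] [DecidableEq K] {p : ℕ} [Fact p.Prime] [NormedAlgebra ℚ_[p] K]
  {T : Type*} [Finite T] (C : T → WeierstrassCurve K) [∀ t, (C t).IsElliptic]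
  {r₀ : T → ℝ} {d : ℕ} {z : Fin d → T → K}

/-- Finitely many cosets: the proof is that of `Clos_finite` in `W_52423f_h30/ClosC`.  Let
`h ∈ clos C S`; for every `k : ℕ` there are `s k ∈ A`, `a k : Fin d → ℤ_[p]` with
`h - (s k + φ (a k))` near (with `R = k`).  Some `s ∈ A` occurs infinitely often and the `a k` (for
these `k`) have a subsequence converging in the compact space `ℤ_p ^ d` to `a`.  Then
`h - s - φ a = (h - s - φ (a k)) + φ (a k - a)` is near for every `R` (`near_add`, `Clos_cont`), so it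
is `0` (`near_eq_zero`). -/
theorem clos_finite (hLC : ∀ t, LC p (C t).b₂ (C t).b₄ (C t).b₆ (r₀ t))
    (hz : ∀ j t, ‖z j t‖ ≤ rad (r₀ t))
    {φ : (Fin d → ℤ_[p]) →+ ((t : T) → (C t).toAffine.Point)}
    (hφ : ∀ a t, φ a t = expPt (C t) (∑ j, algebraMap ℚ_[p] K (a j : ℚ_[p]) * z j t))
    {S : Set ((t : T) → (C t).toAffine.Point)}
    {A : Finset ((t : T) → (C t).toAffine.Point)} (hS : ∀ x ∈ S, ∃ s ∈ A, ∃ a, x = s + φ a)
    {h : (t : T) → (C t).toAffine.Point} (hh : h ∈ clos C S) : ∃ s ∈ A, ∃ a, h = s + φ a := by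
  classical
  have hp : (0 : ℝ) < (p : ℝ) := by exact_mod_cast (Fact.out : p.Prime).pos
  -- the approximations
  have hex : ∀ k : ℕ, ∃ s : (t : T) → (C t).toAffine.Point, ∃ m : Fin d → ℤ_[p],
      s ∈ A ∧ ∀ t, Near (C t) (k : ℝ) (h t - (s + φ m) t) := by
    intro k
    obtain ⟨x, hx, hn⟩ := hh (k : ℝ)
    obtain ⟨s, hs, m, hm⟩ := hS x hx
    exact ⟨s, m, hs, fun t => by rw [← hm]; exact hn t⟩
  choose s mm hs hnear using hex
  -- some `s ∈ A` occurs infinitely often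
  have hfr : ∃ s₀ ∈ A, ∃ᶠ k in Filter.atTop, s k = s₀ := by
    by_contra hcon
    have h1 : ∀ s₀ ∈ A, ∀ᶠ k in Filter.atTop, s k ≠ s₀ := by
      intro s₀ hs₀
      by_contra h2
      exact hcon ⟨s₀, hs₀, fun h3 => h2 h3⟩
    have h2 : ∀ᶠ k in Filter.atTop, ∀ s₀ ∈ A, s k ≠ s₀ :=
      (Filter.eventually_all_finset A).2 h1
    obtain ⟨k, hk⟩ := h2.exists
    exact hk (s k) (hs k) rfl
  obtain ⟨s₀, hs₀, hfr⟩ := hfr
  -- a cluster point of the multiples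
  let F : Filter ℕ := Filter.atTop ⊓ Filter.principal {k | s k = s₀}
  have hF : F.NeBot := Filter.frequently_mem_iff_neBot.1 hfr
  obtain ⟨a, ha⟩ := exists_clusterPt_of_compactSpace (Filter.map mm F)
  have hclose : ∀ (K₀ k₀ : ℕ), ∃ k, k₀ ≤ k ∧ s k = s₀ ∧
      ∀ j, ‖(mm k - a) j‖ * (p : ℝ) ^ K₀ ≤ 1 := by
    intro K₀ k₀
    have hU : Metric.ball a ((p : ℝ) ^ K₀)⁻¹ ∈ nhds a :=
      Metric.ball_mem_nhds a (by positivity)
    have h1 : {k : ℕ | k₀ ≤ k ∧ s k = s₀} ∈ F := by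
      refine Filter.mem_inf_of_inter (Filter.mem_atTop k₀) (Filter.mem_principal_self _) ?_
      rintro k ⟨hk1, hk2⟩
      exact ⟨hk1, hk2⟩
    have h2 : mm '' {k : ℕ | k₀ ≤ k ∧ s k = s₀} ∈ Filter.map mm F :=
      Filter.image_mem_map h1
    obtain ⟨x, hx1, hx2⟩ := clusterPt_iff_nonempty.1 ha hU h2
    obtain ⟨k, ⟨hk1, hk2⟩, rfl⟩ := hx2
    refine ⟨k, hk1, hk2, fun j => ?_⟩
    have h3 : dist (mm k j) (a j) ≤ dist (mm k) a := dist_le_pi_dist _ _ j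
    have h4 : dist (mm k) a < ((p : ℝ) ^ K₀)⁻¹ := hx1
    rw [dist_eq_norm] at h3
    have h5 : ‖mm k j - a j‖ ≤ ((p : ℝ) ^ K₀)⁻¹ := h3.trans h4.le
    calc ‖(mm k - a) j‖ * (p : ℝ) ^ K₀ = ‖mm k j - a j‖ * (p : ℝ) ^ K₀ := rfl
      _ ≤ ((p : ℝ) ^ K₀)⁻¹ * (p : ℝ) ^ K₀ := by gcongr
      _ = 1 := inv_mul_cancel₀ (by positivity)
  refine ⟨s₀, hs₀, a, funext fun t => ?_⟩
  have hzero : h t - s₀ t - φ a t = 0 := by
    refine near_eq_zero (C t) fun R => ?_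
    obtain ⟨R₀, hR₀⟩ := near_add (C t) p
    obtain ⟨K₀, hK₀⟩ := Clos_cont C hLC hz hφ (max R R₀)
    obtain ⟨k₀, hk₀⟩ := exists_nat_ge (max R R₀)
    obtain ⟨k, hk1, hk2, hk3⟩ := hclose K₀ k₀
    have n1 : Near (C t) (max R R₀) (h t - (s₀ + φ (mm k)) t) := by
      have := hnear k t
      rw [hk2] at this
      exact near_mono (C t) (hk₀.trans (by exact_mod_cast hk1)) this
    have n2 : Near (C t) (max R R₀) (φ (mm k - a) t) := hK₀ _ hk3 t
    have n3 := hR₀ (max R R₀) (le_max_right _ _) _ _ n1 n2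
    have e2 : h t - (s₀ + φ (mm k)) t + φ (mm k - a) t = h t - s₀ t - φ a t := by
      rw [map_sub, Pi.sub_apply, Pi.add_apply]
      abel
    rw [e2] at n3
    exact near_mono (C t) (le_max_left _ _) n3
  rw [Pi.add_apply]
  rw [sub_sub, sub_eq_zero] at hzero
  exact hzero

/-- As `clos_hasRank` in `W_52423f_h30/Clos`, with `clos_finite` instead of `Clos_finite`. -/
theorem clos_hasRank' (hLC : ∀ t, LC p (C t).b₂ (C t).b₄ (C t).b₆ (r₀ t))
    (hz : ∀ j t, ‖z j t‖ ≤ rad (r₀ t))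
    (hind : ∀ a : Fin d → ℤ_[p],
      (∀ t, ∑ j, algebraMap ℚ_[p] K (a j : ℚ_[p]) * z j t = 0) → a = 0)
    {u : Fin d → (t : T) → (C t).toAffine.Point} (hu : ∀ j t, expPt (C t) (z j t) = u j t)
    {S : Set ((t : T) → (C t).toAffine.Point)} (hS₀ : ∀ m : Fin d → ℤ, ∑ j, m j • u j ∈ S)
    {A : Finset ((t : T) → (C t).toAffine.Point)}
    (hS : ∀ x ∈ S, ∃ s ∈ A, ∃ a : Fin d → ℤ_[p], ∀ t, x t = s t +
      expPt (C t) (∑ j, algebraMap ℚ_[p] K (a j : ℚ_[p]) * z j t)) :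
    HasRank C p d (clos C S) := by
  obtain ⟨φ, hφ⟩ := Clos_hom C hLC hz
  have hS' : ∀ x ∈ S, ∃ s ∈ A, ∃ a, x = s + φ a := by
    intro x hx
    obtain ⟨s, hs, a, ha⟩ := hS x hx
    refine ⟨s, hs, a, funext fun t => ?_⟩
    rw [Pi.add_apply, hφ a t]
    exact ha t
  exact ⟨φ, Clos_inj C hLC hz hφ hind, Clos_cont C hLC hz hφ, Clos_mem C hLC hz hφ hu hS₀, A,
    fun h hh => clos_finite C hLC hz hφ hS' hh⟩

end PCL
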