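import Pool.Agent.W_52423f_h30.ClosDefs

/-!
# The rank is well defined
-/

namespace PCL

open Pool.Agent.PTwist WeierstrassCurve WeierstrassCurve.Affine

variable {K : Type*} [NontriviallyNormedField K] [CompleteSpace K] [IsUltrametricDist K]
  [IsAlgClosed K] [DecidableEq K] {p : ℕ} [Fact p.Prime] [NormedAlgebra ℚ_[p] K]
  {T : Type*} [Finite T] (C : T → WeierstrassCurve K) [∀ t, (C t).IsElliptic]

theorem CrC_eq_zero {q : ℕ} [Fact q.Prime] (z : ℤ_[q]) (h : ∀ k : ℕ, ∃ c : ℤ_[q],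
    z = (q : ℤ_[q]) ^ k * c) : z = 0 := by
  by_contra hz
  have h1 : 0 < ‖z‖ := norm_pos_iff.2 hz
  obtain ⟨k, hk⟩ := PadicInt.exists_pow_neg_lt q h1
  obtain ⟨c, hc⟩ := h k
  have h2 : ‖z‖ ≤ (q : ℝ) ^ (-(k : ℤ)) := by
    rw [PadicInt.norm_le_pow_iff_mem_span_pow, Ideal.mem_span_singleton]
    exact ⟨c, hc⟩
  exact absurd hk (not_lt.2 h2)

theorem CrC_smul {q : ℕ} [Fact q.Prime] {d d' : ℕ} (f : (Fin d → ℤ_[q]) →+ (Fin d' → ℤ_[q]))
    (a : ℤ_[q]) (x : Fin d → ℤ_[q]) : f (a • x) = a • f x := by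
  funext j
  rw [← sub_eq_zero]
  apply CrC_eq_zero
  intro k
  have h1 := PadicInt.appr_spec k a
  rw [Ideal.mem_span_singleton] at h1
  obtain ⟨c, hc⟩ := h1
  have ha : a = ((a.appr k : ℕ) : ℤ_[q]) + (q : ℤ_[q]) ^ k * c := by
    rw [← hc]
    ring
  have hx : a • x = (a.appr k) • x + (q ^ k) • (c • x) := by
    funext i
    simp only [Pi.add_apply, Pi.smul_apply]
    simp only [smul_eq_mul, nsmul_eq_mul]
    push_cast
    linear_combination (x i) * ha
  have hf : f (a • x) = (a.appr k) • f x + (q ^ k) • f (c • x) := by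
    rw [hx, map_add, map_nsmul, map_nsmul]
  refine ⟨f (c • x) j - c * f x j, ?_⟩
  rw [hf]
  simp only [Pi.add_apply, Pi.smul_apply]
  simp only [smul_eq_mul, nsmul_eq_mul]
  push_cast
  linear_combination (-(f x j)) * ha

/-- An additive map from `ℤ_p^d` to `ℤ_p^d'` is `ℤ_p`-linear: it maps `p^k ℤ_p^d` into `p^k ℤ_p^d'`, so
it is continuous, and `ℤ` is dense in `ℤ_p`.  (For `a` in `ℤ_p` and `k` choose an integer `b` with
`a - b` in `p^k ℤ_p`: `f (a x) - a f x = f ((a - b) x) - (a - b) f x` is in `p^k ℤ_p^d'` for all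
`k`.)  Hence an injective one has `d ≤ d'`. -/
theorem le_of_injective {d d' : ℕ} (f : (Fin d → ℤ_[p]) →+ (Fin d' → ℤ_[p]))
    (hf : Function.Injective f) : d ≤ d' := by
  let g : (Fin d → ℤ_[p]) →ₗ[ℤ_[p]] (Fin d' → ℤ_[p]) :=
    { toFun := f
      map_add' := map_add f
      map_smul' := fun a x => CrC_smul f a x }
  have h1 := LinearMap.finrank_le_finrank_of_injective (f := g) hf
  rwa [Module.finrank_fin_fun, Module.finrank_fin_fun] at h1

theorem CrC_le {H : Set ((t : T) → (C t).toAffine.Point)} {d d' : ℕ}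
    (h : HasRank C p d H) (h' : HasRank C p d' H) : d ≤ d' := by
  classical
  obtain ⟨φ, hφ, -, hφH, -⟩ := h
  obtain ⟨φ', hφ', -, -, A, hA⟩ := h'
  let S : AddSubgroup (Fin d → ℤ_[p]) := φ'.range.comap φ
  have hs : ∀ x : Fin d → ℤ_[p], ∃ s : A, ∃ a, φ x = s.1 + φ' a := by
    intro x
    obtain ⟨s, hs, a, ha⟩ := hA (φ x) (hφH x)
    exact ⟨⟨s, hs⟩, a, ha⟩
  choose s a hsa using hs
  have hinj : Function.Injective fun q : (Fin d → ℤ_[p]) ⧸ S => s q.out := by
    intro q q' hqq
    have h1 := hsa q.out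
    have h2 := hsa q'.out
    have hqq' : s q.out = s q'.out := hqq
    rw [hqq'] at h1
    have h3 : -q.out + q'.out ∈ S := by
      change φ (-q.out + q'.out) ∈ φ'.range
      refine ⟨-a q.out + a q'.out, ?_⟩
      rw [map_add, map_neg, map_add, map_neg, h1, h2]
      abel
    have h4 := QuotientAddGroup.eq.2 h3
    rw [QuotientAddGroup.out_eq', QuotientAddGroup.out_eq'] at h4
    exact h4
  haveI : Finite ((Fin d → ℤ_[p]) ⧸ S) := Finite.of_injective _ hinj
  have hN : S.index ≠ 0 := AddSubgroup.index_ne_zero_of_finite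
  have hmem : ∀ x : Fin d → ℤ_[p], ∃ b, φ' b = φ (S.index • x) := fun x =>
    S.nsmul_index_mem x
  choose g hg using hmem
  let f : (Fin d → ℤ_[p]) →+ (Fin d' → ℤ_[p]) := AddMonoidHom.mk' g (by
    intro x y
    apply hφ'
    rw [map_add, hg, hg, hg, smul_add, map_add])
  refine le_of_injective f ?_
  intro x y hxy
  have h1 : g x = g y := hxy
  have h2 : φ (S.index • x) = φ (S.index • y) := by
    rw [← hg, ← hg, h1]
  have h3 := hφ h2
  funext i
  have h4 := congrFun h3 i
  simp only [Pi.smul_apply] at h4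
  simp only [nsmul_eq_mul] at h4
  exact mul_left_cancel₀ (Nat.cast_ne_zero.2 hN) h4

/-- The rank is unique.  Let `φ` and `φ'` be as in `HasRank` for `d` and `d'`.  The values of `φ` are in
`H`, so in finitely many cosets of the image of `φ'`: the subgroup of all `a` with `φ a` in the
image of `φ'` has finite index in `ℤ_p^d`, so it contains `N ℤ_p^d` for some `N > 0` (`N` the index).
As `φ'` is injective there is a homomorphism `f` with `φ (N a) = φ' (f a)`, injective because `φ` is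
injective and `N ≠ 0`.  So `d ≤ d'` by `le_of_injective`, and by symmetry `d = d'`. -/
theorem hasRank_unique {H : Set ((t : T) → (C t).toAffine.Point)} {d d' : ℕ}
    (h : HasRank C p d H) (h' : HasRank C p d' H) : d = d' :=
  le_antisymm (CrC_le C h h') (CrC_le C h' h)

end PCL
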