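import Pool.Agent.W_52423f_h99.DsQ

/-!
# The descent (interface; helper5)
-/

open scoped Classical

noncomputable section

namespace PCL

open Pool.Agent.PTwist WeierstrassCurve WeierstrassCurve.Affine

/-- The inequality for the twist.  `u j` are points of the twist over the rational numbers (`IsTw`),
independent over the integers, whose logarithms at one place are combinations with p-adic integral
coefficients of `r < m` vectors `ζ l`. -/
theorem descent {p : ℕ} [Fact p.Prime] {K : Type} [NontriviallyNormedField K] [CompleteSpace K]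
    [IsUltrametricDist K] [NormedAlgebra ℚ_[p] K] {M : Type} [Field M] [NumberField M]
    [IsGalois ℚ M] {W : WeierstrassCurve ℚ} [W.IsElliptic] [(W⁄M).IsElliptic]
    {n m r : ℕ} {ρ : (M ≃ₐ[ℚ] M) →* Matrix.GeneralLinearGroup (Fin n) ℤ} (hρ : Irr ρ)
    (hrm : r < m) {ι : M →+* K} {r₀ : ℝ} {u : Fin m → Fin n → (W⁄M).toAffine.Point}
    {c : Fin m → Fin r → ℤ_[p]} {ζ : Fin r → Fin n → K} (h : ExpData p (W⁄M) ι r₀ u c ζ)
    (hu : ∀ j, IsTw W ρ (u j)) (hind : ∀ t : Fin m → ℤ, ∑ j, t j • u j = 0 → t = 0) :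
    m * n ≤ r * (n + 2 * m) :=
  descent_Q hρ hrm h hu hind

end PCL

end
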