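import Mathlib

/-!
# Descent: conjugate subspaces and rational vectors
-/

open scoped Classical

noncomputable section

namespace PCL

variable {F M : Type} [Field F] [Field M] [Algebra F M]

/-- The conjugate `g U` of a subspace `U` of `M^m`. -/
def gsub {m : ℕ} (g : M ≃ₐ[F] M) (U : Submodule M (Fin m → M)) : Submodule M (Fin m → M) where
  carrier := {x | (fun j => g.symm (x j)) ∈ U}
  zero_mem' := by
    show (fun j => g.symm ((0 : Fin m → M) j)) ∈ U
    have h : (fun j => g.symm ((0 : Fin m → M) j)) = 0 := by
      funext j
      simp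
    rw [h]
    exact U.zero_mem
  add_mem' := by
    intro a b ha hb
    show (fun j => g.symm ((a + b) j)) ∈ U
    have h : (fun j => g.symm ((a + b) j)) = (fun j => g.symm (a j)) + (fun j => g.symm (b j)) := by
      funext j
      simp
    rw [h]
    exact U.add_mem ha hb
  smul_mem' := by
    intro c a ha
    show (fun j => g.symm ((c • a) j)) ∈ U
    have h : (fun j => g.symm ((c • a) j)) = g.symm c • (fun j => g.symm (a j)) := by
      funext j
      simp
    rw [h]
    exact U.smul_mem _ ha

theorem mem_gsub {m : ℕ} {g : M ≃ₐ[F] M} {U : Submodule M (Fin m → M)} {x : Fin m → M} :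
    x ∈ gsub g U ↔ (fun j => g.symm (x j)) ∈ U := Iff.rfl

/-- Conjugate subspaces have the same dimension (`LinearEquiv`-free version: the additive equivalence
`x ↦ g x` is semilinear, `rank_eq_of_equiv_equiv` or `Module.finrank` via a basis). -/
theorem finrank_gsub {m : ℕ} (g : M ≃ₐ[F] M) (U : Submodule M (Fin m → M)) :
    Module.finrank M (gsub g U) = Module.finrank M U := by
  let J : gsub g U ≃+ U :=
    { toFun := fun x => ⟨fun j => g.symm ((x : Fin m → M) j), x.2⟩
      invFun := fun y => ⟨fun j => g ((y : Fin m → M) j), by
        have h1 : (fun j => g.symm (g ((y : Fin m → M) j))) = (y : Fin m → M) := by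
          funext j
          exact g.symm_apply_apply _
        rw [mem_gsub, h1]
        exact y.2⟩
      left_inv := fun x => Subtype.ext (funext fun j => g.apply_symm_apply _)
      right_inv := fun y => Subtype.ext (funext fun j => g.symm_apply_apply _)
      map_add' := fun x y => Subtype.ext (funext fun j => map_add g.symm _ _) }
  have h := rank_eq_of_equiv_equiv (R := M) (R' := M) (fun a : M => g.symm a) J
    g.symm.bijective (fun r x => Subtype.ext (funext fun j => map_mul g.symm _ _))
  unfold Module.finrank
  rw [h]

/-- Galois descent: a nonzero subspace which is stable under the Galois group contains a nonzero rational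
vector: take `x` in `U`, `x_j` not `0`, and `a` with trace of `a x_j` not zero
(`Algebra.trace_surjective` or nondegeneracy of the trace form); the vector of the traces
`sum_g g(a x_i)` is in `U`. -/
theorem exists_rational [FiniteDimensional F M] [IsGalois F M] {m : ℕ}
    (U : Submodule M (Fin m → M)) (hU : U ≠ ⊥) (hG : ∀ g : M ≃ₐ[F] M, gsub g U = U) :
    ∃ a : Fin m → F, a ≠ 0 ∧ (fun j => algebraMap F M (a j)) ∈ U := by
  obtain ⟨x, hx, hx0⟩ := Submodule.exists_mem_ne_zero_of_ne_bot hU
  obtain ⟨j, hj⟩ := Function.ne_iff.1 hx0
  have hj' : x j ≠ 0 := hj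
  obtain ⟨b, hb⟩ := Algebra.trace_surjective F M 1
  refine ⟨fun i => Algebra.trace F M (b / x j * x i), ?_, ?_⟩
  · intro h0
    have h1 := congrFun h0 j
    have h2 : b / x j * x j = b := div_mul_cancel₀ b hj'
    simp only [h2, hb, Pi.zero_apply] at h1
    exact one_ne_zero h1
  · have h1 : (fun i => algebraMap F M (Algebra.trace F M (b / x j * x i))) =
        ∑ g : M ≃ₐ[F] M, fun i => g (((b / x j) • x) i) := by
      funext i
      rw [trace_eq_sum_automorphisms, Finset.sum_apply]
      rfl
    rw [h1]
    refine Submodule.sum_mem _ fun g _ => ?_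
    have h2 : (b / x j) • x ∈ U := U.smul_mem _ hx
    rw [← hG g, mem_gsub]
    have h3 : (fun i => g.symm (g (((b / x j) • x) i))) = (b / x j) • x := by
      funext i
      exact g.symm_apply_apply _
    rw [h3]
    exact h2

end PCL

end
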