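import Pool.Agent.W_52423f_h30.Schwarz
import Pool.Agent.W_52423f_h30.EvB

/-!
# Descent: derivatives
-/

open scoped Classical

noncomputable section

namespace PCL

open Pool.Agent.PTwist PowerSeries

variable {K : Type} [NontriviallyNormedField K] [CompleteSpace K] [IsUltrametricDist K]

theorem DsB_div {ρ c r : ℝ} (hρ : 0 ≤ ρ) (hr : ρ * r < 1) {F : PowerSeries K}
    (hF : Bd ρ c F) {w : K} (hw : ‖w‖ ≤ r) :
    ∃ H : PowerSeries K, Bd ρ (c * ρ) H ∧ F = (X - C w) * H + C (ev F w) ∧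
      ∀ z : K, ‖z‖ ≤ r → ev F z = (z - w) * ev H z + ev F w := by
  have hlt : ∀ z : K, ‖z‖ ≤ r → ρ * ‖z‖ < 1 := fun z hz =>
    lt_of_le_of_lt (mul_le_mul_of_nonneg_left hz hρ) hr
  have ha : ‖ev F w‖ ≤ c := norm_ev_le hρ hF (hlt w hw)
  have hC : Bd ρ c (C (ev F w) : PowerSeries K) := Bd.const hρ ha
  have h0 : ev (F - C (ev F w)) w = 0 := by
    rw [ev_sub hρ hF hC (hlt w hw), ev_C, sub_self]
  obtain ⟨H, hH, hFH⟩ := exists_div hρ hr (hF.sub hC) hw h0
  refine ⟨H, hH, ?_, ?_⟩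
  · rw [← hFH, sub_add_cancel]
  · intro z hz
    have h1 : ev (F - C (ev F w)) z = ev F z - ev F w := by
      rw [ev_sub hρ hF hC (hlt z hz), ev_C]
    rw [hFH, Schwarz_ev_mul hρ hr hH w hz] at h1
    rw [h1, sub_add_cancel]

theorem DsB_near {r : ℝ} {z w : K} (h : dist z w < r - ‖w‖) : ‖z‖ < r := by
  have h1 : ‖z‖ ≤ ‖z - w‖ + ‖w‖ := by
    calc ‖z‖ = ‖(z - w) + w‖ := by rw [sub_add_cancel]
      _ ≤ ‖z - w‖ + ‖w‖ := norm_add_le _ _
  rw [dist_eq_norm] at h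
  linarith

theorem DsB_cont {ρ c r : ℝ} (hρ : 0 ≤ ρ) (hr : ρ * r < 1) {F : PowerSeries K}
    (hF : Bd ρ c F) {w : K} (hw : ‖w‖ < r) : ContinuousAt (fun z => ev F z) w := by
  obtain ⟨H, hH, -, hFH⟩ := DsB_div hρ hr hF hw.le
  refine continuousAt_of_locally_lipschitz (sub_pos.2 hw) (c * ρ) fun z hz => ?_
  have hz' : ‖z‖ ≤ r := (DsB_near hz).le
  rw [dist_eq_norm, dist_eq_norm, hFH z hz', add_sub_cancel_right, norm_mul, mul_comm]
  refine mul_le_mul_of_nonneg_right ?_ (norm_nonneg _)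
  exact norm_ev_le hρ hH (lt_of_le_of_lt (mul_le_mul_of_nonneg_left hz' hρ) hr)

/-- The derivative of the value of a power series (`exists_div` twice, or directly term by term). -/
theorem hasDerivAt_ev {ρ c r : ℝ} (hρ : 0 ≤ ρ) (hr0 : 0 < r) (hr : ρ * r < 1) {F : PowerSeries K}
    (hF : Bd ρ c F) {z : K} (hz : ‖z‖ < r) :
    HasDerivAt (fun z => ev F z) (ev (derivative K F) z) z := by
  obtain ⟨H, hH, hF1, hF2⟩ := DsB_div hρ hr hF hz.le
  have hd : ev (derivative K F) z = ev H z := by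
    have h1 : derivative K F = H + (X - C z) * derivative K H := by
      conv_lhs => rw [hF1]
      rw [map_add, derivative_C, add_zero, Derivation.leibniz, map_sub, derivative_X, derivative_C,
        sub_zero, smul_eq_mul, smul_eq_mul, mul_one, add_comm]
    obtain ⟨ρ', h2, h3, h4⟩ := Schwarz_exists_rho hρ hr hz.le
    have hz' : ρ' * ‖z‖ < 1 := lt_of_le_of_lt (mul_le_mul_of_nonneg_left hz.le h3.le) h4
    have hH' : Bd ρ' (c * ρ) H := Schwarz_mono_rho hρ h2 hH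
    have hdH : Bd ρ (c * ρ * ρ) (derivative K H) := hH.deriv hρ
    have h5 : Bd ρ' (max ‖z‖ (1 / ρ') * (c * ρ * ρ)) ((X - C z) * derivative K H) :=
      (Schwarz_bd_linear h3 z).mul h3.le (Schwarz_mono_rho hρ h2 hdH)
    rw [h1, ev_add h3.le hH' h5 hz', Schwarz_ev_mul hρ hr hdH z hz.le, sub_self, zero_mul,
      add_zero]
  rw [hd, hasDerivAt_iff_tendsto_slope]
  have hcont : Filter.Tendsto (fun y => ev H y) (nhdsWithin z {z}ᶜ) (nhds (ev H z)) :=
    (DsB_cont hρ hr hH hz).tendsto.mono_left nhdsWithin_le_nhds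
  refine hcont.congr' ?_
  have h1 : ∀ᶠ y in nhdsWithin z {z}ᶜ, y ∈ Metric.ball z (r - ‖z‖) :=
    nhdsWithin_le_nhds (Metric.ball_mem_nhds z (sub_pos.2 hz))
  filter_upwards [h1, self_mem_nhdsWithin] with y hy hyz
  have hy' : ‖y‖ ≤ r := (DsB_near (Metric.mem_ball.1 hy)).le
  have hne : y - z ≠ 0 := sub_ne_zero.2 hyz
  rw [slope_def_field, hF2 y hy', add_sub_cancel_right, mul_div_cancel_left₀ _ hne]

end PCL

end
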