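import Mathlib

/-!
# Descent: from rings of functions to fields
-/

open scoped Classical

noncomputable section

namespace PCL

/-- A homomorphism from `MvPolynomial ι Ω` to a ring of functions `T → Ω` which is injective stays
injective after the passage to some field `L` (take a prime ideal of the ring of functions which does
not meet the image of the nonzero polynomials, `Ideal.exists_le_prime_disjoint` for the ideal `0`, and the
fraction field of the quotient; the image of the nonzero polynomials is a submonoid without `0` because the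
polynomial ring is a domain). -/
theorem exists_field {Ω T ι : Type} [Field Ω] (v : ι → T → Ω)
    (hinj : ∀ H : MvPolynomial ι Ω, (∀ t, MvPolynomial.eval (fun i => v i t) H = 0) → H = 0) :
    ∃ (L : Type) (_ : Field L) (_ : Algebra Ω L) (φ : (T → Ω) →ₐ[Ω] L),
      AlgebraicIndependent Ω fun i => φ (v i) := by
  obtain ⟨ψ, hψ⟩ : ∃ ψ : MvPolynomial ι Ω →ₐ[Ω] (T → Ω), ψ = MvPolynomial.aeval v := ⟨_, rfl⟩
  have hψt : ∀ (H : MvPolynomial ι Ω) (t : T), ψ H t = MvPolynomial.eval (fun i => v i t) H := by
    intro H t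
    have h1 : (Pi.evalAlgHom Ω (fun _ : T => Ω) t).comp ψ =
        MvPolynomial.aeval (fun i => v i t) := by
      refine MvPolynomial.algHom_ext fun i => ?_
      rw [hψ, AlgHom.comp_apply, MvPolynomial.aeval_X, MvPolynomial.aeval_X]
      rfl
    have h2 := DFunLike.congr_fun h1 H
    rw [MvPolynomial.aeval_eq_eval] at h2
    exact h2
  have hψ0 : ∀ H : MvPolynomial ι Ω, ψ H = 0 → H = 0 := by
    intro H hH
    refine hinj H fun t => ?_
    rw [← hψt, hH]
    rfl
  obtain ⟨P, hP, -, hPS⟩ := Ideal.exists_le_prime_disjoint (⊥ : Ideal (T → Ω))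
    ((nonZeroDivisors (MvPolynomial ι Ω)).map ψ) (by
      rw [Set.disjoint_left]
      rintro x hx ⟨H, hH, rfl⟩
      have hx0 : ψ H = 0 := hx
      exact nonZeroDivisors.ne_zero hH (hψ0 H hx0))
  haveI := hP
  refine ⟨FractionRing ((T → Ω) ⧸ P), inferInstance, inferInstance,
    (IsScalarTower.toAlgHom Ω ((T → Ω) ⧸ P) (FractionRing ((T → Ω) ⧸ P))).comp
      (Ideal.Quotient.mkₐ Ω P), ?_⟩
  rw [algebraicIndependent_iff]
  intro H hH
  by_contra hne
  have h1 : MvPolynomial.aeval (fun i => ((IsScalarTower.toAlgHom Ω ((T → Ω) ⧸ P)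
      (FractionRing ((T → Ω) ⧸ P))).comp (Ideal.Quotient.mkₐ Ω P)) (v i)) H =
      ((IsScalarTower.toAlgHom Ω ((T → Ω) ⧸ P)
      (FractionRing ((T → Ω) ⧸ P))).comp (Ideal.Quotient.mkₐ Ω P)) (ψ H) := by
    rw [hψ]
    exact (MvPolynomial.comp_aeval_apply v _ H).symm
  rw [h1] at hH
  have h2 : algebraMap ((T → Ω) ⧸ P) (FractionRing ((T → Ω) ⧸ P))
      (Ideal.Quotient.mk P (ψ H)) = 0 := hH
  have h3 : Ideal.Quotient.mk P (ψ H) = 0 :=
    (IsFractionRing.injective ((T → Ω) ⧸ P) (FractionRing ((T → Ω) ⧸ P)))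
      (h2.trans (map_zero _).symm)
  have h4 : ψ H ∈ P := Ideal.Quotient.eq_zero_iff_mem.1 h3
  refine Set.disjoint_left.1 hPS h4 ?_
  exact ⟨H, mem_nonZeroDivisors_of_ne_zero hne, rfl⟩

/-- Polynomials over `Ω` which vanish at `K`-points: if no nonzero polynomial over `K` vanishes at all
`x_t` then no nonzero polynomial over `Ω` does (expand the coefficients in a basis of `Ω` over
`K`, i.e. apply a `K`-linear functional which is not zero at some coefficient, as in
`MvPolynomial` coefficientwise application of a linear map). -/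
theorem dense_baseChange {K Ω T ι : Type} [Field K] [Field Ω] [Algebra K Ω] (x : ι → T → K)
    (hinj : ∀ H : MvPolynomial ι K, (∀ t, MvPolynomial.eval (fun i => x i t) H = 0) → H = 0)
    (H : MvPolynomial ι Ω) (hH : ∀ t, MvPolynomial.eval (fun i => algebraMap K Ω (x i t)) H = 0) :
    H = 0 := by
  ext m
  rw [MvPolynomial.coeff_zero, ← Module.forall_dual_apply_eq_zero_iff K]
  intro l
  obtain ⟨G, hG⟩ : ∃ G : MvPolynomial ι K,
      G = ∑ a ∈ H.support, MvPolynomial.monomial a (l (MvPolynomial.coeff a H)) := ⟨_, rfl⟩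
  have hcoeff : MvPolynomial.coeff m G = l (MvPolynomial.coeff m H) := by
    rw [hG, MvPolynomial.coeff_sum]
    simp only [MvPolynomial.coeff_monomial]
    rw [Finset.sum_ite_eq']
    split_ifs with h
    · rfl
    · rw [MvPolynomial.notMem_support_iff.1 h, map_zero]
  have hG0 : G = 0 := by
    refine hinj G fun t => ?_
    have h1 := hH t
    rw [MvPolynomial.eval_eq] at h1
    have h2 := congrArg l h1
    rw [map_sum, map_zero] at h2
    rw [hG, map_sum, ← h2]
    refine Finset.sum_congr rfl fun a _ => ?_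
    rw [MvPolynomial.eval_monomial]
    have h3 : ∏ i ∈ a.support, (algebraMap K Ω (x i t)) ^ a i =
        algebraMap K Ω (∏ i ∈ a.support, x i t ^ a i) := by
      rw [map_prod]
      exact Finset.prod_congr rfl fun i _ => (map_pow _ _ _).symm
    rw [h3, mul_comm (MvPolynomial.coeff a H), ← Algebra.smul_def, map_smul, smul_eq_mul,
      mul_comm]
    rfl
  rw [← hcoeff, hG0, MvPolynomial.coeff_zero]

end PCL

end
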