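import Pool.Agent.W_52423f_h70.TrB

/-!
# Descent: coordinates of sums
-/

open scoped Classical

noncomputable section

namespace PCL

variable {K : Type} [Field K] {W : WeierstrassCurve K}

/-- The `x`-coordinate of the sum of two affine points with different `x`-coordinates. -/
theorem xc_add_of_ne {F : Type} [Field F] [Algebra K F] {q u : Pt W F} (hq : q ≠ 0) (hu : u ≠ 0)
    (hx : xc q ≠ xc u) :
    xc (q + u) = ((yc q - yc u) * (xc q - xc u)⁻¹) ^ 2
      + algebraMap K F W.a₁ * ((yc q - yc u) * (xc q - xc u)⁻¹)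
      - algebraMap K F W.a₂ - xc q - xc u := by
  cases q with
  | zero => exact absurd rfl hq
  | some x₁ y₁ h₁ =>
    cases u with
    | zero => exact absurd rfl hu
    | some x₂ y₂ h₂ =>
      have hx' : x₁ ≠ x₂ := hx
      rw [WeierstrassCurve.Affine.Point.add_of_X_ne hx']
      show (WeierstrassCurve.Affine.baseChange W F).addX x₁ x₂
        ((WeierstrassCurve.Affine.baseChange W F).slope x₁ x₂ y₁ y₂) = _
      rw [WeierstrassCurve.Affine.slope_of_X_ne hx', div_eq_mul_inv]
      rfl

/-- The equation of the curve. -/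
theorem eqn {F : Type} [Field F] [Algebra K F] {q : Pt W F} (hq : q ≠ 0) :
    yc q ^ 2 + algebraMap K F W.a₁ * xc q * yc q + algebraMap K F W.a₃ * yc q =
      xc q ^ 3 + algebraMap K F W.a₂ * xc q ^ 2 + algebraMap K F W.a₄ * xc q
        + algebraMap K F W.a₆ := by
  cases q with
  | zero => exact absurd rfl hq
  | some x y hxy =>
    have h := (WeierstrassCurve.Affine.equation_iff x y).mp hxy.1
    exact h

/-- A solution of the equation is an affine point. -/
theorem exists_point [W.IsElliptic] {F : Type} [Field F] [Algebra K F] {x y : F}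
    (h : y ^ 2 + algebraMap K F W.a₁ * x * y + algebraMap K F W.a₃ * y =
      x ^ 3 + algebraMap K F W.a₂ * x ^ 2 + algebraMap K F W.a₄ * x + algebraMap K F W.a₆) :
    ∃ q : Pt W F, q ≠ 0 ∧ xc q = x ∧ yc q = y := by
  have h1 : (WeierstrassCurve.Affine.baseChange W F).Equation x y :=
    (WeierstrassCurve.Affine.equation_iff x y).mpr h
  have : WeierstrassCurve.IsElliptic (WeierstrassCurve.Affine.baseChange W F) :=
    inferInstanceAs (WeierstrassCurve.IsElliptic (WeierstrassCurve.map W (algebraMap K F)))
  have h2 : (WeierstrassCurve.Affine.baseChange W F).Nonsingular x y :=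
    (WeierstrassCurve.Affine.equation_iff_nonsingular
      (W := WeierstrassCurve.Affine.baseChange W F)).mp h1
  exact ⟨.some x y h2, WeierstrassCurve.Affine.Point.some_ne_zero h2, rfl, rfl⟩

/-- A point which is moved by an automorphism by an affine `K`-point is affine and has another
`x`-coordinate than any affine `K`-point. -/
theorem ne_of_moved {Ω : Type} [Field Ω] [Algebra K Ω] {q : Pt W Ω} {u : Pt W K} (hu : u ≠ 0)
    {τ : Ω ≃ₐ[K] Ω} (hτ : mp (τ : Ω →ₐ[K] Ω) q = q + emb Ω u) :
    q ≠ 0 ∧ ∀ v : Pt W K, v ≠ 0 → xc q ≠ xc (emb Ω v) := by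
  have hinj : Function.Injective (emb (W := W) Ω) :=
    WeierstrassCurve.Affine.Point.map_injective (Algebra.ofId K Ω)
  have hemb : ∀ v : Pt W K, mp (τ : Ω →ₐ[K] Ω) (emb Ω v) = emb Ω v := by
    intro v
    show WeierstrassCurve.Affine.Point.map (τ : Ω →ₐ[K] Ω)
      (WeierstrassCurve.Affine.Point.map (Algebra.ofId K Ω) v) = _
    rw [WeierstrassCurve.Affine.Point.map_map]
    have : (τ : Ω →ₐ[K] Ω).comp (Algebra.ofId K Ω) = Algebra.ofId K Ω := Subsingleton.elim _ _
    rw [this]
    rfl
  have hkey : mp (τ : Ω →ₐ[K] Ω) q = q → False := by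
    intro h
    rw [h] at hτ
    have h0 : emb Ω u = 0 := by
      have := left_eq_add.mp hτ
      exact this
    exact hu (hinj (h0.trans (map_zero _).symm))
  refine ⟨fun h => hkey (by rw [h, map_zero]), ?_⟩
  intro v hv hx
  apply hkey
  have hv' : emb Ω v ≠ 0 := fun h => hv (hinj (h.trans (map_zero _).symm))
  have hcase : q = emb Ω v ∨ q = - emb Ω v := by
    have hq : q ≠ 0 := fun h => hkey (by rw [h, map_zero])
    revert hx hv'
    generalize emb Ω v = r
    intro hx hr
    cases q with
    | zero => exact absurd rfl hq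
    | some x₁ y₁ h₁ =>
      cases r with
      | zero => exact absurd rfl hr
      | some x₂ y₂ h₂ => exact WeierstrassCurve.Affine.Point.X_eq_iff.mp hx
  rcases hcase with h | h
  · rw [h, hemb]
  · rw [h, map_neg, hemb]

end PCL

end
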