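import Pool.Agent.W_52423f_h70.TrB

/-!
# Descent: translation and algebraicity
-/

open scoped Classical

noncomputable section

namespace PCL

variable {K : Type} [Field K] {W : WeierstrassCurve K}

theorem DsCd_closed {A L : Type} [Field A] [Field L] [Algebra A L] [Algebra K A] [Algebra K L]
    [IsScalarTower K A L] (y : L)
    (hy : IsIntegral ((algebraicClosure A L).restrictScalars K) y) :
    y ∈ (algebraicClosure A L).restrictScalars K := by
  have h1 : IsIntegral (algebraicClosure A L) y := hy
  have h2 : IsIntegral A y := isIntegral_trans (R := A) (A := algebraicClosure A L) y h1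
  exact mem_algebraicClosure_iff.mpr h2.isAlgebraic

theorem DsCd_abs {A L : Type} [Field A] [Field L] [Algebra A L] [Algebra K A] [Algebra K L]
    [IsScalarTower K A L] (q u : Pt W L) (h1 : IsAlgebraic A (xc (q + u)))
    (hqx : IsAlgebraic A (xc q)) (hqy : IsAlgebraic A (yc q)) : IsAlgebraic A (xc u) := by
  have hC : ∀ z : L, IsAlgebraic A z → z ∈ (algebraicClosure A L).restrictScalars K :=
    fun z hz => mem_algebraicClosure_iff.mpr hz
  have h2 : RatOver ((algebraicClosure A L).restrictScalars K : Set L) (q + u) :=
    ⟨hC _ h1, DsCd_closed _ (TrB_y _ _ (hC _ h1))⟩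
  have h3 : RatOver ((algebraicClosure A L).restrictScalars K : Set L) q :=
    ⟨hC _ hqx, hC _ hqy⟩
  have h4 : RatOver ((algebraicClosure A L).restrictScalars K : Set L) ((q + u) + (-q)) :=
    ratOver_add _ h2 (ratOver_neg _ h3)
  have h5 : (q + u) + (-q) = u := by abel
  rw [h5] at h4
  exact mem_algebraicClosure_iff.mp h4.1

/-- If `u` is a point whose coordinate `x(u)` is algebraic over ... : `x(u)` is algebraic over
`Ω(x(q + u))` if `q` has its coordinates in the image of `Ω`.  `C`, the set of the elements of `L` which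
are algebraic over `Ω(x(q + u))`, is an intermediate field of `L/K`; `q + u` and `q` are rational over it
(`TrB_y` for the `y`-coordinate), so `u = (q + u) - q` is (`ratOver_add`, `ratOver_neg`). -/
theorem algebraic_of_translate {Ω L : Type} [Field Ω] [Field L] [Algebra K Ω] [Algebra K L]
    [Algebra Ω L] [IsScalarTower K Ω L] (q u : Pt W L) (hqx : xc q ∈ Set.range (algebraMap Ω L))
    (hqy : yc q ∈ Set.range (algebraMap Ω L)) :
    IsAlgebraic (IntermediateField.adjoin Ω {xc (q + u)}) (xc u) := by
  obtain ⟨a, ha⟩ := hqx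
  obtain ⟨b, hb⟩ := hqy
  haveI : IsScalarTower K (IntermediateField.adjoin Ω {xc (q + u)}) L :=
    IsScalarTower.of_algebraMap_eq fun x => rfl
  refine DsCd_abs q u ?_ ?_ ?_
  · exact isAlgebraic_algebraMap
      (⟨xc (q + u), IntermediateField.mem_adjoin_simple_self Ω _⟩ :
        IntermediateField.adjoin Ω {xc (q + u)})
  · rw [← ha]
    exact isAlgebraic_algebraMap
      (algebraMap Ω (IntermediateField.adjoin Ω {xc (q + u)}) a)
  · rw [← hb]
    exact isAlgebraic_algebraMap
      (algebraMap Ω (IntermediateField.adjoin Ω {xc (q + u)}) b)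

end PCL

end
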