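import Pool.Agent.W_52423f_h70.DsCa
import Pool.Agent.W_52423f_h70.DsCb
import Pool.Agent.W_52423f_h70.DsCc
import Pool.Agent.W_52423f_h70.DsCd

/-!
# Descent: the translates satisfy algebraic relations
-/

open scoped Classical

noncomputable section

namespace PCL

variable {K : Type} [Field K] {W : WeierstrassCurve K}

/-- The translates: let `x(w_j)`, `j` in `J`, be dependent over `K`.  Then the `1/x(u_j)` of all
`K`-points `u` such that some automorphism of `Ω` moves `w` by `u` satisfy one nontrivial relation with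
variables in `J`.

Proof.  Suppose not.  If `T` is empty `H = 1` will do.  Let `v_j : T → Ω` be `u ↦ 1/x(u_j)`, `j ∈ J`.  By
`dense_baseChange` and `exists_field` there are a field `L` over `Ω` and `φ : (T → Ω) → L` with the
`φ(v_j)` independent over `Ω`.  Let `X_j = (u ↦ x(u_j))`, `Y_j = (u ↦ y(u_j))` in `T → Ω`;
`φ(X_j) φ(v_j) = 1`; `(φ(X_j), φ(Y_j))` satisfies the equation of the curve (`eqn`), so it is a point
`b_j` of `W` over `L` (`exists_point`).  The function `u ↦ x(w_j) - x(u_j)` has no zero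
(`ne_of_moved`), so it is a unit of `T → Ω`, and `x(w_j + u_j)` is given by `xc_add_of_ne` for all
`u` in `T`; applying `φ` we get `φ(u ↦ x(w_j + u_j)) = x(w_j + b_j)`, where `w_j` also denotes its image
in `W(L)`.  By `algebraic_of_translate` and `indep_exchange` the `x(w_j + b_j)`, `j ∈ J`, are independent
over `Ω`.  But there is a nonzero `f` over `K` with `f(x(w_j)) = 0`; so `f(x(w_j + u_j)) = 0` for all `u`
in `T` (apply `τ`, `xc_mp`), and applying `φ`, `f(x(w_j + b_j)) = 0`, a contradiction. -/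
theorem dep_of_dep [CharZero K] [W.IsElliptic] {Ω : Type} [Field Ω] [Algebra K Ω] {m : ℕ}
    (w : Fin m → Pt W Ω) (J : Finset (Fin m)) (hJ : ¬ HasIndep w J) (T : Set (Fin m → Pt W K))
    (hT : ∀ u ∈ T, (∀ j, u j ≠ 0 ∧ xc (u j) ≠ 0) ∧
      ∃ τ : Ω ≃ₐ[K] Ω, ∀ j, mp (τ : Ω →ₐ[K] Ω) (w j) = w j + emb Ω (u j)) :
    ∃ H : MvPolynomial (Fin m) K, H ≠ 0 ∧ H.vars ⊆ J ∧
      ∀ u ∈ T, MvPolynomial.eval (fun j => (xc (u j))⁻¹) H = 0 := by
  by_contra hcon
  push Not at hcon
  -- T is nonempty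
  obtain ⟨u₀, hu₀, -⟩ := hcon 1 one_ne_zero (by
    rw [MvPolynomial.vars_one]
    exact Finset.empty_subset _)
  have hw0 : ∀ j, w j ≠ 0 := fun j => by
    obtain ⟨τ, hτ⟩ := (hT u₀ hu₀).2
    exact (ne_of_moved ((hT u₀ hu₀).1 j).1 (hτ j)).1
  have hinjK : ∀ H : MvPolynomial (↥J) K,
      (∀ t : ↥T, MvPolynomial.eval (fun i : ↥J => (xc (t.1 i))⁻¹) H = 0) → H = 0 := by
    intro H hH
    by_contra hne
    have h1 : MvPolynomial.rename (Subtype.val : ↥J → Fin m) H ≠ 0 := by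
      intro h0
      exact hne ((MvPolynomial.rename_injective _ Subtype.val_injective) (by rw [h0, map_zero]))
    have h2 : (MvPolynomial.rename (Subtype.val : ↥J → Fin m) H).vars ⊆ J := by
      intro i hi
      have h3 := MvPolynomial.vars_rename (Subtype.val : ↥J → Fin m) H hi
      rw [Finset.mem_image] at h3
      obtain ⟨a, -, rfl⟩ := h3
      exact a.2
    obtain ⟨u, hu, h3⟩ := hcon _ h1 h2
    apply h3
    rw [MvPolynomial.eval_rename]
    exact hH ⟨u, hu⟩
  have hinjΩ : ∀ H : MvPolynomial (↥J) Ω,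
      (∀ t : ↥T, MvPolynomial.eval (fun i : ↥J => algebraMap K Ω (xc (t.1 i))⁻¹) H = 0) → H = 0 :=
    fun H hH => dense_baseChange (fun (i : ↥J) (t : ↥T) => (xc (t.1 i))⁻¹) hinjK H hH
  obtain ⟨L, instL, instA, φ, hφ⟩ := exists_field
    (fun (i : ↥J) (t : ↥T) => algebraMap K Ω (xc (t.1 i))⁻¹) hinjΩ
  let _ : Algebra K L := ((algebraMap Ω L).comp (algebraMap K Ω)).toAlgebra
  have : IsScalarTower K Ω L := IsScalarTower.of_algebraMap_eq fun _ => rfl
  have hφc : ∀ c : Ω, φ (fun _ => c) = algebraMap Ω L c := fun c => φ.commutes c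
  have hKL : ∀ c : K, algebraMap K L c = algebraMap Ω L (algebraMap K Ω c) := fun c => rfl
  have hemb : ∀ (t : ↥T) (j : Fin m), emb Ω (t.1 j) ≠ 0 := by
    intro t j h0
    have h1 := ((hT t.1 t.2).1 j).1
    exact h1 (mp_injective (Algebra.ofId K Ω) (h0.trans (map_zero _).symm))
  have hxe : ∀ (t : ↥T) (j : Fin m), xc (emb Ω (t.1 j)) = algebraMap K Ω (xc (t.1 j)) := by
    intro t j
    exact xc_mp (Algebra.ofId K Ω) (t.1 j)
  have hne : ∀ (t : ↥T) (j : Fin m), xc (w j) ≠ xc (emb Ω (t.1 j)) := by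
    intro t j
    obtain ⟨τ, hτ⟩ := (hT t.1 t.2).2
    exact (ne_of_moved ((hT t.1 t.2).1 j).1 (hτ j)).2 _ ((hT t.1 t.2).1 j).1
  -- the points b_j
  have hb : ∀ j : ↥J, ∃ b : Pt W L, b ≠ 0 ∧ xc b = φ (fun t => xc (emb Ω (t.1 j.1))) ∧
      yc b = φ (fun t => yc (emb Ω (t.1 j.1))) := by
    intro j
    apply exists_point
    have h1 : (fun t : ↥T => yc (emb Ω (t.1 j.1))) ^ 2 +
        (fun _ => algebraMap K Ω W.a₁) * (fun t => xc (emb Ω (t.1 j.1))) *
          (fun t => yc (emb Ω (t.1 j.1))) +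
        (fun _ => algebraMap K Ω W.a₃) * (fun t => yc (emb Ω (t.1 j.1))) =
        (fun t => xc (emb Ω (t.1 j.1))) ^ 3 +
        (fun _ => algebraMap K Ω W.a₂) * (fun t => xc (emb Ω (t.1 j.1))) ^ 2 +
        (fun _ => algebraMap K Ω W.a₄) * (fun t => xc (emb Ω (t.1 j.1))) +
        (fun _ => algebraMap K Ω W.a₆) := by
      funext t
      exact eqn (hemb t j.1)
    have h2 := congrArg φ h1
    simp only [map_add, map_mul, map_pow, hφc] at h2
    exact h2
  choose b hb0 hbx hby using hb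
  -- the points w_j in L
  obtain ⟨ψ, hψ⟩ : ∃ ψ : Ω →ₐ[K] L, ∀ c, ψ c = algebraMap Ω L c :=
    ⟨IsScalarTower.toAlgHom K Ω L, fun c => rfl⟩
  have hwL0 : ∀ j, mp ψ (w j) ≠ 0 := by
    intro j h0
    exact hw0 j (mp_injective ψ (h0.trans (map_zero _).symm))
  have hD : ∀ j : ↥J, (xc (mp ψ (w j.1)) - xc (b j)) *
      φ (fun t => (xc (w j.1) - xc (emb Ω (t.1 j.1)))⁻¹) = 1 := by
    intro j
    rw [xc_mp, hψ, hbx, ← hφc, ← map_sub, ← map_mul, ← map_one φ]
    congr 1
    funext t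
    exact mul_inv_cancel₀ (sub_ne_zero.2 (hne t j.1))
  have hxne : ∀ j : ↥J, xc (mp ψ (w j.1)) ≠ xc (b j) := by
    intro j h0
    have h1 := hD j
    rw [h0, sub_self, zero_mul] at h1
    exact zero_ne_one h1
  have hDinv : ∀ j : ↥J, φ (fun t => (xc (w j.1) - xc (emb Ω (t.1 j.1)))⁻¹) =
      (xc (mp ψ (w j.1)) - xc (b j))⁻¹ := by
    intro j
    exact eq_inv_of_mul_eq_one_right (hD j)
  have hZ : ∀ j : ↥J, φ (fun t => xc (w j.1 + emb Ω (t.1 j.1))) =
      xc (mp ψ (w j.1) + b j) := by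
    intro j
    rw [xc_add_of_ne (hwL0 j.1) (hb0 j) (hxne j), ← hDinv j]
    have h1 : (fun t : ↥T => xc (w j.1 + emb Ω (t.1 j.1))) =
        (((fun _ => yc (w j.1)) - (fun t => yc (emb Ω (t.1 j.1)))) *
          (fun t => (xc (w j.1) - xc (emb Ω (t.1 j.1)))⁻¹)) ^ 2 +
        (fun _ => algebraMap K Ω W.a₁) *
        (((fun _ => yc (w j.1)) - (fun t => yc (emb Ω (t.1 j.1)))) *
          (fun t => (xc (w j.1) - xc (emb Ω (t.1 j.1)))⁻¹)) -
        (fun _ => algebraMap K Ω W.a₂) - (fun _ => xc (w j.1)) -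
        (fun t => xc (emb Ω (t.1 j.1))) := by
      funext t
      exact xc_add_of_ne (hw0 j.1) (hemb t j.1) (hne t j.1)
    rw [h1]
    simp only [map_add, map_sub, map_mul, map_pow, hφc]
    rw [hbx, hby, yc_mp, xc_mp, hψ, hψ]
    rfl
  -- independence of the translated coordinates
  have hz : AlgebraicIndependent Ω fun j : ↥J => xc (mp ψ (w j.1) + b j) := by
    refine indep_exchange _ _ hφ fun j => ?_
    have h1 : IsAlgebraic (IntermediateField.adjoin Ω {xc (mp ψ (w j.1) + b j)}) (xc (b j)) := by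
      refine algebraic_of_translate (mp ψ (w j.1)) (b j) ⟨xc (w j.1), ?_⟩ ⟨yc (w j.1), ?_⟩
      · rw [xc_mp, hψ]
      · rw [yc_mp, hψ]
    have h2 : φ (fun t : ↥T => algebraMap K Ω (xc (t.1 j))⁻¹) = (xc (b j))⁻¹ := by
      refine eq_inv_of_mul_eq_one_right ?_
      rw [hbx, ← map_mul, ← map_one φ]
      congr 1
      funext t
      show xc (emb Ω (t.1 j.1)) * algebraMap K Ω (xc (t.1 j))⁻¹ = 1
      rw [hxe, ← map_mul, mul_inv_cancel₀ ((hT t.1 t.2).1 j.1).2, map_one]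
    show IsAlgebraic _ (φ (fun t : ↥T => algebraMap K Ω (xc (t.1 j))⁻¹))
    rw [h2]
    exact h1.inv
  -- the relation between the x(w_j)
  have hJ' : ¬ AlgebraicIndependent K (fun j : ↥J => xc (w j)) := hJ
  rw [algebraicIndependent_iff] at hJ'
  push Not at hJ'
  obtain ⟨f, hf0, hf1⟩ := hJ'
  apply hf1
  have hfΩ : MvPolynomial.map (algebraMap K Ω) f = 0 := by
    rw [algebraicIndependent_iff] at hz
    apply hz
    have h1 : (fun j : ↥J => xc (mp ψ (w j.1) + b j)) =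
        fun j => φ (fun t => xc (w j.1 + emb Ω (t.1 j.1))) := by
      funext j
      rw [hZ]
    rw [h1]
    have h2 := MvPolynomial.comp_aeval_apply
      (f := fun (j : ↥J) (t : ↥T) => xc (w j.1 + emb Ω (t.1 j.1))) φ
      (MvPolynomial.map (algebraMap K Ω) f)
    rw [← h2]
    have h3 : MvPolynomial.aeval (fun (j : ↥J) (t : ↥T) => xc (w j.1 + emb Ω (t.1 j.1)))
        (MvPolynomial.map (algebraMap K Ω) f) = 0 := by
      funext t
      have h4 := MvPolynomial.comp_aeval_apply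
        (f := fun (j : ↥J) (t : ↥T) => xc (w j.1 + emb Ω (t.1 j.1))) (Pi.evalAlgHom Ω (fun _ => Ω) t)
        (MvPolynomial.map (algebraMap K Ω) f)
      simp only [Pi.evalAlgHom_apply] at h4
      rw [h4, Pi.zero_apply, MvPolynomial.aeval_map_algebraMap]
      obtain ⟨τ, hτ⟩ := (hT t.1 t.2).2
      have h5 : (fun j : ↥J => xc (w j.1 + emb Ω (t.1 j.1))) =
          fun j => (τ : Ω →ₐ[K] Ω) (xc (w j.1)) := by
        funext j
        rw [← hτ, xc_mp]
      rw [h5]
      have h6 := MvPolynomial.comp_aeval_apply (f := fun j : ↥J => xc (w j.1)) (τ : Ω →ₐ[K] Ω) f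
      rw [← h6, hf0, map_zero]
    rw [h3, map_zero]
  exact MvPolynomial.map_injective _ (algebraMap K Ω).injective (by rw [hfΩ, map_zero])

end PCL

end
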