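import Mathlib

/-!
# Descent: exchange of transcendence bases
-/

open scoped Classical

noncomputable section

namespace PCL

open scoped IntermediateField.algebraAdjoinAdjoin in
/-- From the generated field to the generated algebra. -/
theorem DsCa_alg {k₀ L : Type} [Field k₀] [Field L] [Algebra k₀ L] {s t : Set L} (hst : s ⊆ t)
    {a : L} (h : IsAlgebraic (IntermediateField.adjoin k₀ s) a) :
    IsAlgebraic (Algebra.adjoin k₀ t) a := by
  have h1 : IsAlgebraic (Algebra.adjoin k₀ s) a :=
    (IsFractionRing.isAlgebraic_iff (Algebra.adjoin k₀ s) (IntermediateField.adjoin k₀ s) L).2 h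
  exact h1.adjoin_of_forall_isAlgebraic fun x hx => absurd (hst hx.1) hx.2

/-- Exchange: if every `v_i` is algebraic over `k₀(z_i)` and the `v_i` are independent then the `z_i` are
independent.  Let `C` be the algebraic closure of `k₀(z_1, .., z_m)` in `L`; it contains the `v_i`, so
`trdeg C ≥ m`; `C` is algebraic over the subring generated by the `z_i`, so the `z_i` are a transcendence
basis of `C` (`Algebra.IsAlgebraic.isTranscendenceBasis_of_le_trdeg_of_finite`). -/
theorem indep_exchange {k₀ L : Type} [Field k₀] [Field L] [Algebra k₀ L] {ι : Type} [Finite ι]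
    (v z : ι → L) (hv : AlgebraicIndependent k₀ v)
    (h : ∀ i, IsAlgebraic (IntermediateField.adjoin k₀ {z i}) (v i)) :
    AlgebraicIndependent k₀ z := by
  set M : Matroid L := AlgebraicIndependent.matroid k₀ L with hM
  have hvI : M.Indep (Set.range v) :=
    AlgebraicIndependent.matroid_indep_iff.2 hv.to_subtype_range
  have hsub : Set.range v ⊆ M.closure (Set.range z) := by
    rintro _ ⟨i, rfl⟩
    rw [hM, AlgebraicIndependent.matroid_closure_eq]
    have h2 : IsAlgebraic (Algebra.adjoin k₀ (Set.range z)) (v i) :=
      DsCa_alg (Set.singleton_subset_iff.2 (Set.mem_range_self i)) (h i)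
    exact h2
  have hvc : (Set.range v).encard = ENat.card ι := by
    rw [← Set.image_univ, hv.injective.encard_image, Set.encard_univ]
  have hzc : (Set.range z).encard ≤ ENat.card ι := by
    rw [← Set.image_univ, ← Set.encard_univ]
    exact Set.encard_image_le _ _
  have h1 : ENat.card ι ≤ M.eRk (Set.range z) := by
    rw [← hvc, ← hvI.eRk_eq_encard, ← M.eRk_closure_eq (Set.range z)]
    exact M.eRk_mono hsub
  obtain ⟨I, hI, hII, hIc⟩ := Matroid.le_eRk_iff.1 h1
  have hfin : (Set.range z).Finite := Set.finite_range z
  have hIz : I = Set.range z := (hfin.subset hI).eq_of_subset_of_encard_le hI (by rw [hIc]; exact hzc)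
  rw [hIz] at hII hIc
  have hzinj : Function.Injective z := by
    rw [← Set.injOn_univ]
    refine Set.finite_univ.injOn_of_encard_image_eq ?_
    rw [Set.image_univ, hIc, Set.encard_univ]
  exact AlgebraicIndependent.of_subtype_range hzinj
    (AlgebraicIndependent.matroid_indep_iff.1 hII)

end PCL

end
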