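import Mathlib

/-!
# Descent: derivatives of polynomials in functions
-/

open scoped Classical

noncomputable section

namespace PCL

variable {K : Type} [NontriviallyNormedField K] [CompleteSpace K] [IsUltrametricDist K]

/-- The derivative of a polynomial in several functions of one variable (`MvPolynomial.induction_on`). -/
theorem hasDerivAt_eval {m : ℕ} (H : MvPolynomial (Fin m) K) {f : Fin m → K → K} {f' : Fin m → K}
    {t : K} (hf : ∀ j, HasDerivAt (f j) (f' j) t) :
    HasDerivAt (fun t => MvPolynomial.eval (fun j => f j t) H)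
      (∑ j, MvPolynomial.eval (fun j => f j t) (MvPolynomial.pderiv j H) * f' j) t := by
  induction H using MvPolynomial.induction_on with
  | C a =>
    simp only [MvPolynomial.eval_C, MvPolynomial.pderiv_C, map_zero, zero_mul,
      Finset.sum_const_zero]
    exact hasDerivAt_const t a
  | add P Q hP hQ =>
    simp only [map_add, add_mul, Finset.sum_add_distrib]
    exact hP.add hQ
  | mul_X P i hP =>
    have h1 := hP.mul (hf i)
    have h2 : (fun t => MvPolynomial.eval (fun j => f j t) (P * MvPolynomial.X i)) =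
        (fun t => MvPolynomial.eval (fun j => f j t) P) * f i := by
      funext u
      rw [map_mul, MvPolynomial.eval_X]
      rfl
    rw [h2]
    refine h1.congr_deriv ?_
    have h3 : ∀ j, MvPolynomial.eval (fun j => f j t) (MvPolynomial.pderiv j (P * MvPolynomial.X i)) *
        f' j = MvPolynomial.eval (fun j => f j t) (MvPolynomial.pderiv j P) * f' j * f i t +
          (if j = i then MvPolynomial.eval (fun j => f j t) P * f' j else 0) := by
      intro j
      rw [Derivation.leibniz, MvPolynomial.pderiv_X, smul_eq_mul, smul_eq_mul, map_add, map_mul,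
        map_mul, MvPolynomial.eval_X]
      by_cases hj : j = i
      · subst hj
        rw [Pi.single_eq_same, map_one, if_pos rfl]
        ring
      · rw [Pi.single_eq_of_ne (Ne.symm hj), map_zero, if_neg hj]
        ring
    rw [Finset.sum_congr rfl (fun j _ => h3 j), Finset.sum_add_distrib, Finset.sum_mul,
      Finset.sum_ite_eq' Finset.univ i, if_pos (Finset.mem_univ i)]

/-- If a function vanishes at `p^N` for all large `N` then its derivative at `0` is `0`
(`HasDerivAt.tendsto_slope`, the value at `0` is `0` by continuity; `p^N` is not zero and tends to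
`0`). -/
theorem deriv_zero_of_pow (p : ℕ) [Fact p.Prime] [NormedAlgebra ℚ_[p] K] {f : K → K} {f' : K}
    (hf : HasDerivAt f f' 0) (h0 : ∃ N₀ : ℕ, ∀ N, N₀ ≤ N → f ((p : K) ^ N) = 0) : f' = 0 := by
  obtain ⟨N₀, hN₀⟩ := h0
  have hp1 : ‖(p : K)‖ < 1 := by
    have h1 : (p : K) = algebraMap ℚ_[p] K (p : ℚ_[p]) := (map_natCast _ _).symm
    rw [h1, norm_algebraMap']
    exact Padic.norm_p_lt_one
  have hp0 : (p : K) ≠ 0 := by
    have h1 : (p : K) = algebraMap ℚ_[p] K (p : ℚ_[p]) := (map_natCast _ _).symm
    rw [h1]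
    exact (map_ne_zero _).2 (by exact_mod_cast (Fact.out : p.Prime).ne_zero)
  have hlim : Filter.Tendsto (fun N : ℕ => (p : K) ^ N) Filter.atTop (nhds 0) :=
    tendsto_pow_atTop_nhds_zero_of_norm_lt_one hp1
  have hlim2 : Filter.Tendsto (fun N : ℕ => (p : K) ^ N) Filter.atTop (nhdsWithin 0 {0}ᶜ) :=
    tendsto_nhdsWithin_iff.2 ⟨hlim, Filter.Eventually.of_forall fun N => pow_ne_zero N hp0⟩
  have hev : ∀ᶠ N : ℕ in Filter.atTop, f ((p : K) ^ N) = 0 :=
    Filter.eventually_atTop.2 ⟨N₀, hN₀⟩
  have hf0 : f 0 = 0 := by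
    have h1 : Filter.Tendsto (fun N : ℕ => f ((p : K) ^ N)) Filter.atTop (nhds (f 0)) :=
      hf.continuousAt.tendsto.comp hlim
    have h2 : Filter.Tendsto (fun N : ℕ => f ((p : K) ^ N)) Filter.atTop (nhds 0) :=
      tendsto_const_nhds.congr' (hev.mono fun N hN => hN.symm)
    exact tendsto_nhds_unique h1 h2
  have h3 : Filter.Tendsto (fun N : ℕ => slope f 0 ((p : K) ^ N)) Filter.atTop (nhds f') :=
    hf.tendsto_slope.comp hlim2
  have h4 : Filter.Tendsto (fun N : ℕ => slope f 0 ((p : K) ^ N)) Filter.atTop (nhds 0) := by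
    refine tendsto_const_nhds.congr' (hev.mono fun N hN => ?_)
    show (0 : K) = slope f 0 ((p : K) ^ N)
    rw [slope_def_field, hN, hf0, sub_zero, zero_div]
  exact tendsto_nhds_unique h3 h4

end PCL

end
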