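import Pool.Agent.W_52423f_h70.DsA

/-!
# Descent: the slope inequality
-/

open scoped Classical

noncomputable section

namespace PCL

variable {F M : Type} [Field F] [Field M] [Algebra F M]

/-- A function with lexicographic minimum: `φ` minimal, then `e` maximal (`e ≤ m`, `φ ≥ - C`). -/
theorem DsS_min {α : Type} [Nonempty α] (φ : α → ℤ) (e : α → ℕ) (m : ℕ) (C : ℤ)
    (hC : ∀ a, -C ≤ φ a) (he : ∀ a, e a ≤ m) :
    ∃ a, (∀ b, φ a ≤ φ b) ∧ ∀ b, φ b = φ a → e b ≤ e a := by
  set f : α → ℕ := fun a => (((m : ℤ) + 1) * (φ a + C) + ((m : ℤ) - e a)).toNat with hf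
  have h0 : ∀ a, 0 ≤ ((m : ℤ) + 1) * (φ a + C) + ((m : ℤ) - e a) := by
    intro a
    have h1 := hC a
    have h2 : (e a : ℤ) ≤ m := by exact_mod_cast he a
    have h3 : 0 ≤ ((m : ℤ) + 1) * (φ a + C) := mul_nonneg (by positivity) (by linarith)
    linarith
  have h1 : ∀ b, f (Function.argmin f) ≤ f b := fun b => Function.argmin_le f b
  set a := Function.argmin f with ha
  have h2 : ∀ b, ((m : ℤ) + 1) * (φ a + C) + ((m : ℤ) - e a) ≤
      ((m : ℤ) + 1) * (φ b + C) + ((m : ℤ) - e b) := by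
    intro b
    have h3 : (f a : ℤ) ≤ f b := by exact_mod_cast h1 b
    rw [hf] at h3
    simp only [Int.toNat_of_nonneg (h0 _)] at h3
    exact h3
  refine ⟨a, fun b => ?_, fun b hb => ?_⟩
  · by_contra hlt
    have h3 : φ b + 1 ≤ φ a := by
      have := not_le.1 hlt
      omega
    have h4 := h2 b
    have h5 : (e a : ℤ) ≤ m := by exact_mod_cast he a
    have h6 : ((m : ℤ) + 1) * (φ b + 1) ≤ ((m : ℤ) + 1) * φ a :=
      mul_le_mul_of_nonneg_left h3 (by positivity)
    have h7 : (0 : ℤ) ≤ e b := by positivity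
    nlinarith
  · have h4 := h2 b
    rw [hb] at h4
    have h5 : (e b : ℤ) ≤ e a := by linarith
    exact_mod_cast h5

/-- The slope inequality.  `Vf U` is a subspace of `E` for every subspace `U` of `M^m`, with
`Vf (U + U') = Vf U ∩ Vf U'`, conjugate subspaces have `Vf` of the same dimension, and `Vf U = 0` as
soon as `U` contains a nonzero rational vector.  Then `n dim U + m dim Vf U ≤ m n`, `n = dim E`.

Proof.  Let `φ(U) = m (n - dim Vf U) - n dim U` (an integer, at least `- n m`) and suppose that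
`φ` takes a negative value.  Let `U` be with `φ(U)` minimal and, among these, `dim U` maximal.  `Vf` is
antitone (`hsup`), so `dim Vf (U ⊔ U') + dim Vf (U ⊓ U') ≥ dim Vf U + dim Vf U'` and
`φ(U ⊔ U') + φ(U ⊓ U') ≤ φ(U) + φ(U')`.  For `U' = g U`: `φ(U') = φ(U)`, so `φ(U ⊔ g U)` is the minimum
and the maximality of the dimension gives `g U = U` (equal dimensions).  `U` is not `0` because `φ(0) ≥ 0`.
`exists_rational` and `hrat` give `Vf U = 0`, so `φ(U) = n (m - dim U) ≥ 0`, a contradiction. -/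
theorem slope [FiniteDimensional F M] [IsGalois F M] {k E : Type} [Field k] [AddCommGroup E]
    [Module k E] [FiniteDimensional k E] {m : ℕ}
    (Vf : Submodule M (Fin m → M) → Submodule k E)
    (hsup : ∀ U U', Vf (U ⊔ U') = Vf U ⊓ Vf U')
    (hG : ∀ (g : M ≃ₐ[F] M) U, Module.finrank k (Vf (gsub g U)) = Module.finrank k (Vf U))
    (hrat : ∀ (U : Submodule M (Fin m → M)) (a : Fin m → F), a ≠ 0 →
      (fun j => algebraMap F M (a j)) ∈ U → Vf U = ⊥)
    (U : Submodule M (Fin m → M)) :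
    Module.finrank k E * Module.finrank M U + m * Module.finrank k (Vf U) ≤
      m * Module.finrank k E := by
  set n := Module.finrank k E with hn
  have hd : ∀ U, Module.finrank k (Vf U) ≤ n := fun U => Submodule.finrank_le _
  have he : ∀ U : Submodule M (Fin m → M), Module.finrank M U ≤ m := by
    intro U
    have h := Submodule.finrank_le U
    rwa [Module.finrank_fin_fun] at h
  have hanti : ∀ U U' : Submodule M (Fin m → M), U ≤ U' → Vf U' ≤ Vf U := by
    intro U U' h
    have h1 := hsup U U'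
    rw [sup_eq_right.2 h] at h1
    rw [h1]
    exact inf_le_left
  have hsub : ∀ U U' : Submodule M (Fin m → M),
      Module.finrank k (Vf U) + Module.finrank k (Vf U') ≤
        Module.finrank k (Vf (U ⊔ U')) + Module.finrank k (Vf (U ⊓ U')) := by
    intro U U'
    have h1 := Submodule.finrank_sup_add_finrank_inf_eq (Vf U) (Vf U')
    have h2 : Vf U ⊔ Vf U' ≤ Vf (U ⊓ U') :=
      sup_le (hanti _ _ inf_le_left) (hanti _ _ inf_le_right)
    have h3 := Submodule.finrank_mono h2
    rw [hsup]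
    omega
  set φ : Submodule M (Fin m → M) → ℤ := fun U =>
    (m : ℤ) * ((n : ℤ) - Module.finrank k (Vf U)) - (n : ℤ) * Module.finrank M U with hφ
  suffices hmain : ∀ U, 0 ≤ φ U by
    have h1 := hmain U
    rw [hφ] at h1
    have h2 : (n : ℤ) * Module.finrank M U + m * Module.finrank k (Vf U) ≤ (m : ℤ) * n := by
      have h3 : 0 ≤ (m : ℤ) * ((n : ℤ) - Module.finrank k (Vf U)) -
        (n : ℤ) * Module.finrank M U := h1
      linarith
    exact_mod_cast h2
  obtain ⟨U₀, hU₀, hU₁⟩ := DsS_min φ (fun U => Module.finrank M U) m ((n : ℤ) * m) (by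
    intro U
    have h1 : (Module.finrank k (Vf U) : ℤ) ≤ n := by exact_mod_cast hd U
    have h2 : (Module.finrank M U : ℤ) ≤ m := by exact_mod_cast he U
    have h3 : 0 ≤ (m : ℤ) * ((n : ℤ) - Module.finrank k (Vf U)) :=
      mul_nonneg (by positivity) (by linarith)
    have h4 : (n : ℤ) * Module.finrank M U ≤ (n : ℤ) * m :=
      mul_le_mul_of_nonneg_left h2 (by positivity)
    show -((n : ℤ) * m) ≤ (m : ℤ) * ((n : ℤ) - Module.finrank k (Vf U)) -
      (n : ℤ) * Module.finrank M U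
    linarith) he
  suffices h0 : 0 ≤ φ U₀ from fun U => h0.trans (hU₀ U)
  by_contra hneg
  have hneg' := not_le.1 hneg
  -- `U₀` is stable
  have hst : ∀ g : M ≃ₐ[F] M, gsub g U₀ = U₀ := by
    intro g
    have e1 : Module.finrank M (gsub g U₀) = Module.finrank M U₀ := finrank_gsub g U₀
    have e2 := hG g U₀
    have e3 := hsub U₀ (gsub g U₀)
    have e4 := Submodule.finrank_sup_add_finrank_inf_eq U₀ (gsub g U₀)
    have e5 : φ (U₀ ⊔ gsub g U₀) + φ (U₀ ⊓ gsub g U₀) ≤ φ U₀ + φ U₀ := by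
      show ((m : ℤ) * ((n : ℤ) - Module.finrank k (Vf (U₀ ⊔ gsub g U₀))) -
          (n : ℤ) * Module.finrank M (U₀ ⊔ gsub g U₀ : Submodule M (Fin m → M))) +
        ((m : ℤ) * ((n : ℤ) - Module.finrank k (Vf (U₀ ⊓ gsub g U₀))) -
          (n : ℤ) * Module.finrank M (U₀ ⊓ gsub g U₀ : Submodule M (Fin m → M))) ≤
        ((m : ℤ) * ((n : ℤ) - Module.finrank k (Vf U₀)) - (n : ℤ) * Module.finrank M U₀) +
        ((m : ℤ) * ((n : ℤ) - Module.finrank k (Vf U₀)) - (n : ℤ) * Module.finrank M U₀)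
      have f1 : (Module.finrank k (Vf U₀) : ℤ) + Module.finrank k (Vf U₀) ≤
          Module.finrank k (Vf (U₀ ⊔ gsub g U₀)) + Module.finrank k (Vf (U₀ ⊓ gsub g U₀)) := by
        rw [e2] at e3
        exact_mod_cast e3
      have f2 : (Module.finrank M (U₀ ⊔ gsub g U₀ : Submodule M (Fin m → M)) : ℤ) +
          Module.finrank M (U₀ ⊓ gsub g U₀ : Submodule M (Fin m → M)) =
          Module.finrank M U₀ + Module.finrank M U₀ := by
        rw [e1] at e4
        exact_mod_cast e4
      have f3 := mul_le_mul_of_nonneg_left f1 (by positivity : (0 : ℤ) ≤ m)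
      have f4 := congrArg (fun x : ℤ => (n : ℤ) * x) f2
      linarith
    have e6 := hU₀ (U₀ ⊔ gsub g U₀)
    have e7 := hU₀ (U₀ ⊓ gsub g U₀)
    have e8 : φ (U₀ ⊔ gsub g U₀) = φ U₀ := by linarith
    have e9 := hU₁ _ e8
    have e10 : U₀ = U₀ ⊔ gsub g U₀ :=
      Submodule.eq_of_le_of_finrank_le le_sup_left e9
    have e11 : gsub g U₀ ≤ U₀ := le_sup_right.trans e10.ge
    exact Submodule.eq_of_le_of_finrank_eq e11 e1
  have hne : U₀ ≠ ⊥ := by
    rintro rfl
    have h1 : (Module.finrank k (Vf ⊥) : ℤ) ≤ n := by exact_mod_cast hd ⊥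
    have h2 : 0 ≤ (m : ℤ) * ((n : ℤ) - Module.finrank k (Vf ⊥)) :=
      mul_nonneg (by positivity) (by linarith)
    apply hneg
    show 0 ≤ (m : ℤ) * ((n : ℤ) - Module.finrank k (Vf ⊥)) -
      (n : ℤ) * Module.finrank M (⊥ : Submodule M (Fin m → M))
    rw [finrank_bot, Nat.cast_zero, mul_zero, sub_zero]
    exact h2
  obtain ⟨a, ha, haU⟩ := exists_rational U₀ hne hst
  have hV := hrat U₀ a ha haU
  have h2 : (Module.finrank M U₀ : ℤ) ≤ m := by exact_mod_cast he U₀
  apply hneg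
  show 0 ≤ (m : ℤ) * ((n : ℤ) - Module.finrank k (Vf U₀)) - (n : ℤ) * Module.finrank M U₀
  rw [hV, finrank_bot, Nat.cast_zero, sub_zero]
  have h3 := mul_le_mul_of_nonneg_left h2 (by positivity : (0 : ℤ) ≤ n)
  linarith

end PCL

end
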