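import Pool.Agent.W_52423f_h70.DsS

/-!
# Slopes for relations over a ring of endomorphisms
-/

open scoped Classical TensorProduct

noncomputable section

namespace PCL

variable {X : Type} [AddCommGroup X] {O : Type} [CommRing O] {m N : ℕ}

/-- The element is torsion. -/
def Tors (x : X) : Prop := ∃ n : ℤ, n ≠ 0 ∧ n • x = 0

/-- `(∑ j, a_j u_ji)_i` -/
def evU (β : O →+* AddMonoid.End X) (u : Fin m → Fin N → X) (a : Fin m → O) (i : Fin N) : X :=
  ∑ j, β (a j) (u j i)

theorem tors_iff (x : X) : (1 : ℚ) ⊗ₜ[ℤ] x = 0 ↔ Tors x := by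
  have h1 : IsBaseChange ℚ (TensorProduct.mk ℤ ℚ X 1) := TensorProduct.isBaseChange ℤ X ℚ
  have h2 : IsLocalizedModule (nonZeroDivisors ℤ) (TensorProduct.mk ℤ ℚ X 1) :=
    (isLocalizedModule_iff_isBaseChange (nonZeroDivisors ℤ) ℚ _).2 h1
  have h3 := IsLocalizedModule.eq_zero_iff (nonZeroDivisors ℤ) (TensorProduct.mk ℤ ℚ X 1) (m := x)
  rw [TensorProduct.mk_apply] at h3
  rw [h3]
  constructor
  · rintro ⟨s, hs⟩
    exact ⟨(s : ℤ), nonZeroDivisors.ne_zero s.2, hs⟩
  · rintro ⟨n, hn, hnx⟩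
    exact ⟨⟨n, mem_nonZeroDivisors_of_ne_zero hn⟩, hnx⟩

/-- The linear map `s ↦ ∑ i, s_i ⊗ y_i`. -/
def linS (y : Fin N → X) : (Fin N → ℚ) →ₗ[ℚ] (ℚ ⊗[ℤ] X) :=
  ∑ i, (LinearMap.proj i).smulRight ((1 : ℚ) ⊗ₜ[ℤ] y i)

theorem linS_apply (y : Fin N → X) (s : Fin N → ℚ) :
    linS y s = ∑ i, s i • ((1 : ℚ) ⊗ₜ[ℤ] y i) := by
  simp [linS]

theorem linS_int (y : Fin N → X) (s : Fin N → ℤ) :
    linS y (fun i => (s i : ℚ)) = (1 : ℚ) ⊗ₜ[ℤ] ∑ i, s i • y i := by
  rw [linS_apply, TensorProduct.tmul_sum]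
  refine Finset.sum_congr rfl fun i _ => ?_
  rw [TensorProduct.tmul_smul, Int.cast_smul_eq_zsmul]

theorem linS_int_zero (y : Fin N → X) (s : Fin N → ℤ) :
    linS y (fun i => (s i : ℚ)) = 0 ↔ Tors (∑ i, s i • y i) := by
  rw [linS_int, tors_iff]

theorem linS_add (y y' : Fin N → X) : linS (y + y') = linS y + linS y' := by
  apply LinearMap.ext
  intro s
  rw [LinearMap.add_apply, linS_apply, linS_apply, linS_apply, ← Finset.sum_add_distrib]
  refine Finset.sum_congr rfl fun i _ => ?_
  rw [Pi.add_apply, TensorProduct.tmul_add, smul_add]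

theorem linS_zsmul (n : ℤ) (y : Fin N → X) : linS (n • y) = (n : ℚ) • linS y := by
  apply LinearMap.ext
  intro s
  rw [LinearMap.smul_apply, linS_apply, linS_apply, Finset.smul_sum]
  refine Finset.sum_congr rfl fun i _ => ?_
  rw [Pi.smul_apply, TensorProduct.tmul_smul, smul_comm, Int.cast_smul_eq_zsmul]

variable {k : Type} [Field k] [Algebra O k]

theorem evU_add (β : O →+* AddMonoid.End X) (u : Fin m → Fin N → X) (a b : Fin m → O) :
    evU β u (a + b) = evU β u a + evU β u b := by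
  funext i
  rw [Pi.add_apply, evU, evU, evU, ← Finset.sum_add_distrib]
  refine Finset.sum_congr rfl fun j _ => ?_
  rw [Pi.add_apply, map_add]
  rfl

theorem evU_mul (β : O →+* AddMonoid.End X) (u : Fin m → Fin N → X) (c : O) (a : Fin m → O)
    (i : Fin N) : evU β u (fun j => c * a j) i = β c (evU β u a i) := by
  rw [evU, evU, map_sum]
  refine Finset.sum_congr rfl fun j _ => ?_
  rw [map_mul]
  rfl

theorem evU_zsmul (β : O →+* AddMonoid.End X) (u : Fin m → Fin N → X) (n : ℤ) (a : Fin m → O) :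
    evU β u (n • a) = n • evU β u a := by
  funext i
  rw [Pi.smul_apply, evU, evU, Finset.smul_sum]
  refine Finset.sum_congr rfl fun j _ => ?_
  rw [Pi.smul_apply, map_zsmul]
  rfl

/-- The rational combinations of the coordinates which kill all relations in `R`. -/
def Vs (β : O →+* AddMonoid.End X) (u : Fin m → Fin N → X) (R : Submodule k (Fin m → k)) :
    Submodule ℚ (Fin N → ℚ) :=
  ⨅ (a : Fin m → O) (_ : (fun j => algebraMap O k (a j)) ∈ R), LinearMap.ker (linS (evU β u a))

theorem mem_Vs {β : O →+* AddMonoid.End X} {u : Fin m → Fin N → X}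
    {R : Submodule k (Fin m → k)} {s : Fin N → ℚ} :
    s ∈ Vs β u R ↔ ∀ a : Fin m → O, (fun j => algebraMap O k (a j)) ∈ R →
      linS (evU β u a) s = 0 := by
  simp [Vs, Submodule.mem_iInf, LinearMap.mem_ker]

/-- Common denominators: `O` is a domain with field of fractions `k`, a number field. -/
theorem EbSl_den [IsDomain O] [IsFractionRing O k] [NumberField k] (x : Fin m → k) :
    ∃ (n : ℤ) (b : Fin m → O), n ≠ 0 ∧ ∀ j, algebraMap O k (b j) = (n : k) * x j := by
  have hinj : Function.Injective (algebraMap O k) := IsFractionRing.injective O k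
  have h1 : ∀ j, ∃ (n : ℤ) (b : O), n ≠ 0 ∧ algebraMap O k b = (n : k) * x j := by
    intro j
    obtain ⟨a, b, hb, hab⟩ := IsFractionRing.div_surjective O (K := k) (x j)
    have hb0 : b ≠ 0 := nonZeroDivisors.ne_zero hb
    have halg : IsAlgebraic ℤ (algebraMap O k b) :=
      (IsFractionRing.isAlgebraic_iff ℤ ℚ k).2 (Algebra.IsAlgebraic.isAlgebraic _)
    have halg' : IsAlgebraic ℤ b := by
      obtain ⟨P, hP, hP0⟩ := halg
      refine ⟨P, hP, hinj ?_⟩
      have h2 : algebraMap O k (Polynomial.aeval b P) =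
          Polynomial.aeval (algebraMap O k b) P := by
        have h3 := Polynomial.aeval_algHom_apply (algebraMap O k).toIntAlgHom b P
        exact h3.symm
      rw [h2, hP0, map_zero]
    obtain ⟨c, d, hd, hdc⟩ := halg'.exists_smul_eq_mul a (mem_nonZeroDivisors_of_ne_zero hb0)
    refine ⟨d, c, hd, ?_⟩
    have hb1 : algebraMap O k b ≠ 0 := by
      intro h
      apply hb0
      apply hinj
      rw [h, map_zero]
    rw [← hab]
    have h4 : (d : k) * algebraMap O k a = algebraMap O k b * algebraMap O k c := by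
      rw [← map_mul, ← hdc, zsmul_eq_mul, map_mul, map_intCast]
    field_simp
    rw [h4]
    ring
  choose n b hn hb using h1
  refine ⟨∏ j, n j, fun j => ((∏ i ∈ Finset.univ.erase j, n i : ℤ) : O) * b j,
    Finset.prod_ne_zero_iff.2 fun j _ => hn j, fun j => ?_⟩
  rw [map_mul, hb, map_intCast, ← mul_assoc]
  congr 1
  rw [← Finset.mul_prod_erase Finset.univ n (Finset.mem_univ j)]
  push_cast
  ring

theorem EbSl_zero {n : ℤ} (hn : n ≠ 0) {V : Type} [AddCommGroup V] [Module ℚ V] {v : V}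
    (h : (n : ℚ) • v = 0) : v = 0 :=
  (smul_eq_zero.1 h).resolve_left (by exact_mod_cast hn)

theorem Vs_mono {β : O →+* AddMonoid.End X} {u : Fin m → Fin N → X}
    {R R' : Submodule k (Fin m → k)} (h : R ≤ R') : Vs β u R' ≤ Vs β u R := by
  intro s hs
  rw [mem_Vs] at hs ⊢
  exact fun a ha => hs a (h ha)

/-- The relations with coefficients in `k` spanned by `R` and `R'`. -/
theorem Vs_sup [IsDomain O] [IsFractionRing O k] [NumberField k] (β : O →+* AddMonoid.End X)
    (u : Fin m → Fin N → X) (R R' : Submodule k (Fin m → k)) :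
    Vs β u (R ⊔ R') = Vs β u R ⊓ Vs β u R' := by
  apply le_antisymm
  · exact le_inf (Vs_mono le_sup_left) (Vs_mono le_sup_right)
  · rintro s ⟨hs, hs'⟩
    have hs1 := mem_Vs.1 hs
    have hs2 := mem_Vs.1 hs'
    rw [mem_Vs]
    intro a ha
    obtain ⟨x, hx, y, hy, hxy⟩ := Submodule.mem_sup.1 ha
    obtain ⟨n, b, hn, hb⟩ := EbSl_den (O := O) x
    have hnk : (n : k) ≠ 0 := by exact_mod_cast hn
    have hbR : (fun j => algebraMap O k (b j)) ∈ R := by
      have h1 : (fun j => algebraMap O k (b j)) = (n : k) • x := by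
        funext j
        exact hb j
      rw [h1]
      exact R.smul_mem _ hx
    have hcR : (fun j => algebraMap O k ((n • a - b) j)) ∈ R' := by
      have h1 : (fun j => algebraMap O k ((n • a - b) j)) = (n : k) • y := by
        funext j
        have h2 := congrFun hxy j
        simp only [Pi.add_apply] at h2
        rw [Pi.sub_apply, Pi.smul_apply, map_sub, hb, zsmul_eq_mul, map_mul, map_intCast, ← h2,
          Pi.smul_apply, smul_eq_mul]
        ring
      rw [h1]
      exact R'.smul_mem _ hy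
    have h1 : evU β u (n • a) = evU β u b + evU β u (n • a - b) := by
      rw [← evU_add]
      congr 1
      abel
    have h2 : linS (evU β u (n • a)) s = 0 := by
      rw [h1, linS_add, LinearMap.add_apply, hs1 b hbR, hs2 _ hcR, add_zero]
    rw [evU_zsmul, linS_zsmul, LinearMap.smul_apply] at h2
    exact EbSl_zero hn h2

/-- The additive map `θ` on integer vectors is linear: it extends to rational vectors. -/
def thQ (θ : (Fin N → ℤ) →+ (Fin N → ℤ)) : (Fin N → ℚ) →ₗ[ℚ] (Fin N → ℚ) :=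
  ∑ i, (LinearMap.proj i).smulRight (fun l => ((θ (Pi.single i 1) l : ℤ) : ℚ))

theorem thQ_int (θ : (Fin N → ℤ) →+ (Fin N → ℤ)) (s : Fin N → ℤ) :
    thQ θ (fun i => (s i : ℚ)) = fun l => ((θ s l : ℤ) : ℚ) := by
  funext l
  have h1 : s = ∑ i, s i • (Pi.single i 1 : Fin N → ℤ) := by
    funext j
    simp [Finset.sum_apply, Pi.single_apply]
  have h2 : θ s l = ∑ i, s i * θ (Pi.single i 1) l := by
    conv_lhs => rw [h1]
    rw [map_sum, Finset.sum_apply]
    refine Finset.sum_congr rfl fun i _ => ?_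
    rw [map_zsmul, Pi.smul_apply, smul_eq_mul]
  rw [h2]
  simp [thQ, Finset.sum_apply]

/-- Common denominators of a rational vector. -/
theorem EbSl_clear (s : Fin N → ℚ) : ∃ (n : ℤ) (t : Fin N → ℤ), n ≠ 0 ∧
    (fun i => (t i : ℚ)) = (n : ℚ) • s := by
  refine ⟨∏ i, ((s i).den : ℤ), fun i => (∏ j ∈ Finset.univ.erase i, ((s j).den : ℤ)) * (s i).num,
    Finset.prod_ne_zero_iff.2 fun i _ => by exact_mod_cast (s i).den_ne_zero, ?_⟩
  funext i
  rw [Pi.smul_apply, smul_eq_mul, ← Finset.mul_prod_erase Finset.univ _ (Finset.mem_univ i)]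
  push_cast
  have h1 : s i * ((s i).den : ℚ) = ((s i).num : ℚ) := Rat.mul_den_eq_num (s i)
  rw [← h1]
  ring

theorem thQ_injective {θ : (Fin N → ℤ) →+ (Fin N → ℤ)} (hθ : Function.Injective θ) :
    Function.Injective (thQ θ) := by
  rw [injective_iff_map_eq_zero]
  intro s hs
  obtain ⟨n, t, hn, ht⟩ := EbSl_clear s
  have h1 : thQ θ (fun i => (t i : ℚ)) = 0 := by rw [ht, map_smul, hs, smul_zero]
  rw [thQ_int] at h1
  have h2 : θ t = 0 := by
    funext l
    have h3 := congrFun h1 l
    simp only [Pi.zero_apply] at h3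
    exact_mod_cast h3
  have h3 : t = 0 := hθ (by rw [h2, map_zero])
  subst h3
  have h4 : (n : ℚ) • s = 0 := by
    rw [← ht]
    funext i
    simp
  exact EbSl_zero hn h4

/-- Semilinear symmetry of the points `u_j` for the automorphism `g` of `k`. -/
def ConjStable [NumberField k] (β : O →+* AddMonoid.End X) (u : Fin m → Fin N → X)
    (g : k ≃ₐ[ℚ] k) : Prop :=
  ∃ (ψ : X →+ X) (θ : (Fin N → ℤ) →+ (Fin N → ℤ)), Function.Injective θ ∧
    (∀ a b : O, g (algebraMap O k a) = algebraMap O k b → ∀ x, ψ (β a x) = β b (ψ x)) ∧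
    ∀ j s, ψ (∑ i, s i • u j i) = ∑ i, θ s i • u j i

/-- `θ` maps the combinations which kill `R` to combinations which kill the conjugate `g R`.
Let `s ∈ Vs R`, without loss of generality integral, and `b ∈ O ^ m` with `b ∈ g R`.  There is `n ≠ 0` with
`n g⁻¹(b) = a ∈ O ^ m` (`EbSl_den`), `a ∈ R`, so `∑ i s_i ∑ j a_j u_ji` is torsion; apply `ψ`. -/
theorem Vs_conj_le [IsDomain O] [IsFractionRing O k] [NumberField k] {β : O →+* AddMonoid.End X}
    {u : Fin m → Fin N → X} {g : k ≃ₐ[ℚ] k} {ψ : X →+ X} {θ : (Fin N → ℤ) →+ (Fin N → ℤ)}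
    (hψ : ∀ a b : O, g (algebraMap O k a) = algebraMap O k b → ∀ x, ψ (β a x) = β b (ψ x))
    (hu : ∀ j s, ψ (∑ i, s i • u j i) = ∑ i, θ s i • u j i) (R : Submodule k (Fin m → k)) :
    (Vs β u R).map (thQ θ) ≤ Vs β u (gsub g R) := by
  rintro _ ⟨s, hs, rfl⟩
  have hs' := mem_Vs.1 hs
  rw [mem_Vs]
  intro b hb
  obtain ⟨n, a, hn, ha⟩ := EbSl_den (O := O) (fun j => g.symm (algebraMap O k (b j)))
  have haR : (fun j => algebraMap O k (a j)) ∈ R := by
    have h1 : (fun j => algebraMap O k (a j)) =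
        (n : k) • (fun j => g.symm (algebraMap O k (b j))) := by
      funext j
      exact ha j
    rw [h1]
    exact R.smul_mem _ (mem_gsub.1 hb)
  have h0 := hs' a haR
  obtain ⟨c, t, hc, ht⟩ := EbSl_clear s
  have h1 : linS (evU β u a) (fun i => (t i : ℚ)) = 0 := by rw [ht, map_smul, h0, smul_zero]
  rw [linS_int_zero] at h1
  obtain ⟨d, hd, hd0⟩ := h1
  -- apply `ψ`
  have hg : ∀ j, g (algebraMap O k (a j)) = algebraMap O k ((n • b) j) := by
    intro j
    rw [ha, map_mul, map_intCast, AlgEquiv.apply_symm_apply, Pi.smul_apply, zsmul_eq_mul, map_mul,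
      map_intCast]
  have h2 : ψ (∑ i, t i • evU β u a i) = ∑ i, θ t i • evU β u (n • b) i := by
    have e1 : ∑ i, t i • evU β u a i = ∑ j, β (a j) (∑ i, t i • u j i) := by
      calc ∑ i, t i • evU β u a i = ∑ i, ∑ j, t i • β (a j) (u j i) := by
            refine Finset.sum_congr rfl fun i _ => ?_
            rw [evU, Finset.smul_sum]
        _ = ∑ j, ∑ i, t i • β (a j) (u j i) := Finset.sum_comm
        _ = ∑ j, β (a j) (∑ i, t i • u j i) := by
            refine Finset.sum_congr rfl fun j _ => ?_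
            rw [map_sum]
            exact Finset.sum_congr rfl fun i _ => (map_zsmul (β (a j)) _ _).symm
    have e2 : ∑ i, θ t i • evU β u (n • b) i = ∑ j, β ((n • b) j) (∑ i, θ t i • u j i) := by
      calc ∑ i, θ t i • evU β u (n • b) i = ∑ i, ∑ j, θ t i • β ((n • b) j) (u j i) := by
            refine Finset.sum_congr rfl fun i _ => ?_
            rw [evU, Finset.smul_sum]
        _ = ∑ j, ∑ i, θ t i • β ((n • b) j) (u j i) := Finset.sum_comm
        _ = ∑ j, β ((n • b) j) (∑ i, θ t i • u j i) := by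
            refine Finset.sum_congr rfl fun j _ => ?_
            rw [map_sum]
            exact Finset.sum_congr rfl fun i _ => (map_zsmul (β ((n • b) j)) _ _).symm
    rw [e1, e2, map_sum]
    refine Finset.sum_congr rfl fun j _ => ?_
    rw [hψ _ _ (hg j), hu]
  have h3 : linS (evU β u (n • b)) (fun i => ((θ t i : ℤ) : ℚ)) = 0 := by
    rw [linS_int_zero]
    refine ⟨d, hd, ?_⟩
    rw [← h2, ← map_zsmul, hd0, map_zero]
  rw [← thQ_int, evU_zsmul, linS_zsmul, LinearMap.smul_apply, ht, map_smul, map_smul] at h3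
  exact EbSl_zero hc (EbSl_zero hn h3)

theorem Vs_conj [IsDomain O] [IsFractionRing O k] [NumberField k] {β : O →+* AddMonoid.End X}
    {u : Fin m → Fin N → X} (h : ∀ g : k ≃ₐ[ℚ] k, ConjStable β u g) (g : k ≃ₐ[ℚ] k)
    (R : Submodule k (Fin m → k)) :
    Module.finrank ℚ (Vs β u (gsub g R)) = Module.finrank ℚ (Vs β u R) := by
  have key : ∀ (g : k ≃ₐ[ℚ] k) (R : Submodule k (Fin m → k)),
      Module.finrank ℚ (Vs β u R) ≤ Module.finrank ℚ (Vs β u (gsub g R)) := by
    intro g R
    obtain ⟨ψ, θ, hθ, hψ, hu⟩ := h g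
    have h1 := Submodule.finrank_mono (Vs_conj_le hψ hu R)
    have h2 := LinearEquiv.finrank_eq
      (Submodule.equivMapOfInjective (thQ θ) (thQ_injective hθ) (Vs β u R))
    rwa [← h2] at h1
  refine le_antisymm ?_ (key g R)
  have h1 := key g.symm (gsub g R)
  have h2 : gsub g.symm (gsub g R) = R := by
    ext x
    rw [mem_gsub, mem_gsub]
    simp
  rwa [h2] at h1

/-- Simple position: a combination of the `u_j` with integral coefficients which are not all zero has
coordinates which are independent modulo torsion. -/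
def SimpleU (u : Fin m → Fin N → X) : Prop :=
  ∀ t : Fin m → ℤ, t ≠ 0 → ∀ s : Fin N → ℤ, Tors (∑ i, s i • ∑ j, t j • u j i) → s = 0

theorem Vs_rat [IsDomain O] [IsFractionRing O k] [NumberField k] {β : O →+* AddMonoid.End X}
    {u : Fin m → Fin N → X} (hu : SimpleU u) (R : Submodule k (Fin m → k)) (a : Fin m → ℚ)
    (ha : a ≠ 0) (haR : (fun j => algebraMap ℚ k (a j)) ∈ R) : Vs β u R = ⊥ := by
  obtain ⟨n, t, hn, ht⟩ := EbSl_clear a
  have ht0 : t ≠ 0 := by
    rintro rfl
    apply ha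
    apply EbSl_zero hn
    rw [← ht]
    funext i
    simp
  rw [Submodule.eq_bot_iff]
  intro s hs
  have h1 := mem_Vs.1 hs (fun j => (t j : O)) (by
    have h2 : (fun j => algebraMap O k (t j : O)) = (n : k) • (fun j => algebraMap ℚ k (a j)) := by
      funext j
      have h3 := congrFun ht j
      simp only [Pi.smul_apply, smul_eq_mul] at h3
      rw [Pi.smul_apply, smul_eq_mul, map_intCast]
      have h4 : algebraMap ℚ k ((t j : ℚ)) = algebraMap ℚ k ((n : ℚ) * a j) := by rw [h3]
      rw [map_mul, map_intCast, map_intCast] at h4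
      exact h4
    rw [h2]
    exact R.smul_mem _ haR)
  obtain ⟨c, s', hc, hs'⟩ := EbSl_clear s
  have h2 : linS (evU β u fun j => (t j : O)) (fun i => (s' i : ℚ)) = 0 := by
    rw [hs', map_smul, h1, smul_zero]
  rw [linS_int_zero] at h2
  have h3 : ∀ i, evU β u (fun j => (t j : O)) i = ∑ j, t j • u j i := by
    intro i
    rw [evU]
    refine Finset.sum_congr rfl fun j _ => ?_
    rw [map_intCast]
    simp
  rw [Finset.sum_congr rfl fun i _ => by rw [h3 i]] at h2
  have h4 := hu t ht0 s' h2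
  subst h4
  apply EbSl_zero hc
  rw [← hs']
  funext i
  simp

/-- The slope inequality for relations over `O`. -/
theorem slope_act [IsDomain O] [IsFractionRing O k] [NumberField k] [IsGalois ℚ k]
    {β : O →+* AddMonoid.End X} {u : Fin m → Fin N → X} (hu : SimpleU u)
    (h : ∀ g : k ≃ₐ[ℚ] k, ConjStable β u g) (R : Submodule k (Fin m → k)) :
    N * Module.finrank k R + m * Module.finrank ℚ (Vs β u R) ≤ m * N := by
  have h1 := slope (F := ℚ) (M := k) (k := ℚ) (E := Fin N → ℚ) (m := m) (Vs β u)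
    (Vs_sup β u) (Vs_conj h) (fun U a ha haU => Vs_rat hu U a ha haU) R
  rwa [Module.finrank_fin_fun] at h1

end PCL

end
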