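import Pool.Agent.W_52423f_h70.SbMain

/-!
# The stabiliser theorem (interface; steps (2a), (2b), (2d) of proofs row 292)
-/

open scoped Classical

noncomputable section

namespace PCL

/-- Stabiliser theorem.  Let `P` be a nonzero polynomial of degree at most `D` in each variable which
vanishes at `1/x(gamma(s))` for all `s` in the box of size `m S`.  Then there are an algebraically closed
field over `K`, a point `w` of the `m`-th power of the curve at which `P` vanishes, and a set `J` of
coordinates, not all, such that the `x(w_j)`, `j` in `J`, are independent, everything is algebraic over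
the field of the `w_j`, `j` in `J`, and so many `v` in the box of size `2 S` are such that some
`K`-automorphism maps `w` to `w + gamma(v)`. -/
theorem stab (m : ℕ) : ∃ c : ℕ, ∀ (K : Type) [Field K] [CharZero K] (W : WeierstrassCurve K) [W.IsElliptic],
    ∀ (n : ℕ) (γ : (Fin n → ℤ) →+ (Fin m → Pt W K)),
      (∀ s : Fin n → ℤ, s ≠ 0 → ∀ j, γ s j ≠ 0) →
    ∀ (S D : ℕ) (P : MvPolynomial (Fin m) K), 1 ≤ D → P ≠ 0 → (∀ i, P.degreeOf i ≤ D) →
      (∀ s ∈ box n (m * S), Van D P (γ s)) →
    ∃ (Ω : Type) (_ : Field Ω) (_ : Algebra K Ω) (w : Fin m → Pt W Ω) (J : Finset (Fin m)),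
      IsAlgClosed Ω ∧ J ≠ Finset.univ ∧ HasIndep w J ∧
      Algebra.IsAlgebraic (fieldOf w J) Ω ∧ Van D P w ∧
      (2 * S + 1) ^ n ≤ c * D ^ (m - J.card) *
        ((box n (2 * S)).filter fun v => ∃ τ : Ω ≃ₐ[K] Ω,
          ∀ j, mp (τ : Ω →ₐ[K] Ω) (w j) = w j + emb Ω (γ v j)).card :=
  stab_main m

end PCL

end
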