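import Pool.Agent.W_52423f_h70.EbRel
import Pool.Agent.W_52423f_h70.EbSl
import Pool.Agent.W_52423f_h70.Stab
import Pool.Agent.W_52423f_h99.DsBox
import Pool.Agent.W_52423f_h99.DsNum

/-!
# The zero estimate for curves with endomorphisms
-/

open scoped Classical TensorProduct

noncomputable section

namespace PCL

/-- the homomorphism `s ↦ (∑ i, s_i u_ji)_j` -/
def gamX {X : Type} [AddCommGroup X] {N m : ℕ} (u : Fin m → Fin N → X) :
    (Fin N → ℤ) →+ (Fin m → X) where
  toFun s j := ∑ i, s i • u j i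
  map_zero' := by
    funext j
    simp
  map_add' s t := by
    funext j
    simp only [Pi.add_apply, add_smul, Finset.sum_add_distrib]

theorem gamX_apply {X : Type} [AddCommGroup X] {N m : ℕ} (u : Fin m → Fin N → X)
    (s : Fin N → ℤ) (j : Fin m) : gamX u s j = ∑ i, s i • u j i := rfl

/-- Exchange of the sums. -/
theorem EbCt_swap {X : Type} [AddCommGroup X] {O : Type} [CommRing O] {N m : ℕ}
    (β : O →+* AddMonoid.End X) (u : Fin m → Fin N → X) (a : Fin m → O) (s : Fin N → ℤ) :
    ∑ i, s i • evU β u a i = ∑ j, β (a j) (gamX u s j) := by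
  calc ∑ i, s i • evU β u a i = ∑ i, ∑ j, s i • β (a j) (u j i) := by
        refine Finset.sum_congr rfl fun i _ => ?_
        rw [evU, Finset.smul_sum]
    _ = ∑ j, ∑ i, s i • β (a j) (u j i) := Finset.sum_comm
    _ = ∑ j, β (a j) (gamX u s j) := by
        refine Finset.sum_congr rfl fun j _ => ?_
        rw [gamX_apply, map_sum]
        exact Finset.sum_congr rfl fun i _ => (map_zsmul (β (a j)) _ _).symm

theorem EbCt_sum {X : Type} [AddCommGroup X] {O : Type} [CommRing O]
    (β : O →+* AddMonoid.End X) {ι : Type} [Fintype ι] (f : ι → O) (x : X) :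
    β (∑ i, f i) x = ∑ i, β (f i) x := by
  let e : O →+ X :=
    { toFun := fun a => β a x
      map_zero' := by
        rw [map_zero]
        rfl
      map_add' := by
        intro a b
        rw [map_add]
        rfl }
  exact map_sum e f _

/-- Vectors which kill the relations `a_i`, `i ∈ T`, kill all relations in the space spanned by them. -/
theorem mem_Vs_span {X : Type} [AddCommGroup X] {O : Type} [CommRing O] [IsDomain O] {k : Type}
    [Field k] [Algebra O k] [IsFractionRing O k] [NumberField k] {N m : ℕ}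
    (β : O →+* AddMonoid.End X) (u : Fin m → Fin N → X) {ι : Type} [Fintype ι]
    (a : ι → Fin m → O) (s : Fin N → ℤ)
    (h : ∀ i, ∑ j, β (a i j) (gamX u s j) = 0) :
    (fun i => (s i : ℚ)) ∈ Vs β u
      (Submodule.span k (Set.range fun i => fun j => algebraMap O k (a i j))) := by
  have hinj : Function.Injective (algebraMap O k) := IsFractionRing.injective O k
  rw [mem_Vs]
  intro b hb
  obtain ⟨x, hx⟩ := (Submodule.mem_span_range_iff_exists_fun k).1 hb
  obtain ⟨n, y, hn, hy⟩ : ∃ (n : ℤ) (y : ι → O), n ≠ 0 ∧ ∀ i, algebraMap O k (y i) = (n : k) * x i := by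
    let e := Fintype.equivFin ι
    obtain ⟨n, y, hn, hy⟩ := EbSl_den (O := O) (fun i => x (e.symm i))
    refine ⟨n, fun i => y (e i), hn, fun i => ?_⟩
    rw [hy, Equiv.symm_apply_apply]
  have h1 : ∀ j, (n • b) j = ∑ i, y i * a i j := by
    intro j
    apply hinj
    have h2 := congrFun hx j
    simp only [Finset.sum_apply, Pi.smul_apply, smul_eq_mul] at h2
    rw [Pi.smul_apply, zsmul_eq_mul, map_mul, map_intCast, ← h2, map_sum, Finset.mul_sum]
    refine Finset.sum_congr rfl fun i _ => ?_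
    rw [map_mul, hy]
    ring
  have h2 : ∑ i, s i • evU β u (n • b) i = 0 := by
    rw [EbCt_swap]
    have h3 : ∀ j, β ((n • b) j) (gamX u s j) = ∑ i, β (y i) (β (a i j) (gamX u s j)) := by
      intro j
      rw [h1, EbCt_sum]
      refine Finset.sum_congr rfl fun i _ => ?_
      rw [map_mul]
      rfl
    rw [Finset.sum_congr rfl fun j _ => h3 j, Finset.sum_comm]
    refine Finset.sum_eq_zero fun i _ => ?_
    rw [← map_sum, h i, map_zero]
  have h3 : linS (evU β u (n • b)) (fun i => (s i : ℚ)) = 0 := by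
    rw [linS_int, h2, TensorProduct.tmul_zero]
  rw [evU_zsmul, linS_zsmul, LinearMap.smul_apply] at h3
  exact EbSl_zero hn h3

/-- The space of relations has dimension `m - card J`. -/
theorem EbCt_rank {O : Type} [CommRing O] {k : Type} [Field k] [CharZero k] [Algebra O k] {m : ℕ}
    {J : Finset (Fin m)} {a : Fin m → Fin m → O}
    (ha : ∀ i ∉ J, (∃ N : ℕ, 0 < N ∧ a i i = -(N : O)) ∧ ∀ i' ∉ J, i' ≠ i → a i i' = 0) :
    Module.finrank k (Submodule.span k
      (Set.range fun i : {i // i ∉ J} => fun j => algebraMap O k (a i j))) = m - J.card := by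
  rw [finrank_span_eq_card]
  · rw [Fintype.card_subtype_compl, Fintype.card_fin, Fintype.card_coe]
  · rw [Fintype.linearIndependent_iff]
    intro x hx i
    have h1 := congrFun hx i
    simp only [Finset.sum_apply, Pi.smul_apply, smul_eq_mul, Pi.zero_apply] at h1
    rw [Finset.sum_eq_single i] at h1
    · obtain ⟨⟨N, hN, hNa⟩, -⟩ := ha i i.2
      rw [hNa, map_neg, map_natCast] at h1
      have h2 : (N : k) ≠ 0 := by exact_mod_cast hN.ne'
      have h3 : -(N : k) ≠ 0 := neg_ne_zero.2 h2
      exact (mul_eq_zero.1 h1).resolve_right h3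
    · intro i' _ hne
      rw [(ha i' i'.2).2 i i.2 (fun h => hne (Subtype.ext h.symm)), map_zero, mul_zero]
    · intro h
      exact absurd (Finset.mem_univ i) h

/-- The zero estimate. -/
theorem zero_estimate_act (m N : ℕ) : ∃ C : ℕ, ∀ (K : Type) [Field K] [CharZero K]
    (W : WeierstrassCurve K) [W.IsElliptic] (O : Type) [CommRing O] [IsDomain O] (k : Type)
    [Field k] [NumberField k] [IsGalois ℚ k] [Algebra O k] [IsFractionRing O k] (A : EndAct W O)
    (u : Fin m → Fin N → Pt W K), SimpleU u → (∀ g : k ≃ₐ[ℚ] k, ConjStable (A.act K) u g) →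
    ∀ (S D : ℕ) (P : MvPolynomial (Fin m) K), 1 ≤ D → P ≠ 0 → (∀ i, P.degreeOf i ≤ D) →
      (∀ s ∈ box N (m * S), Van D P (gamX u s)) → (2 * S + 1) ^ N ≤ C * D ^ m := by
  obtain ⟨c, hc⟩ := stab m
  refine ⟨(c * 2 ^ N) ^ m, ?_⟩
  intro K _ _ W _ O _ _ k _ _ _ _ _ A u hu hconj S D P hD hP hdeg hvan
  have hinj : ∀ s : Fin N → ℤ, s ≠ 0 → ∀ j, gamX u s j ≠ 0 := by
    intro s hs j h0
    refine hs (hu (Pi.single j 1) (by simp) s ⟨1, one_ne_zero, ?_⟩)
    rw [one_smul, ← h0, gamX_apply]
    refine Finset.sum_congr rfl fun i _ => ?_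
    rw [Finset.sum_eq_single j]
    · simp
    · intro i _ hi
      simp [Pi.single_eq_of_ne hi]
    · simp
  obtain ⟨Ω, i1, i2, w, J, hac, hJ, hind, halg, -, hcard⟩ :=
    hc K W N (gamX u) hinj S D P hD hP hdeg hvan
  obtain ⟨a, ha1, ha2⟩ := trace_rel_act A w J hind halg
  obtain ⟨R, hR⟩ : ∃ R : Submodule k (Fin m → k), R = Submodule.span k
      (Set.range fun i : {i // i ∉ J} => fun j => algebraMap O k (a i j)) := ⟨_, rfl⟩
  have hrk : Module.finrank k R = m - J.card := by
    rw [hR]
    exact EbCt_rank ha1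
  have hsl := slope_act hu hconj R
  rw [hrk] at hsl
  have hJm : J.card < m := by
    have h1 := Finset.card_lt_univ_of_notMem (s := J) (x := Classical.choose (by
      by_contra hcon
      push Not at hcon
      exact hJ (Finset.eq_univ_iff_forall.2 hcon) : ∃ i, i ∉ J)) (Classical.choose_spec (by
      by_contra hcon
      push Not at hcon
      exact hJ (Finset.eq_univ_iff_forall.2 hcon) : ∃ i, i ∉ J))
    rwa [Fintype.card_fin] at h1
  have hsub : ((box N (2 * S)).filter fun v => ∃ τ : Ω ≃ₐ[K] Ω,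
          ∀ j, mp (τ : Ω →ₐ[K] Ω) (w j) = w j + emb Ω (gamX u v j)) ⊆
      (box N (2 * S)).filter fun v => (fun i => (v i : ℚ)) ∈ Vs (A.act K) u R := by
    intro v hv
    rw [Finset.mem_filter] at hv ⊢
    refine ⟨hv.1, ?_⟩
    obtain ⟨τ, hτ⟩ := hv.2
    rw [hR]
    exact mem_Vs_span (A.act K) u (fun i : {i // i ∉ J} => a i) v fun i => ha2 τ _ hτ i i.2
  have h2 : (2 * S + 1) ^ N ≤ c * D ^ (m - J.card) *
      (2 * (2 * S) + 1) ^ Module.finrank ℚ (Vs (A.act K) u R) :=
    hcard.trans (Nat.mul_le_mul_left _ ((Finset.card_le_card hsub).trans (card_box_sub _ _)))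
  exact DsBox_num hJm hD hsl h2

end PCL

end
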