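import Pool.Agent.W_52423f_h70.Defs

/-!
# Curves with endomorphisms: definitions
-/

open scoped Classical

noncomputable section

namespace PCL

/-- The ring `O` is the full ring of endomorphisms of the elliptic curve `W` over `K`: it acts on the
groups of points over all fields over `K`, in a way compatible with homomorphisms of fields, and for every
field `F` over `K`, every point `p` of the curve which is generic over `F` and every point `q` with
coordinates in `F(p)` (that is, every `F`-rational map from the curve to itself) there is `a` in `O` with
`q - a p` rational over `F`. -/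
structure EndAct {K : Type} [Field K] (W : WeierstrassCurve K) (O : Type) [CommRing O] where
  /-- the action on the points over a field -/
  act : ∀ (F : Type) [Field F] [Algebra K F], O →+* AddMonoid.End (Pt W F)
  /-- the action is natural -/
  nat : ∀ {F F' : Type} [Field F] [Algebra K F] [Field F'] [Algebra K F'] (f : F →ₐ[K] F') (a : O)
    (q : Pt W F), mp f (act F a q) = act F' a (mp f q)
  /-- every rational map is an endomorphism followed by a translation -/
  full : ∀ (Ω : Type) [Field Ω] [Algebra K Ω] (F : IntermediateField K Ω) (p q : Pt W Ω),
    Transcendental F (xc p) →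
    RatOver (IntermediateField.adjoin F {xc p, yc p} : Set Ω) q →
    ∃ (a : O) (c : Pt W Ω), RatOver (F : Set Ω) c ∧ q = act Ω a p + c

/-- Symmetry of the subgroup `L` of `W(K)^N` with respect to the automorphism `σ` of the ring of
endomorphisms: there are a `σ`-semilinear additive map `ψ` from `W(K)` to itself and an injective additive
map `θ` from `ℤ^N` to itself such that `ψ (∑ i, s_i P_i) = ∑ i, θ(s)_i P_i` for all `P` in `L` and `s` in
`ℤ^N`.  If `σ` is the identity, this holds with `ψ = id`, `θ = id`. -/
def ConjSym {K : Type} [Field K] {W : WeierstrassCurve K} {O : Type} [CommRing O]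
    (A : EndAct W O) (σ : O ≃+* O) {N : ℕ} (L : AddSubgroup (Fin N → W.toAffine.Point)) : Prop :=
  ∃ (ψ : W.toAffine.Point →+ W.toAffine.Point) (θ : (Fin N → ℤ) →+ (Fin N → ℤ)),
    Function.Injective θ ∧
    (∀ (a : O) (x : W.toAffine.Point), ψ (A.act K a x) = A.act K (σ a) (ψ x)) ∧
    ∀ P ∈ L, ∀ s : Fin N → ℤ, ψ (∑ i, s i • P i) = ∑ i, θ s i • P i

end PCL

end
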