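import Mathlib

/-!
# Rings with an involution whose fixed elements are the integers
-/

open scoped Classical

noncomputable section

namespace PCL

variable {O : Type} [CommRing O] [IsDomain O] [CharZero O]

instance EbGal_charZero : CharZero (FractionRing O) := by
  infer_instance

/-- the structure of the field of fractions -/
theorem EbGal_repr {σ : O ≃+* O} (hσ : ∀ a, σ (σ a) = a) (hfix : ∀ a, σ a = a → ∃ n : ℤ, a = n)
    {δ : O} (hδ : σ δ = -δ) (hδ0 : δ ≠ 0) (x : FractionRing O) :
    ∃ a b : ℚ, x = algebraMap ℚ (FractionRing O) a +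
      algebraMap ℚ (FractionRing O) b * algebraMap O (FractionRing O) δ := by
  have hinj : Function.Injective (algebraMap O (FractionRing O)) := IsFractionRing.injective _ _
  obtain ⟨D, hD⟩ := hfix (δ * δ) (by rw [map_mul, hδ]; ring)
  have hD0 : D ≠ 0 := by
    rintro rfl
    apply hδ0
    have h1 : δ * δ = 0 := by rw [hD]; simp
    exact mul_self_eq_zero.1 h1
  -- elements of `O`
  have hO : ∀ a : O, ∃ n l : ℤ, (2 * D : O) * a = (n : O) + l * δ := by
    intro a
    obtain ⟨n, hn⟩ := hfix (a + σ a) (by rw [map_add, hσ]; ring)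
    obtain ⟨l, hl⟩ := hfix ((a - σ a) * δ) (by rw [map_mul, map_sub, hσ, hδ]; ring)
    refine ⟨D * n, l, ?_⟩
    push_cast
    rw [← hn, ← hl, ← hD]
    ring
  obtain ⟨a, b, hb, hab⟩ := IsFractionRing.div_surjective O (K := FractionRing O) x
  have hb0 : b ≠ 0 := nonZeroDivisors.ne_zero hb
  obtain ⟨N, hN⟩ := hfix (b * σ b) (by rw [map_mul, hσ]; ring)
  have hσb : σ b ≠ 0 := fun h => hb0 (by rw [← hσ b, h, map_zero])
  have hN0 : N ≠ 0 := by
    rintro rfl
    have h1 : b * σ b = 0 := by rw [hN]; simp
    exact (mul_ne_zero hb0 hσb) h1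
  obtain ⟨n, l, hnl⟩ := hO (a * σ b)
  refine ⟨n / (2 * D * N), l / (2 * D * N), ?_⟩
  have e1 : algebraMap O (FractionRing O) b ≠ 0 := by
    intro h
    exact hb0 (hinj (by rw [h, map_zero]))
  have e2 : ((2 * D : ℤ) : FractionRing O) ≠ 0 := by
    exact_mod_cast mul_ne_zero two_ne_zero hD0
  have e3 : (N : FractionRing O) ≠ 0 := by exact_mod_cast hN0
  have e4 : algebraMap O (FractionRing O) b * algebraMap O (FractionRing O) (σ b) = N := by
    rw [← map_mul, hN, map_intCast]
  have e5 : ((2 * D : ℤ) : FractionRing O) * (algebraMap O (FractionRing O) a *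
      algebraMap O (FractionRing O) (σ b)) = n + l * algebraMap O (FractionRing O) δ := by
    have h1 := congrArg (algebraMap O (FractionRing O)) hnl
    rw [map_mul, map_mul, map_add, map_mul, map_mul, map_intCast, map_intCast, map_intCast,
      map_ofNat] at h1
    push_cast
    exact h1
  have e6 : algebraMap ℚ (FractionRing O) ((n : ℚ) / (2 * D * N)) =
      (n : FractionRing O) / (((2 * D : ℤ) : FractionRing O) * N) := by
    rw [map_div₀, map_intCast]
    push_cast
    simp
  have e7 : algebraMap ℚ (FractionRing O) ((l : ℚ) / (2 * D * N)) =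
      (l : FractionRing O) / (((2 * D : ℤ) : FractionRing O) * N) := by
    rw [map_div₀, map_intCast]
    push_cast
    simp
  rw [e6, e7, ← hab]
  have e8 : ((2 * D : ℤ) : FractionRing O) * N ≠ 0 := mul_ne_zero e2 e3
  rw [div_mul_eq_mul_div, ← add_div, div_eq_div_iff e1 e8, ← e5, ← e4]
  ring

theorem EbGal_main (σ : O ≃+* O) (hσ : ∀ a, σ (σ a) = a)
    (hfix : ∀ a, σ a = a → ∃ n : ℤ, a = n) :
    NumberField (FractionRing O) ∧ IsGalois ℚ (FractionRing O) ∧
      ∀ g : FractionRing O ≃ₐ[ℚ] FractionRing O,
        (∀ a : O, g (algebraMap O _ a) = algebraMap O _ a) ∨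
        (∀ a : O, g (algebraMap O _ a) = algebraMap O _ (σ a)) := by
  have hinj : Function.Injective (algebraMap O (FractionRing O)) := IsFractionRing.injective _ _
  by_cases hid : ∀ a, σ a = a
  · -- `O` is the ring of integers
    have hsurj : Function.Surjective (algebraMap ℚ (FractionRing O)) := by
      intro x
      obtain ⟨a, b, -, hab⟩ := IsFractionRing.div_surjective O (K := FractionRing O) x
      obtain ⟨n, hn⟩ := hfix a (hid a)
      obtain ⟨l, hl⟩ := hfix b (hid b)
      refine ⟨(n : ℚ) / l, ?_⟩
      rw [← hab, hn, hl, map_div₀, map_intCast, map_intCast, map_intCast, map_intCast]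
    let e : ℚ ≃ₐ[ℚ] FractionRing O :=
      AlgEquiv.ofBijective (Algebra.ofId ℚ (FractionRing O))
        ⟨(algebraMap ℚ (FractionRing O)).injective, hsurj⟩
    have hfd : FiniteDimensional ℚ (FractionRing O) :=
      LinearEquiv.finiteDimensional e.toLinearEquiv
    refine ⟨⟨⟩, IsGalois.of_algEquiv e, fun g => Or.inl fun a => ?_⟩
    obtain ⟨n, hn⟩ := hfix a (hid a)
    rw [hn, map_intCast, map_intCast]
  · push Not at hid
    obtain ⟨ω, hω⟩ := hid
    obtain ⟨δ, hδ⟩ : ∃ δ : O, δ = ω - σ ω := ⟨_, rfl⟩
    have hδ1 : σ δ = -δ := by rw [hδ, map_sub, hσ]; ring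
    have hδ0 : δ ≠ 0 := by
      rw [hδ]
      exact sub_ne_zero.2 (fun h => hω h.symm)
    have hrep := EbGal_repr hσ hfix hδ1 hδ0
    have hspan : Submodule.span ℚ
        (Set.range ![(1 : FractionRing O), algebraMap O (FractionRing O) δ]) = ⊤ := by
      rw [eq_top_iff]
      rintro x -
      obtain ⟨a, b, hx⟩ := hrep x
      rw [hx, Submodule.mem_span_range_iff_exists_fun]
      refine ⟨![a, b], ?_⟩
      simp [Fin.sum_univ_two, Algebra.smul_def]
    have hfd : FiniteDimensional ℚ (FractionRing O) := by
      refine ⟨⟨(Set.finite_range ![(1 : FractionRing O),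
        algebraMap O (FractionRing O) δ]).toFinset, ?_⟩⟩
      rw [Set.Finite.coe_toFinset]
      exact hspan
    have hli : LinearIndependent ℚ ![(1 : FractionRing O), algebraMap O (FractionRing O) δ] := by
      rw [LinearIndependent.pair_iff]
      intro s t hst
      rw [Algebra.smul_def, Algebra.smul_def, mul_one] at hst
      have ht : t = 0 := by
        by_contra ht
        -- `q δ = p`
        have h1 : algebraMap O (FractionRing O) δ = algebraMap ℚ (FractionRing O) (-s / t) := by
          rw [map_div₀, map_neg]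
          have h2 : algebraMap ℚ (FractionRing O) t ≠ 0 := by
            rw [Ne, map_eq_zero]
            exact ht
          field_simp
          linear_combination hst
        obtain ⟨r, hr⟩ : ∃ r : ℚ, r = -s / t := ⟨_, rfl⟩
        rw [← hr] at h1
        have h3 : ((r.den : ℤ) : O) * δ = (r.num : O) := by
          apply hinj
          rw [map_mul, map_intCast, map_intCast, h1]
          have h4 : (r.den : ℚ) * r = r.num := by
            rw [mul_comm]
            exact Rat.mul_den_eq_num r
          have h5 := congrArg (algebraMap ℚ (FractionRing O)) h4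
          rw [map_mul, map_natCast, map_intCast] at h5
          push_cast
          exact h5
        have h6 := congrArg σ h3
        rw [map_mul, map_intCast, map_intCast, hδ1] at h6
        have h7 : (2 : O) * (((r.den : ℤ) : O) * δ) = 0 := by linear_combination h3 - h6
        have h8 : ((r.den : ℤ) : O) ≠ 0 := by exact_mod_cast r.den_ne_zero
        exact (mul_ne_zero two_ne_zero (mul_ne_zero h8 hδ0)) h7
      subst ht
      rw [map_zero, zero_mul, add_zero] at hst
      exact ⟨by rwa [map_eq_zero] at hst, rfl⟩
    have hrank : Module.finrank ℚ (FractionRing O) = 2 := by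
      have h1 := Module.finrank_eq_card_basis (Module.Basis.mk hli hspan.ge)
      rwa [Fintype.card_fin] at h1
    have hq : Algebra.IsQuadraticExtension ℚ (FractionRing O) := ⟨hrank⟩
    refine ⟨⟨⟩, inferInstance, fun g => ?_⟩
    obtain ⟨D, hD⟩ := hfix (δ * δ) (by rw [map_mul, hδ1]; ring)
    have h1 : g (algebraMap O _ δ) * g (algebraMap O _ δ) =
        algebraMap O (FractionRing O) δ * algebraMap O _ δ := by
      rw [← map_mul, ← map_mul, hD, map_intCast, map_intCast]
    have key : ∀ a : O, ∃ n l : ℤ, (2 * D : O) * a = (n : O) + l * δ ∧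
        (2 * D : O) * σ a = (n : O) - l * δ := by
      intro a
      obtain ⟨n, hn⟩ := hfix (a + σ a) (by rw [map_add, hσ]; ring)
      obtain ⟨l, hl⟩ := hfix ((a - σ a) * δ) (by rw [map_mul, map_sub, hσ, hδ1]; ring)
      refine ⟨D * n, l, ?_, ?_⟩
      · push_cast
        rw [← hn, ← hl, ← hD]
        ring
      · push_cast
        rw [← hn, ← hl, ← hD]
        ring
    have hD0 : D ≠ 0 := by
      rintro rfl
      apply hδ0
      have h1 : δ * δ = 0 := by rw [hD]; simp
      exact mul_self_eq_zero.1 h1
    have e2 : ((2 * D : ℤ) : FractionRing O) ≠ 0 := by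
      exact_mod_cast mul_ne_zero two_ne_zero hD0
    have hmap : ∀ (b : O) (n l : ℤ), (2 * D : O) * b = (n : O) + l * δ →
        ((2 * D : ℤ) : FractionRing O) * algebraMap O _ b = n + l * algebraMap O _ δ := by
      intro b n l h
      have h1 := congrArg (algebraMap O (FractionRing O)) h
      rw [map_mul, map_mul, map_add, map_mul, map_intCast, map_intCast, map_intCast,
        map_ofNat] at h1
      push_cast
      exact h1
    rcases mul_self_eq_mul_self_iff.1 h1 with h | h
    · left
      intro a
      obtain ⟨n, l, hnl, -⟩ := key a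
      have h2 := hmap a n l hnl
      have h3 := congrArg g h2
      rw [map_mul, map_intCast, map_add, map_mul, map_intCast, map_intCast, h, ← h2] at h3
      exact mul_left_cancel₀ e2 h3
    · right
      intro a
      obtain ⟨n, l, hnl, hnl'⟩ := key a
      have h2 := hmap a n l hnl
      have h2' := hmap (σ a) n (-l) (by rw [hnl']; push_cast; ring)
      have h3 := congrArg g h2
      rw [map_mul, map_intCast, map_add, map_mul, map_intCast, map_intCast, h] at h3
      apply mul_left_cancel₀ e2
      rw [h3, h2']
      push_cast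
      ring

end PCL

end
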