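import Mathlib

/-!
# Simple position
-/

open scoped Classical

noncomputable section

namespace PCL

/-- Simple position: the coordinates of every point of infinite order are independent over the
integers. -/
def SimplePos {M : Type} [Field M] {V : WeierstrassCurve M} {n : ℕ}
    (X : AddSubgroup (Fin n → V.toAffine.Point)) : Prop :=
  ∀ P ∈ X, (∀ N : ℤ, N ≠ 0 → N • P ≠ 0) → ∀ s : Fin n → ℤ, ∑ i, s i • P i = 0 → s = 0

end PCL

end
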