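import Pool.Agent.W_52423f_h70.ZE
import Pool.Agent.W_52423f_h70.MainA
import Pool.Agent.W_52423f_h70.NcDefs
import Pool.Agent.W_52423f_h70.CrC

/-!
# The theorem for curves without complex multiplication, over any number field, at one place
-/

open scoped Classical

noncomputable section

namespace PCL

open Pool.Agent.PTwist WeierstrassCurve WeierstrassCurve.Affine

theorem Nc_growth {n m r c C₀ : ℕ}
    (h : ∀ v : ℕ, 1 ≤ v → (2 * v ^ (m - r) + 1) ^ n ≤ c * (C₀ * v ^ (2 * r)) ^ m) :
    n * (m - r) ≤ 2 * r * m := by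
  by_contra hcon
  push Not at hcon
  set B := c * C₀ ^ m with hB
  have h1 := h (B + 1) (by omega)
  have h2 : (B + 1) ^ (2 * r * m + 1) ≤ (2 * (B + 1) ^ (m - r) + 1) ^ n := by
    calc (B + 1) ^ (2 * r * m + 1) ≤ (B + 1) ^ (n * (m - r)) :=
          Nat.pow_le_pow_right (by omega) hcon
      _ = ((B + 1) ^ (m - r)) ^ n := by rw [← pow_mul, mul_comm]
      _ ≤ (2 * (B + 1) ^ (m - r) + 1) ^ n := Nat.pow_le_pow_left (by omega) _
  have h3 : c * (C₀ * (B + 1) ^ (2 * r)) ^ m = B * (B + 1) ^ (2 * r * m) := by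
    rw [mul_pow, ← pow_mul, hB]
    ring
  rw [h3] at h1
  have h4 := h2.trans h1
  rw [pow_succ] at h4
  have h5 : 0 < (B + 1) ^ (2 * r * m) := by positivity
  nlinarith

/-- the homomorphism `s -> (sum_i s_i u_ji)_j` -/
def gam {M : Type} [Field M] {V : WeierstrassCurve M} {n m : ℕ}
    (u : Fin m → Fin n → V.toAffine.Point) : (Fin n → ℤ) →+ (Fin m → Pt V M) where
  toFun s j := (show Pt V M from (∑ i, s i • u j i : V.toAffine.Point))
  map_zero' := by
    funext j
    show (∑ i, (0 : Fin n → ℤ) i • u j i : V.toAffine.Point) = 0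
    simp
  map_add' s t := by
    funext j
    show (∑ i, (s + t) i • u j i : V.toAffine.Point) =
      ((∑ i, s i • u j i : V.toAffine.Point) + (∑ i, t i • u j i : V.toAffine.Point) :
        V.toAffine.Point)
    simp only [Pi.add_apply, add_smul, Finset.sum_add_distrib]

theorem Nc_nd {M : Type} [Field M] {V : WeierstrassCurve M} {n m : ℕ}
    {L : AddSubgroup (Fin n → V.toAffine.Point)} (hL : SimplePos L)
    {u : Fin m → Fin n → V.toAffine.Point} (hu : ∀ j, u j ∈ L)
    (hind : ∀ t : Fin m → ℤ, ∑ j, t j • u j = 0 → t = 0) : ND (gam u) := by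
  intro s hs t ht h0
  apply hs
  refine hL (∑ j, t j • u j) (AddSubgroup.sum_mem _ fun j _ => AddSubgroup.zsmul_mem _ (hu j) _)
    ?_ s ?_
  · intro N hN h1
    apply ht
    have h2 : ∑ j, (N * t j) • u j = 0 := by
      rw [← h1, Finset.smul_sum]
      exact Finset.sum_congr rfl fun j _ => by rw [mul_smul]
    have h3 := hind (fun j => N * t j) h2
    funext j
    have h4 := congrFun h3 j
    exact (mul_eq_zero.mp h4).resolve_left hN
  · have h2 : (∑ j, t j • (∑ i, s i • u j i) : V.toAffine.Point) = 0 := h0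
    rw [← h2]
    calc ∑ i, s i • (∑ j, t j • u j) i = ∑ i, ∑ j, (s i * t j) • u j i := by
          refine Finset.sum_congr rfl fun i _ => ?_
          rw [Finset.sum_apply, Finset.smul_sum]
          exact Finset.sum_congr rfl fun j _ => by rw [Pi.smul_apply, mul_smul]
      _ = ∑ j, ∑ i, (s i * t j) • u j i := Finset.sum_comm
      _ = ∑ j, t j • ∑ i, s i • u j i := by
          refine Finset.sum_congr rfl fun j _ => ?_
          rw [Finset.smul_sum]
          exact Finset.sum_congr rfl fun i _ => by rw [mul_comm, mul_smul]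

variable {p : ℕ} [Fact p.Prime] {K : Type} [NontriviallyNormedField K] [CompleteSpace K]
  [IsUltrametricDist K] [IsAlgClosed K] [NormedAlgebra ℚ_[p] K]

/-- The theorem for curves without complex multiplication: `L` is any finitely generated subgroup of
`V(M)^n` in simple position, the closure is taken at one place of `M`. -/
theorem main_noCM {M : Type} [Field M] [NumberField M] (V : WeierstrassCurve M) [V.IsElliptic]
    (hcm : NoCM V) (ι : M →+* K) {n m : ℕ} (L : AddSubgroup (Fin n → V.toAffine.Point))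
    (hL : SimplePos L) (hfg : L.FG) (hm : Module.finrank ℤ L = m) :
    ∃ r : ℕ, r ≤ m ∧
      HasRank (fun _ : Fin n => V.map ι) p r
        (clos (fun _ : Fin n => V.map ι)
          ((fun P i => pmap V ι (P i)) '' (L : Set (Fin n → V.toAffine.Point)))) ∧
      m * n ≤ r * (n + 2 * m) := by
  obtain ⟨r, r₀, u, c, ζ, hrm, huL, hind, hE, hR⟩ :=
    exists_expData (p := p) V ι L hfg hm
  refine ⟨r, hrm, hR, ?_⟩
  rcases hrm.lt_or_eq with h | h
  · have hND := Nc_nd hL huL hind
    obtain ⟨C₀, hC₀, hBP⟩ := bp_van h hE (gam u) (fun s j => rfl)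
    obtain ⟨c', hZE⟩ := zero_estimate m
    have key : n * (m - r) ≤ 2 * r * m := by
      refine Nc_growth (c := c') (C₀ := C₀) fun v hv => ?_
      obtain ⟨P, hP, hdeg, hvan⟩ := hBP v hv
      exact hZE M V hcm n (gam u) hND (v ^ (m - r)) (C₀ * v ^ (2 * r)) P
        (Nat.mul_pos hC₀ (Nat.pow_pos hv)) hP hdeg hvan
    obtain ⟨k, rfl⟩ := Nat.exists_eq_add_of_lt h
    have h1 : r + k + 1 - r = k + 1 := by omega
    rw [h1] at key
    nlinarith
  · subst h
    exact Nat.mul_le_mul_left _ (Nat.le_add_right _ _)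

/-- The same with the uniqueness of the rank. -/
theorem main_noCM' {M : Type} [Field M] [NumberField M] (V : WeierstrassCurve M) [V.IsElliptic]
    (hcm : NoCM V) (ι : M →+* K) {n m : ℕ} (L : AddSubgroup (Fin n → V.toAffine.Point))
    (hL : SimplePos L) (hfg : L.FG) (hm : Module.finrank ℤ L = m) :
    ∃ r : ℕ, (∀ r' : ℕ, HasRank (fun _ : Fin n => V.map ι) p r'
        (clos (fun _ : Fin n => V.map ι)
          ((fun P i => pmap V ι (P i)) '' (L : Set (Fin n → V.toAffine.Point)))) ↔ r' = r) ∧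
      r ≤ m ∧ m * n ≤ r * (n + 2 * m) ∧ (2 * m * (m - 1) < n → r = m) := by
  obtain ⟨r, hrm, hR, hineq⟩ := main_noCM (p := p) V hcm ι L hL hfg hm
  refine ⟨r, fun r' => ⟨fun h => hasRank_unique _ h hR, fun h => h ▸ hR⟩, hrm, hineq, fun hn => ?_⟩
  rcases hrm.lt_or_eq with h | h
  · exfalso
    obtain ⟨k, rfl⟩ : ∃ k, m = k + 1 := ⟨m - 1, by omega⟩
    have h1 : r ≤ k := by omega
    rw [Nat.add_sub_cancel] at hn
    have h2 : r * (n + 2 * (k + 1)) ≤ k * (n + 2 * (k + 1)) := Nat.mul_le_mul_right _ h1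
    nlinarith
  · exact h

end PCL

end
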