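import Pool.Agent.W_52423f_h70.EbCt
import Pool.Agent.W_52423f_h70.EbGal
import Pool.Agent.W_52423f_h70.NcMain

/-!
# The universal theorem
-/

open scoped Classical

noncomputable section

namespace PCL

open Pool.Agent.PTwist WeierstrassCurve WeierstrassCurve.Affine

theorem EbMain_simple {M : Type} [Field M] {V : WeierstrassCurve M} {N m : ℕ}
    {L : AddSubgroup (Fin N → V.toAffine.Point)} (hL : SimplePos L)
    {u : Fin m → Fin N → V.toAffine.Point} (hu : ∀ j, u j ∈ L)
    (hind : ∀ t : Fin m → ℤ, ∑ j, t j • u j = 0 → t = 0) : SimpleU u := by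
  intro t ht s hs
  obtain ⟨n, hn, hn0⟩ := hs
  have h1 := hL (∑ j, t j • u j) (AddSubgroup.sum_mem _ fun j _ => AddSubgroup.zsmul_mem _ (hu j) _)
    ?_ (fun i => n * s i) ?_
  · funext i
    have h2 := congrFun h1 i
    exact (mul_eq_zero.mp h2).resolve_left hn
  · intro q hq h1
    apply ht
    have h2 : ∑ j, (q * t j) • u j = 0 := by
      rw [← h1, Finset.smul_sum]
      exact Finset.sum_congr rfl fun j _ => by rw [mul_smul]
    have h3 := hind (fun j => q * t j) h2
    funext j
    have h4 := congrFun h3 j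
    exact (mul_eq_zero.mp h4).resolve_left hq
  · rw [← hn0, Finset.smul_sum]
    refine Finset.sum_congr rfl fun i _ => ?_
    rw [mul_smul, Finset.sum_apply]
    rfl

variable {p : ℕ} [Fact p.Prime] {K : Type} [NontriviallyNormedField K] [CompleteSpace K]
  [IsUltrametricDist K] [IsAlgClosed K] [NormedAlgebra ℚ_[p] K]

/-- The universal theorem.  `V` is an elliptic curve over a number field `M` with ring of endomorphisms
`O`, `σ` an involution of `O` whose fixed elements are the integers.  `L` is a finitely generated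
subgroup of `V(M)^N` in simple position and there is a `σ`-semilinear map `ψ` which permutes the integral
combinations of the coordinates. -/
theorem main_univ {M : Type} [Field M] [NumberField M] (V : WeierstrassCurve M) [V.IsElliptic]
    {O : Type} [CommRing O] [IsDomain O] [CharZero O] (σ : O ≃+* O) (hσ : ∀ a, σ (σ a) = a)
    (hfix : ∀ a, σ a = a → ∃ n : ℤ, a = n) (A : EndAct V O) (ι : M →+* K) {N m : ℕ}
    (L : AddSubgroup (Fin N → V.toAffine.Point)) (hL : SimplePos L)
    (ψ : V.toAffine.Point →+ V.toAffine.Point) (θ : (Fin N → ℤ) →+ (Fin N → ℤ))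
    (hθ : Function.Injective θ)
    (hψ : ∀ (a : O) (x : V.toAffine.Point), ψ (A.act M a x) = A.act M (σ a) (ψ x))
    (hψL : ∀ P ∈ L, ∀ s : Fin N → ℤ, ψ (∑ i, s i • P i) = ∑ i, θ s i • P i)
    (hfg : L.FG) (hm : Module.finrank ℤ L = m) :
    ∃ r : ℕ, r ≤ m ∧
      HasRank (fun _ : Fin N => V.map ι) p r
        (clos (fun _ : Fin N => V.map ι)
          ((fun P i => pmap V ι (P i)) '' (L : Set (Fin N → V.toAffine.Point)))) ∧
      m * N ≤ r * (N + 2 * m) := by
  obtain ⟨r, r₀, u, c, ζ, hrm, huL, hind, hE, hR⟩ :=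
    exists_expData (p := p) V ι L hfg hm
  refine ⟨r, hrm, hR, ?_⟩
  rcases hrm.lt_or_eq with h | h
  · have hsim := EbMain_simple hL huL hind
    obtain ⟨h1, h2, h3⟩ := EbGal_main σ hσ hfix
    have hinj : Function.Injective (algebraMap O (FractionRing O)) :=
      IsFractionRing.injective _ _
    have hconj : ∀ g : FractionRing O ≃ₐ[ℚ] FractionRing O,
        ConjStable (X := Pt V M) (A.act M) u g := by
      intro g
      rcases h3 g with h4 | h4
      · refine ⟨AddMonoidHom.id _, AddMonoidHom.id _, Function.injective_id, ?_, ?_⟩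
        · intro a b hab x
          rw [h4] at hab
          rw [hinj hab]
          rfl
        · intro j s
          rfl
      · refine ⟨ψ, θ, hθ, ?_, ?_⟩
        · intro a b hab x
          rw [h4] at hab
          rw [← hinj hab]
          exact hψ a x
        · intro j s
          exact hψL (u j) (huL j) s
    obtain ⟨C₀, hC₀, hBP⟩ := bp_van h hE (gam u) (fun s j => rfl)
    obtain ⟨c', hZE⟩ := zero_estimate_act m N
    have key : N * (m - r) ≤ 2 * r * m := by
      refine Nc_growth (c := c') (C₀ := C₀) fun v hv => ?_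
      obtain ⟨P, hP, hdeg, hvan⟩ := hBP v hv
      exact hZE M V O (FractionRing O) A u hsim hconj (v ^ (m - r)) (C₀ * v ^ (2 * r)) P
        (Nat.mul_pos hC₀ (Nat.pow_pos hv)) hP hdeg hvan
    obtain ⟨k, rfl⟩ := Nat.exists_eq_add_of_lt h
    have h1 : r + k + 1 - r = k + 1 := by omega
    rw [h1] at key
    nlinarith
  · subst h
    exact Nat.mul_le_mul_left _ (Nat.le_add_right _ _)

/-- The universal theorem with the uniqueness of the rank. -/
theorem main_univ' {M : Type} [Field M] [NumberField M] (V : WeierstrassCurve M) [V.IsElliptic]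
    {O : Type} [CommRing O] [IsDomain O] [CharZero O] (A : EndAct V O) (σ : O ≃+* O)
    (hσ : ∀ a, σ (σ a) = a) (hfix : ∀ a, σ a = a → ∃ n : ℤ, a = n) (ι : M →+* K) {N m : ℕ}
    (L : AddSubgroup (Fin N → V.toAffine.Point)) (hL : SimplePos L) (hsym : ConjSym A σ L)
    (hfg : L.FG) (hm : Module.finrank ℤ L = m) :
    ∃ r : ℕ, (∀ r' : ℕ, HasRank (fun _ : Fin N => V.map ι) p r'
        (clos (fun _ : Fin N => V.map ι)
          ((fun P i => pmap V ι (P i)) '' (L : Set (Fin N → V.toAffine.Point)))) ↔ r' = r) ∧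
      r ≤ m ∧ m * N ≤ r * (N + 2 * m) ∧ (2 * m * (m - 1) < N → r = m) := by
  obtain ⟨ψ, θ, hθ, hψ, hψL⟩ := hsym
  obtain ⟨r, hrm, hR, hineq⟩ := main_univ (p := p) V σ hσ hfix A ι L hL ψ θ hθ hψ hψL hfg hm
  refine ⟨r, fun r' => ⟨fun h => hasRank_unique _ h hR, fun h => h ▸ hR⟩, hrm, hineq, fun hn => ?_⟩
  rcases hrm.lt_or_eq with h | h
  · exfalso
    obtain ⟨k, rfl⟩ : ∃ k, m = k + 1 := ⟨m - 1, by omega⟩
    have h1 : r ≤ k := by omega
    rw [Nat.add_sub_cancel] at hn
    have h2 : r * (N + 2 * (k + 1)) ≤ k * (N + 2 * (k + 1)) := Nat.mul_le_mul_right _ h1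
    nlinarith
  · exact h

end PCL

end
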