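import Pool.Agent.W_52423f_h70.TrA

/-!
# The trace of a point
-/

open scoped Classical

noncomputable section

namespace PCL

variable {K : Type} [Field K] [CharZero K] {W : WeierstrassCurve K} {Ω : Type} [Field Ω]
  [Algebra K Ω] [IsAlgClosed Ω]

/-- The orbit of a point under the automorphisms of `Ω` over the intermediate field `k₀`. -/
def orb (k₀ : IntermediateField K Ω) (z : Pt W Ω) : Set (Pt W Ω) :=
  {q | ∃ g ∈ k₀.fixingSubgroup, q = mp ((g : Ω ≃ₐ[K] Ω) : Ω →ₐ[K] Ω) z}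

theorem TrC_sum {A : Type} [AddCommGroup A] (S : Finset A) (f : A → A)
    (hinj : Function.Injective f) (hS : ∀ q ∈ S, f q ∈ S) : ∑ q ∈ S, f q = ∑ q ∈ S, q := by
  have h1 : S.image f = S :=
    Finset.eq_of_subset_of_card_le (Finset.image_subset_iff.2 hS)
      (Finset.card_image_of_injective S hinj).ge
  conv_rhs => rw [← h1]
  rw [Finset.sum_image fun a _ b _ h => hinj h]

omit [CharZero K] [IsAlgClosed Ω] in
theorem TrC_mp_mul (g h : Ω ≃ₐ[K] Ω) (q : Pt W Ω) :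
    mp (g : Ω →ₐ[K] Ω) (mp (h : Ω →ₐ[K] Ω) q) = mp ((g * h : Ω ≃ₐ[K] Ω) : Ω →ₐ[K] Ω) q := by
  rw [mp_comp]
  rfl

omit [CharZero K] [IsAlgClosed Ω] in
theorem TrC_mp_one (q : Pt W Ω) : mp ((1 : Ω ≃ₐ[K] Ω) : Ω →ₐ[K] Ω) q = q := mp_self q

omit [CharZero K] [IsAlgClosed Ω] in
theorem TrC_orb_mem (k₀ : IntermediateField K Ω) (z : Pt W Ω) {g : Ω ≃ₐ[K] Ω}
    (hg : g ∈ k₀.fixingSubgroup) {q : Pt W Ω} (hq : q ∈ orb k₀ z) :
    mp (g : Ω →ₐ[K] Ω) q ∈ orb k₀ z := by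
  obtain ⟨h, hh, rfl⟩ := hq
  exact ⟨g * h, mul_mem hg hh, TrC_mp_mul g h z⟩

omit [CharZero K] [IsAlgClosed Ω] in
theorem TrC_conj_mem (k₀ : IntermediateField K Ω) (τ : Ω ≃ₐ[K] Ω) (hτ : ∀ x, x ∈ k₀ ↔ τ x ∈ k₀)
    {g : Ω ≃ₐ[K] Ω} (hg : g ∈ k₀.fixingSubgroup) : τ * g * τ⁻¹ ∈ k₀.fixingSubgroup := by
  rw [IntermediateField.mem_fixingSubgroup_iff] at hg ⊢
  intro x hx
  have h1 : τ (τ⁻¹ x) = x := τ.apply_symm_apply x
  have h2 : τ⁻¹ x ∈ k₀ := (hτ _).2 (by rwa [h1])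
  rw [AlgEquiv.mul_apply, AlgEquiv.mul_apply, hg _ h2, h1]

/-- `Ω` is algebraically closed and algebraic over `k₀`, of characteristic zero: it is Galois over `k₀`,
so an element fixed by all automorphisms over `k₀` is in `k₀`. -/
theorem mem_of_fixed (k₀ : IntermediateField K Ω) [Algebra.IsAlgebraic k₀ Ω] {x : Ω}
    (hx : ∀ g ∈ k₀.fixingSubgroup, g x = x) : x ∈ k₀ := by
  have : IsAlgClosure k₀ Ω := ⟨inferInstance, inferInstance⟩
  have hG : IsGalois k₀ Ω := ⟨⟩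
  have h1 : x ∈ (⊥ : IntermediateField k₀ Ω) := by
    rw [InfiniteGalois.mem_bot_iff_fixed]
    intro f
    refine hx (f.restrictScalars K) ?_
    rw [IntermediateField.mem_fixingSubgroup_iff]
    intro y hy
    exact f.commutes ⟨y, hy⟩
  obtain ⟨y, rfl⟩ := IntermediateField.mem_bot.1 h1
  exact y.2

/-- The conjugates of an element over `k₀` are roots of its minimal polynomial over `k₀`. -/
theorem conj_finite (k₀ : IntermediateField K Ω) [Algebra.IsAlgebraic k₀ Ω] (x : Ω) :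
    {y | ∃ g ∈ k₀.fixingSubgroup, y = g x}.Finite := by
  have hint : IsIntegral k₀ x := Algebra.IsIntegral.isIntegral x
  refine (Polynomial.rootSet_finite (minpoly k₀ x) Ω).subset ?_
  rintro y ⟨g, hg, rfl⟩
  rw [Polynomial.mem_rootSet]
  refine ⟨minpoly.ne_zero hint, ?_⟩
  let g' : Ω ≃ₐ[k₀] Ω := IntermediateField.fixingSubgroupEquiv k₀ ⟨g, hg⟩
  have h1 : g' x = g x := rfl
  have h2 := Polynomial.aeval_algHom_apply (g' : Ω →ₐ[k₀] Ω) x (minpoly k₀ x)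
  rw [minpoly.aeval, map_zero] at h2
  rw [← h1]
  exact h2

/-- The orbit is finite: a point in the orbit of `z ≠ 0` is determined by its two coordinates
(`pt_ext`, `xc_mp`, `yc_mp`, `conj_finite`). -/
theorem orb_finite (k₀ : IntermediateField K Ω) [Algebra.IsAlgebraic k₀ Ω] (z : Pt W Ω) :
    (orb k₀ z).Finite := by
  by_cases hz : z = 0
  · refine (Set.finite_singleton (0 : Pt W Ω)).subset ?_
    rintro q ⟨g, _, rfl⟩
    rw [hz, map_zero]
    rfl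
  · have hne : ∀ q ∈ orb k₀ z, q ≠ 0 := by
      rintro q ⟨g, _, rfl⟩ h0
      apply hz
      apply mp_injective ((g : Ω ≃ₐ[K] Ω) : Ω →ₐ[K] Ω)
      rw [h0, map_zero]
    refine Set.Finite.of_injOn (f := fun q => (xc q, yc q))
      (t := {y | ∃ g ∈ k₀.fixingSubgroup, y = g (xc z)} ×ˢ
        {y | ∃ g ∈ k₀.fixingSubgroup, y = g (yc z)}) ?_ ?_
      ((conj_finite k₀ _).prod (conj_finite k₀ _))
    · rintro q ⟨g, hg, rfl⟩
      exact ⟨⟨g, hg, xc_mp _ _⟩, ⟨g, hg, yc_mp _ _⟩⟩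
    · intro q hq q' hq' h
      have h1 := congrArg Prod.fst h
      have h2 := congrArg Prod.snd h
      exact pt_ext (hne q hq) (hne q' hq') h1 h2

/-- The sum over the orbit is rational over `k₀`: it is fixed by all `g` in the fixing subgroup, which
permute the orbit, and then `mem_of_fixed` for its coordinates. -/
theorem ratOver_trace (k₀ : IntermediateField K Ω) [Algebra.IsAlgebraic k₀ Ω] (z : Pt W Ω) :
    RatOver (k₀ : Set Ω) (∑ q ∈ (orb_finite k₀ z).toFinset, q) := by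
  have hfix : ∀ g ∈ k₀.fixingSubgroup,
      mp ((g : Ω ≃ₐ[K] Ω) : Ω →ₐ[K] Ω) (∑ q ∈ (orb_finite k₀ z).toFinset, q) =
        ∑ q ∈ (orb_finite k₀ z).toFinset, q := by
    intro g hg
    rw [map_sum]
    apply TrC_sum _ _ (mp_injective _)
    intro q hq
    rw [Set.Finite.mem_toFinset] at hq ⊢
    exact TrC_orb_mem k₀ z hg hq
  refine ⟨mem_of_fixed k₀ fun g hg => ?_, mem_of_fixed k₀ fun g hg => ?_⟩
  · have h1 := xc_mp ((g : Ω ≃ₐ[K] Ω) : Ω →ₐ[K] Ω) (∑ q ∈ (orb_finite k₀ z).toFinset, q)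
    rw [hfix g hg] at h1
    exact h1.symm
  · have h1 := yc_mp ((g : Ω ≃ₐ[K] Ω) : Ω →ₐ[K] Ω) (∑ q ∈ (orb_finite k₀ z).toFinset, q)
    rw [hfix g hg] at h1
    exact h1.symm

/-- Let `τ` be a `K`-automorphism which maps `k₀` onto itself and `z` to `z + δ` with `δ` a `K`-point.  Then
`τ` maps the orbit of `z` bijectively onto the orbit of `z + δ` (`g -> τ g τ^-1` is a bijection of the
fixing subgroup), which is the translate of the orbit of `z` by `δ` (`mp_emb`); so the trace `Z` is mapped to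
`Z + N δ`, `N` the length of the orbit. -/
theorem mp_trace (k₀ : IntermediateField K Ω) [Algebra.IsAlgebraic k₀ Ω] (z : Pt W Ω)
    (τ : Ω ≃ₐ[K] Ω) (hτ : ∀ x, x ∈ k₀ ↔ τ x ∈ k₀) (δ : Pt W K)
    (hz : mp (τ : Ω →ₐ[K] Ω) z = z + emb Ω δ) :
    mp (τ : Ω →ₐ[K] Ω) (∑ q ∈ (orb_finite k₀ z).toFinset, q) =
      ∑ q ∈ (orb_finite k₀ z).toFinset, q +
        ((orb_finite k₀ z).toFinset.card : ℤ) • emb Ω δ := by
  have h1 : ∑ q ∈ (orb_finite k₀ z).toFinset, (mp (τ : Ω →ₐ[K] Ω) q - emb Ω δ) =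
      ∑ q ∈ (orb_finite k₀ z).toFinset, q := by
    apply TrC_sum _ (fun q => mp (τ : Ω →ₐ[K] Ω) q - emb Ω δ)
    · intro q q' h
      exact mp_injective _ (sub_left_injective h)
    · intro q hq
      rw [Set.Finite.mem_toFinset] at hq ⊢
      obtain ⟨g, hg, rfl⟩ := hq
      refine ⟨τ * g * τ⁻¹, TrC_conj_mem k₀ τ hτ hg, ?_⟩
      have h2 : mp (τ : Ω →ₐ[K] Ω) (mp (g : Ω →ₐ[K] Ω) z) =
          mp ((τ * g * τ⁻¹ : Ω ≃ₐ[K] Ω) : Ω →ₐ[K] Ω) (mp (τ : Ω →ₐ[K] Ω) z) := by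
        rw [TrC_mp_mul, TrC_mp_mul, inv_mul_cancel_right]
      rw [h2, hz, map_add, mp_emb, add_sub_cancel_right]
  rw [Finset.sum_sub_distrib, Finset.sum_const, sub_eq_iff_eq_add] at h1
  rw [map_sum, h1, natCast_zsmul]

/-- The orbit is not empty. -/
theorem card_orb_pos (k₀ : IntermediateField K Ω) [Algebra.IsAlgebraic k₀ Ω] (z : Pt W Ω) :
    0 < (orb_finite k₀ z).toFinset.card := by
  rw [Finset.card_pos]
  refine ⟨z, ?_⟩
  rw [Set.Finite.mem_toFinset]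
  exact ⟨1, one_mem _, (TrC_mp_one z).symm⟩

end PCL

end
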