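import Pool.Agent.W_52423f_h70.TrB
import Pool.Agent.W_52423f_h70.TrC

/-!
# Galois trace (2e)
-/

open scoped Classical

noncomputable section

namespace PCL

variable {K : Type} [Field K] {W : WeierstrassCurve K} {Ω : Type} [Field Ω] [Algebra K Ω]

/-- one inclusion -/
theorem TraceRel_stable {m : ℕ} (w : Fin m → Pt W Ω) (J : Finset (Fin m)) (τ : Ω ≃ₐ[K] Ω)
    (δ : Fin m → Pt W K) (hτ : ∀ j, mp (τ : Ω →ₐ[K] Ω) (w j) = w j + emb Ω (δ j)) {x : Ω}
    (hx : x ∈ fieldOf w J) : τ x ∈ fieldOf w J := by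
  have hrat : ∀ j ∈ J, RatOver (fieldOf w J : Set Ω) (w j) := by
    intro j hj
    constructor
    · exact IntermediateField.subset_adjoin K _ (Or.inl ⟨j, hj, rfl⟩)
    · exact IntermediateField.subset_adjoin K _ (Or.inr ⟨j, hj, rfl⟩)
  have hrat' : ∀ j ∈ J, RatOver (fieldOf w J : Set Ω) (mp (τ : Ω →ₐ[K] Ω) (w j)) := by
    intro j hj
    rw [hτ]
    exact ratOver_add _ (hrat j hj) (ratOver_emb _ _)
  have hle : fieldOf w J ≤ (fieldOf w J).comap (τ : Ω →ₐ[K] Ω) := by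
    conv_lhs => rw [fieldOf]
    rw [IntermediateField.adjoin_le_iff]
    rintro y (⟨j, hj, rfl⟩ | ⟨j, hj, rfl⟩)
    · have h1 := (hrat' j hj).1
      rw [xc_mp] at h1
      exact h1
    · have h1 := (hrat' j hj).2
      rw [yc_mp] at h1
      exact h1
  exact hle hx

theorem TraceRel_symm (τ : Ω ≃ₐ[K] Ω) {z : Pt W Ω} {δ : Pt W K}
    (h : mp (τ : Ω →ₐ[K] Ω) z = z + emb Ω δ) :
    mp (τ.symm : Ω →ₐ[K] Ω) z = z + emb Ω (-δ) := by
  have h1 : mp (τ.symm : Ω →ₐ[K] Ω) (mp (τ : Ω →ₐ[K] Ω) z) = z := by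
    rw [mp_comp, AlgEquiv.symm_comp, mp_self]
  rw [h, map_add, mp_emb] at h1
  rw [map_neg, ← sub_eq_add_neg]
  exact eq_sub_of_add_eq h1

/-- If `τ(w_j) = w_j + δ_j` for all `j` with `K`-points `δ_j` then `τ` maps the field of the `w_j`, `j ∈ J`, onto
itself: `τ(x(w_j)) = x(w_j + δ_j)` is in this field (`ratOver_add`, `ratOver_emb`), the same for `y`, and
`τ^-1(w_j) = w_j - δ_j`. -/
theorem fieldOf_stable {m : ℕ} (w : Fin m → Pt W Ω) (J : Finset (Fin m)) (τ : Ω ≃ₐ[K] Ω)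
    (δ : Fin m → Pt W K) (hτ : ∀ j, mp (τ : Ω →ₐ[K] Ω) (w j) = w j + emb Ω (δ j)) (x : Ω) :
    x ∈ fieldOf w J ↔ τ x ∈ fieldOf w J := by
  constructor
  · exact TraceRel_stable w J τ δ hτ
  · intro hx
    have h1 := TraceRel_stable w J τ.symm (fun j => -δ j) (fun j => TraceRel_symm τ (hτ j)) hx
    rwa [AlgEquiv.symm_apply_apply] at h1

/-- Galois trace: a translation which is induced by an automorphism satisfies an integer relation (curve
without complex multiplication).  Take `i` not in `J`, `k₀ = fieldOf w J`, `Z` the trace of `w_i` over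
`k₀`, `N >= 1` the length of the orbit.  `ratOver_trace` and `structure_noCM`:
`Z = sum_(j ∈ J) t_j w_j + c`.  Apply `τ`: `mp_trace` (`fieldOf_stable`) gives `Z + N δ_i`, on the other side
`Z + sum_(j ∈ J) t_j δ_j` (`mp_emb`).  So `sum_(j ∈ J) t_j δ_j - N δ_i = 0` (the map `emb` is
injective), a nontrivial relation since `N` is not zero and `i` is not in `J`. -/
theorem trace_rel {K : Type} [Field K] [CharZero K] {W : WeierstrassCurve K} [W.IsElliptic]
    (hcm : NoCM W) {m : ℕ} {Ω : Type} [Field Ω] [Algebra K Ω] [IsAlgClosed Ω]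
    (w : Fin m → Pt W Ω) (J : Finset (Fin m)) (hJ : J ≠ Finset.univ) (hw : HasIndep w J)
    (halg : Algebra.IsAlgebraic (fieldOf w J) Ω) (τ : Ω ≃ₐ[K] Ω) (δ : Fin m → Pt W K)
    (hτ : ∀ j, mp (τ : Ω →ₐ[K] Ω) (w j) = w j + emb Ω (δ j)) :
    ∃ t : Fin m → ℤ, t ≠ 0 ∧ ∑ j, t j • δ j = 0 := by
  obtain ⟨i, hi⟩ : ∃ i, i ∉ J := by
    by_contra hcon
    push Not at hcon
    exact hJ (Finset.eq_univ_iff_forall.2 hcon)
  have := halg
  obtain ⟨t, c, htc⟩ := structure_noCM hcm w J hw _ (ratOver_trace (fieldOf w J) (w i))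
  have h1 := mp_trace (fieldOf w J) (w i) τ (fieldOf_stable w J τ δ hτ) (δ i) (hτ i)
  have hN := card_orb_pos (fieldOf w J) (w i)
  set N : ℕ := (orb_finite (fieldOf w J) (w i)).toFinset.card with hNdef
  rw [htc, map_add, map_sum, mp_emb] at h1
  have h2 : ∑ j ∈ J, mp (τ : Ω →ₐ[K] Ω) (t j • w j) =
      ∑ j ∈ J, t j • w j + emb Ω (∑ j ∈ J, t j • δ j) := by
    rw [map_sum, ← Finset.sum_add_distrib]
    refine Finset.sum_congr rfl fun j _ => ?_
    rw [map_zsmul, hτ, map_zsmul, smul_add]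
  rw [h2, add_right_comm, add_right_inj, ← map_zsmul] at h1
  have h3 : ∑ j ∈ J, t j • δ j = (N : ℤ) • δ i := mp_injective _ h1
  refine ⟨fun j => (if j ∈ J then t j else 0) - (if j = i then (N : ℤ) else 0), ?_, ?_⟩
  · intro h4
    have h5 := congrFun h4 i
    simp only [if_neg hi, if_true, Pi.zero_apply, zero_sub, neg_eq_zero] at h5
    omega
  · have h6 : ∀ j, ((if j ∈ J then t j else 0) - (if j = i then (N : ℤ) else 0)) • δ j =
        (if j ∈ J then t j • δ j else 0) - (if j = i then (N : ℤ) • δ j else 0) := by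
      intro j
      rw [sub_smul]
      congr 1
      · split_ifs
        · rfl
        · rw [zero_smul]
      · split_ifs
        · rfl
        · rw [zero_smul]
    rw [Finset.sum_congr rfl fun j _ => h6 j, Finset.sum_sub_distrib, Finset.sum_ite_mem,
      Finset.univ_inter, h3, Finset.sum_ite_eq' Finset.univ i, if_pos (Finset.mem_univ i),
      sub_self]

end PCL

end
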