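import Pool.Agent.W_52423f_h70.EbTr
import Pool.Agent.W_52423f_h70.TraceRel

/-!
# Galois trace: relations over the ring of endomorphisms
-/

open scoped Classical

noncomputable section

namespace PCL

variable {K : Type} [Field K] {W : WeierstrassCurve K} {O : Type} [CommRing O]

theorem EbRel_act_emb {Ω : Type} [Field Ω] [Algebra K Ω] (A : EndAct W O) (a : O) (q : Pt W K) :
    A.act Ω a (emb Ω q) = emb Ω (A.act K a q) := (A.nat (Algebra.ofId K Ω) a q).symm

/-- One relation: for `i` not in `J`. -/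
theorem EbRel_one [CharZero K] [W.IsElliptic] (A : EndAct W O) {m : ℕ} {Ω : Type} [Field Ω]
    [Algebra K Ω] [IsAlgClosed Ω] (w : Fin m → Pt W Ω) (J : Finset (Fin m)) (hw : HasIndep w J)
    (halg : Algebra.IsAlgebraic (fieldOf w J) Ω) {i : Fin m} (hi : i ∉ J) :
    ∃ a : Fin m → O, (∃ N : ℕ, 0 < N ∧ a i = -(N : O)) ∧ (∀ i' ∉ J, i' ≠ i → a i' = 0) ∧
      ∀ (τ : Ω ≃ₐ[K] Ω) (δ : Fin m → Pt W K),
        (∀ j, mp (τ : Ω →ₐ[K] Ω) (w j) = w j + emb Ω (δ j)) →
        ∑ j, A.act K (a j) (δ j) = 0 := by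
  have := halg
  obtain ⟨t, c, htc⟩ := structure_act A w J hw _ (ratOver_trace (fieldOf w J) (w i))
  have hN := card_orb_pos (fieldOf w J) (w i)
  refine ⟨fun j => (if j ∈ J then t j else 0) -
    (if j = i then ((orb_finite (fieldOf w J) (w i)).toFinset.card : O) else 0),
    ⟨_, hN, ?_⟩, ?_, ?_⟩
  · simp only [if_neg hi, if_true, zero_sub]
  · intro i' hi' hne
    simp only [if_neg hi', if_neg hne, sub_zero]
  · intro τ δ hτ
    have h1 := mp_trace (fieldOf w J) (w i) τ (fieldOf_stable w J τ δ hτ) (δ i) (hτ i)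
    set N : ℕ := (orb_finite (fieldOf w J) (w i)).toFinset.card with hNdef
    rw [htc, map_add, map_sum, mp_emb] at h1
    have h2 : ∑ j ∈ J, mp (τ : Ω →ₐ[K] Ω) (A.act Ω (t j) (w j)) =
        ∑ j ∈ J, A.act Ω (t j) (w j) + emb Ω (∑ j ∈ J, A.act K (t j) (δ j)) := by
      rw [map_sum, ← Finset.sum_add_distrib]
      refine Finset.sum_congr rfl fun j _ => ?_
      rw [A.nat, hτ, map_add, EbRel_act_emb]
    rw [h2, add_right_comm, add_right_inj, ← map_zsmul] at h1
    have h3 : ∑ j ∈ J, A.act K (t j) (δ j) = (N : ℤ) • δ i := mp_injective _ h1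
    have h4 : ∀ j, A.act K ((if j ∈ J then t j else 0) - (if j = i then (N : O) else 0)) (δ j) =
        (if j ∈ J then A.act K (t j) (δ j) else 0) - (if j = i then (N : ℤ) • δ j else 0) := by
      intro j
      rw [map_sub]
      have h5 : A.act K (if j ∈ J then t j else 0) (δ j) =
          if j ∈ J then A.act K (t j) (δ j) else 0 := by
        split_ifs
        · rfl
        · rw [map_zero]; rfl
      have h6 : A.act K (if j = i then (N : O) else 0) (δ j) =
          if j = i then (N : ℤ) • δ j else 0 := by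
        split_ifs
        · rw [map_natCast]
          simp
        · rw [map_zero]; rfl
      show A.act K (if j ∈ J then t j else 0) (δ j) - A.act K (if j = i then (N : O) else 0) (δ j) = _
      rw [h5, h6]
    rw [Finset.sum_congr rfl fun j _ => h4 j, Finset.sum_sub_distrib, Finset.sum_ite_mem,
      Finset.univ_inter, h3, Finset.sum_ite_eq' Finset.univ i, if_pos (Finset.mem_univ i),
      sub_self]

/-- The relations over `O` satisfied by all translations which are induced by automorphisms: for every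
`i` not in `J` a relation `a_i` with `a_ii = -N_i`, `N_i` a positive integer, and `a_ij = 0` for all
other `j` not in `J`. -/
theorem trace_rel_act [CharZero K] [W.IsElliptic] (A : EndAct W O) {m : ℕ} {Ω : Type} [Field Ω]
    [Algebra K Ω] [IsAlgClosed Ω] (w : Fin m → Pt W Ω) (J : Finset (Fin m)) (hw : HasIndep w J)
    (halg : Algebra.IsAlgebraic (fieldOf w J) Ω) :
    ∃ a : Fin m → Fin m → O,
      (∀ i ∉ J, (∃ N : ℕ, 0 < N ∧ a i i = -(N : O)) ∧ ∀ i' ∉ J, i' ≠ i → a i i' = 0) ∧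
      ∀ (τ : Ω ≃ₐ[K] Ω) (δ : Fin m → Pt W K),
        (∀ j, mp (τ : Ω →ₐ[K] Ω) (w j) = w j + emb Ω (δ j)) →
        ∀ i ∉ J, ∑ j, A.act K (a i j) (δ j) = 0 := by
  have h : ∀ i : Fin m, ∃ a : Fin m → O, i ∉ J →
      (∃ N : ℕ, 0 < N ∧ a i = -(N : O)) ∧ (∀ i' ∉ J, i' ≠ i → a i' = 0) ∧
      ∀ (τ : Ω ≃ₐ[K] Ω) (δ : Fin m → Pt W K),
        (∀ j, mp (τ : Ω →ₐ[K] Ω) (w j) = w j + emb Ω (δ j)) →
        ∑ j, A.act K (a j) (δ j) = 0 := by
    intro i
    by_cases hi : i ∈ J
    · exact ⟨0, fun h => absurd hi h⟩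
    · obtain ⟨a, ha⟩ := EbRel_one A w J hw halg hi
      exact ⟨a, fun _ => ha⟩
  choose a ha using h
  exact ⟨a, fun i hi => ⟨(ha i hi).1, (ha i hi).2.1⟩, fun τ δ hτ i hi => (ha i hi).2.2 τ δ hτ⟩

end PCL

end
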