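import Pool.Agent.W_52423f_h70.TrA

/-!
# The points rational over the field of several independent generic points
-/

open scoped Classical

noncomputable section

namespace PCL

variable {K : Type} [Field K] {W : WeierstrassCurve K} {Ω : Type} [Field Ω] [Algebra K Ω] {m : ℕ}

/-- Adding one point: the field of `w_j`, `j ∈ insert i J`, is generated over the field of the
`w_j`, `j ∈ J`, by the coordinates of `w_i` (both are the smallest intermediate field of `Ω / K`
with all the coordinates, `IntermediateField.adjoin_adjoin_left` or a direct argument). -/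
theorem fieldOf_insert (w : Fin m → Pt W Ω) (J : Finset (Fin m)) (i : Fin m) :
    ((fieldOf w (insert i J) : IntermediateField K Ω) : Set Ω) =
      (IntermediateField.adjoin (fieldOf w J) {xc (w i), yc (w i)} : Set Ω) := by
  have h := IntermediateField.adjoin_adjoin_left K
    ((fun j => xc (w j)) '' (J : Set (Fin m)) ∪ (fun j => yc (w j)) '' (J : Set (Fin m)))
    ({xc (w i), yc (w i)} : Set Ω)
  have h2 : (IntermediateField.adjoin (fieldOf w J) {xc (w i), yc (w i)} : Set Ω)
      = ((IntermediateField.adjoin K
        (((fun j => xc (w j)) '' (J : Set (Fin m)) ∪ (fun j => yc (w j)) '' (J : Set (Fin m)))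
          ∪ {xc (w i), yc (w i)}) : IntermediateField K Ω) : Set Ω) := by
    rw [← h]
    rfl
  rw [h2]
  unfold fieldOf
  congr 2
  rw [Finset.coe_insert, Set.image_insert_eq, Set.image_insert_eq]
  ext z
  simp only [Set.mem_union, Set.mem_insert_iff, Set.mem_singleton_iff]
  tauto

theorem fieldOf_empty (w : Fin m → Pt W Ω) :
    fieldOf w ∅ = (⊥ : IntermediateField K Ω) := by
  unfold fieldOf
  simp

theorem TrB_quad {F : Type} [Field F] {Ω' : Type} [Field Ω'] [Algebra F Ω'] (b c : F) (y : Ω')
    (h : y ^ 2 + algebraMap F Ω' b * y + algebraMap F Ω' c = 0) : IsIntegral F y := by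
  refine ⟨Polynomial.X ^ 2 + Polynomial.C b * Polynomial.X + Polynomial.C c, ?_, ?_⟩
  · monicity!
  · simpa using h

theorem TrB_y (E : IntermediateField K Ω) (q : Pt W Ω) (hx : xc q ∈ E) : IsIntegral E (yc q) := by
  cases q with
  | zero => exact isIntegral_zero
  | some x y hxy =>
    have hx' : x ∈ E := hx
    show IsIntegral E y
    have heq := (WeierstrassCurve.Affine.equation_iff x y).mp hxy.1
    have ha : ∀ a : K, algebraMap K Ω a = algebraMap E Ω (algebraMap K E a) := fun a => rfl
    refine TrB_quad (F := E) (algebraMap K E W.a₁ * ⟨x, hx'⟩ + algebraMap K E W.a₃)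
      (-(⟨x, hx'⟩ ^ 3 + algebraMap K E W.a₂ * ⟨x, hx'⟩ ^ 2 + algebraMap K E W.a₄ * ⟨x, hx'⟩
        + algebraMap K E W.a₆)) y ?_
    have hxx : algebraMap E Ω ⟨x, hx'⟩ = x := rfl
    simp only [map_add, map_mul, map_neg, map_pow, hxx, ← ha]
    have e1 : (WeierstrassCurve.Affine.baseChange W Ω).a₁ = algebraMap K Ω W.a₁ := rfl
    have e2 : (WeierstrassCurve.Affine.baseChange W Ω).a₂ = algebraMap K Ω W.a₂ := rfl
    have e3 : (WeierstrassCurve.Affine.baseChange W Ω).a₃ = algebraMap K Ω W.a₃ := rfl
    have e4 : (WeierstrassCurve.Affine.baseChange W Ω).a₄ = algebraMap K Ω W.a₄ := rfl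
    have e6 : (WeierstrassCurve.Affine.baseChange W Ω).a₆ = algebraMap K Ω W.a₆ := rfl
    rw [e1, e2, e3, e4, e6] at heq
    linear_combination heq

/-- If the `x(w_j)`, `j ∈ insert i J`, are algebraically independent over `K`, `i ∉ J`, then `x(w_i)` is
transcendental over the field of the `w_j`, `j ∈ J`: this field is algebraic over
`K(x(w_j), j ∈ J)` since the `y(w_j)` are roots of quadratic polynomials over it, and `x(w_i)` is
transcendental over `K(x(w_j), j ∈ J)` (Mathlib: `AlgebraicIndependent` for `Option`,
`insert`, `transcendental_adjoin_iff` ...). -/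
theorem transcendental_of_indep {w : Fin m → Pt W Ω} {J : Finset (Fin m)} {i : Fin m}
    (hi : i ∉ J) (h : HasIndep w (insert i J)) : Transcendental (fieldOf w J) (xc (w i)) := by
  obtain ⟨F0, hF0⟩ : ∃ F0 : IntermediateField K Ω,
      F0 = IntermediateField.adjoin K ((fun j => xc (w j)) '' (J : Set (Fin m))) := ⟨_, rfl⟩
  have hstep : Transcendental F0 (xc (w i)) := by
    rw [hF0, IntermediateField.transcendental_adjoin_iff]
    have h1 := AlgebraicIndependent.transcendental_adjoin h
      (s := {j : ↥(insert i J) | (j : Fin m) ∈ J}) (i := ⟨i, Finset.mem_insert_self i J⟩)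
      (by simpa using hi)
    have h2 : ((fun j : ↥(insert i J) => xc (w j)) '' {j : ↥(insert i J) | (j : Fin m) ∈ J})
        = ((fun j => xc (w j)) '' (J : Set (Fin m))) := by
      ext z
      constructor
      · rintro ⟨j, hj, rfl⟩
        exact ⟨j, hj, rfl⟩
      · rintro ⟨j, hj, rfl⟩
        exact ⟨⟨j, Finset.mem_insert_of_mem hj⟩, hj, rfl⟩
    rw [h2] at h1
    exact h1
  have hy : ∀ z ∈ (fun j => yc (w j)) '' (J : Set (Fin m)), IsIntegral F0 z := by
    rintro z ⟨j, hj, rfl⟩
    apply TrB_y
    rw [hF0]
    exact IntermediateField.subset_adjoin _ _ ⟨j, hj, rfl⟩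
  have hE := IntermediateField.isAlgebraic_adjoin hy
  have hres : (IntermediateField.adjoin F0 ((fun j => yc (w j)) '' (J : Set (Fin m)))).restrictScalars K
      = fieldOf w J := by
    subst hF0
    exact IntermediateField.adjoin_adjoin_left K _ _
  intro halg
  apply hstep
  rw [← hres] at halg
  have halg2 : IsAlgebraic (IntermediateField.adjoin F0 ((fun j => yc (w j)) '' (J : Set (Fin m))))
      (xc (w i)) := halg
  exact halg2.restrictScalars F0

/-- A subset of an independent set. -/
theorem hasIndep_mono {w : Fin m → Pt W Ω} {J J' : Finset (Fin m)} (h : J ⊆ J')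
    (hJ : HasIndep w J') : HasIndep w J :=
  AlgebraicIndependent.comp hJ (fun j : J => (⟨j, h j.2⟩ : J'))
    (fun _ _ hab => Subtype.ext (congrArg (fun z : J' => (z : Fin m)) hab))

/-- For a curve without complex multiplication and independent generic points `w_j`, `j ∈ J`, every
point rational over their field is an integral combination of the `w_j` plus a `K`-rational point.
Induction on `J`: for `insert i J` apply `NoCM` to `F = fieldOf w J`, `p = w_i`
(`transcendental_of_indep`, `fieldOf_insert`); for the empty set `fieldOf_empty`, `exists_emb`. -/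
theorem structure_noCM (hcm : NoCM W) (w : Fin m → Pt W Ω) (J : Finset (Fin m))
    (h : HasIndep w J) (q : Pt W Ω) (hq : RatOver (fieldOf w J : Set Ω) q) :
    ∃ (t : Fin m → ℤ) (c : Pt W K), q = ∑ j ∈ J, t j • w j + emb Ω c := by
  induction J using Finset.induction_on generalizing q with
  | empty =>
    rw [fieldOf_empty] at hq
    obtain ⟨c, hc⟩ := exists_emb hq
    exact ⟨0, c, by simp [hc]⟩
  | insert i J hi ih =>
    rw [fieldOf_insert] at hq
    obtain ⟨k, c, hc, hqc⟩ := hcm Ω (fieldOf w J) (w i) q (transcendental_of_indep hi h) hq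
    obtain ⟨t, c', hc'⟩ := ih (hasIndep_mono (Finset.subset_insert i J) h) c hc
    refine ⟨Function.update t i k, c', ?_⟩
    rw [Finset.sum_insert hi, Function.update_self]
    have : ∑ j ∈ J, Function.update t i k j • w j = ∑ j ∈ J, t j • w j := by
      apply Finset.sum_congr rfl
      intro j hj
      rw [Function.update_of_ne]
      rintro rfl
      exact hi hj
    rw [this, hqc, hc', add_assoc]

end PCL

end
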