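import Pool.Agent.W_52423f_h70.EbDefs
import Pool.Agent.W_52423f_h70.TrB

/-!
# The points rational over the field of several independent generic points
-/

open scoped Classical

noncomputable section

namespace PCL

variable {K : Type} [Field K] {W : WeierstrassCurve K} {Ω : Type} [Field Ω] [Algebra K Ω] {m : ℕ}
  {O : Type} [CommRing O]

/-- For independent generic points `w_j`, `j ∈ J`, every point rational over their field is a combination
of the `w_j` with coefficients in `O` plus a `K`-rational point (as `structure_noCM`). -/
theorem structure_act (A : EndAct W O) (w : Fin m → Pt W Ω) (J : Finset (Fin m))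
    (h : HasIndep w J) (q : Pt W Ω) (hq : RatOver (fieldOf w J : Set Ω) q) :
    ∃ (t : Fin m → O) (c : Pt W K), q = ∑ j ∈ J, A.act Ω (t j) (w j) + emb Ω c := by
  induction J using Finset.induction_on generalizing q with
  | empty =>
    rw [fieldOf_empty] at hq
    obtain ⟨c, hc⟩ := exists_emb hq
    exact ⟨0, c, by simp [hc]⟩
  | insert i J hi ih =>
    rw [fieldOf_insert] at hq
    obtain ⟨k, c, hc, hqc⟩ := A.full Ω (fieldOf w J) (w i) q (transcendental_of_indep hi h) hq
    obtain ⟨t, c', hc'⟩ := ih (hasIndep_mono (Finset.subset_insert i J) h) c hc
    refine ⟨Function.update t i k, c', ?_⟩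
    rw [Finset.sum_insert hi, Function.update_self]
    have : ∑ j ∈ J, A.act Ω (Function.update t i k j) (w j) = ∑ j ∈ J, A.act Ω (t j) (w j) := by
      apply Finset.sum_congr rfl
      intro j hj
      rw [Function.update_of_ne]
      rintro rfl
      exact hi hj
    rw [this, hqc, hc', add_assoc]

end PCL

end
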