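import Pool.Agent.W_52423f_h70.MainA
import Pool.Agent.W_52423f_h70.Desc
import Pool.Agent.W_52423f_h70.CrC

/-!
# The main theorem
-/

open scoped Classical

noncomputable section

namespace PCL

open Pool.Agent.PTwist WeierstrassCurve WeierstrassCurve.Affine

variable {p : ℕ} [Fact p.Prime] {K : Type} [NontriviallyNormedField K] [CompleteSpace K]
  [IsUltrametricDist K] [IsAlgClosed K] [NormedAlgebra ℚ_[p] K]

/-- The main theorem: closure of a subgroup of rank `m` of the twist of the `n`-th power of an elliptic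
curve over the rational numbers by an irreducible integral representation. -/
theorem main_twist (W : WeierstrassCurve ℚ) [W.IsElliptic] {M : Type} [Field M] [NumberField M]
    [IsGalois ℚ M] {n : ℕ} (ρ : (M ≃ₐ[ℚ] M) →* Matrix.GeneralLinearGroup (Fin n) ℤ)
    (hρ : Irr ρ) (ι : M →+* K) (L : AddSubgroup (Fin n → (W⁄M).toAffine.Point))
    (hL : ∀ P ∈ L, IsTw W ρ P) (hfg : L.FG) {m : ℕ} (hm : Module.finrank ℤ L = m) :
    ∃ r : ℕ, r ≤ m ∧
      HasRank (fun _ : Fin n => (W⁄M).map ι) p r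
        (clos (fun _ : Fin n => (W⁄M).map ι)
          ((fun P i => pmap (W⁄M) ι (P i)) '' (L : Set (Fin n → (W⁄M).toAffine.Point)))) ∧
      m * n ≤ r * (n + 2 * m) := by
  haveI : (W⁄M).IsElliptic := inferInstanceAs (W.map (algebraMap ℚ M)).IsElliptic
  obtain ⟨r, r₀, u, c, ζ, hrm, huL, hind, hE, hR⟩ :=
    exists_expData (p := p) (W⁄M) ι L hfg hm
  refine ⟨r, hrm, hR, ?_⟩
  rcases hrm.lt_or_eq with h | h
  · exact descent hρ h hE (fun j => hL _ (huL j)) hind
  · subst h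
    exact Nat.mul_le_mul_left _ (Nat.le_add_right _ _)

/-- All `L` of rank `m` with `n > 2 m (m - 1)`. -/
theorem main_twist_full (W : WeierstrassCurve ℚ) [W.IsElliptic] {M : Type} [Field M]
    [NumberField M] [IsGalois ℚ M] {n : ℕ}
    (ρ : (M ≃ₐ[ℚ] M) →* Matrix.GeneralLinearGroup (Fin n) ℤ)
    (hρ : Irr ρ) (ι : M →+* K) (L : AddSubgroup (Fin n → (W⁄M).toAffine.Point))
    (hL : ∀ P ∈ L, IsTw W ρ P) (hfg : L.FG) {m : ℕ} (hm : Module.finrank ℤ L = m)
    (hn : 2 * m * (m - 1) < n) :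
    HasRank (fun _ : Fin n => (W⁄M).map ι) p m
        (clos (fun _ : Fin n => (W⁄M).map ι)
          ((fun P i => pmap (W⁄M) ι (P i)) '' (L : Set (Fin n → (W⁄M).toAffine.Point)))) := by
  obtain ⟨r, hrm, hR, hineq⟩ := main_twist (p := p) W ρ hρ ι L hL hfg hm
  rcases hrm.lt_or_eq with h | h
  · exfalso
    obtain ⟨k, rfl⟩ : ∃ k, m = k + 1 := ⟨m - 1, by omega⟩
    have h1 : r ≤ k := by omega
    rw [Nat.add_sub_cancel] at hn
    have h2 : r * (n + 2 * (k + 1)) ≤ k * (n + 2 * (k + 1)) := Nat.mul_le_mul_right _ h1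
    nlinarith
  · rwa [h] at hR

end PCL

end
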