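import Pool.Agent.W_52423f_h70.SbBasic

/-!
# Stabiliser theorem: automorphisms of algebraically closed fields
-/

open scoped Classical

noncomputable section

namespace PCL

variable {K : Type} [Field K] {W : WeierstrassCurve K} {F : Type} [Field F] [Algebra K F]

/-- Two transcendence bases of an algebraically closed field are conjugate.

Proof.  As in Mathlib's `IsAlgClosed.equivOfTranscendenceBasis`: `Ω` is an algebraic closure of
`R₁ = Algebra.adjoin K (range x')` and of `R₂ = Algebra.adjoin K (range x)`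
(`IsAlgClosed.isAlgClosure_of_transcendence_basis`); the isomorphism `R₁ ≃ₐ[K] R₂`,
`x'_j ↦ x_j` (`hx'.1.aevalEquiv.symm.trans hx.1.aevalEquiv`), extends to `IsAlgClosure.equivOfEquiv Ω Ω e`,
which is a `K`-algebra isomorphism by `IsAlgClosure.equivOfEquiv_algebraMap`. -/
theorem exists_aut {Ω : Type} [Field Ω] [Algebra K Ω] [IsAlgClosed Ω] {ι : Type} (x x' : ι → Ω)
    (hx : IsTranscendenceBasis K x) (hx' : IsTranscendenceBasis K x') :
    ∃ σ : Ω ≃ₐ[K] Ω, ∀ j, σ (x' j) = x j := by
  letI := IsAlgClosed.isAlgClosure_of_transcendence_basis x' hx'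
  let := IsAlgClosed.isAlgClosure_of_transcendence_basis x hx
  let e : Algebra.adjoin K (Set.range x') ≃ₐ[K] Algebra.adjoin K (Set.range x) :=
    hx'.1.aevalEquiv.symm.trans hx.1.aevalEquiv
  let τ : Ω ≃+* Ω := IsAlgClosure.equivOfEquiv Ω Ω e.toRingEquiv
  have hτ : ∀ s : Algebra.adjoin K (Set.range x'),
      τ (algebraMap (Algebra.adjoin K (Set.range x')) Ω s) =
        algebraMap (Algebra.adjoin K (Set.range x)) Ω (e s) := fun s =>
    IsAlgClosure.equivOfEquiv_algebraMap Ω Ω e.toRingEquiv s
  refine ⟨AlgEquiv.ofRingEquiv (f := τ) fun r => ?_, fun j => ?_⟩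
  · have h1 : algebraMap K Ω r = algebraMap (Algebra.adjoin K (Set.range x')) Ω
        (algebraMap K (Algebra.adjoin K (Set.range x')) r) := rfl
    rw [h1, hτ, e.commutes]
    rfl
  · change τ (x' j) = x j
    have h1 : x' j = algebraMap (Algebra.adjoin K (Set.range x')) Ω
        (hx'.1.aevalEquiv (MvPolynomial.X j)) := by
      rw [AlgebraicIndependent.algebraMap_aevalEquiv, MvPolynomial.aeval_X]
    rw [h1, hτ]
    have h2 : e (hx'.1.aevalEquiv (MvPolynomial.X j)) = hx.1.aevalEquiv (MvPolynomial.X j) := by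
      change hx.1.aevalEquiv (hx'.1.aevalEquiv.symm (hx'.1.aevalEquiv (MvPolynomial.X j))) = _
      rw [AlgEquiv.symm_apply_apply]
    rw [h2, AlgebraicIndependent.algebraMap_aevalEquiv, MvPolynomial.aeval_X]

end PCL

end
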