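import Pool.Agent.W_52423f_h70.SbBasic

/-!
# Stabiliser theorem: transcendence bases
-/

open scoped Classical

noncomputable section

namespace PCL

variable {K : Type} [Field K] {W : WeierstrassCurve K} {F : Type} [Field F] [Algebra K F]

open IntermediateField.algebraAdjoinAdjoin in
/-- Algebraic over a subring or over its field of fractions. -/
theorem SbIsTB_iff (S : Set F) :
    Algebra.IsAlgebraic (Algebra.adjoin K S) F ↔
      Algebra.IsAlgebraic (IntermediateField.adjoin K S) F := by
  have : IsScalarTower (Algebra.adjoin K S) (IntermediateField.adjoin K S) F :=
    IsScalarTower.of_algebraMap_eq (congrFun rfl)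
  exact IsFractionRing.comap_isAlgebraic_iff

/-- The `x(w_j)`, `j` in `J`, are a transcendence basis of `F` iff they are independent and `F` is
algebraic over the field generated by them.

Proof.  `isTranscendenceBasis_iff_algebraicIndependent_isAlgebraic` gives the same statement with the
subring `Algebra.adjoin K (range fun j : J => xc (w j))` in place of the field
`xfield w J = IntermediateField.adjoin K (the same set)`.  `⟹`: `IsTranscendenceBasis.isAlgebraic_field`.
`⟸`: the field is the fraction field of the subring
(`IsFractionRing (Algebra.adjoin K s) (IntermediateField.adjoin K s)` is an instance, or every element of the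
field is a quotient of elements of the subring, `IntermediateField.mem_adjoin_iff_div`), so
`IsFractionRing.comap_isAlgebraic_iff` (or `IsAlgebraic` over the fraction field implies over the
ring) applies. -/
theorem isTB_iff {m : ℕ} (w : Fin m → Pt W F) (J : Finset (Fin m)) :
    IsTranscendenceBasis K (fun j : J => xc (w j)) ↔
      HasIndep w J ∧ Algebra.IsAlgebraic (xfield w J) F := by
  have himg : (fun j => xc (w j)) '' (J : Set (Fin m)) = Set.range (fun j : J => xc (w j)) := by
    rw [Set.image_eq_range]
    rfl
  have hx : xfield w J = IntermediateField.adjoin K (Set.range (fun j : J => xc (w j))) := by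
    unfold xfield
    rw [himg]
  rw [isTranscendenceBasis_iff_algebraicIndependent_isAlgebraic, hx]
  unfold HasIndep
  rw [SbIsTB_iff]

end PCL

end
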