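import Pool.Agent.W_52423f_h70.SbRat
import Pool.Agent.W_52423f_h70.SbIsTB
import Pool.Agent.W_52423f_h70.SbAut

/-!
# Stabiliser theorem: translation preserves transcendence bases
-/

open scoped Classical

noncomputable section

namespace PCL

variable {K : Type} [Field K] {W : WeierstrassCurve K} {F : Type} [Field F] [Algebra K F]

/-- If the `x(w_j)`, `j` in `J`, are a transcendence basis of `F` over `K` then so are the
`x(w_j + κ_j)`.

Proof.  By `isTB_iff` everything in `F` is algebraic over `xfield w J`.  Every `xc (w j)`, `j ∈ J`, is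
algebraic over `L = xfield (trw w κ) J` by `isAlgebraic_xc_of_add` (`xc (w j + emb F (κ j)) ∈ L`), so
`xfield w J ≤ algebraicClosure L F` and `F` is algebraic over `L`
(`Algebra.IsAlgebraic.trans`, or directly: `algebraicClosure L F` is algebraically closed in `F`).  Hence `F`
is algebraic over `Algebra.adjoin K (range fun j : J => xc (trw w κ j))` (an element algebraic over the
fraction field is algebraic over the ring; see the proof of `isTB_iff`), and `#J ≤ trdeg K F`
(`IsTranscendenceBasis.cardinalMk_eq_trdeg` for `w`), so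
`Algebra.IsAlgebraic.isTranscendenceBasis_of_le_trdeg_of_finite` applies. -/
theorem isTB_trw [CharZero K] {m : ℕ} (w : Fin m → Pt W F) (J : Finset (Fin m)) (κ : Fin m → Pt W K)
    (hw : IsTranscendenceBasis K (fun j : J => xc (w j))) :
    IsTranscendenceBasis K (fun j : J => xc (trw w κ j)) := by
  obtain ⟨-, halg⟩ := (isTB_iff w J).1 hw
  obtain ⟨L, hL⟩ : ∃ L : IntermediateField K F, L = xfield (trw w κ) J := ⟨_, rfl⟩
  have h1 : ∀ j ∈ J, IsAlgebraic L (xc (w j)) := by
    intro j hj
    refine isAlgebraic_xc_of_add L (κ j) ?_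
    have h2 : xc (w j + emb F (κ j)) ∈ L := by
      rw [hL]
      exact IntermediateField.subset_adjoin K _ ⟨j, hj, rfl⟩
    exact isAlgebraic_algebraMap (⟨_, h2⟩ : L)
  have h2 : xfield w J ≤ (algebraicClosure L F).restrictScalars K := by
    refine IntermediateField.adjoin_le_iff.2 ?_
    rintro _ ⟨j, hj, rfl⟩
    show xc (w j) ∈ (algebraicClosure L F).restrictScalars K
    rw [IntermediateField.mem_restrictScalars, mem_algebraicClosure_iff]
    exact h1 j hj
  have h3 : Algebra.IsAlgebraic L F := by
    refine ⟨fun z => ?_⟩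
    have h4 : IsAlgebraic (algebraicClosure L F) z := by
      obtain ⟨q, hq0, hq⟩ := halg.isAlgebraic z
      obtain ⟨e, he⟩ : ∃ e : xfield w J →+* algebraicClosure L F, ∀ a, ((e a : F)) = a :=
        ⟨(IntermediateField.inclusion h2 : xfield w J →ₐ[K] _).toRingHom, fun a => rfl⟩
      refine ⟨q.map e, (Polynomial.map_ne_zero_iff e.injective).2 hq0, ?_⟩
      rw [Polynomial.aeval_def, Polynomial.eval₂_map]
      rw [Polynomial.aeval_def] at hq
      rw [← hq]
      congr 1
      ext a
      exact he a
    exact h4.restrictScalars L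
  have hset : Set.range (fun j : J => xc (trw w κ j)) =
      (fun j => xc (trw w κ j)) '' (J : Set (Fin m)) := by
    ext x
    constructor
    · rintro ⟨j, rfl⟩
      exact ⟨j.1, j.2, rfl⟩
    · rintro ⟨j, hj, rfl⟩
      exact ⟨⟨j, hj⟩, rfl⟩
  have h5 : Algebra.IsAlgebraic (Algebra.adjoin K (Set.range fun j : J => xc (trw w κ j))) F := by
    rw [hset]
    rw [hL] at h3
    have h6 : Algebra.IsAlgebraic (IntermediateField.adjoin K
      ((fun j => xc (trw w κ j)) '' (J : Set (Fin m)))) F := h3
    open scoped IntermediateField.algebraAdjoinAdjoin in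
    exact (IsFractionRing.comap_isAlgebraic_iff (A := Algebra.adjoin K
      ((fun j => xc (trw w κ j)) '' (J : Set (Fin m)))) (K := IntermediateField.adjoin K
      ((fun j => xc (trw w κ j)) '' (J : Set (Fin m)))) (C := F)).2 h6
  exact Algebra.IsAlgebraic.isTranscendenceBasis_of_le_trdeg_of_finite K _
    (le_of_eq hw.cardinalMk_eq_trdeg)

end PCL

end
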