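import Pool.Agent.W_52423f_h70.Defs

/-!
# Points, coordinates and homomorphisms
-/

open scoped Classical

noncomputable section

namespace PCL

variable {K : Type} [Field K] {W : WeierstrassCurve K}

section

variable {F F' F'' : Type} [Field F] [Algebra K F] [Field F'] [Algebra K F'] [Field F'']
  [Algebra K F'']

theorem xc_mp (f : F →ₐ[K] F') (q : Pt W F) : xc (mp f q) = f (xc q) := by
  cases q with
  | zero => exact (map_zero f).symm
  | some x y h => rfl

theorem yc_mp (f : F →ₐ[K] F') (q : Pt W F) : yc (mp f q) = f (yc q) := by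
  cases q with
  | zero => exact (map_zero f).symm
  | some x y h => rfl

/-- Two points different from the origin with the same coordinates are equal. -/
theorem pt_ext {q q' : Pt W F} (hq : q ≠ 0) (hq' : q' ≠ 0) (hx : xc q = xc q')
    (hy : yc q = yc q') : q = q' := by
  cases q with
  | zero => exact absurd rfl hq
  | some x y h =>
    cases q' with
    | zero => exact absurd rfl hq'
    | some x' y' h' =>
      have h1 : x = x' := hx
      have h2 : y = y' := hy
      subst h1
      subst h2
      rfl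

theorem mp_injective (f : F →ₐ[K] F') : Function.Injective (mp (W := W) f) :=
  WeierstrassCurve.Affine.Point.map_injective f

theorem mp_comp (f : F →ₐ[K] F') (g : F' →ₐ[K] F'') (q : Pt W F) :
    mp g (mp f q) = mp (g.comp f) q :=
  WeierstrassCurve.Affine.Point.map_map f g q

theorem mp_emb (f : F →ₐ[K] F') (q : Pt W K) : mp f (emb F q) = emb F' q := by
  unfold emb
  rw [mp_comp]
  have h : f.comp (Algebra.ofId K F) = Algebra.ofId K F' := Subsingleton.elim _ _
  rw [h]

theorem mp_self (q : Pt W F) : mp (AlgHom.id K F) q = q := by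
  cases q <;> rfl

theorem TrA_add (f : F →ₐ[K] F') (a b : Pt W F) : ∃ c : Pt W F, mp f c = mp f a + mp f b :=
  ⟨a + b, map_add _ _ _⟩

theorem TrA_neg (f : F →ₐ[K] F') (a : Pt W F) : ∃ c : Pt W F, mp f c = -mp f a :=
  ⟨-a, map_neg _ _⟩

theorem TrA_zsmul (f : F →ₐ[K] F') (a : Pt W F) (k : ℤ) : ∃ c : Pt W F, mp f c = k • mp f a :=
  ⟨k • a, map_zsmul _ _ _⟩

end

section

variable {Ω : Type} [Field Ω] [Algebra K Ω]

/-- A point is rational over the intermediate field `E` if and only if it comes from a point with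
coordinates in `E` (the origin is rational over everything). -/
theorem ratOver_iff (E : IntermediateField K Ω) (q : Pt W Ω) :
    RatOver (E : Set Ω) q ↔ ∃ q' : Pt W E, mp E.val q' = q := by
  constructor
  · rintro ⟨h1, h2⟩
    cases q with
    | zero => exact ⟨0, rfl⟩
    | some x y h =>
      have hx : x ∈ E := h1
      have hy : y ∈ E := h2
      have h3 : (WeierstrassCurve.Affine.baseChange W E).Nonsingular ⟨x, hx⟩ ⟨y, hy⟩ :=
        (WeierstrassCurve.Affine.baseChange_nonsingular W (f := E.val) E.val.injective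
          ⟨x, hx⟩ ⟨y, hy⟩).mp h
      exact ⟨.some _ _ h3, rfl⟩
  · rintro ⟨q', rfl⟩
    refine ⟨?_, ?_⟩
    · rw [xc_mp]
      exact (xc q').2
    · rw [yc_mp]
      exact (yc q').2

theorem ratOver_add (E : IntermediateField K Ω) {q q' : Pt W Ω} (h : RatOver (E : Set Ω) q)
    (h' : RatOver (E : Set Ω) q') : RatOver (E : Set Ω) (q + q') := by
  obtain ⟨a, rfl⟩ := (ratOver_iff E q).mp h
  obtain ⟨b, rfl⟩ := (ratOver_iff E q').mp h'
  exact (ratOver_iff E _).mpr (TrA_add E.val a b)

theorem ratOver_neg (E : IntermediateField K Ω) {q : Pt W Ω} (h : RatOver (E : Set Ω) q) :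
    RatOver (E : Set Ω) (-q) := by
  obtain ⟨a, rfl⟩ := (ratOver_iff E q).mp h
  exact (ratOver_iff E _).mpr (TrA_neg E.val a)

theorem ratOver_zsmul (E : IntermediateField K Ω) {q : Pt W Ω} (h : RatOver (E : Set Ω) q)
    (k : ℤ) : RatOver (E : Set Ω) (k • q) := by
  obtain ⟨a, rfl⟩ := (ratOver_iff E q).mp h
  exact (ratOver_iff E _).mpr (TrA_zsmul E.val a k)

theorem ratOver_emb (E : IntermediateField K Ω) (q : Pt W K) :
    RatOver (E : Set Ω) (emb Ω q) :=
  (ratOver_iff E _).mpr ⟨emb E q, mp_emb E.val q⟩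

/-- A point which is rational over the bottom field comes from a `K`-point. -/
theorem exists_emb {q : Pt W Ω} (h : RatOver ((⊥ : IntermediateField K Ω) : Set Ω) q) :
    ∃ q' : Pt W K, emb Ω q' = q := by
  obtain ⟨h1, h2⟩ := h
  cases q with
  | zero => exact ⟨0, rfl⟩
  | some x y h =>
    have hx : x ∈ (⊥ : IntermediateField K Ω) := h1
    have hy : y ∈ (⊥ : IntermediateField K Ω) := h2
    obtain ⟨a, rfl⟩ := IntermediateField.mem_bot.mp hx
    obtain ⟨b, rfl⟩ := IntermediateField.mem_bot.mp hy
    have h3 : (WeierstrassCurve.Affine.baseChange W K).Nonsingular a b :=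
      (WeierstrassCurve.Affine.baseChange_nonsingular W (f := Algebra.ofId K Ω)
        (Algebra.ofId K Ω).injective a b).mp h
    exact ⟨.some _ _ h3, rfl⟩

end

end PCL

end
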