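import Pool.Agent.W_52423f_h70.SbDefs
import Pool.Agent.W_52423f_h70.TrA

/-!
# Stabiliser theorem: basic facts on points
-/

open scoped Classical

noncomputable section

namespace PCL

variable {K : Type} [Field K] {W : WeierstrassCurve K}

section
variable {F F' : Type} [Field F] [Algebra K F] [Field F'] [Algebra K F']

@[simp] lemma xc_zero : xc (0 : Pt W F) = 0 := rfl
@[simp] lemma yc_zero : yc (0 : Pt W F) = 0 := rfl

lemma mp_add (σ : F →ₐ[K] F') (p q : Pt W F) : mp σ (p + q) = mp σ p + mp σ q := map_add _ _ _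

lemma mp_id (p : Pt W F) : mp (AlgHom.id K F) p = p := by
  cases p <;> rfl

lemma emb_injective : Function.Injective (emb (W := W) F) :=
  mp_injective _

lemma emb_self (κ : Pt W K) : emb K κ = κ := by
  cases κ <;> rfl

lemma mp_trw {m : ℕ} (σ : F →ₐ[K] F') (w : Fin m → Pt W F) (κ : Fin m → Pt W K) :
    (fun j => mp σ (trw w κ j)) = trw (fun j => mp σ (w j)) κ := by
  funext j
  simp only [trw, map_add, mp_emb]

lemma trw_trw {m : ℕ} (w : Fin m → Pt W F) (κ κ' : Fin m → Pt W K) :
    trw (trw w κ) κ' = trw w (κ + κ') := by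
  funext j
  simp only [trw, Pi.add_apply, map_add, add_assoc]

lemma trw_zero' {m : ℕ} (w : Fin m → Pt W F) : trw w (0 : Fin m → Pt W K) = w := by
  funext j
  simp [trw]

lemma xRep_mp (σ : F →ₐ[K] F') (p : Pt W F) :
    (mp σ p).xRep = fun i => σ (p.xRep i) := by
  cases p with
  | zero =>
    funext i
    fin_cases i
    · exact (map_one σ).symm
    · exact (map_zero σ).symm
  | some x y h =>
    funext i
    fin_cases i
    · rfl
    · exact (map_one σ).symm

lemma hEval_map {m : ℕ} (σ : F →ₐ[K] F') (D : ℕ) (P : MvPolynomial (Fin m) K)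
    (a : Fin m → Fin 2 → F) : hEval D P (fun i j => σ (a i j)) = σ (hEval D P a) := by
  simp only [hEval, map_sum, map_mul, map_prod, map_pow, AlgHom.commutes]

lemma van_mp {m : ℕ} (σ : F →ₐ[K] F') (D : ℕ) (P : MvPolynomial (Fin m) K)
    (w : Fin m → Pt W F) : Van D P (fun j => mp σ (w j)) ↔ Van D P w := by
  unfold Van
  have h : (fun i => (mp σ (w i)).xRep) = fun i j => σ ((w i).xRep j) := by
    funext i
    exact xRep_mp σ (w i)
  rw [h, hEval_map]
  exact map_eq_zero σ

lemma inZ_mp {n m : ℕ} {γ : (Fin n → ℤ) →+ (Fin m → Pt W K)} {S D : ℕ}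
    {P : MvPolynomial (Fin m) K} {k : ℕ} (σ : F →ₐ[K] F') (w : Fin m → Pt W F) :
    InZ γ S D P k (fun j => mp σ (w j)) ↔ InZ γ S D P k w := by
  unfold InZ
  refine forall₂_congr fun s _ => ?_
  rw [← mp_trw, van_mp]

lemma hc_mp (σ : F →ₐ[K] F') (p : Pt W F) : hc (mp σ p) = σ (hc p) := by
  simp only [hc, xc_mp, yc_mp, map_add, map_mul, map_ofNat, AlgHom.commutes]

/-- The equation of the curve. -/
lemma curve_eq {p : Pt W F} (hp : p ≠ 0) : hc p ^ 2 = cub W (xc p) := by
  cases p with
  | zero => exact absurd rfl hp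
  | some x y h =>
    have h1 := ((WeierstrassCurve.Affine.nonsingular_iff _ _).mp h).1
    rw [WeierstrassCurve.Affine.equation_iff] at h1
    change y ^ 2 + algebraMap K F W.a₁ * x * y + algebraMap K F W.a₃ * y =
      x ^ 3 + algebraMap K F W.a₂ * x ^ 2 + algebraMap K F W.a₄ * x + algebraMap K F W.a₆ at h1
    simp only [hc, cub, xc, yc, WeierstrassCurve.b₂, WeierstrassCurve.b₄, WeierstrassCurve.b₆,
      map_add, map_mul, map_pow, map_ofNat]
    linear_combination 4 * h1

/-- Two affine points with the same `x`-coordinate are equal or opposite. -/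
lemma eq_or_neg {p q : Pt W F} (hp : p ≠ 0) (hq : q ≠ 0) (h : xc p = xc q) :
    p = q ∨ p = -q := by
  cases p with
  | zero => exact absurd rfl hp
  | some x y hxy =>
    cases q with
    | zero => exact absurd rfl hq
    | some x' y' hxy' => exact WeierstrassCurve.Affine.Point.X_eq_iff.mp h

/-- A solution of the equation is a point. -/
lemma exists_pt [CharZero K] [W.IsElliptic] {x h : F} (hh : h ^ 2 = cub W x) :
    ∃ p : Pt W F, p ≠ 0 ∧ xc p = x ∧ hc p = h := by
  have : CharZero F := charZero_of_injective_algebraMap (algebraMap K F).injective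
  set y : F := (h - algebraMap K F W.a₁ * x - algebraMap K F W.a₃) / 2 with hy
  have hy2 : 2 * y = h - algebraMap K F W.a₁ * x - algebraMap K F W.a₃ := by
    rw [hy]; field_simp
  have heq : (WeierstrassCurve.Affine.baseChange W F).Equation x y := by
    rw [WeierstrassCurve.Affine.equation_iff]
    change y ^ 2 + algebraMap K F W.a₁ * x * y + algebraMap K F W.a₃ * y =
      x ^ 3 + algebraMap K F W.a₂ * x ^ 2 + algebraMap K F W.a₄ * x + algebraMap K F W.a₆
    simp only [cub, WeierstrassCurve.b₂, WeierstrassCurve.b₄, WeierstrassCurve.b₆,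
      map_add, map_mul, map_pow, map_ofNat] at hh
    have h4 : h = 2 * y + algebraMap K F W.a₁ * x + algebraMap K F W.a₃ := by rw [hy2]; ring
    rw [h4] at hh
    have h5 : (4 : F) ≠ 0 := by norm_num
    apply mul_left_cancel₀ h5
    linear_combination hh
  have hns : (WeierstrassCurve.Affine.baseChange W F).Nonsingular x y :=
    haveI : (WeierstrassCurve.Affine.baseChange W F).IsElliptic :=
      inferInstanceAs (W.map (algebraMap K F)).IsElliptic
    (WeierstrassCurve.Affine.equation_iff_nonsingular).mp heq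
  refine ⟨.some x y hns, WeierstrassCurve.Affine.Point.some_ne_zero hns, rfl, ?_⟩
  show 2 * y + algebraMap K F W.a₁ * x + algebraMap K F W.a₃ = h
  rw [hy2]; ring

end

end PCL

end
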