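import Pool.Agent.W_52423f_h70.SbTop

/-!
# Stabiliser theorem: the choice of the dimension
-/

open scoped Classical

noncomputable section

namespace PCL

variable {K : Type} [Field K] {W : WeierstrassCurve K} {n m : ℕ} {γ : (Fin n → ℤ) →+ (Fin m → Pt W K)}
  {S D : ℕ} {P : MvPolynomial (Fin m) K}

lemma zero_mem_box (n T : ℕ) : (0 : Fin n → ℤ) ∈ box n T := by
  simp [box, Fintype.mem_piFinset]

lemma qq_base (hvan : ∀ s ∈ box n (m * S), Van D P (γ s)) : QQ γ S D P m 0 := by
  refine ⟨K, inferInstance, inferInstance, 0, ∅, rfl, ?_, ?_⟩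
  · unfold HasIndep
    have : IsEmpty ((∅ : Finset (Fin m)) : Type) := by
      constructor
      rintro ⟨x, hx⟩
      simp at hx
    rw [algebraicIndependent_empty_type_iff]
    exact (algebraMap K K).injective
  · intro s hs
    have h : trw (0 : Fin m → Pt W K) (γ s) = γ s := by
      funext j
      simp [trw, emb_self]
    rw [h]
    exact hvan s hs

lemma not_qq_top (hP : P ≠ 0) (hdeg : ∀ i, P.degreeOf i ≤ D) : ¬ QQ γ S D P 0 m := by
  rintro ⟨F, i1, i2, w, J, hJ, hw, hz⟩
  refine not_van_of_indep hP hdeg w J hJ hw ?_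
  have h := hz 0 (zero_mem_box _ _)
  rwa [map_zero, trw_zero'] at h

/-- The choice of `k` and `d`. -/
theorem chain (hP : P ≠ 0) (hdeg : ∀ i, P.degreeOf i ≤ D)
    (hvan : ∀ s ∈ box n (m * S), Van D P (γ s)) :
    ∃ k d, k + d + 1 = m ∧ QQ γ S D P (k + 1) d ∧ ¬ QQ γ S D P k (d + 1) := by
  by_contra hcon
  push Not at hcon
  have key : ∀ d, d ≤ m → QQ γ S D P (m - d) d := by
    intro d
    induction d with
    | zero => intro _; simpa using qq_base hvan
    | succ d ih =>
      intro hd
      have h1 := ih (by omega)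
      have h2 := hcon (m - (d + 1)) d (by omega)
      have h3 : m - (d + 1) + 1 = m - d := by omega
      rw [h3] at h2
      exact h2 h1
  have h := key m le_rfl
  rw [Nat.sub_self] at h
  exact not_qq_top hP hdeg h

end PCL

end
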