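import Pool.Agent.W_52423f_h70.SbBasic

/-!
# Stabiliser theorem: counting lemmas
-/

open scoped Classical

noncomputable section

namespace PCL

variable {K : Type} [Field K] {W : WeierstrassCurve K}

/-- Degrees after specialisation.

Proof.  `spc J t N = ∑ μ ∈ N.support, C (algebraMap K F (coeff μ N)) * ∏ j, (C (t j) or X ⟨j, _⟩) ^ μ j`;
the degree in `X i` of each summand is at most `μ i ≤ N.degreeOf i`
(`MvPolynomial.degreeOf_sum_le`, `degreeOf_mul_le`, `degreeOf_prod_le`, `degreeOf_pow_le`,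
`degreeOf_C`, `degreeOf_X`). -/
theorem degreeOf_spc {F : Type} [Field F] [Algebra K F] {m : ℕ} (J : Finset (Fin m)) (t : Fin m → F)
    (N : MvPolynomial (Fin m) K) (i : {i : Fin m // i ∉ J}) :
    (spc J t N).degreeOf i ≤ N.degreeOf i.1 := by
  unfold spc
  rw [MvPolynomial.aeval_def, MvPolynomial.eval₂_eq']
  refine (MvPolynomial.degreeOf_sum_le _ _ _).trans (Finset.sup_le fun μ hμ => ?_)
  refine (MvPolynomial.degreeOf_mul_le _ _ _).trans ?_
  have h1 : MvPolynomial.degreeOf i (algebraMap K (MvPolynomial {i : Fin m // i ∉ J} F)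
      (MvPolynomial.coeff μ N)) = 0 := MvPolynomial.degreeOf_C _ _
  rw [h1, zero_add]
  refine (MvPolynomial.degreeOf_prod_le _ _ _).trans ?_
  refine le_trans ?_ (MvPolynomial.monomial_le_degreeOf i.1 hμ)
  have h2 : ∀ j ∈ (Finset.univ : Finset (Fin m)), MvPolynomial.degreeOf i
      ((if h : j ∈ J then (MvPolynomial.C (t j) : MvPolynomial {i : Fin m // i ∉ J} F)
        else MvPolynomial.X ⟨j, h⟩) ^ μ j) ≤ if j = i.1 then μ i.1 else 0 := by
    intro j _
    refine (MvPolynomial.degreeOf_pow_le _ _ _).trans ?_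
    by_cases hj : j ∈ J
    · rw [dif_pos hj, MvPolynomial.degreeOf_C, mul_zero]
      exact Nat.zero_le _
    · rw [dif_neg hj, MvPolynomial.degreeOf_X]
      by_cases hij : j = i.1
      · subst hij
        simp
      · rw [if_neg (fun h => hij (congrArg Subtype.val h).symm), mul_zero]
        exact Nat.zero_le _
  refine (Finset.sum_le_sum h2).trans ?_
  rw [Finset.sum_ite_eq' Finset.univ i.1, if_pos (Finset.mem_univ _)]

/-- The maximal ideal of a point. -/
def mI {F : Type} [Field F] {ι : Type} (a : ι → F) : Ideal (MvPolynomial ι F) :=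
  RingHom.ker (MvPolynomial.eval a)

/-- Proof.  `mI a` is the kernel of a surjection onto a field (`RingHom.ker_isMaximal_of_surjective`,
`MvPolynomial.eval_C`); `X i - C (a i)` is in `mI a`, so `mI a = mI b` gives `a i = b i`. -/
theorem mI_spec {F : Type} [Field F] {ι : Type} (a b : ι → F) :
    (mI a).IsMaximal ∧ (mI a = mI b → a = b) := by
  refine ⟨RingHom.ker_isMaximal_of_surjective _ fun c => ⟨MvPolynomial.C c, by simp⟩, ?_⟩
  intro h
  funext i
  have h1 : (MvPolynomial.X i - MvPolynomial.C (a i) : MvPolynomial ι F) ∈ mI a := by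
    show MvPolynomial.eval a _ = 0
    simp
  rw [h] at h1
  have h2 : MvPolynomial.eval b (MvPolynomial.X i - MvPolynomial.C (a i)) = 0 := h1
  rw [map_sub, MvPolynomial.eval_X, MvPolynomial.eval_C, sub_eq_zero] at h2
  exact h2.symm

/-- The number of points of a finite set of points of the `m`-th power of the curve with at most `M`
different `x`-coordinate vectors is at most `2^m M`.

Proof.  `Finset.card_le_mul_card_image` with fibres of size at most `2 ^ m`: if `b, b₀ ∈ 𝓑` have the same
`x`-coordinates then `b i = b₀ i` or `b i = - b₀ i` (`eq_or_neg`), so `b ∈ Fintype.piFinset fun i =>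
{b₀ i, - b₀ i}`, a set with at most `2 ^ m` elements. -/
theorem card_le_two_pow {F : Type} [Field F] [Algebra K F] {m : ℕ}
    (𝓑 : Finset (Fin m → Pt W F)) (h0 : ∀ b ∈ 𝓑, ∀ i, b i ≠ 0) :
    𝓑.card ≤ 2 ^ m * (𝓑.image fun b i => xc (b i)).card := by
  refine Finset.card_le_mul_card_image 𝓑 (2 ^ m) fun y hy => ?_
  rw [Finset.mem_image] at hy
  obtain ⟨b₀, hb₀, rfl⟩ := hy
  have h1 : (𝓑.filter fun b => (fun i => xc (b i)) = fun i => xc (b₀ i)) ⊆
      Fintype.piFinset fun i => ({b₀ i, - b₀ i} : Finset (Pt W F)) := by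
    intro b hb
    rw [Finset.mem_filter] at hb
    rw [Fintype.mem_piFinset]
    intro i
    rw [Finset.mem_insert, Finset.mem_singleton]
    exact eq_or_neg (h0 b hb.1 i) (h0 b₀ hb₀ i) (congrFun hb.2 i)
  refine (Finset.card_le_card h1).trans ?_
  rw [Fintype.card_piFinset]
  calc ∏ i : Fin m, ({b₀ i, - b₀ i} : Finset (Pt W F)).card ≤ ∏ _i : Fin m, 2 :=
        Finset.prod_le_prod' fun i _ => Finset.card_le_two
    _ = 2 ^ m := by simp

end PCL

end
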