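import Pool.Agent.W_52423f_h70.SbMax
import Pool.Agent.W_52423f_h70.SbCnt
import Pool.Agent.W_52423f_h70.Bez

/-!
# Stabiliser theorem: the number of points of `Z_k` with given coordinates in `J`
-/

open scoped Classical

noncomputable section

namespace PCL

variable {K : Type} [Field K] {W : WeierstrassCurve K}

/-- The number of points of `Z_k` with given coordinates in `J`. -/
theorem card_fiber [CharZero K] [W.IsElliptic] {n m : ℕ}
    {γ : (Fin n → ℤ) →+ (Fin m → Pt W K)} {S D k : ℕ} {P : MvPolynomial (Fin m) K}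
    (hD : 1 ≤ D) (hdeg : ∀ i, P.degreeOf i ≤ D) {Ω : Type} [Field Ω] [Algebra K Ω] [IsAlgClosed Ω]
    (w : Fin m → Pt W Ω) (J : Finset (Fin m)) (hQ : ¬ QQ γ S D P k (J.card + 1))
    (hind : HasIndep w J) (𝓑 : Finset (Fin m → Pt W Ω))
    (h𝓑 : ∀ b ∈ 𝓑, (∀ i, b i ≠ 0) ∧ InZ γ S D P k b ∧ ∀ j ∈ J, xc (b j) = xc (w j)) :
    𝓑.card ≤ 2 ^ m * (4 ^ ((m - J.card) ^ 2) * 2 ^ (m - J.card) *
      (5 * 2 ^ m * D) ^ (m - J.card)) := by
  have hcard : Fintype.card {i : Fin m // i ∉ J} = m - J.card := by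
    simp [Fintype.card_subtype_compl]
  set ι := {i : Fin m // i ∉ J} with hι
  set G := GG γ S D P k J (fun j => xc (w j)) with hG
  -- the maximal ideals of the points
  set s : Finset (Ideal (MvPolynomial ι Ω)) :=
    (𝓑.image fun b i => xc (b i)).image fun x => mI fun i : ι => x i.1 with hs
  have hinj : Set.InjOn (fun x : Fin m → Ω => mI fun i : ι => x i.1)
      (𝓑.image fun b i => xc (b i) : Finset (Fin m → Ω)) := by
    intro x hx x' hx' h
    have h1 := (mI_spec (fun i : ι => x i.1) (fun i : ι => x' i.1)).2 h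
    rw [Finset.mem_coe, Finset.mem_image] at hx hx'
    obtain ⟨b, hb, rfl⟩ := hx
    obtain ⟨b', hb', rfl⟩ := hx'
    funext i
    by_cases hi : i ∈ J
    · show xc (b i) = xc (b' i)
      rw [(h𝓑 b hb).2.2 i hi, (h𝓑 b' hb').2.2 i hi]
    · exact congrFun h1 ⟨i, hi⟩
  have hscard : (𝓑.image fun b i => xc (b i)).card = s.card :=
    (Finset.card_image_of_injOn hinj).symm
  have hGdeg : ∀ f ∈ G, ∀ i, f.degreeOf i ≤ 5 * 2 ^ m * D := by
    rintro f ⟨f', hf', N, hN, hdegN, rfl⟩ i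
    exact (degreeOf_spc J _ N i).trans (hdegN _)
  have hmin : ∀ M ∈ s, M.IsMaximal ∧ M ∈ (Ideal.span G).minimalPrimes := by
    intro M hM
    rw [hs, Finset.mem_image] at hM
    obtain ⟨x, hx, rfl⟩ := hM
    rw [Finset.mem_image] at hx
    obtain ⟨b, hb, rfl⟩ := hx
    have hmax := (mI_spec (fun i : ι => xc (b i.1)) (fun i : ι => xc (b i.1))).1
    have hsub : Ideal.span G ≤ mI (fun i : ι => xc (b i.1)) := by
      rw [Ideal.span_le]
      rintro f ⟨f', hf', N, hN, hdegN, rfl⟩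
      show MvPolynomial.eval _ _ = 0
      have h1 := aeval_spc J (fun j => xc (w j))
        (MvPolynomial.aeval (fun i : ι => xc (b i.1)) : MvPolynomial ι Ω →ₐ[Ω] Ω)
        (fun i => xc (b i)) (by
          intro i
          split_ifs with h
          · exact (h𝓑 b hb).2.2 i h
          · simp) N
      rw [← MvPolynomial.coe_aeval_eq_eval]
      refine (h1.symm.trans ?_)
      rw [hN Ω (fun i => xc (b i)) (fun i => hc (b i)) (fun i => curve_eq ((h𝓑 b hb).1 i))]
      refine Finset.prod_eq_zero (Finset.mem_univ (fun _ => false)) ?_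
      exact (inZ_iff hdeg b (h𝓑 b hb).1).mp (h𝓑 b hb).2.1 f' hf'
    refine ⟨hmax, ⟨⟨hmax.isPrime, hsub⟩, ?_⟩⟩
    rintro q ⟨hqp, hqG⟩ hqM
    have hqmax := isMaximal_of_GG hdeg w J hQ hind q hqp (Ideal.span_le.mp hqG)
    exact (hqmax.eq_of_le hmax.ne_top hqM).ge
  have hbez := bezout G (5 * 2 ^ m * D) (by
    have h1 : 1 ≤ 2 ^ m := Nat.one_le_two_pow
    nlinarith) hGdeg s hmin
  rw [hcard] at hbez
  calc 𝓑.card ≤ 2 ^ m * (𝓑.image fun b i => xc (b i)).card :=
        card_le_two_pow 𝓑 fun b hb => (h𝓑 b hb).1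
    _ = 2 ^ m * s.card := by rw [hscard]
    _ ≤ _ := Nat.mul_le_mul_left _ hbez

end PCL

end
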