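import Pool.Agent.W_52423f_h70.Defs

/-!
# Stabiliser theorem: definitions

Everything here serves `theorem stab`.
-/

open scoped Classical

noncomputable section

namespace PCL

variable {K : Type} [Field K] {W : WeierstrassCurve K}

/-- The translate of the point `w` of the `m`-th power of the curve by the `K`-point `κ`. -/
def trw {F : Type} [Field F] [Algebra K F] {m : ℕ} (w : Fin m → Pt W F)
    (κ : Fin m → Pt W K) : Fin m → Pt W F := fun j => w j + emb F (κ j)

/-- The field generated by the `x(w_j)`, `j` in `J`. -/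
def xfield {F : Type} [Field F] [Algebra K F] {m : ℕ} (w : Fin m → Pt W F)
    (J : Finset (Fin m)) : IntermediateField K F :=
  IntermediateField.adjoin K ((fun j => xc (w j)) '' (J : Set (Fin m)))

/-- `w` lies in `Z_k`: `P` vanishes at `w + gamma(s)` for all `s` in the box of size `k S`. -/
def InZ {n m : ℕ} (γ : (Fin n → ℤ) →+ (Fin m → Pt W K)) (S D : ℕ)
    (P : MvPolynomial (Fin m) K) (k : ℕ) {F : Type} [Field F] [Algebra K F]
    (w : Fin m → Pt W F) : Prop :=
  ∀ s ∈ box n (k * S), Van D P (trw w (γ s))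

/-- The statement `dim Z_k >= d`: over some field there is a point of `Z_k` with `d` algebraically
independent `x`-coordinates. -/
def QQ {n m : ℕ} (γ : (Fin n → ℤ) →+ (Fin m → Pt W K)) (S D : ℕ)
    (P : MvPolynomial (Fin m) K) (k d : ℕ) : Prop :=
  ∃ (F : Type) (_ : Field F) (_ : Algebra K F) (w : Fin m → Pt W F) (J : Finset (Fin m)),
    J.card = d ∧ HasIndep w J ∧ InZ γ S D P k w

/-- `hEval` with values in a commutative ring. -/
def hPol {R : Type} [CommRing R] [Algebra K R] {m : ℕ} (D : ℕ) (P : MvPolynomial (Fin m) K)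
    (a : Fin m → Fin 2 → R) : R :=
  ∑ α ∈ P.support, algebraMap K R (P.coeff α) * ∏ i, (a i 1 ^ α i * a i 0 ^ (D - α i))

/-- The cubic `4 x^3 + b₂ x^2 + 2 b₄ x + b₆`. -/
def cub {R : Type} [CommRing R] [Algebra K R] (W : WeierstrassCurve K) (x : R) : R :=
  4 * x ^ 3 + algebraMap K R W.b₂ * x ^ 2 + 2 * algebraMap K R W.b₄ * x + algebraMap K R W.b₆

/-- The coordinate `h = 2 y + a₁ x + a₃` of a point (for affine points `h^2 = cub W x`, and `-p` has the
coordinates `x, -h`). -/
def hc {F : Type} [Field F] [Algebra K F] (p : Pt W F) : F :=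
  2 * yc p + algebraMap K F W.a₁ * xc p + algebraMap K F W.a₃

/-- For a `K`-point `κ` with coordinates `(a, b)` two pairs of polynomials in the coordinates `x, h` of a
point `u` which both represent the `x`-coordinate of `u + κ` (or are `(0, 0)`, but never both). With
`T = 2 x a (x + a) + b₂ x a + b₄ (x + a) + b₆` and `g = 2 b + a₁ a + a₃`:
`c = false : (T - h g : 2 (x - a)^2)`, `c = true : (2 (x^2 a^2 - b₄ x a - b₆ (x + a) - b₈) : T + h g)`. -/
def pr {R : Type} [CommRing R] [Algebra K R] (κ : Pt W K) (c : Bool) (x h : R) : Fin 2 → R :=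
  match κ with
  | .zero => ![x, 1]
  | .some a b _ =>
    if c then
      ![2 * (x ^ 2 * algebraMap K R a ^ 2 - algebraMap K R W.b₄ * x * algebraMap K R a
          - algebraMap K R W.b₆ * (x + algebraMap K R a) - algebraMap K R W.b₈),
        (2 * x * algebraMap K R a * (x + algebraMap K R a)
          + algebraMap K R W.b₂ * x * algebraMap K R a
          + algebraMap K R W.b₄ * (x + algebraMap K R a) + algebraMap K R W.b₆)
          + h * algebraMap K R (2 * b + W.a₁ * a + W.a₃)]
    else
      ![(2 * x * algebraMap K R a * (x + algebraMap K R a)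
          + algebraMap K R W.b₂ * x * algebraMap K R a
          + algebraMap K R W.b₄ * (x + algebraMap K R a) + algebraMap K R W.b₆)
          - h * algebraMap K R (2 * b + W.a₁ * a + W.a₃),
        2 * (x - algebraMap K R a) ^ 2]

/-- The polynomial in the coordinates `x_i, h_i` (`x_i = X (inl i)`, `h_i = X (inr i)`) of a point `u`
which is, up to a factor, `P^h(u + κ)`; `c` chooses one of the two pairs for each coordinate. -/
def fpol {m : ℕ} (D : ℕ) (P : MvPolynomial (Fin m) K) (κ : Fin m → Pt W K) (c : Fin m → Bool) :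
    MvPolynomial (Fin m ⊕ Fin m) K :=
  hPol D P fun i => pr (κ i) (c i) (MvPolynomial.X (Sum.inl i)) (MvPolynomial.X (Sum.inr i))

/-- The `K`-span of all the polynomials `fpol D P (γ s) c`, `s` in the box of size `k S`. -/
def FF {n m : ℕ} (γ : (Fin n → ℤ) →+ (Fin m → Pt W K)) (S D : ℕ)
    (P : MvPolynomial (Fin m) K) (k : ℕ) : Submodule K (MvPolynomial (Fin m ⊕ Fin m) K) :=
  Submodule.span K {f | ∃ s ∈ box n (k * S), ∃ c : Fin m → Bool, f = fpol D P (γ s) c}

/-- Change of signs of the `h_i` with `ε i = true`. -/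
def fl {R : Type} [CommRing R] {m : ℕ} (ε : Fin m → Bool) (y : Fin m → R) : Fin m → R :=
  fun i => if ε i then - y i else y i

/-- Evaluation of a polynomial in `x_i, h_i`. -/
def ev {R : Type} [CommRing R] [Algebra K R] {m : ℕ} (x y : Fin m → R)
    (f : MvPolynomial (Fin m ⊕ Fin m) K) : R := MvPolynomial.aeval (Sum.elim x y) f

/-- `N` is a norm of `f`: on the curve, `N(x)` is the product of the `f(x, ε h)` over all signs. -/
def IsNrm (W : WeierstrassCurve K) {m : ℕ} (f : MvPolynomial (Fin m ⊕ Fin m) K) (N : MvPolynomial (Fin m) K) :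
    Prop :=
  ∀ (F : Type) [Field F] [Algebra K F] (x y : Fin m → F),
    (∀ i, y i ^ 2 = cub W (x i)) →
    MvPolynomial.aeval x N = ∏ ε : Fin m → Bool, ev x (fl ε y) f

/-- Specialisation of the variables `X_j`, `j` in `J`, to `t_j`; the other variables remain. -/
def spc {F : Type} [Field F] [Algebra K F] {m : ℕ} (J : Finset (Fin m)) (t : Fin m → F) :
    MvPolynomial (Fin m) K →ₐ[K] MvPolynomial {i : Fin m // i ∉ J} F :=
  MvPolynomial.aeval fun i => if h : i ∈ J then MvPolynomial.C (t i) else MvPolynomial.X ⟨i, h⟩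

/-- The generators of the ideal to which Bezout's theorem is applied. -/
def GG {n m : ℕ} (γ : (Fin n → ℤ) →+ (Fin m → Pt W K)) (S D : ℕ)
    (P : MvPolynomial (Fin m) K) (k : ℕ) {F : Type} [Field F] [Algebra K F] (J : Finset (Fin m))
    (t : Fin m → F) : Set (MvPolynomial {i : Fin m // i ∉ J} F) :=
  {g | ∃ f ∈ FF γ S D P k, ∃ N : MvPolynomial (Fin m) K, IsNrm W f N ∧
    (∀ i, N.degreeOf i ≤ 5 * 2 ^ m * D) ∧ g = spc J t N}

end PCL

end
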