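import Pool.Agent.W_52423f_h70.SbDefs

/-!
# Stabiliser theorem: degrees of the elements of `FF`
-/

open scoped Classical

noncomputable section

namespace PCL

variable {K : Type} [Field K] {W : WeierstrassCurve K}

/-- Bounds for the degrees of the entries of the pairs. -/
def SbDeg_b {m : ℕ} (i : Fin m) (v : Fin m ⊕ Fin m) : ℕ :=
  if v = Sum.inl i then 2 else if v = Sum.inr i then 1 else 0

lemma SbDeg_q {m : ℕ} (i : Fin m) (v : Fin m ⊕ Fin m) (c0 c1 c2 c3 : K) :
    (MvPolynomial.C c0 + MvPolynomial.C c1 * MvPolynomial.X (Sum.inl i) +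
      MvPolynomial.C c2 * MvPolynomial.X (Sum.inl i) ^ 2 +
      MvPolynomial.C c3 * MvPolynomial.X (Sum.inr i) :
      MvPolynomial (Fin m ⊕ Fin m) K).degreeOf v ≤ SbDeg_b i v := by
  have e0 : (MvPolynomial.C c0 : MvPolynomial (Fin m ⊕ Fin m) K).degreeOf v ≤ SbDeg_b i v := by
    rw [MvPolynomial.degreeOf_C]; exact Nat.zero_le _
  have e1 : (MvPolynomial.C c1 * MvPolynomial.X (Sum.inl i) :
      MvPolynomial (Fin m ⊕ Fin m) K).degreeOf v ≤ SbDeg_b i v := by
    refine (MvPolynomial.degreeOf_C_mul_le _ _ _).trans ?_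
    rw [MvPolynomial.degreeOf_X]
    unfold SbDeg_b
    split_ifs <;> omega
  have e2 : (MvPolynomial.C c2 * MvPolynomial.X (Sum.inl i) ^ 2 :
      MvPolynomial (Fin m ⊕ Fin m) K).degreeOf v ≤ SbDeg_b i v := by
    refine (MvPolynomial.degreeOf_C_mul_le _ _ _).trans ?_
    refine (MvPolynomial.degreeOf_pow_le _ _ _).trans ?_
    rw [MvPolynomial.degreeOf_X]
    unfold SbDeg_b
    split_ifs <;> omega
  have e3 : (MvPolynomial.C c3 * MvPolynomial.X (Sum.inr i) :
      MvPolynomial (Fin m ⊕ Fin m) K).degreeOf v ≤ SbDeg_b i v := by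
    refine (MvPolynomial.degreeOf_C_mul_le _ _ _).trans ?_
    rw [MvPolynomial.degreeOf_X]
    unfold SbDeg_b
    split_ifs <;> omega
  exact (MvPolynomial.degreeOf_add_le _ _ _).trans (max_le
    ((MvPolynomial.degreeOf_add_le _ _ _).trans (max_le
      ((MvPolynomial.degreeOf_add_le _ _ _).trans (max_le e0 e1)) e2)) e3)

lemma SbDeg_pr {m : ℕ} (κ : Pt W K) (c : Bool) (i : Fin m) (j : Fin 2) (v : Fin m ⊕ Fin m) :
    (pr κ c (MvPolynomial.X (Sum.inl i)) (MvPolynomial.X (Sum.inr i)) j :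
      MvPolynomial (Fin m ⊕ Fin m) K).degreeOf v ≤ SbDeg_b i v := by
  obtain ⟨c0, c1, c2, c3, hc⟩ : ∃ c0 c1 c2 c3 : K,
      (pr κ c (MvPolynomial.X (Sum.inl i)) (MvPolynomial.X (Sum.inr i)) j :
        MvPolynomial (Fin m ⊕ Fin m) K) =
      MvPolynomial.C c0 + MvPolynomial.C c1 * MvPolynomial.X (Sum.inl i) +
      MvPolynomial.C c2 * MvPolynomial.X (Sum.inl i) ^ 2 +
      MvPolynomial.C c3 * MvPolynomial.X (Sum.inr i) := by
    cases κ with
    | zero =>
      fin_cases j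
      · exact ⟨0, 1, 0, 0, by simp [pr]⟩
      · exact ⟨1, 0, 0, 0, by simp [pr]⟩
    | some a b hab =>
      cases c
      · fin_cases j
        · refine ⟨W.b₄ * a + W.b₆, 2 * a ^ 2 + W.b₂ * a + W.b₄, 2 * a,
            -(2 * b + W.a₁ * a + W.a₃), ?_⟩
          simp only [pr, MvPolynomial.algebraMap_eq, Fin.zero_eta, Matrix.cons_val_zero,
            Bool.false_eq_true, if_false, map_add, map_mul, map_neg, map_pow, map_ofNat]
          ring
        · refine ⟨2 * a ^ 2, -(4 * a), 2, 0, ?_⟩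
          simp only [pr, MvPolynomial.algebraMap_eq, Fin.mk_one, Matrix.cons_val_one,
            Bool.false_eq_true, if_false, map_add, map_mul, map_neg, map_pow, map_ofNat, map_zero]
          simp only [Matrix.cons_val_fin_one]
          ring
      · fin_cases j
        · refine ⟨-(2 * (W.b₆ * a + W.b₈)), -(2 * (W.b₄ * a + W.b₆)), 2 * a ^ 2, 0, ?_⟩
          simp only [pr, MvPolynomial.algebraMap_eq, Fin.zero_eta, Matrix.cons_val_zero,
            if_true, map_add, map_mul, map_neg, map_pow, map_ofNat, map_zero]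
          ring
        · refine ⟨W.b₄ * a + W.b₆, 2 * a ^ 2 + W.b₂ * a + W.b₄, 2 * a,
            (2 * b + W.a₁ * a + W.a₃), ?_⟩
          simp only [pr, MvPolynomial.algebraMap_eq, Fin.mk_one, Matrix.cons_val_one,
            if_true, map_add, map_mul, map_neg, map_pow, map_ofNat]
          simp only [Matrix.cons_val_fin_one]
          ring
  rw [hc]
  exact SbDeg_q i v c0 c1 c2 c3

lemma SbDeg_sum {m : ℕ} (D : ℕ) (i : Fin m) :
    (∑ j : Fin m, D * SbDeg_b j (Sum.inl i)) = 2 * D ∧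
    (∑ j : Fin m, D * SbDeg_b j (Sum.inr i)) = D := by
  constructor
  · rw [Finset.sum_eq_single i]
    · simp [SbDeg_b, mul_comm]
    · intro j _ hj
      simp [SbDeg_b, hj.symm]
    · simp
  · rw [Finset.sum_eq_single i]
    · simp [SbDeg_b]
    · intro j _ hj
      simp [SbDeg_b, hj.symm]
    · simp

lemma SbDeg_f {m : ℕ} {D : ℕ} {P : MvPolynomial (Fin m) K} (hdeg : ∀ i, P.degreeOf i ≤ D)
    (κ : Fin m → Pt W K) (c : Fin m → Bool) (v : Fin m ⊕ Fin m) :
    (fpol D P κ c).degreeOf v ≤ ∑ j : Fin m, D * SbDeg_b j v := by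
  unfold fpol hPol
  refine (MvPolynomial.degreeOf_sum_le _ _ _).trans ?_
  refine Finset.sup_le fun α hα => ?_
  rw [MvPolynomial.algebraMap_eq]
  refine (MvPolynomial.degreeOf_C_mul_le _ _ _).trans ?_
  refine (MvPolynomial.degreeOf_prod_le _ _ _).trans ?_
  refine Finset.sum_le_sum fun j _ => ?_
  have h2 : α j ≤ D := (MvPolynomial.monomial_le_degreeOf j hα).trans (hdeg j)
  refine (MvPolynomial.degreeOf_mul_le _ _ _).trans ?_
  refine (Nat.add_le_add (MvPolynomial.degreeOf_pow_le _ _ _)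
    (MvPolynomial.degreeOf_pow_le _ _ _)).trans ?_
  refine (Nat.add_le_add (Nat.mul_le_mul_left _ (SbDeg_pr (κ j) (c j) j 1 v))
    (Nat.mul_le_mul_left _ (SbDeg_pr (κ j) (c j) j 0 v))).trans ?_
  rw [← add_mul, Nat.add_sub_cancel' h2]

/-- Degrees of `fpol` in `x_i` and `h_i`.

Proof.  `fpol` is a sum over `α ∈ P.support` of constants times `∏ j (p_j1 ^ α j * p_j0 ^ (D - α j))`,
where `p_j0, p_j1` (the entries of `pr (κ j) (c j) (X (inl j)) (X (inr j))`) are polynomials in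
`X (inl j), X (inr j)` only, of degree at most `2` in `X (inl j)` and at most `1` in `X (inr j)`, and of
degree `0` in the variables with index different from `j`.  Use `MvPolynomial.degreeOf_sum_le`,
`degreeOf_mul_le`, `degreeOf_pow_le`, `degreeOf_prod_le` (or `degreeOf_C_mul_le`), and
`α i + (D - α i) = D` since `α i ≤ P.degreeOf i ≤ D` (`MvPolynomial.monomial_le_degreeOf`). -/
theorem degreeOf_fpol {m : ℕ} {D : ℕ} {P : MvPolynomial (Fin m) K} (hdeg : ∀ i, P.degreeOf i ≤ D)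
    (κ : Fin m → Pt W K) (c : Fin m → Bool) (i : Fin m) :
    (fpol D P κ c).degreeOf (Sum.inl i) ≤ 2 * D ∧ (fpol D P κ c).degreeOf (Sum.inr i) ≤ D :=
  ⟨(SbDeg_f hdeg κ c (Sum.inl i)).trans (SbDeg_sum D i).1.le,
    (SbDeg_f hdeg κ c (Sum.inr i)).trans (SbDeg_sum D i).2.le⟩

/-- Degrees of the elements of `FF`.  Proof: `Submodule.span_induction`, `degreeOf_add_le`,
`smul_eq_C_mul` and `degreeOf_C_mul_le`. -/
theorem degreeOf_FF {n m : ℕ} {γ : (Fin n → ℤ) →+ (Fin m → Pt W K)} {S D k : ℕ}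
    {P : MvPolynomial (Fin m) K} (hdeg : ∀ i, P.degreeOf i ≤ D)
    {f : MvPolynomial (Fin m ⊕ Fin m) K} (hf : f ∈ FF γ S D P k) (i : Fin m) :
    f.degreeOf (Sum.inl i) ≤ 2 * D ∧ f.degreeOf (Sum.inr i) ≤ D := by
  induction hf using Submodule.span_induction with
  | mem f hf =>
    obtain ⟨s, hs, c, rfl⟩ := hf
    exact degreeOf_fpol hdeg (γ s) c i
  | zero => simp
  | add f g _ _ hf hg =>
    exact ⟨(MvPolynomial.degreeOf_add_le _ _ _).trans (max_le hf.1 hg.1),
      (MvPolynomial.degreeOf_add_le _ _ _).trans (max_le hf.2 hg.2)⟩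
  | smul a f _ hf =>
    rw [MvPolynomial.smul_eq_C_mul]
    exact ⟨(MvPolynomial.degreeOf_C_mul_le _ _ _).trans hf.1,
      (MvPolynomial.degreeOf_C_mul_le _ _ _).trans hf.2⟩

end PCL

end
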