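import Pool.Agent.W_52423f_h70.SbPair

/-!
# Stabiliser theorem: `Z_k` is cut out by the polynomials in `FF`
-/

open scoped Classical

noncomputable section

namespace PCL

variable {K : Type} [Field K] {W : WeierstrassCurve K}

/-- Homogeneity of `hPol`.

Proof.  In each summand pull out the factor: for `α ∈ P.support`, `α i ≤ P.degreeOf i ≤ D`
(`MvPolynomial.monomial_le_degreeOf`), so `lam i ^ α i * lam i ^ (D - α i) = lam i ^ D`;
`Finset.prod_mul_distrib`, `Finset.mul_sum`. -/
theorem hPol_smul {F : Type} [Field F] [Algebra K F] {m : ℕ} {D : ℕ} {P : MvPolynomial (Fin m) K}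
    (hdeg : ∀ i, P.degreeOf i ≤ D) (lam : Fin m → F) (a : Fin m → Fin 2 → F) :
    hPol D P (fun i j => lam i * a i j) = (∏ i, lam i ^ D) * hPol D P a := by
  unfold hPol
  rw [Finset.mul_sum]
  refine Finset.sum_congr rfl fun α hα => ?_
  have h1 : ∏ i, ((lam i * a i 1) ^ α i * (lam i * a i 0) ^ (D - α i)) =
      (∏ i, lam i ^ D) * ∏ i, (a i 1 ^ α i * a i 0 ^ (D - α i)) := by
    rw [← Finset.prod_mul_distrib]
    refine Finset.prod_congr rfl fun i _ => ?_
    have h2 : α i ≤ D := (MvPolynomial.monomial_le_degreeOf i hα).trans (hdeg i)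
    have h3 : lam i ^ D = lam i ^ α i * lam i ^ (D - α i) := by
      rw [← pow_add, Nat.add_sub_cancel' h2]
    rw [h3, mul_pow, mul_pow]
    ring
  rw [h1]
  ring

/-- Evaluation of `fpol` at the coordinates of a point.

Proof.  `ev x y` is an algebra homomorphism; it commutes with the sums, products, powers and
`algebraMap`s in `hPol`, and `ev x y (pr κ c (X (inl i)) (X (inr i)) j) = pr κ c (x i) (y i) j` for the
two cases of `κ`, the two cases of `c` and `j = 0, 1` (`fin_cases j`, `simp [pr]`). -/
theorem ev_fpol {R : Type} [CommRing R] [Algebra K R] {m : ℕ} (D : ℕ) (P : MvPolynomial (Fin m) K)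
    (κ : Fin m → Pt W K) (c : Fin m → Bool) (x y : Fin m → R) :
    ev x y (fpol D P κ c) = hPol D P fun i => pr (κ i) (c i) (x i) (y i) := by
  have h1 : ∀ i j, ev x y (pr (κ i) (c i) (MvPolynomial.X (Sum.inl i))
      (MvPolynomial.X (Sum.inr i)) j : MvPolynomial (Fin m ⊕ Fin m) K) =
      pr (κ i) (c i) (x i) (y i) j := by
    intro i j
    generalize κ i = κi
    generalize c i = ci
    cases κi with
    | zero => fin_cases j <;> simp [pr, ev]
    | some a b hab =>
      cases ci <;> fin_cases j <;> simp [pr, ev]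
  simp only [ev] at h1
  simp only [ev, fpol, hPol, map_sum, map_mul, map_prod, map_pow, h1, AlgHom.commutes]

/-- For a point `u` with affine coordinates, `P^h(u + κ) = 0` if and only if all `fpol D P κ c` vanish
at `u`.

Proof.  Choose `lam i : Bool → F` with `pr_spec (κ i) (u i) (hu i)` for every `i`.  By `ev_fpol` and
`hPol_smul`, `ev x y (fpol D P κ c) = (∏ i, lam i (c i) ^ D) * hPol D P (fun i => (u i + emb F (κ i)).xRep)`
and the last factor is `hEval D P ...` (same definition), i.e. it vanishes iff `Van D P (trw u κ)`.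
`⟸` is clear; for `⟹` take `c i` with `lam i (c i) ≠ 0`. -/
theorem sb_van_iff [CharZero K] {F : Type} [Field F] [Algebra K F]
    {m : ℕ} {D : ℕ} {P : MvPolynomial (Fin m) K} (hdeg : ∀ i, P.degreeOf i ≤ D)
    (κ : Fin m → Pt W K) (u : Fin m → Pt W F) (hu : ∀ i, u i ≠ 0) :
    (∀ c, ev (fun i => xc (u i)) (fun i => hc (u i)) (fpol D P κ c) = 0) ↔ Van D P (trw u κ) := by
  choose lam hlam hne using fun i => pr_spec (κ i) (u i) (hu i)
  have key : ∀ c : Fin m → Bool, ev (fun i => xc (u i)) (fun i => hc (u i)) (fpol D P κ c) =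
      (∏ i, lam i (c i) ^ D) * hEval D P (fun i => (trw u κ i).xRep) := by
    intro c
    rw [ev_fpol]
    have h1 : (fun i => pr (κ i) (c i) (xc (u i)) (hc (u i))) =
        fun i j => lam i (c i) * (fun i => (trw u κ i).xRep) i j := by
      funext i
      exact hlam i (c i)
    rw [h1, hPol_smul hdeg]
    rfl
  unfold Van
  constructor
  · intro h
    choose c hc' using hne
    have h2 := h c
    rw [key c] at h2
    refine (mul_eq_zero.mp h2).resolve_left ?_
    exact Finset.prod_ne_zero_iff.mpr fun i _ => pow_ne_zero _ (hc' i)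
  · intro h c
    rw [key c, h, mul_zero]

/-- `Z_k` (away from the points at infinity) is the common zero set of `FF`. -/
theorem inZ_iff [CharZero K] {F : Type} [Field F] [Algebra K F]
    {n m : ℕ} {γ : (Fin n → ℤ) →+ (Fin m → Pt W K)} {S D k : ℕ} {P : MvPolynomial (Fin m) K}
    (hdeg : ∀ i, P.degreeOf i ≤ D) (u : Fin m → Pt W F) (hu : ∀ i, u i ≠ 0) :
    InZ γ S D P k u ↔
      ∀ f ∈ FF γ S D P k, ev (fun i => xc (u i)) (fun i => hc (u i)) f = 0 := by
  constructor
  · intro h f hf
    induction hf using Submodule.span_induction with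
    | mem f hf =>
      obtain ⟨s, hs, c, rfl⟩ := hf
      exact (sb_van_iff hdeg (γ s) u hu).mpr (h s hs) c
    | zero => simp [ev]
    | add f g _ _ hf hg =>
      simp only [ev, map_add] at hf hg ⊢
      rw [hf, hg, add_zero]
    | smul a f _ hf =>
      simp only [ev, map_smul] at hf ⊢
      rw [hf, smul_zero]
  · intro h s hs
    exact (sb_van_iff hdeg (γ s) u hu).mp fun c =>
      h _ (Submodule.subset_span ⟨s, hs, c, rfl⟩)

end PCL

end
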