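import Pool.Agent.W_52423f_h70.SbChain
import Pool.Agent.W_52423f_h70.SbNice
import Pool.Agent.W_52423f_h70.SbCount

/-!
# Stabiliser theorem: assembly
-/

open scoped Classical

noncomputable section

namespace PCL

variable {K : Type} [Field K] {W : WeierstrassCurve K}

lemma mem_box {n T : ℕ} {s : Fin n → ℤ} : s ∈ box n T ↔ ∀ i, -(T : ℤ) ≤ s i ∧ s i ≤ T := by
  simp [box, Fintype.mem_piFinset]

lemma card_box (n T : ℕ) : (box n T).card = (2 * T + 1) ^ n := by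
  unfold box
  rw [Fintype.card_piFinset]
  simp only [Int.card_Icc, Finset.prod_const, Finset.card_univ, Fintype.card_fin]
  congr 1
  omega

lemma sub_mem_box {n T : ℕ} {s t : Fin n → ℤ} (hs : s ∈ box n T) (ht : t ∈ box n T) :
    s - t ∈ box n (2 * T) := by
  rw [mem_box] at *
  intro i
  have h1 := hs i
  have h2 := ht i
  simp only [Pi.sub_apply, Nat.cast_mul, Nat.cast_ofNat]
  constructor <;> linarith [h1.1, h1.2, h2.1, h2.2]

lemma add_mem_box {n S k : ℕ} {s t : Fin n → ℤ} (hs : s ∈ box n S) (ht : t ∈ box n (k * S)) :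
    s + t ∈ box n ((k + 1) * S) := by
  rw [mem_box] at *
  intro i
  have h1 := hs i
  have h2 := ht i
  push_cast at *
  simp only [Pi.add_apply]
  constructor <;> nlinarith [h1.1, h1.2, h2.1, h2.2]

/-- The translates of a point of `Z_(k+1)` by `γ(s)`, `s` in the box of size `S`, are in `Z_k`. -/
lemma inZ_trw {n m : ℕ} {γ : (Fin n → ℤ) →+ (Fin m → Pt W K)} {S D k : ℕ}
    {P : MvPolynomial (Fin m) K} {F : Type} [Field F] [Algebra K F] {w : Fin m → Pt W F}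
    (hw : InZ γ S D P (k + 1) w) {s : Fin n → ℤ} (hs : s ∈ box n S) :
    InZ γ S D P k (trw w (γ s)) := by
  intro t ht
  rw [trw_trw, ← map_add]
  exact hw _ (add_mem_box hs ht)

lemma isAlgebraic_mono {F : Type} [Field F] [Algebra K F] {L L' : IntermediateField K F}
    (h : L ≤ L') (hL : Algebra.IsAlgebraic L F) : Algebra.IsAlgebraic L' F := by
  constructor
  intro x
  obtain ⟨p, hp, hpx⟩ := hL.isAlgebraic x
  refine ⟨p.map (IntermediateField.inclusion h).toRingHom, ?_, ?_⟩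
  · rw [Polynomial.map_ne_zero_iff (IntermediateField.inclusion_injective h)]
    exact hp
  · rw [Polynomial.aeval_def, Polynomial.eval₂_map]
    exact hpx

/-- The indices for which a coordinate of `w + γ(s)` is the point at infinity. -/
lemma card_bad {n m : ℕ} {γ : (Fin n → ℤ) →+ (Fin m → Pt W K)}
    (hinj : ∀ s : Fin n → ℤ, s ≠ 0 → ∀ j, γ s j ≠ 0) {F : Type} [Field F] [Algebra K F]
    (w : Fin m → Pt W F) (T : Finset (Fin n → ℤ)) :
    (T.filter fun s => ¬ ∀ i, trw w (γ s) i ≠ 0).card ≤ m := by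
  have hsub : (T.filter fun s => ¬ ∀ i, trw w (γ s) i ≠ 0) ⊆
      (Finset.univ : Finset (Fin m)).biUnion fun i => T.filter fun s => trw w (γ s) i = 0 := by
    intro s hs
    rw [Finset.mem_filter] at hs
    obtain ⟨hsT, hs⟩ := hs
    push Not at hs
    obtain ⟨i, hi⟩ := hs
    rw [Finset.mem_biUnion]
    exact ⟨i, Finset.mem_univ _, Finset.mem_filter.mpr ⟨hsT, hi⟩⟩
  refine (Finset.card_le_card hsub).trans (Finset.card_biUnion_le.trans ?_)
  have h1 : ∀ i : Fin m, (T.filter fun s => trw w (γ s) i = 0).card ≤ 1 := by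
    intro i
    rw [Finset.card_le_one]
    intro s hs t ht
    rw [Finset.mem_filter] at hs ht
    by_contra hst
    have h2 : emb F (γ s i) = emb F (γ t i) := by
      have h3 : w i + emb F (γ s i) = w i + emb F (γ t i) := hs.2.trans ht.2.symm
      exact add_left_cancel h3
    have h4 := emb_injective h2
    refine hinj (s - t) (sub_ne_zero.mpr hst) i ?_
    rw [map_sub, Pi.sub_apply, h4, sub_self]
  calc ∑ i : Fin m, (T.filter fun s => trw w (γ s) i = 0).card ≤ ∑ _i : Fin m, 1 :=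
        Finset.sum_le_sum fun i _ => h1 i
    _ = m := by simp

/-- The automorphisms which move `trw w (γ s)` to the fibre over the `x(w_j)`, `j` in `J`. -/
lemma exists_sigma [CharZero K] {m : ℕ} {Ω : Type} [Field Ω] [Algebra K Ω] [IsAlgClosed Ω]
    (w : Fin m → Pt W Ω) (J : Finset (Fin m))
    (hTB : IsTranscendenceBasis K (fun j : J => xc (w j))) (κ : Fin m → Pt W K) :
    ∃ σ : Ω ≃ₐ[K] Ω, ∀ j ∈ J, σ (xc (trw w κ j)) = xc (w j) := by
  obtain ⟨σ, hσ⟩ := exists_aut (fun j : J => xc (w j)) (fun j : J => xc (trw w κ j)) hTB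
    (isTB_trw w J κ hTB)
  exact ⟨σ, fun j hj => hσ ⟨j, hj⟩⟩

/-- Two translates which are moved to the same point by automorphisms differ by an automorphism. -/
lemma exists_tau {m : ℕ} {Ω : Type} [Field Ω] [Algebra K Ω] (w : Fin m → Pt W Ω)
    (σ σ' : Ω ≃ₐ[K] Ω) (κ κ' : Fin m → Pt W K)
    (h : ∀ i, mp (σ : Ω →ₐ[K] Ω) (trw w κ i) = mp (σ' : Ω →ₐ[K] Ω) (trw w κ' i)) :
    ∃ τ : Ω ≃ₐ[K] Ω, ∀ j, mp (τ : Ω →ₐ[K] Ω) (w j) = w j + emb Ω ((κ' - κ) j) := by
  refine ⟨σ.trans σ'.symm, fun j => ?_⟩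
  have h1 := h j
  simp only [trw, mp_add, mp_emb] at h1
  have h2 := congrArg (mp (σ'.symm : Ω →ₐ[K] Ω)) h1
  simp only [mp_add, mp_emb, mp_comp] at h2
  have h3 : ((σ'.symm : Ω →ₐ[K] Ω).comp (σ' : Ω →ₐ[K] Ω)) = AlgHom.id K Ω := by
    ext x; simp
  have h4 : ((σ'.symm : Ω →ₐ[K] Ω).comp (σ : Ω →ₐ[K] Ω)) =
      ((σ.trans σ'.symm : Ω ≃ₐ[K] Ω) : Ω →ₐ[K] Ω) := by
    ext x; rfl
  rw [h3, mp_id, h4] at h2
  have h5 : mp ((σ.trans σ'.symm : Ω ≃ₐ[K] Ω) : Ω →ₐ[K] Ω) (w j) =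
      w j + emb Ω (κ' j) - emb Ω (κ j) := by
    rw [← h2]; abel
  rw [h5, Pi.sub_apply, map_sub]
  abel

/-- Stabiliser theorem. -/
theorem stab_main (m : ℕ) : ∃ c : ℕ, ∀ (K : Type) [Field K] [CharZero K] (W : WeierstrassCurve K)
    [W.IsElliptic],
    ∀ (n : ℕ) (γ : (Fin n → ℤ) →+ (Fin m → Pt W K)),
      (∀ s : Fin n → ℤ, s ≠ 0 → ∀ j, γ s j ≠ 0) →
    ∀ (S D : ℕ) (P : MvPolynomial (Fin m) K), 1 ≤ D → P ≠ 0 → (∀ i, P.degreeOf i ≤ D) →
      (∀ s ∈ box n (m * S), Van D P (γ s)) →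
    ∃ (Ω : Type) (_ : Field Ω) (_ : Algebra K Ω) (w : Fin m → Pt W Ω) (J : Finset (Fin m)),
      IsAlgClosed Ω ∧ J ≠ Finset.univ ∧ HasIndep w J ∧
      Algebra.IsAlgebraic (fieldOf w J) Ω ∧ Van D P w ∧
      (2 * S + 1) ^ n ≤ c * D ^ (m - J.card) *
        ((box n (2 * S)).filter fun v => ∃ τ : Ω ≃ₐ[K] Ω,
          ∀ j, mp (τ : Ω →ₐ[K] Ω) (w j) = w j + emb Ω (γ v j)).card := by
  refine ⟨m + 2 ^ m * (4 ^ (m ^ 2) * 2 ^ m * (5 * 2 ^ m) ^ m), ?_⟩
  intro K _ _ W _ n γ hinj S D P hD hP hdeg hvan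
  obtain ⟨k, d, hkd, hQ1, hQ2⟩ := chain hP hdeg hvan
  obtain ⟨Ω, i1, i2, w, J, hac, hJ, hTB, hz⟩ := exists_nice hQ1 hQ2
  have hTB' := (isTB_iff w J).mp hTB
  have hind : HasIndep w J := hTB'.1
  refine ⟨Ω, i1, i2, w, J, hac, ?_, hind, ?_, ?_, ?_⟩
  · intro h
    rw [h, Finset.card_univ, Fintype.card_fin] at hJ
    omega
  · refine isAlgebraic_mono ?_ hTB'.2
    exact IntermediateField.adjoin.mono K _ _ Set.subset_union_left
  · have h1 := hz 0 (zero_mem_box _ _)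
    rwa [map_zero, trw_zero'] at h1
  set V := (box n (2 * S)).filter fun v => ∃ τ : Ω ≃ₐ[K] Ω,
          ∀ j, mp (τ : Ω →ₐ[K] Ω) (w j) = w j + emb Ω (γ v j) with hV
  have hVpos : 1 ≤ V.card := by
    rw [Nat.one_le_iff_ne_zero, Ne, Finset.card_eq_zero]
    intro h
    have h0 : (0 : Fin n → ℤ) ∈ V := by
      rw [hV, Finset.mem_filter]
      refine ⟨zero_mem_box _ _, AlgEquiv.refl, fun j => ?_⟩
      have h1 : ((AlgEquiv.refl : Ω ≃ₐ[K] Ω) : Ω →ₐ[K] Ω) = AlgHom.id K Ω := rfl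
      rw [h1, mp_id, map_zero, Pi.zero_apply, map_zero, add_zero]
    rw [h] at h0
    simp at h0
  -- the automorphisms
  have hσ : ∀ s : Fin n → ℤ, ∃ σ : Ω ≃ₐ[K] Ω, ∀ j ∈ J, σ (xc (trw w (γ s) j)) = xc (w j) :=
    fun s => exists_sigma w J hTB (γ s)
  choose σ hσ using hσ
  set good := (box n S).filter fun s => ∀ i, trw w (γ s) i ≠ 0 with hgood
  set b : (Fin n → ℤ) → (Fin m → Pt W Ω) :=
    fun s i => mp (σ s : Ω →ₐ[K] Ω) (trw w (γ s) i) with hb
  have hcount : (good.image b).card ≤ 2 ^ m * (4 ^ ((m - J.card) ^ 2) * 2 ^ (m - J.card) *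
      (5 * 2 ^ m * D) ^ (m - J.card)) := by
    have hQ2' : ¬ QQ γ S D P k (J.card + 1) := by rw [hJ]; exact hQ2
    refine card_fiber hD hdeg w J hQ2' hind (good.image b) ?_
    intro b' hb'
    rw [Finset.mem_image] at hb'
    obtain ⟨s, hs, rfl⟩ := hb'
    rw [hgood, Finset.mem_filter] at hs
    refine ⟨fun i h0 => hs.2 i ?_, ?_, ?_⟩
    · have h1 : mp (σ s : Ω →ₐ[K] Ω) (trw w (γ s) i) = mp (σ s : Ω →ₐ[K] Ω) 0 := by
        rw [map_zero]; exact h0
      exact mp_injective _ h1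
    · exact (inZ_mp _ _).mpr (inZ_trw hz hs.1)
    · intro j hj
      show xc (mp (σ s : Ω →ₐ[K] Ω) (trw w (γ s) j)) = xc (w j)
      rw [xc_mp]
      exact hσ s j hj
  have hfib : ∀ b' ∈ good.image b, (good.filter fun s => b s = b').card ≤ V.card := by
    intro b' hb'
    rw [Finset.mem_image] at hb'
    obtain ⟨s₀, hs₀, rfl⟩ := hb'
    refine Finset.card_le_card_of_injOn (fun s => s₀ - s) ?_ ?_
    · intro s hs
      rw [Finset.mem_coe, Finset.mem_filter] at hs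
      have hsg := (Finset.mem_filter.mp hs.1).1
      have hs₀g := (Finset.mem_filter.mp hs₀).1
      rw [Finset.mem_coe, hV, Finset.mem_filter]
      refine ⟨sub_mem_box hs₀g hsg, ?_⟩
      obtain ⟨τ, hτ⟩ := exists_tau w (σ s) (σ s₀) (γ s) (γ s₀) (fun i => congrFun hs.2 i)
      refine ⟨τ, fun j => ?_⟩
      rw [hτ j, map_sub]
    · intro s _ t _ hst
      exact sub_right_injective hst
  have hgoodcard : good.card ≤ V.card * (good.image b).card :=
    Finset.card_le_mul_card_image good _ hfib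
  have hbad := card_bad hinj w (box n S)
  have hsplit : (box n S).card = good.card +
      ((box n S).filter fun s => ¬ ∀ i, trw w (γ s) i ≠ 0).card :=
    (Finset.card_filter_add_card_filter_not _).symm
  have hDe : 1 ≤ D ^ (m - J.card) := Nat.one_le_pow _ _ hD
  have hexp : 2 ^ m * (4 ^ ((m - J.card) ^ 2) * 2 ^ (m - J.card) *
      (5 * 2 ^ m * D) ^ (m - J.card)) ≤
      2 ^ m * (4 ^ (m ^ 2) * 2 ^ m * (5 * 2 ^ m) ^ m) * D ^ (m - J.card) := by
    rw [mul_pow]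
    have e1 : 4 ^ ((m - J.card) ^ 2) ≤ 4 ^ (m ^ 2) :=
      Nat.pow_le_pow_right (by norm_num) (Nat.pow_le_pow_left (Nat.sub_le _ _) 2)
    have e2 : 2 ^ (m - J.card) ≤ 2 ^ m := Nat.pow_le_pow_right (by norm_num) (Nat.sub_le _ _)
    have e3 : (5 * 2 ^ m) ^ (m - J.card) ≤ (5 * 2 ^ m) ^ m :=
      Nat.pow_le_pow_right (by positivity) (Nat.sub_le _ _)
    calc 2 ^ m * (4 ^ ((m - J.card) ^ 2) * 2 ^ (m - J.card) *
          ((5 * 2 ^ m) ^ (m - J.card) * D ^ (m - J.card)))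
        = 2 ^ m * (4 ^ ((m - J.card) ^ 2) * 2 ^ (m - J.card) * (5 * 2 ^ m) ^ (m - J.card))
            * D ^ (m - J.card) := by ring
      _ ≤ 2 ^ m * (4 ^ (m ^ 2) * 2 ^ m * (5 * 2 ^ m) ^ m) * D ^ (m - J.card) := by
          gcongr
  calc (2 * S + 1) ^ n = (box n S).card := (card_box n S).symm
    _ = good.card + ((box n S).filter fun s => ¬ ∀ i, trw w (γ s) i ≠ 0).card := hsplit
    _ ≤ V.card * (good.image b).card + m := add_le_add hgoodcard hbad
    _ ≤ V.card * (2 ^ m * (4 ^ (m ^ 2) * 2 ^ m * (5 * 2 ^ m) ^ m) * D ^ (m - J.card)) +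
          m * (D ^ (m - J.card) * V.card) := by
        refine add_le_add (Nat.mul_le_mul_left _ (hcount.trans hexp)) ?_
        calc m = m * 1 := by ring
          _ ≤ m * (D ^ (m - J.card) * V.card) :=
            Nat.mul_le_mul_left _ (Nat.one_le_iff_ne_zero.mpr (by positivity))
    _ = (m + 2 ^ m * (4 ^ (m ^ 2) * 2 ^ m * (5 * 2 ^ m) ^ m)) * D ^ (m - J.card) * V.card := by
        ring

end PCL

end
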