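import Pool.Agent.W_52423f_h70.SbDefs

/-!
# Stabiliser theorem: the norm polynomial
-/

open scoped Classical

noncomputable section

namespace PCL

variable {K : Type} [Field K]

/-- The substitution of signs. -/
def SbNorm_rho {m : ℕ} (ε : Fin m → Bool) :
    MvPolynomial (Fin m ⊕ Fin m) K →ₐ[K] MvPolynomial (Fin m ⊕ Fin m) K :=
  MvPolynomial.aeval (Sum.elim (fun i => MvPolynomial.X (Sum.inl i))
    (fun i => if ε i then - MvPolynomial.X (Sum.inr i) else MvPolynomial.X (Sum.inr i)))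

/-- The sign of a monomial. -/
def SbNorm_sgn (K : Type) [Field K] {m : ℕ} (ε : Fin m → Bool) (μ : Fin m ⊕ Fin m →₀ ℕ) : K :=
  ∏ i, if ε i then (-1) ^ μ (Sum.inr i) else 1

theorem SbNorm_monomial {m : ℕ} (ε : Fin m → Bool) (μ : Fin m ⊕ Fin m →₀ ℕ) (a : K) :
    SbNorm_rho ε (MvPolynomial.monomial μ a) =
      MvPolynomial.monomial μ (SbNorm_sgn K ε μ * a) := by
  rw [SbNorm_rho, MvPolynomial.aeval_monomial, MvPolynomial.monomial_eq,
    Finsupp.prod_fintype _ _ (fun _ => pow_zero _), Finsupp.prod_fintype _ _ (fun _ => pow_zero _),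
    Fintype.prod_sum_type, Fintype.prod_sum_type]
  simp only [Sum.elim_inl, Sum.elim_inr]
  have h1 : ∀ i : Fin m, (if ε i then - (MvPolynomial.X (Sum.inr i) :
      MvPolynomial (Fin m ⊕ Fin m) K) else MvPolynomial.X (Sum.inr i)) ^ μ (Sum.inr i) =
      MvPolynomial.C (if ε i then (-1 : K) ^ μ (Sum.inr i) else 1) *
        MvPolynomial.X (Sum.inr i) ^ μ (Sum.inr i) := by
    intro i
    split_ifs with h
    · rw [neg_pow, map_pow, map_neg, map_one]
    · rw [map_one, one_mul]
  rw [Finset.prod_congr rfl fun i _ => h1 i, Finset.prod_mul_distrib, ← map_prod, map_mul,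
    MvPolynomial.algebraMap_eq, SbNorm_sgn]
  ring

theorem SbNorm_coeff {m : ℕ} (ε : Fin m → Bool) (f : MvPolynomial (Fin m ⊕ Fin m) K)
    (μ : Fin m ⊕ Fin m →₀ ℕ) :
    (SbNorm_rho ε f).coeff μ = SbNorm_sgn K ε μ * f.coeff μ := by
  induction f using MvPolynomial.induction_on' with
  | monomial ν a =>
    rw [SbNorm_monomial, MvPolynomial.coeff_monomial, MvPolynomial.coeff_monomial]
    split_ifs with h
    · rw [h]
    · rw [mul_zero]
  | add p q hp hq => rw [map_add, MvPolynomial.coeff_add, MvPolynomial.coeff_add, hp, hq, mul_add]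

theorem SbNorm_deg {m : ℕ} (ε : Fin m → Bool) (f : MvPolynomial (Fin m ⊕ Fin m) K)
    (k : Fin m ⊕ Fin m) : (SbNorm_rho ε f).degreeOf k ≤ f.degreeOf k := by
  rw [MvPolynomial.degreeOf_le_iff]
  intro μ hμ
  refine MvPolynomial.monomial_le_degreeOf k ?_
  rw [MvPolynomial.mem_support_iff] at hμ ⊢
  rw [SbNorm_coeff] at hμ
  exact right_ne_zero_of_mul hμ

/-- Change of the sign at `j`. -/
def SbNorm_flip {m : ℕ} (j : Fin m) : (Fin m → Bool) ≃ (Fin m → Bool) where
  toFun ε := Function.update ε j (!ε j)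
  invFun ε := Function.update ε j (!ε j)
  left_inv ε := by
    funext i
    by_cases h : i = j
    · subst h; simp
    · simp [h]
  right_inv ε := by
    funext i
    by_cases h : i = j
    · subst h; simp
    · simp [h]

theorem SbNorm_comp {m : ℕ} (j : Fin m) (ε : Fin m → Bool)
    (f : MvPolynomial (Fin m ⊕ Fin m) K) :
    SbNorm_rho (fun i => decide (i = j)) (SbNorm_rho ε f) = SbNorm_rho (SbNorm_flip j ε) f := by
  have h : (SbNorm_rho (K := K) (fun i => decide (i = j))).comp (SbNorm_rho ε) =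
      SbNorm_rho (SbNorm_flip j ε) := by
    refine MvPolynomial.algHom_ext fun k => ?_
    rw [AlgHom.comp_apply]
    rcases k with i | i
    · simp [SbNorm_rho]
    · by_cases h : i = j
      · subst h
        cases hε : ε i <;> simp [SbNorm_rho, SbNorm_flip, hε]
      · cases hε : ε i <;> simp [SbNorm_rho, SbNorm_flip, hε, h]
  exact DFunLike.congr_fun h f

theorem SbNorm_g [CharZero K] {m : ℕ} (f : MvPolynomial (Fin m ⊕ Fin m) K) :
    ∀ μ ∈ (∏ ε, SbNorm_rho ε f).support, ∀ i : Fin m, Even (μ (Sum.inr i)) := by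
  intro μ hμ j
  have h1 : SbNorm_rho (fun i => decide (i = j)) (∏ ε, SbNorm_rho ε f) =
      ∏ ε, SbNorm_rho ε f := by
    rw [map_prod, Finset.prod_congr rfl fun ε _ => SbNorm_comp j ε f]
    exact Equiv.prod_comp (SbNorm_flip j) fun ε => SbNorm_rho ε f
  have h2 := congrArg (MvPolynomial.coeff μ) h1
  rw [SbNorm_coeff] at h2
  rw [MvPolynomial.mem_support_iff] at hμ
  have h3 : SbNorm_sgn K (fun i => decide (i = j)) μ = (-1) ^ μ (Sum.inr j) := by
    rw [SbNorm_sgn, Finset.prod_eq_single j]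
    · simp
    · intro i _ hij
      simp [hij]
    · intro h
      exact absurd (Finset.mem_univ j) h
  rw [h3] at h2
  have h4 : ((-1 : K) ^ μ (Sum.inr j)) = 1 := by
    have h5 := mul_right_cancel₀ hμ (h2.trans (one_mul _).symm)
    exact h5
  by_contra h5
  rw [Nat.not_even_iff_odd] at h5
  rw [h5.neg_one_pow] at h4
  have h6 : (2 : K) = 0 := by
    have : (2 : K) = 1 - (-1) := by norm_num
    rw [this, h4, sub_self]
  exact two_ne_zero h6

theorem SbNorm_cub (W : WeierstrassCurve K) {m : ℕ} (k i : Fin m) :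
    MvPolynomial.degreeOf k (cub W (MvPolynomial.X i : MvPolynomial (Fin m) K)) ≤
      if k = i then 3 else 0 := by
  have h3 : MvPolynomial.degreeOf k (MvPolynomial.X i : MvPolynomial (Fin m) K) =
      if k = i then 1 else 0 := MvPolynomial.degreeOf_X k i
  have hC : ∀ c : K, ∀ e : ℕ, MvPolynomial.degreeOf k
      (MvPolynomial.C c * (MvPolynomial.X i : MvPolynomial (Fin m) K) ^ e) ≤
      e * (if k = i then 1 else 0) := by
    intro c e
    refine (MvPolynomial.degreeOf_C_mul_le _ _ _).trans ?_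
    rw [← h3]
    exact MvPolynomial.degreeOf_pow_le _ _ _
  have h4 : cub W (MvPolynomial.X i : MvPolynomial (Fin m) K) =
      MvPolynomial.C 4 * MvPolynomial.X i ^ 3 + MvPolynomial.C W.b₂ * MvPolynomial.X i ^ 2 +
        MvPolynomial.C (2 * W.b₄) * MvPolynomial.X i ^ 1 +
        MvPolynomial.C W.b₆ * MvPolynomial.X i ^ 0 := by
    simp only [cub, MvPolynomial.algebraMap_eq, map_mul, map_ofNat, pow_one, pow_zero, mul_one]
  rw [h4]
  have h5 := hC 4 3
  have h6 := hC W.b₂ 2
  have h7 := hC (2 * W.b₄) 1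
  have h8 := hC W.b₆ 0
  refine (MvPolynomial.degreeOf_add_le _ _ _).trans (max_le ?_ ?_)
  · refine (MvPolynomial.degreeOf_add_le _ _ _).trans (max_le ?_ ?_)
    · refine (MvPolynomial.degreeOf_add_le _ _ _).trans (max_le ?_ ?_)
      · refine h5.trans ?_
        split_ifs <;> omega
      · refine h6.trans ?_
        split_ifs <;> omega
    · refine h7.trans ?_
      split_ifs <;> omega
  · refine h8.trans ?_
    split_ifs <;> omega

theorem SbNorm_ev {F : Type} [Field F] [Algebra K F] {m : ℕ} (x y : Fin m → F)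
    (ε : Fin m → Bool) (f : MvPolynomial (Fin m ⊕ Fin m) K) :
    ev x (fl ε y) f = MvPolynomial.aeval (Sum.elim x y) (SbNorm_rho ε f) := by
  have h : (MvPolynomial.aeval (R := K) (Sum.elim x y)).comp (SbNorm_rho ε) =
      MvPolynomial.aeval (R := K) (Sum.elim x (fl ε y)) := by
    refine MvPolynomial.algHom_ext fun k => ?_
    rw [AlgHom.comp_apply]
    rcases k with i | i
    · simp [SbNorm_rho]
    · cases hε : ε i <;> simp [SbNorm_rho, fl, hε]
  exact (DFunLike.congr_fun h f).symm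

theorem SbNorm_aeval {F : Type} [Field F] [Algebra K F] (W : WeierstrassCurve K) {m : ℕ}
    (x : Fin m → F) (i : Fin m) :
    MvPolynomial.aeval x (cub W (MvPolynomial.X i : MvPolynomial (Fin m) K)) = cub W (x i) := by
  simp only [cub, map_add, map_mul, map_pow, map_ofNat, MvPolynomial.aeval_X, AlgHom.commutes]

/-- Existence of the norm of a polynomial in the `x_i, h_i` (`x_i = X (inl i)`, `h_i = X (inr i)`; on the
curve `h_i ^ 2 = cub W x_i = 4 x_i ^ 3 + b₂ x_i ^ 2 + 2 b₄ x_i + b₆`).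

Proof.  For `ε : Fin m → Bool` let `ρ_ε : MvPolynomial (Fin m ⊕ Fin m) K →ₐ[K] _` be the substitution
`X (inl i) ↦ X (inl i)`, `X (inr i) ↦ ± X (inr i)` (sign `-` iff `ε i`), and `g = ∏ ε, ρ_ε f`.
(1) Degrees: `ρ_ε` does not increase `degreeOf` (its effect is to multiply coefficients by signs:
`coeff μ (ρ_ε f) = ± coeff μ f`), so `degreeOf (inl i) g ≤ 2 ^ m * a`, `degreeOf (inr i) g ≤ 2 ^ m * b`
(`MvPolynomial.degreeOf_prod_le`, `Fintype.card (Fin m → Bool) = 2 ^ m`).
(2) Evenness: for each `i`, the substitution `X (inr i) ↦ - X (inr i)` permutes the factors (it sends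
`ρ_ε f` to `ρ_ε' f`, `ε'` = `ε` changed at `i`), so it fixes `g`; comparing coefficients,
`coeff μ g = (-1) ^ μ (inr i) * coeff μ g`, so `μ (inr i)` is even for `μ ∈ g.support`
(characteristic zero).
(3) `N = ∑ μ ∈ g.support, C (coeff μ g) * ∏ i, (X i ^ μ (inl i) *
(cub W (X i)) ^ (μ (inr i) / 2))`.  Degree in `X i` at most
`μ (inl i) + 3 * (μ (inr i) / 2) ≤ 2 ^ m * a + 3 * (2 ^ m * b)`.  If `y i ^ 2 = cub W (x i)` then
`cub W (x i) ^ (μ (inr i) / 2) = y i ^ μ (inr i)`, so `aeval x N = ev x y g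
= ∏ ε, ev x y (ρ_ε f) = ∏ ε, ev x (fl ε y) f`. -/
theorem exists_nrm [CharZero K] (W : WeierstrassCurve K) {m : ℕ} (f : MvPolynomial (Fin m ⊕ Fin m) K) (a b : ℕ)
    (hx : ∀ i, f.degreeOf (Sum.inl i) ≤ a) (hy : ∀ i, f.degreeOf (Sum.inr i) ≤ b) :
    ∃ N : MvPolynomial (Fin m) K, (∀ i, N.degreeOf i ≤ 2 ^ m * a + 3 * (2 ^ m * b)) ∧
      IsNrm W f N := by
  have hg := SbNorm_g f
  obtain ⟨g, hgdef⟩ : ∃ g : MvPolynomial (Fin m ⊕ Fin m) K, g = ∏ ε, SbNorm_rho ε f := ⟨_, rfl⟩
  rw [← hgdef] at hg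
  have hdeg : ∀ (k : Fin m ⊕ Fin m) (c : ℕ), f.degreeOf k ≤ c → g.degreeOf k ≤ 2 ^ m * c := by
    intro k c hc
    rw [hgdef]
    refine (MvPolynomial.degreeOf_prod_le _ _ _).trans ?_
    refine (Finset.sum_le_card_nsmul _ _ c fun ε _ => (SbNorm_deg ε f k).trans hc).trans ?_
    simp
  refine ⟨∑ μ ∈ g.support, MvPolynomial.C (g.coeff μ) * ∏ i : Fin m,
    (MvPolynomial.X i ^ μ (Sum.inl i) * (cub W (MvPolynomial.X i)) ^ (μ (Sum.inr i) / 2)),
    fun k => ?_, ?_⟩
  · refine (MvPolynomial.degreeOf_sum_le _ _ _).trans (Finset.sup_le fun μ hμ => ?_)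
    refine (MvPolynomial.degreeOf_C_mul_le _ _ _).trans ?_
    refine (MvPolynomial.degreeOf_prod_le _ _ _).trans ?_
    have h1 : ∀ i ∈ (Finset.univ : Finset (Fin m)), MvPolynomial.degreeOf k
        (MvPolynomial.X i ^ μ (Sum.inl i) *
          (cub W (MvPolynomial.X i : MvPolynomial (Fin m) K)) ^ (μ (Sum.inr i) / 2)) ≤
        if k = i then μ (Sum.inl i) + 3 * (μ (Sum.inr i) / 2) else 0 := by
      intro i _
      refine (MvPolynomial.degreeOf_mul_le _ _ _).trans ?_
      refine (add_le_add (MvPolynomial.degreeOf_pow_le _ _ _)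
        (MvPolynomial.degreeOf_pow_le _ _ _)).trans ?_
      have h2 := SbNorm_cub W k i
      have h3 : MvPolynomial.degreeOf k (MvPolynomial.X i : MvPolynomial (Fin m) K) =
          if k = i then 1 else 0 := MvPolynomial.degreeOf_X k i
      rw [h3]
      split_ifs with h
      · rw [if_pos h] at h2
        have h4 := Nat.mul_le_mul_left (μ (Sum.inr i) / 2) h2
        omega
      · rw [if_neg h] at h2
        have h4 := Nat.mul_le_mul_left (μ (Sum.inr i) / 2) h2
        omega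
    refine (Finset.sum_le_sum h1).trans ?_
    rw [Finset.sum_ite_eq, if_pos (Finset.mem_univ k)]
    have h5 : μ (Sum.inl k) ≤ 2 ^ m * a :=
      (MvPolynomial.monomial_le_degreeOf _ hμ).trans (hdeg _ a (hx k))
    have h6 : μ (Sum.inr k) ≤ 2 ^ m * b :=
      (MvPolynomial.monomial_le_degreeOf _ hμ).trans (hdeg _ b (hy k))
    have h7 : μ (Sum.inr k) / 2 ≤ 2 ^ m * b := (Nat.div_le_self _ _).trans h6
    omega
  · intro F _ _ x y hxy
    have h1 : ∏ ε : Fin m → Bool, ev x (fl ε y) f = ev x y g := by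
      rw [hgdef, ev, map_prod]
      exact Finset.prod_congr rfl fun ε _ => SbNorm_ev x y ε f
    rw [h1, ev, MvPolynomial.aeval_def (Sum.elim x y), MvPolynomial.eval₂_eq', map_sum]
    refine Finset.sum_congr rfl fun μ hμ => ?_
    rw [map_mul, map_prod, Fintype.prod_sum_type, ← Finset.prod_mul_distrib]
    congr 1
    · exact MvPolynomial.algHom_C _ _
    · refine Finset.prod_congr rfl fun i _ => ?_
      rw [map_mul, map_pow, map_pow, MvPolynomial.aeval_X, SbNorm_aeval, ← hxy i, Sum.elim_inl,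
        Sum.elim_inr, ← pow_mul, Nat.mul_div_cancel' (hg μ hμ i).two_dvd]

end PCL

end
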