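import Pool.Agent.W_52423f_h70.SbBasic

/-!
# Stabiliser theorem: transcendence degree facts
-/

open scoped Classical

noncomputable section

namespace PCL

variable {K : Type} [Field K] {W : WeierstrassCurve K}

/-- If `dim Z_k < d + 1` then every coordinate of a point of `Z_k` with `d` independent coordinates
`x(w_j)`, `j` in `J`, is algebraic over the field they generate.

Proof.  If `i ∈ J` then `xc (w i) ∈ xfield w J`.  If `i ∉ J` and `xc (w i)` is transcendental over
`xfield w J`, hence over `Algebra.adjoin K ((fun j => xc (w j)) '' J)`, then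
`AlgebraicIndepOn.insert_iff` shows that the coordinates with index in `insert i J` are algebraically
independent (`HasIndep w J` is `AlgebraicIndepOn K (fun j => xc (w j)) J` up to the coercion
`↥(↑J : Set _) = ↥J`), and `insert i J` has `d + 1` elements, so `QQ γ S D P k (d + 1)` holds,
contradiction. -/
theorem alg_of_not_qq {n m : ℕ} {γ : (Fin n → ℤ) →+ (Fin m → Pt W K)} {S D k d : ℕ}
    {P : MvPolynomial (Fin m) K} (hQ : ¬ QQ γ S D P k (d + 1)) {F : Type} [Field F] [Algebra K F]
    (w : Fin m → Pt W F) (hw : InZ γ S D P k w) (J : Finset (Fin m)) (hJ : J.card = d)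
    (hind : HasIndep w J) (i : Fin m) : IsAlgebraic (xfield w J) (xc (w i)) := by
  by_cases hi : i ∈ J
  · exact isAlgebraic_algebraMap
      (⟨xc (w i), IntermediateField.subset_adjoin _ _ ⟨i, hi, rfl⟩⟩ : xfield w J)
  · by_contra hc
    apply hQ
    have h1 : Transcendental (Algebra.adjoin K ((fun j => xc (w j)) '' (J : Set (Fin m))))
        (xc (w i)) := fun h => hc (IntermediateField.isAlgebraic_adjoin_iff.mpr h)
    have h2 : AlgebraicIndepOn K (fun j => xc (w j)) (J : Set (Fin m)) := hind
    have h3 := AlgebraicIndepOn.insert h2 h1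
    rw [← Finset.coe_insert] at h3
    exact ⟨F, _, _, w, insert i J, by rw [Finset.card_insert_of_notMem hi, hJ], h3, hw⟩

end PCL

end
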