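import Pool.Agent.W_52423f_h70.SbDefs

/-!
# Stabiliser theorem: a vector space over an infinite field is not a finite union of proper subspaces
-/

open scoped Classical

noncomputable section

namespace PCL

/-- If every element of a vector space over an infinite field is killed by one of finitely many
linear maps then one of the linear maps is zero.

Proof.  Otherwise all the kernels `LinearMap.ker (φ e)` are proper subspaces of `V`, and a vector
space over an infinite field is not the union of finitely many proper subspaces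
(`Subspace.biUnion_ne_univ_of_top_notMem` or `Subspace.top_mem_of_biUnion_eq_univ`, file
`Mathlib.GroupTheory.CosetCover`), contradiction. -/
theorem exists_map_eq_zero {K V W E : Type} [Field K] [Infinite K] [AddCommGroup V] [Module K V]
    [AddCommGroup W] [Module K W] [Finite E] [Nonempty E] (φ : E → (V →ₗ[K] W))
    (h : ∀ v, ∃ e, φ e v = 0) : ∃ e, φ e = 0 := by
  have hcov : ⋃ e, ((LinearMap.ker (φ e) : Submodule K V) : Set V) = Set.univ := by
    apply Set.eq_univ_of_forall
    intro v
    obtain ⟨e, he⟩ := h v
    rw [Set.mem_iUnion]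
    exact ⟨e, he⟩
  obtain ⟨e, he⟩ := Subspace.exists_eq_top_of_iUnion_eq_univ hcov
  exact ⟨e, LinearMap.ker_eq_top.1 he⟩

/-- One choice of signs works for all `f` in a subspace.

Proof.  Apply `exists_map_eq_zero` to the restrictions to `U` of the `K`-linear maps
`f ↦ ev x (fl ε y) f`; for `f ∈ U` with norm `N`, `0 = aeval x N` is the product of the
`ev x (fl ε y) f`, so one factor is zero (`Finset.prod_eq_zero_iff`). -/
theorem exists_sign {K : Type} [Field K] [CharZero K] {W : WeierstrassCurve K} {F : Type} [Field F] [Algebra K F]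
    {m : ℕ} (U : Submodule K (MvPolynomial (Fin m ⊕ Fin m) K)) (x y : Fin m → F)
    (hxy : ∀ i, y i ^ 2 = cub W (x i))
    (h : ∀ f ∈ U, ∃ N : MvPolynomial (Fin m) K, IsNrm W f N ∧ MvPolynomial.aeval x N = 0) :
    ∃ ε : Fin m → Bool, ∀ f ∈ U, ev x (fl ε y) f = 0 := by
  have : Infinite K := Infinite.of_injective (fun n : ℕ => (n : K)) Nat.cast_injective
  obtain ⟨ε, hε⟩ := exists_map_eq_zero (K := K) (V := U) (W := F) (E := Fin m → Bool)
    (fun ε => (MvPolynomial.aeval (R := K) (Sum.elim x (fl ε y))).toLinearMap.comp U.subtype)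
    (by
      rintro ⟨f, hf⟩
      obtain ⟨N, hN, hN0⟩ := h f hf
      rw [hN F x y hxy, Finset.prod_eq_zero_iff] at hN0
      obtain ⟨ε, -, hε⟩ := hN0
      exact ⟨ε, hε⟩)
  refine ⟨ε, fun f hf => ?_⟩
  have h1 := congrArg (fun φ : U →ₗ[K] F => φ ⟨f, hf⟩) hε
  exact h1

end PCL

end
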