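import Pool.Agent.W_52423f_h70.SbFpol
import Pool.Agent.W_52423f_h70.SbDeg
import Pool.Agent.W_52423f_h70.SbNorm
import Pool.Agent.W_52423f_h70.SbUnion
import Pool.Agent.W_52423f_h70.SbTr
import Pool.Agent.W_52423f_h70.SbBas

/-!
# Stabiliser theorem: the ideal generated by `GG` is zero-dimensional
-/

open scoped Classical

noncomputable section

namespace PCL

variable {K : Type} [Field K] {W : WeierstrassCurve K}

/-- `aeval x N` for a point `x` whose coordinates in `J` are `t` is `spc J t N` evaluated at the other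
coordinates. -/
theorem aeval_spc {F : Type} [Field F] [Algebra K F] {m : ℕ} (J : Finset (Fin m)) (t : Fin m → F)
    {F' : Type} [Field F'] [Algebra F F'] [Algebra K F'] [IsScalarTower K F F']
    (φ : MvPolynomial {i : Fin m // i ∉ J} F →ₐ[F] F') (x : Fin m → F')
    (hx : ∀ i, x i = if h : i ∈ J then algebraMap F F' (t i) else φ (MvPolynomial.X ⟨i, h⟩))
    (N : MvPolynomial (Fin m) K) : MvPolynomial.aeval x N = φ (spc J t N) := by
  have h : (MvPolynomial.aeval x : MvPolynomial (Fin m) K →ₐ[K] F') =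
      (φ.restrictScalars K).comp (spc J t) := by
    apply MvPolynomial.algHom_ext
    intro i
    simp only [MvPolynomial.aeval_X, AlgHom.coe_comp, AlgHom.coe_restrictScalars',
      Function.comp_apply, spc]
    rw [hx i]
    split_ifs with h
    · rw [← MvPolynomial.algebraMap_eq, AlgHom.commutes]
    · rfl
  rw [h]
  rfl

/-- A family of points of the `m`-th power of the curve over an algebraically closed field with given
`x`-coordinates. -/
theorem exists_y (W : WeierstrassCurve K) {F : Type} [Field F] [Algebra K F] [IsAlgClosed F] {m : ℕ} (x : Fin m → F) :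
    ∃ y : Fin m → F, ∀ i, y i ^ 2 = cub W (x i) := by
  have h : ∀ i, ∃ y : F, y ^ 2 = cub W (x i) := by
    intro i
    obtain ⟨y, hy⟩ := IsAlgClosed.exists_pow_nat_eq
      (cub W (x i)) (n := 2) (by norm_num)
    exact ⟨y, hy⟩
  choose y hy using h
  exact ⟨y, hy⟩

/-- An element of `F'` which is algebraic over a subfield contained in the range of an algebraically
closed field `Ω` lies in that range. -/
theorem SbMax_mem_range {Ω F' : Type} [Field Ω] [Algebra K Ω] [IsAlgClosed Ω] [Field F'] [Algebra K F']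
    (σ : Ω →ₐ[K] F') (L : IntermediateField K F') (hL : L ≤ σ.fieldRange) (z : F')
    (hz : IsAlgebraic L z) : ∃ a : Ω, σ a = z := by
  letI : Algebra Ω F' := σ.toRingHom.toAlgebra
  have hint : IsIntegral L z := isAlgebraic_iff_isIntegral.mp hz
  let e : Ω ≃ₐ[K] σ.fieldRange := AlgEquiv.ofInjectiveField σ
  let φ : L →+* Ω := e.symm.toAlgHom.toRingHom.comp (IntermediateField.inclusion hL).toRingHom
  have hφ : ∀ c : L, σ (φ c) = (c : F') := by
    intro c
    have h1 : e (φ c) = IntermediateField.inclusion hL c := e.apply_symm_apply _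
    have h2 : ((e (φ c) : σ.fieldRange) : F') = σ (φ c) := rfl
    rw [← h2, h1]
    rfl
  have h3 : IsIntegral Ω z := by
    have h := IsIntegral.map_of_comp_eq (R := L) (S := F') (T := Ω) (U := F') φ (RingHom.id F')
      (by ext c; exact hφ c) hint
    simpa using h
  have h4 := IsAlgClosed.degree_eq_one_of_irreducible Ω (minpoly.irreducible h3)
  exact minpoly.mem_range_of_degree_eq_one Ω z h4

/-- The main argument, for a field `F'` and a homomorphism with kernel `q`. -/
theorem SbMax_core [CharZero K] [W.IsElliptic] {n m : ℕ}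
    {γ : (Fin n → ℤ) →+ (Fin m → Pt W K)} {S D k : ℕ} {P : MvPolynomial (Fin m) K}
    (hdeg : ∀ i, P.degreeOf i ≤ D) {Ω : Type} [Field Ω] [Algebra K Ω] [IsAlgClosed Ω]
    (w : Fin m → Pt W Ω) (J : Finset (Fin m)) (hQ : ¬ QQ γ S D P k (J.card + 1))
    (hind : HasIndep w J) (q : Ideal (MvPolynomial {i : Fin m // i ∉ J} Ω))
    (hGG : GG γ S D P k J (fun j => xc (w j)) ⊆ (q : Set (MvPolynomial {i : Fin m // i ∉ J} Ω)))
    {F' : Type} [Field F'] [Algebra K F'] [Algebra Ω F'] [IsScalarTower K Ω F'] [IsAlgClosed F']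
    (φ : MvPolynomial {i : Fin m // i ∉ J} Ω →ₐ[Ω] F') (hφ : ∀ r, φ r = 0 ↔ r ∈ q) :
    q.IsMaximal := by
  have hx0 : ∃ x : Fin m → F', ∀ i, x i = if h : i ∈ J then algebraMap Ω F' (xc (w i)) else
      φ (MvPolynomial.X ⟨i, h⟩) := ⟨_, fun _ => rfl⟩
  obtain ⟨x, hx⟩ := hx0
  obtain ⟨y, hy⟩ := exists_y W x
  have h1 : ∀ f ∈ FF γ S D P k, ∃ N : MvPolynomial (Fin m) K, IsNrm W f N ∧
      MvPolynomial.aeval x N = 0 := by
    intro f hf
    obtain ⟨N, hN1, hN2⟩ := exists_nrm W f (2 * D) D (fun i => (degreeOf_FF hdeg hf i).1)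
      (fun i => (degreeOf_FF hdeg hf i).2)
    refine ⟨N, hN2, ?_⟩
    rw [aeval_spc J (fun j => xc (w j)) φ x hx N, hφ]
    refine hGG ⟨f, hf, N, hN2, fun i => (hN1 i).trans (le_of_eq (by ring)), rfl⟩
  obtain ⟨ε, hε⟩ := exists_sign (FF γ S D P k) x y hy h1
  have hsq : ∀ i, fl ε y i ^ 2 = cub W (x i) := by
    intro i
    rw [← hy i]
    unfold fl
    split_ifs <;> ring
  have hpt := fun i => exists_pt (W := W) (hsq i)
  choose u hu0 hux huh using hpt
  have hux' : (fun i => xc (u i)) = x := funext hux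
  have huh' : (fun i => hc (u i)) = fl ε y := funext huh
  have hZ : InZ γ S D P k u := by
    rw [inZ_iff hdeg u hu0, hux', huh']
    exact hε
  let σ : Ω →ₐ[K] F' := IsScalarTower.toAlgHom K Ω F'
  have hσ : ∀ a, σ a = algebraMap Ω F' a := fun a => rfl
  have huJ : ∀ j ∈ J, xc (u j) = σ (xc (w j)) := by
    intro j hj
    rw [hux j, hx j, dif_pos hj, hσ]
  have hindu : HasIndep u J := by
    have h := hind.map' (f := σ) σ.toRingHom.injective
    have h2 : (fun j : J => xc (u j)) = σ ∘ (fun j : J => xc (w j)) := by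
      funext j
      exact huJ j j.2
    unfold HasIndep
    rw [h2]
    exact h
  have hL : xfield u J ≤ σ.fieldRange := by
    unfold xfield
    rw [IntermediateField.adjoin_le_iff]
    rintro _ ⟨j, hj, rfl⟩
    exact ⟨xc (w j), (huJ j hj).symm⟩
  have ha : ∀ i, ∃ a : Ω, σ a = x i := by
    intro i
    have h := alg_of_not_qq hQ u hZ J rfl hindu i
    rw [hux i] at h
    exact SbMax_mem_range σ (xfield u J) hL (x i) h
  choose a ha using ha
  let E : MvPolynomial {i : Fin m // i ∉ J} Ω →ₐ[Ω] Ω := MvPolynomial.aeval fun i => a i.1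
  have hE : ∀ r, φ r = algebraMap Ω F' (E r) := by
    intro r
    have h : φ = (Algebra.ofId Ω F').comp E := by
      apply MvPolynomial.algHom_ext
      intro i
      have h5 := hx i.1
      rw [dif_neg i.2] at h5
      simp only [AlgHom.coe_comp, Function.comp_apply, E, MvPolynomial.aeval_X]
      rw [Algebra.ofId_apply, ← hσ, ha i.1, h5]
    rw [h]
    rfl
  have hqE : q = RingHom.ker E := by
    ext r
    rw [RingHom.mem_ker, ← hφ, hE r]
    exact map_eq_zero _
  rw [hqE]
  exact RingHom.ker_isMaximal_of_surjective E fun c => ⟨MvPolynomial.C c, by simp [E]⟩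

/-- Every prime ideal which contains `GG` is maximal.

Proof.  Let `Q = MvPolynomial _ Ω ⧸ q` (a domain), `F' = AlgebraicClosure (FractionRing Q)`,
`φ : MvPolynomial _ Ω →ₐ[Ω] F'` the natural map, with kernel `q`.  Put
`x i = if h : i ∈ J then algebraMap Ω F' (xc (w i)) else φ (X ⟨i, h⟩)`, and choose `y` by `exists_y`.
For `f ∈ FF γ S D P k` there is by `exists_nrm` (with `a = 2 * D`, `b = D`, `degreeOf_FF`) an `N` with
`IsNrm W f N` and degrees at most `5 * 2 ^ m * D`; `spc J _ N ∈ GG ⊆ q`, so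
`aeval x N = φ (spc J _ N) = 0` (`aeval_spc`).  By `exists_sign` there are signs `ε` with
`ev x (fl ε y) f = 0` for all `f ∈ FF`.  Since `(fl ε y i) ^ 2 = y i ^ 2`, `exists_pt` gives points
`u i ≠ 0` with `xc (u i) = x i`, `hc (u i) = fl ε y i`; `InZ γ S D P k u` by `inZ_iff`.  The `xc (u j)`,
`j ∈ J`, are the images of the independent `xc (w j)` under the injective `algebraMap Ω F'`, so
`HasIndep u J`.  By `alg_of_not_qq` every `x i` is algebraic over `xfield u J`, which is contained in the
range of `Ω`, so `x i` is algebraic over `Ω`, and `Ω` is algebraically closed: `x i = algebraMap Ω F' (a i)`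
(`IsAlgClosed.algebraMap_bijective_of_isIntegral` or `IsAlgClosed` + `IsAlgebraic.isIntegral` +
`IsAlgClosed.algebraMap_surjective_of_isIntegral` on the intermediate field; e.g. split the minimal
polynomial).  Hence for `i ∉ J` the polynomial `X ⟨i, _⟩ - C (a i)` is in `q`; so `q` contains the
kernel of the evaluation `MvPolynomial _ Ω → Ω` at `(a i)` (every polynomial is congruent to its value
modulo these), which is maximal, and `q ≠ ⊤`, so `q` is equal to it. -/
theorem isMaximal_of_GG [CharZero K] [W.IsElliptic] {n m : ℕ}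
    {γ : (Fin n → ℤ) →+ (Fin m → Pt W K)} {S D k : ℕ} {P : MvPolynomial (Fin m) K}
    (hdeg : ∀ i, P.degreeOf i ≤ D) {Ω : Type} [Field Ω] [Algebra K Ω] [IsAlgClosed Ω]
    (w : Fin m → Pt W Ω) (J : Finset (Fin m)) (hQ : ¬ QQ γ S D P k (J.card + 1))
    (hind : HasIndep w J) (q : Ideal (MvPolynomial {i : Fin m // i ∉ J} Ω)) (hq : q.IsPrime)
    (hGG : GG γ S D P k J (fun j => xc (w j)) ⊆ (q : Set (MvPolynomial {i : Fin m // i ∉ J} Ω))) :
    q.IsMaximal := by
  haveI : q.IsPrime := hq
  let Q := MvPolynomial {i : Fin m // i ∉ J} Ω ⧸ q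
  haveI : IsDomain Q := Ideal.Quotient.isDomain q
  let F' := AlgebraicClosure (FractionRing Q)
  let φ : MvPolynomial {i : Fin m // i ∉ J} Ω →ₐ[Ω] F' :=
    (IsScalarTower.toAlgHom Ω Q F').comp (Ideal.Quotient.mkₐ Ω q)
  refine SbMax_core hdeg w J hQ hind q hGG (F' := F') φ ?_
  intro r
  have h1 : φ r = algebraMap Q F' (Ideal.Quotient.mk q r) := rfl
  have h2 : Function.Injective (algebraMap Q F') := by
    rw [IsScalarTower.algebraMap_eq Q (FractionRing Q) F']
    exact (algebraMap (FractionRing Q) F').injective.comp (IsFractionRing.injective Q _)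
  rw [h1, map_eq_zero_iff _ h2, Ideal.Quotient.eq_zero_iff_mem]

end PCL

end
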