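import Pool.Agent.W_52423f_h70.SbBasic

/-!
# Stabiliser theorem: the two pairs which represent `x(u + κ)`
-/

open scoped Classical

noncomputable section

namespace PCL

variable {K : Type} [Field K] {W : WeierstrassCurve K}

open WeierstrassCurve WeierstrassCurve.Affine in
lemma SbPair_aux {F : Type} [Field F] [CharZero F] (V : WeierstrassCurve.Affine F)
    (x y a b : F) (hxy : V.Nonsingular x y) (hab : V.Nonsingular a b)
    (T g h ψ : F) (hT : T = 2 * x * a * (x + a) + V.b₂ * x * a + V.b₄ * (x + a) + V.b₆)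
    (hg : g = 2 * b + V.a₁ * a + V.a₃) (hh : h = 2 * y + V.a₁ * x + V.a₃)
    (hψ : ψ = x ^ 2 * a ^ 2 - V.b₄ * x * a - V.b₆ * (x + a) - V.b₈) :
    ∃ lf lt : F, (lf ≠ 0 ∨ lt ≠ 0) ∧
      (![T - h * g, 2 * (x - a) ^ 2] : Fin 2 → F) =
        (fun i => lf * (Point.some x y hxy + Point.some a b hab).xRep i) ∧
      (![2 * ψ, T + h * g] : Fin 2 → F) =
        (fun i => lt * (Point.some x y hxy + Point.some a b hab).xRep i) := by
  have E1 := (V.equation_iff x y).mp ((V.nonsingular_iff x y).mp hxy).1
  have E2 := (V.equation_iff a b).mp ((V.nonsingular_iff a b).mp hab).1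
  have H1 : h ^ 2 = 4 * x ^ 3 + V.b₂ * x ^ 2 + 2 * V.b₄ * x + V.b₆ := by
    rw [hh]; simp only [WeierstrassCurve.b₂, WeierstrassCurve.b₄, WeierstrassCurve.b₆]; linear_combination 4 * E1
  have H2 : g ^ 2 = 4 * a ^ 3 + V.b₂ * a ^ 2 + 2 * V.b₄ * a + V.b₆ := by
    rw [hg]; simp only [WeierstrassCurve.b₂, WeierstrassCurve.b₄, WeierstrassCurve.b₆]; linear_combination 4 * E2
  have H3 : 2 * ψ * (2 * (x - a) ^ 2) = (T + h * g) * (T - h * g) := by
    have hb : 4 * V.b₈ = V.b₂ * V.b₆ - V.b₄ ^ 2 := V.b_relation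
    rw [hψ, hT]
    linear_combination (-(x - a) ^ 2) * hb + (4 * a ^ 3 + V.b₂ * a ^ 2 + 2 * V.b₄ * a + V.b₆) * H1
      + h ^ 2 * H2
  by_cases hxa : x = a
  · subst hxa
    by_cases hy : y = V.negY x b
    · have hsum : Point.some x y hxy + Point.some x b hab = 0 := Point.add_of_Y_eq rfl hy
      rw [hsum, Point.xRep_zero]
      have hhg : h = -g := by
        rw [hh, hg, hy, negY]; ring
      have hT2 : T = g ^ 2 := by rw [H2, hT]; ring
      refine ⟨2 * g ^ 2, 2 * ψ, ?_, ?_, ?_⟩
      · by_contra hcon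
        push Not at hcon
        obtain ⟨h1, h2⟩ := hcon
        have hg0 : g = 0 := by
          have : g ^ 2 = 0 := by
            have h3 : (2 : F) ≠ 0 := two_ne_zero
            exact (mul_eq_zero.mp h1).resolve_left h3
          exact pow_eq_zero_iff (two_ne_zero) |>.mp this
        have hψ0 : ψ = 0 := (mul_eq_zero.mp h2).resolve_left two_ne_zero
        have hb : 4 * V.b₈ = V.b₂ * V.b₆ - V.b₄ ^ 2 := V.b_relation
        have h5 : (6 * x ^ 2 + V.b₂ * x + V.b₄) ^ 2 = 4 * ψ + (8 * x + V.b₂) * g ^ 2 := by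
          rw [H2, hψ]
          linear_combination hb
        rw [hψ0, hg0] at h5
        have h6 : 6 * x ^ 2 + V.b₂ * x + V.b₄ = 0 := by
          have : (6 * x ^ 2 + V.b₂ * x + V.b₄) ^ 2 = 0 := by rw [h5]; ring
          exact pow_eq_zero_iff (two_ne_zero) |>.mp this
        have h7 := ((V.nonsingular_iff' x b).mp hab).2
        rw [← hg] at h7
        have h8 := h7.resolve_right (by rw [hg0]; simp)
        apply h8
        have h9 : (2 : F) * (V.a₁ * b - (3 * x ^ 2 + 2 * V.a₂ * x + V.a₄)) = 0 := by
          simp only [WeierstrassCurve.b₂, WeierstrassCurve.b₄] at h6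
          rw [hg] at hg0
          linear_combination V.a₁ * hg0 - h6
        exact (mul_eq_zero.mp h9).resolve_left two_ne_zero
      · funext i
        fin_cases i
        · simp [hT2, hhg]; ring
        · simp
      · funext i
        fin_cases i
        · simp
        · simp [hT2, hhg]; ring
    · have hyb : y = b := by
        have : (y - b) * (y - V.negY x b) = 0 := by
          rw [negY]; linear_combination E1 - E2
        rcases mul_eq_zero.mp this with h1 | h1
        · exact sub_eq_zero.mp h1
        · exact absurd (sub_eq_zero.mp h1) hy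
      subst hyb
      have hhg : h = g := by rw [hh, hg]
      have hg0 : g ≠ 0 := by
        intro h0
        apply hy
        rw [negY]
        rw [hg] at h0
        linear_combination h0
      have hT2 : T = g ^ 2 := by rw [H2, hT]; ring
      have hsum : Point.some x y hxy + Point.some x y hab = _ := Point.add_self_of_Y_ne hy
      rw [hsum, Point.xRep_some]
      have hb : 4 * V.b₈ = V.b₂ * V.b₆ - V.b₄ ^ 2 := V.b_relation
      have hneg : y - V.negY x y = g := by rw [negY, hg]; ring
      refine ⟨0, 2 * g ^ 2, Or.inr (by simp [hg0]), ?_, ?_⟩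
      · funext i
        fin_cases i
        · simp [hT2, hhg]; ring
        · simp
      · funext i
        fin_cases i
        · simp only [Fin.zero_eta, Matrix.cons_val_zero]
          rw [addX, slope_of_Y_ne rfl hy, hneg]
          have H4 : ψ = (3 * x ^ 2 + 2 * V.a₂ * x + V.a₄ - V.a₁ * y) ^ 2 +
              V.a₁ * (3 * x ^ 2 + 2 * V.a₂ * x + V.a₄ - V.a₁ * y) * g -
              (V.a₂ + 2 * x) * g ^ 2 := by
            rw [H2, hψ, hg]
            simp only [WeierstrassCurve.b₂, WeierstrassCurve.b₄, WeierstrassCurve.b₆,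
              WeierstrassCurve.b₈]
            linear_combination V.a₁ ^ 2 * E1
          rw [H4]
          field_simp
          ring
        · simp [hT2, hhg]; ring
  · have hsum : Point.some x y hxy + Point.some a b hab = _ := Point.add_of_X_ne hxa
    rw [hsum, Point.xRep_some]
    have hxa' : x - a ≠ 0 := sub_ne_zero.mpr hxa
    have hX : 2 * (x - a) ^ 2 * V.addX x a (V.slope x a y b) = T - h * g := by
      rw [addX, slope_of_X_ne hxa, hT, hh, hg]
      simp only [WeierstrassCurve.b₂, WeierstrassCurve.b₄, WeierstrassCurve.b₆]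
      field_simp
      linear_combination 2 * E1 + 2 * E2
    have h2 : (2 : F) * (x - a) ^ 2 ≠ 0 := mul_ne_zero two_ne_zero (pow_ne_zero 2 hxa')
    refine ⟨2 * (x - a) ^ 2, T + h * g, Or.inl h2, ?_, ?_⟩
    · funext i
      fin_cases i
      · simp [← hX]
      · simp
    · funext i
      fin_cases i
      · simp only [Fin.zero_eta, Matrix.cons_val_zero]
        apply mul_right_cancel₀ h2
        rw [H3, ← hX]; ring
      · simp

/-- The two pairs `pr κ c x h` are multiples of the representative of `x(u + κ)`, not both zero.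

Proof.  `κ = 0`: both pairs are `![x, 1] = (u + 0).xRep` (`u ≠ 0`), take `lam = 1`.
`κ = (a, b)` (write `a, b, a₁, ..., b₂, ...` for the images in `F`), `u = (x, y)`, `g = 2 b + a₁ a + a₃`,
`h = 2 y + a₁ x + a₃`; by `curve_eq` `h² = 4 x³ + b₂ x² + 2 b₄ x + b₆` and the same for `g`, `a`; put
`T = 2 x a (x + a) + b₂ x a + b₄ (x + a) + b₆`, so the pairs are
`c = false : ![T - h g, 2 (x - a)²]`, `c = true : ![2 (x² a² - b₄ x a - b₆ (x + a) - b₈), T + h g]`.
Recall `b₂ = a₁² + 4 a₂`, `b₄ = 2 a₄ + a₁ a₃`, `b₆ = a₃² + 4 a₆` and `4 b₈ = b₂ b₆ - b₄²`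
(`WeierstrassCurve.b_relation`).
(1) `x ≠ a`: the sum `u + κ` is affine (`Point.add_of_X_ne`), with `x`-coordinate
`ℓ² + a₁ ℓ - a₂ - x - a`, `ℓ = (y - b)/(x - a)` (`Affine.addX`, `Affine.slope_of_X_ne`), which equals
`(T - h g)/(2 (x - a)²)` by the two Weierstrass equations (clear denominators, `linear_combination`);
`lam false = 2 (x - a)²`, `lam true = T + h g`; for the latter the identity
`2 (x² a² - b₄ x a - b₆ (x + a) - b₈) * 2 (x - a)² = (T + h g)(T - h g)`, which follows from the equations
for `h²`, `g²` and the relation for `b₈`.  `lam false ≠ 0`.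
(2) `x = a`, `h = - g` (i.e. `y = - b - a₁ a - a₃ = negY`): `u + κ = 0` (`Point.add_of_Y_eq`), `xRep = ![1, 0]`;
`T = g²`, so `lam false = 2 g²` and the second entry `2 (x - a)²` is `0`;
`lam true = 2 ψ` with `ψ = a⁴ - b₄ a² - 2 b₆ a - b₈`, the second entry is `T - g² = 0`.  If both vanish then
`g = 0`, `ψ = 0`, and `(6 a² + b₂ a + b₄)² = 4 ψ + (8 a + b₂) g²` gives `6 a² + b₂ a + b₄ = 0`, i.e.
`2 (3 a² + 2 a₂ a + a₄ - a₁ b) = 0` (as `g = 0`), contradiction to the nonsingularity of `(a, b)`
(`Affine.nonsingular_iff`; the second alternative there is `g ≠ 0`).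
(3) `x = a`, `h ≠ - g`: then `h² = g²` gives `h = g ≠ 0`, so `y = b`, the sum is affine
(`Point.add_self_of_Y_ne`) with `x`-coordinate `ℓ² + a₁ ℓ - a₂ - 2 a`,
`ℓ = (3 a² + 2 a₂ a + a₄ - a₁ b)/g` (`Affine.slope_of_Y_ne`), which equals `ψ / g²`; `lam false = 0`
(here `T - h g = g² - g² = 0`, `x - a = 0`), `lam true = T + h g = 2 g² ≠ 0`. -/
theorem pr_spec [CharZero K] {F : Type} [Field F] [Algebra K F]
    (κ : Pt W K) (u : Pt W F) (hu : u ≠ 0) :
    ∃ lam : Bool → F, (∀ c, pr κ c (xc u) (hc u) = fun i => lam c * (u + emb F κ).xRep i) ∧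
      ∃ c, lam c ≠ 0 := by
  have : CharZero F := charZero_of_injective_algebraMap (algebraMap K F).injective
  cases κ with
  | zero =>
    have h0 : emb F (WeierstrassCurve.Affine.Point.zero : Pt W K) = 0 := map_zero (emb F)
    rw [h0, add_zero]
    refine ⟨fun _ => 1, fun c => ?_, true, one_ne_zero⟩
    cases u with
    | zero => exact absurd rfl hu
    | some x y hxy =>
      funext i
      rw [WeierstrassCurve.Affine.Point.xRep_some, one_mul]
      rfl
  | some a b hab =>
    cases u with
    | zero => exact absurd rfl hu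
    | some x y hxy =>
      obtain ⟨hab', he⟩ : ∃ hab' : (WeierstrassCurve.Affine.baseChange W F).Nonsingular
          (algebraMap K F a) (algebraMap K F b),
          emb F (WeierstrassCurve.Affine.Point.some a b hab : Pt W K) =
            WeierstrassCurve.Affine.Point.some _ _ hab' := ⟨_, rfl⟩
      rw [he]
      obtain ⟨lf, lt, h1, h2, h3⟩ := SbPair_aux (WeierstrassCurve.Affine.baseChange W F)
        x y (algebraMap K F a) (algebraMap K F b) hxy hab' _ _ _ _ rfl rfl rfl rfl
      have hb2 : WeierstrassCurve.b₂ (WeierstrassCurve.Affine.baseChange W F) =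
          algebraMap K F W.b₂ := W.map_b₂ _
      have hb4 : WeierstrassCurve.b₄ (WeierstrassCurve.Affine.baseChange W F) =
          algebraMap K F W.b₄ := W.map_b₄ _
      have hb6 : WeierstrassCurve.b₆ (WeierstrassCurve.Affine.baseChange W F) =
          algebraMap K F W.b₆ := W.map_b₆ _
      have hb8 : WeierstrassCurve.b₈ (WeierstrassCurve.Affine.baseChange W F) =
          algebraMap K F W.b₈ := W.map_b₈ _
      have ha1 : (WeierstrassCurve.Affine.baseChange W F).a₁ = algebraMap K F W.a₁ := rfl
      have ha3 : (WeierstrassCurve.Affine.baseChange W F).a₃ = algebraMap K F W.a₃ := rfl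
      rw [hb2, hb4, hb6, ha1, ha3] at h2
      rw [hb2, hb4, hb6, hb8, ha1, ha3] at h3
      refine ⟨fun c => if c then lt else lf, fun c => ?_, ?_⟩
      · cases c with
        | false =>
          refine Eq.trans ?_ h2
          simp only [pr, hc, xc, yc, map_add, map_mul, map_ofNat, Bool.false_eq_true, if_false]
        | true =>
          refine Eq.trans ?_ h3
          simp only [pr, hc, xc, yc, map_add, map_mul, map_ofNat, if_true]
      · rcases h1 with h1 | h1
        · exact ⟨false, by simpa using h1⟩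
        · exact ⟨true, by simpa using h1⟩

end PCL

end
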