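import Pool.Agent.W_52423f_h70.SbBasic

/-!
# Stabiliser theorem: rationality of sums, and algebraicity of coordinates
-/

open scoped Classical

noncomputable section

namespace PCL

variable {K : Type} [Field K] {W : WeierstrassCurve K} {F : Type} [Field F] [Algebra K F]

/-- A point with coordinates in `L` comes from an `L`-point. -/
theorem exists_mp_val (L : IntermediateField K F) {p : Pt W F} (hp : RatOver (L : Set F) p) :
    ∃ p' : Pt W L, mp L.val p' = p := (ratOver_iff L p).mp hp

/-- `yc p` is algebraic over every intermediate field over which `xc p` is algebraic. -/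
theorem isAlgebraic_yc [CharZero K] (L : IntermediateField K F) {p : Pt W F}
    (hp : IsAlgebraic L (xc p)) : IsAlgebraic L (yc p) := by
  have : CharZero F := charZero_of_injective_algebraMap (algebraMap K F).injective
  have hK : ∀ a : K, IsAlgebraic L (algebraMap K F a) := by
    intro a
    rw [IsScalarTower.algebraMap_apply K L F]
    exact isAlgebraic_algebraMap _
  have hN : ∀ a : ℕ, IsAlgebraic L (a : F) := by
    intro a
    have := hK (a : K)
    rwa [map_natCast] at this
  by_cases h0 : p = 0
  · subst h0; exact isAlgebraic_zero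
  · have h := curve_eq h0
    have h2 := hN 2
    have h4 := hN 4
    norm_num at h2 h4
    have h1 : IsAlgebraic L (hc p ^ 2) := by
      rw [h]
      exact (((h4.mul (hp.pow 3)).add ((hK _).mul (hp.pow 2))).add ((h2.mul (hK _)).mul hp)).add
        (hK _)
    have h3 : IsAlgebraic L (hc p) := IsAlgebraic.of_pow (by norm_num) h1
    have h5 : yc p = (hc p - algebraMap K F W.a₁ * xc p - algebraMap K F W.a₃) * (2 : F)⁻¹ := by
      unfold hc; field_simp; ring
    rw [h5]
    exact ((h3.sub ((hK _).mul hp)).sub (hK _)).mul h2.inv

/-- If `xc (p + κ)` is algebraic over `L` then so is `xc p`. -/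
theorem isAlgebraic_xc_of_add [CharZero K] (L : IntermediateField K F) {p : Pt W F} (κ : Pt W K)
    (hp : IsAlgebraic L (xc (p + emb F κ))) : IsAlgebraic L (xc p) := by
  set L' : IntermediateField K F := (algebraicClosure L F).restrictScalars K with hL'
  have hmem : ∀ z : F, z ∈ L' ↔ IsAlgebraic L z := by
    intro z
    rw [hL', IntermediateField.mem_restrictScalars, mem_algebraicClosure_iff]
  have h1 : RatOver (L' : Set F) (p + emb F κ) :=
    ⟨(hmem _).mpr hp, (hmem _).mpr (isAlgebraic_yc L hp)⟩
  have h2 := ratOver_add L' h1 (ratOver_emb L' (-κ))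
  rw [map_neg, add_neg_cancel_right] at h2
  exact (hmem _).mp h2.1

end PCL

end
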