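import Pool.Agent.W_52423f_h70.SbBasic

/-!
# Stabiliser theorem: `Z_0` has dimension less than `m`
-/

open scoped Classical

noncomputable section

namespace PCL

variable {K : Type} [Field K] {W : WeierstrassCurve K}

theorem SbTop_indep {m : ℕ} {F : Type} [Field F] [Algebra K F] (w : Fin m → Pt W F)
    (J : Finset (Fin m)) (hJ : J.card = m) (hw : HasIndep w J) :
    AlgebraicIndependent K (fun j : Fin m => xc (w j)) := by
  have hu : J = Finset.univ :=
    (Finset.card_eq_iff_eq_univ J).1 (by rw [hJ, Fintype.card_fin])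
  subst hu
  exact AlgebraicIndependent.comp hw
    (fun j : Fin m => (⟨j, Finset.mem_univ j⟩ : (Finset.univ : Finset (Fin m))))
    (fun a b h => congrArg (fun z : (Finset.univ : Finset (Fin m)) => (z : Fin m)) h)

/-- the reversed exponent -/
def SbTop_rev {m : ℕ} (D : ℕ) (α : Fin m →₀ ℕ) : Fin m →₀ ℕ :=
  Finsupp.equivFunOnFinite.symm fun i => D - α i

theorem SbTop_rev_apply {m : ℕ} (D : ℕ) (α : Fin m →₀ ℕ) (i : Fin m) :
    SbTop_rev D α i = D - α i := rfl

theorem SbTop_rev_inj {m : ℕ} {D : ℕ} {α β : Fin m →₀ ℕ} (hα : ∀ i, α i ≤ D)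
    (hβ : ∀ i, β i ≤ D) (h : SbTop_rev D α = SbTop_rev D β) : α = β := by
  ext i
  have h1 := DFunLike.congr_fun h i
  rw [SbTop_rev_apply, SbTop_rev_apply] at h1
  have h2 := hα i
  have h3 := hβ i
  omega

/-- If all `m` coordinates `x(w_j)` are algebraically independent, a nonzero `P` (degrees at most `D`)
does not vanish at `w`.

Proof.  `J = univ` because `J.card = m` (`Finset.card_eq_iff_eq_univ`), and the family
`j ↦ xc (w j)`, `j : Fin m`, is algebraically independent (reindex `hw` by the equivalence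
`Fin m ≃ univ`).  Every `w j` is not `0`: otherwise `xc (w j) = 0`, which is algebraic
(`AlgebraicIndependent.ne_zero`).  So `(w j).xRep = ![xc (w j), 1]` and
`Van D P w` says `∑ α ∈ P.support, coeff α P * ∏ i, xc (w i) ^ (D - α i) = 0`, i.e. `aeval (xc ∘ w) Q = 0`
with the reversed polynomial `Q = ∑ α ∈ P.support, monomial (fun i => D - α i) (coeff α P)`
(as a finsupp: `Finsupp.equivFunOnFinite.symm fun i => D - α i`).  The map `α ↦ D - α` is injective on
`P.support` because `α i ≤ P.degreeOf i ≤ D` (`MvPolynomial.monomial_le_degreeOf`), so the coefficient of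
`Q` at `D - α` is `coeff α P`, hence `Q ≠ 0`; contradiction to algebraic independence. -/
theorem not_van_of_indep {m : ℕ} {D : ℕ} {P : MvPolynomial (Fin m) K} (hP : P ≠ 0)
    (hdeg : ∀ i, P.degreeOf i ≤ D) {F : Type} [Field F] [Algebra K F] (w : Fin m → Pt W F)
    (J : Finset (Fin m)) (hJ : J.card = m) (hw : HasIndep w J) : ¬ Van D P w := by
  intro hv
  have hind := SbTop_indep w J hJ hw
  have hx : ∀ i, (w i).xRep = ![xc (w i), 1] := by
    intro i
    have h0 : xc (w i) ≠ 0 := hind.ne_zero i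
    revert h0
    cases w i with
    | zero => exact fun h0 => absurd rfl h0
    | some x y h => exact fun _ => rfl
  obtain ⟨Q, hQ⟩ : ∃ Q : MvPolynomial (Fin m) K,
      Q = ∑ α ∈ P.support, MvPolynomial.monomial (SbTop_rev D α) (P.coeff α) := ⟨_, rfl⟩
  have hval : MvPolynomial.aeval (fun j => xc (w j)) Q = 0 := by
    have h1 : ∑ α ∈ P.support, algebraMap K F (P.coeff α) *
        ∏ i, ((w i).xRep 1 ^ α i * (w i).xRep 0 ^ (D - α i)) = 0 := hv
    rw [hQ, map_sum, ← h1]
    refine Finset.sum_congr rfl fun α _ => ?_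
    rw [MvPolynomial.aeval_monomial, Finsupp.prod_fintype _ _ fun i => pow_zero _]
    congr 1
    refine Finset.prod_congr rfl fun i _ => ?_
    rw [hx i, SbTop_rev_apply]
    simp
  have hQ0 : Q = 0 := (algebraicIndependent_iff.1 hind) Q hval
  obtain ⟨α₀, hα₀⟩ := MvPolynomial.support_nonempty.2 hP
  have hle : ∀ α ∈ P.support, ∀ i, α i ≤ D := fun α hα i =>
    (MvPolynomial.monomial_le_degreeOf i hα).trans (hdeg i)
  have hc := congrArg (MvPolynomial.coeff (SbTop_rev D α₀)) hQ0
  rw [hQ, MvPolynomial.coeff_sum, Finset.sum_eq_single α₀, MvPolynomial.coeff_monomial,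
    if_pos rfl, MvPolynomial.coeff_zero] at hc
  · exact (MvPolynomial.mem_support_iff.1 hα₀) hc
  · intro α hα hne
    rw [MvPolynomial.coeff_monomial, if_neg]
    intro h
    exact hne (SbTop_rev_inj (hle α hα) (hle α₀ hα₀) h)
  · intro h
    exact absurd hα₀ h

end PCL

end
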