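import Pool.Agent.W_52423f_h70.Stab
import Pool.Agent.W_52423f_h70.TraceRel

/-!
# The zero estimate (2) of proofs row 292, curve without complex multiplication
-/

open scoped Classical

noncomputable section

namespace PCL

theorem zero_estimate (m : ℕ) : ∃ c : ℕ, ∀ (K : Type) [Field K] [CharZero K] (W : WeierstrassCurve K) [W.IsElliptic],
    NoCM W →
    ∀ (n : ℕ) (γ : (Fin n → ℤ) →+ (Fin m → Pt W K)), ND γ →
    ∀ (S D : ℕ) (P : MvPolynomial (Fin m) K), 1 ≤ D → P ≠ 0 → (∀ i, P.degreeOf i ≤ D) →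
      (∀ s ∈ box n (m * S), Van D P (γ s)) → (2 * S + 1) ^ n ≤ c * D ^ m := by
  obtain ⟨c, hc⟩ := stab m
  refine ⟨c, ?_⟩
  intro K _ _ W _ hcm n γ hND S D P hD hP hdeg hvan
  have hinj : ∀ s : Fin n → ℤ, s ≠ 0 → ∀ j, γ s j ≠ 0 := by
    intro s hs j h0
    refine hND s hs (Pi.single j 1) (by simp) ?_
    rw [Finset.sum_eq_single j]
    · simp [h0]
    · intro i _ hi
      simp [Pi.single_eq_of_ne hi]
    · simp
  obtain ⟨Ω, i1, i2, w, J, hac, hJ, hind, halg, -, hcard⟩ :=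
    hc K W n γ hinj S D P hD hP hdeg hvan
  set V := (box n (2 * S)).filter fun v => ∃ τ : Ω ≃ₐ[K] Ω,
          ∀ j, mp (τ : Ω →ₐ[K] Ω) (w j) = w j + emb Ω (γ v j) with hV
  have hV1 : V.card ≤ 1 := by
    have hsub : V ⊆ {0} := by
      intro v hv
      rw [Finset.mem_singleton]
      by_contra hv0
      obtain ⟨τ, hτ⟩ := (Finset.mem_filter.mp hv).2
      obtain ⟨t, ht, hsum⟩ := trace_rel hcm w J hJ hind halg τ (γ v) hτ
      exact hND v hv0 t ht hsum
    exact (Finset.card_le_card hsub).trans (by simp)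
  calc (2 * S + 1) ^ n ≤ c * D ^ (m - J.card) * V.card := hcard
    _ ≤ c * D ^ (m - J.card) * 1 := Nat.mul_le_mul_left _ hV1
    _ = c * D ^ (m - J.card) := by ring
    _ ≤ c * D ^ m := Nat.mul_le_mul_left _ (Nat.pow_le_pow_right hD (Nat.sub_le _ _))

end PCL

end
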